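import Pool.Agent.H80.CC.Plane

set_option autoImplicit false

/-!
# [H94 GG Defs] THEOREM G (MP_1bad5e_ag): common definitions

`F` finite field of odd order, `K = F(t) = RatFunc F`, `f ∈ F[t][x]` monic of odd degree `m = 2 g + 1` in `x`,
`O = F[t][x]/(f) = AdjoinRoot f`, `L = K[x]/(f) = AdjoinRoot (overK f)`, `toL : O → L`, `toLv : L → L ⊗ K_v`
(`overK`, `overKv`, `constKv`, `toL`, `toLv` are those of `H80/CC/Plane`).

General field `k`, `g ∈ k[x]` monic:
* `tau hg z` : coefficient of `x ^ (deg g - 1)` of the representative of degree `< deg g` of `z ∈ k[x]/(g)`;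
  the form of `β` is `(x, y) ↦ tau hg (β * x * y)`;
* `Isot g β` : this form has a totally isotropic subspace of dimension `deg g / 2`;
* `IsMum D g P Q`, `desc D g P`, `IsVal D g δ` : Mumford pairs of `D y ^ 2 = g(x)`, descent map, values up to squares.

Global:
* `IsSel D f δ` : Selmer condition at all finite places; `SelTriv D f` : `f` is irreducible and all `δ` are squares;
* `Fam m h f` : `f` monic of degree `m` in `x`, the coefficient of `x ^ i` has degree `≤ (m - i) h`; `lead m h f` its
  leading form in `F[x]`;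
* `IsS0 f δ` : norm a square and even divisor on `O`; `EvAt f w δ` : even at the primes of `O` above `w`;
* `Special f v`, `Harmless f v` : `f` modulo `v` is (linear) * (irreducible of degree `m - 1`), coprime; irreducible.
-/

namespace Pool.Agent.H94.GG

open Polynomial IsDedekindDomain
open Pool.Agent.H80.CC.Plane (overK overKv constKv toL toLv)

section field

variable {k : Type} [Field k]

/-- coefficient of `x ^ (deg g - 1)` -/
noncomputable def tau {g : k[X]} (hg : g.Monic) : AdjoinRoot g →ₗ[k] k :=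
  (Polynomial.lcoeff k (g.natDegree - 1)).comp (AdjoinRoot.modByMonicHom hg)

/-- the form of `β` has a totally isotropic subspace of dimension `deg g / 2` -/
def Isot (g : k[X]) (β : AdjoinRoot g) : Prop :=
  ∃ (hg : g.Monic) (X : Submodule k (AdjoinRoot g)), Module.finrank k X = g.natDegree / 2 ∧
    ∀ x ∈ X, ∀ y ∈ X, tau hg (β * x * y) = 0

/-- Mumford pair of `D y ^ 2 = g(x)` -/
def IsMum (D : k) (g P Q : k[X]) : Prop :=
  P.Monic ∧ IsCoprime P g ∧ P ∣ C D * Q ^ 2 - g

/-- descent map -/
noncomputable def desc (D : k) (g P : k[X]) : AdjoinRoot g :=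
  AdjoinRoot.mk g (C (-D)) ^ P.natDegree * AdjoinRoot.mk g P

/-- values of the descent map up to squares -/
def IsVal (D : k) (g : k[X]) (δ : AdjoinRoot g) : Prop :=
  ∃ (r : ℕ) (P Q : Fin r → k[X]) (γ : AdjoinRoot g),
    (∀ i, IsMum D g (P i) (Q i)) ∧ δ * γ ^ 2 = ∏ i, desc D g (P i)

end field

variable {F : Type} [Field F]

/-- Selmer condition for `D y ^ 2 = f(x)` at all finite places -/
structure IsSel (D : F[X]) (f : F[X][X]) (δ : AdjoinRoot (overK f)) : Prop where
  ne_zero : δ ≠ 0
  norm : ∃ y : RatFunc F, Algebra.norm (RatFunc F) δ = y ^ 2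
  locally : ∀ v : HeightOneSpectrum F[X], IsVal (constKv D v) (overKv f v) (toLv f v δ)

/-- `f` is irreducible and the Selmer group of `D y ^ 2 = f(x)` is trivial -/
structure SelTriv (D : F[X]) (f : F[X][X]) : Prop where
  irr : Irreducible f
  triv : ∀ δ, IsSel D f δ → ∃ z : AdjoinRoot (overK f), δ = z ^ 2

/-- the family of height `h` -/
structure Fam (m h : ℕ) (f : F[X][X]) : Prop where
  monic : f.Monic
  deg : f.natDegree = m
  coeff : ∀ i < m, (f.coeff i).natDegree ≤ (m - i) * h

/-- the leading form -/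
noncomputable def lead (m h : ℕ) (f : F[X][X]) : F[X] :=
  ∑ i ∈ Finset.range (m + 1), C ((f.coeff i).coeff ((m - i) * h)) * X ^ i

/-- derivative with respect to `t` -/
noncomputable def dT (f : F[X][X]) : F[X][X] :=
  f.sum fun i c => monomial i (derivative c)

/-- the affine curve `f = 0` is smooth -/
def Smooth (f : F[X][X]) : Prop :=
  Ideal.span {f, derivative f, dT f} = ⊤

/-- norm a square, even divisor -/
def IsS0 (f : F[X][X]) (δ : AdjoinRoot (overK f)) : Prop :=
  δ ≠ 0 ∧ (∃ y : RatFunc F, Algebra.norm (RatFunc F) δ = y ^ 2) ∧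
    ∃ (I : Ideal (AdjoinRoot f)) (b c : AdjoinRoot f), c ≠ 0 ∧ δ * toL f c ^ 2 = toL f b ∧
      Ideal.span {b} = I ^ 2

/-- even at the primes above `w` -/
def EvAt (f : F[X][X]) (w : HeightOneSpectrum F[X]) (δ : AdjoinRoot (overK f)) : Prop :=
  ∃ (I J : Ideal (AdjoinRoot f)) (b c : AdjoinRoot f) (s : F[X]), c ≠ 0 ∧
    δ * toL f c ^ 2 = toL f b ∧ Ideal.span {b} = I ^ 2 * J ∧
    algebraMap F[X] (AdjoinRoot f) s ∈ J ∧ s ∉ w.asIdeal

/-- `f` modulo `v` is irreducible -/
def Harmless (f : F[X][X]) (v : HeightOneSpectrum F[X]) : Prop :=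
  Irreducible (f.map (Ideal.Quotient.mk v.asIdeal))

/-- `f` modulo `v` is the product of a linear polynomial and an irreducible polynomial which is prime to it -/
def Special (f : F[X][X]) (v : HeightOneSpectrum F[X]) : Prop :=
  ∃ (c : F[X] ⧸ v.asIdeal) (G : (F[X] ⧸ v.asIdeal)[X]), Irreducible G ∧ G.Monic ∧
    G.eval c ≠ 0 ∧ f.map (Ideal.Quotient.mk v.asIdeal) = (X - C c) * G

/-- the class of `δ` is trivial over `K_v` -/
def SqAt (f : F[X][X]) (v : HeightOneSpectrum F[X]) (δ : AdjoinRoot (overK f)) : Prop :=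
  ∃ z : AdjoinRoot (overKv f v), toLv f v δ = z ^ 2

end Pool.Agent.H94.GG
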