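import Pool.Agent.H94.GG.Defs

set_option autoImplicit false

/-!
# [H94 GG FA] Linear places

`lin a`: the place `t = a` of `F(t)`.
* `mem_lin`: `D ∈ (lin a) ↔ D(a) = 0` (`dvd_iff_isRoot`, `Ideal.mem_span_singleton`); `lin_inj`.
* `lin_sq`: `(X - a) G` with `G(a) ≠ 0` is not in the square (`Ideal.span_singleton_pow`, cancel `X - a`).
* `card_lin`: the residue field has `q` elements (evaluation at `a`: `Polynomial.quotientSpanXSubCAlgEquiv`).
* `lin_of_mem`: `c * ∏ i ∈ S, (X - b i) ∈ v`, `c ≠ 0` constant: `v = lin (b i)` for some `i ∈ S` (`v` prime: some factor `X - b i` is in `v`, `(X - b i)` is a maximal ideal contained in `v`).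
-/

namespace Pool.Agent.H94.GG

open Polynomial IsDedekindDomain

variable {F : Type} [Field F]

/-- the place `t = a` -/
noncomputable def lin (a : F) : HeightOneSpectrum F[X] where
  asIdeal := Ideal.span {X - C a}
  isPrime := by
    rw [Ideal.span_singleton_prime (X_sub_C_ne_zero a)]
    exact prime_X_sub_C a
  ne_bot := by
    rw [Ne, Ideal.span_singleton_eq_bot]
    exact X_sub_C_ne_zero a

theorem mem_lin {D : F[X]} {a : F} : D ∈ (lin a).asIdeal ↔ D.eval a = 0 := by
  show D ∈ Ideal.span {X - C a} ↔ _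
  rw [Ideal.mem_span_singleton, dvd_iff_isRoot]
  rfl

theorem lin_inj : Function.Injective (lin : F → HeightOneSpectrum F[X]) := by
  intro a b h
  have h1 : (X - C a : F[X]) ∈ (lin a).asIdeal := by
    rw [mem_lin, eval_sub, eval_X, eval_C, sub_self]
  rw [h, mem_lin, eval_sub, eval_X, eval_C] at h1
  exact (sub_eq_zero.1 h1).symm

theorem lin_sq {G : F[X]} {a : F} (h : G.eval a ≠ 0) : (X - C a) * G ∉ (lin a).asIdeal ^ 2 := by
  show (X - C a) * G ∉ Ideal.span {X - C a} ^ 2
  rw [Ideal.span_singleton_pow, Ideal.mem_span_singleton, pow_two]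
  intro h1
  have h2 := (mul_dvd_mul_iff_left (X_sub_C_ne_zero a)).1 h1
  rw [dvd_iff_isRoot] at h2
  exact h h2

theorem card_lin (a : F) : Nat.card (F[X] ⧸ (lin a).asIdeal) = Nat.card F :=
  Nat.card_congr (Polynomial.quotientSpanXSubCAlgEquiv a).toEquiv

theorem lin_of_mem {ι : Type} {S : Finset ι} {b : ι → F} {c : F} (hc : c ≠ 0)
    {v : HeightOneSpectrum F[X]} (h : C c * ∏ i ∈ S, (X - C (b i)) ∈ v.asIdeal) :
    ∃ i ∈ S, v = lin (b i) := by
  have hv := v.isPrime
  have h1 : ∏ i ∈ S, (X - C (b i)) ∈ v.asIdeal := by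
    rcases hv.mem_or_mem h with h2 | h2
    · exfalso
      apply hv.ne_top
      exact Ideal.eq_top_of_isUnit_mem _ h2 (isUnit_C.2 (isUnit_iff_ne_zero.2 hc))
    · exact h2
  obtain ⟨i, hi, h2⟩ := (Ideal.IsPrime.prod_mem_iff).1 h1
  refine ⟨i, hi, ?_⟩
  have hm : (lin (b i)).asIdeal.IsMaximal := (lin (b i)).isMaximal
  have hle : (lin (b i)).asIdeal ≤ v.asIdeal := by
    show Ideal.span {X - C (b i)} ≤ v.asIdeal
    rw [Ideal.span_singleton_le_iff_mem]
    exact h2
  exact HeightOneSpectrum.ext (hm.eq_of_le hv.ne_top hle).symm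

end Pool.Agent.H94.GG
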