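import Mathlib.FieldTheory.Perfect
import Pool.Agent.H94.GG.FA
import Pool.Agent.H40.GC.PLC
import Pool.Agent.H74.GR.WB

set_option autoImplicit false

/-!
# [H94 GG FH] The polynomial `D = a (X - b) ∏ (X - z j)`: degree, squarefree, transversality

* `natDegree_D`, `squarefree_D`;
* `sep_of`: `F` finite, `f` modulo `v` irreducible or special: `f` modulo `v` is separable (finite fields are perfect);
* `transversal`: in `F[X][X]` the ideal generated by `C D`, `f`, `f'` is the whole ring (product of ideals coprime to `span {f, f'}`);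
* `sep_overK`: `f` monic is separable over `F(t)`.
-/

namespace Pool.Agent.H94.GG

open Polynomial IsDedekindDomain
open Pool.Agent.H80.CC.Plane (overK)
open Pool.Agent.H40.GC (kv rv)

variable {F : Type} [Field F]

theorem natDegree_D {ι : Type} {a : F} (ha : a ≠ 0) (b : F) (T : Finset ι) (z : ι → F) :
    (C a * (X - C b) * ∏ j ∈ T, (X - C (z j))).natDegree = T.card + 1 := by
  rw [mul_assoc, natDegree_C_mul ha, natDegree_mul (X_sub_C_ne_zero b)
    (Finset.prod_ne_zero_iff.2 fun j _ => X_sub_C_ne_zero (z j)), natDegree_X_sub_C,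
    natDegree_prod _ _ fun j _ => X_sub_C_ne_zero (z j)]
  simp only [natDegree_X_sub_C, Finset.sum_const, smul_eq_mul, mul_one]
  omega

theorem squarefree_D {ι : Type} {a : F} (ha : a ≠ 0) {b : F} {T : Finset ι} {z : ι → F}
    (hb : ∀ j ∈ T, z j ≠ b) (hz : ∀ j ∈ T, ∀ j' ∈ T, z j = z j' → j = j') :
    Squarefree (C a * (X - C b) * ∏ j ∈ T, (X - C (z j))) := by
  classical
  have h1 : (∏ j ∈ T, (X - C (z j))).Separable := by
    refine separable_prod' (fun x hx y hy hxy => ?_) fun x _ => separable_X_sub_C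
    exact isCoprime_X_sub_C_of_isUnit_sub
      (isUnit_iff_ne_zero.2 (sub_ne_zero.2 fun h => hxy (hz x hx y hy h)))
  have h2 : IsCoprime (X - C b) (∏ j ∈ T, (X - C (z j))) := by
    refine IsCoprime.prod_right fun j hj => ?_
    exact isCoprime_X_sub_C_of_isUnit_sub
      (isUnit_iff_ne_zero.2 (sub_ne_zero.2 fun h => hb j hj h.symm))
  have h3 : ((X - C b) * ∏ j ∈ T, (X - C (z j))).Separable :=
    (separable_X_sub_C (x := b)).mul h1 h2
  have h4 : Squarefree ((X - C b) * ∏ j ∈ T, (X - C (z j))) := h3.squarefree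
  rw [mul_assoc]
  have hu : IsUnit (C a) := isUnit_C.2 (isUnit_iff_ne_zero.2 ha)
  intro x hx
  exact h4 x ((hu.dvd_mul_left).1 hx)

private theorem fh_sep [Finite F] {f : F[X][X]} {v : HeightOneSpectrum F[X]}
    (h : Harmless f v ∨ Special f v) : (f.map (rv v)).Separable := by
  rcases h with h | h
  · have h1 : Irreducible (f.map (rv v)) := h
    exact PerfectField.separable_of_irreducible h1
  · obtain ⟨c, G, hG, -, hc, h1⟩ := h
    have h1' : f.map (rv v) = (X - C c) * G := h1
    have hG' : Irreducible (G : (kv v)[X]) := hG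
    rw [h1']
    refine (separable_X_sub_C (x := (c : kv v))).mul (PerfectField.separable_of_irreducible hG') ?_
    refine (EuclideanDomain.dvd_or_coprime (X - C (c : kv v)) (G : (kv v)[X]) (irreducible_X_sub_C _)).resolve_left fun h2 => ?_
    rw [dvd_iff_isRoot] at h2
    exact hc h2

theorem sep_of [Finite F] {f : F[X][X]} {v : HeightOneSpectrum F[X]}
    (h : Harmless f v ∨ Special f v) :
    ∃ A B : F[X][X], (A * f + B * derivative f).map (Ideal.Quotient.mk v.asIdeal) = 1 := by
  obtain ⟨a, b, hab⟩ := fh_sep h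
  obtain ⟨A, rfl⟩ := map_surjective (rv v) Ideal.Quotient.mk_surjective a
  obtain ⟨B, rfl⟩ := map_surjective (rv v) Ideal.Quotient.mk_surjective b
  refine ⟨A, B, ?_⟩
  rw [derivative_map] at hab
  show (A * f + B * derivative f).map (rv v) = 1
  rw [Polynomial.map_add, Polynomial.map_mul, Polynomial.map_mul]
  exact hab

private theorem fh_cop [Finite F] {f : F[X][X]} {b : F} (hb : Harmless f (lin b) ∨ Special f (lin b)) :
    IsCoprime (Ideal.span {(C (X - C b) : F[X][X])}) (Ideal.span {f, derivative f}) := by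
  rw [Ideal.isCoprime_iff_exists]
  obtain ⟨A, B, hAB⟩ := sep_of hb
  obtain ⟨E, hE⟩ : ∃ E : F[X][X], 1 - (A * f + B * derivative f) = C (X - C b) * E := by
    have h1 : C (X - C b) ∣ 1 - (A * f + B * derivative f) := by
      rw [C_dvd_iff_dvd_coeff]
      intro i
      have h2 : (1 - (A * f + B * derivative f)).map (Ideal.Quotient.mk (lin b).asIdeal) = 0 := by
        rw [Polynomial.map_sub, hAB, Polynomial.map_one, sub_self]
      have h3 := congrArg (fun p => p.coeff i) h2
      simp only [coeff_map, coeff_zero] at h3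
      rw [Ideal.Quotient.eq_zero_iff_mem] at h3
      exact Ideal.mem_span_singleton.1 h3
    exact h1
  refine ⟨C (X - C b) * E, Ideal.mul_mem_right _ _ (Ideal.mem_span_singleton_self _),
    A * f + B * derivative f, ?_, ?_⟩
  · exact Ideal.add_mem _ (Ideal.mul_mem_left _ _ (Ideal.subset_span (Set.mem_insert _ _)))
      (Ideal.mul_mem_left _ _ (Ideal.subset_span (Set.mem_insert_of_mem _ rfl)))
  · rw [← hE]
    ring

theorem transversal [Finite F] {ι : Type} {f : F[X][X]} {a b : F} (ha : a ≠ 0) {T : Finset ι}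
    {z : ι → F} (hb : Harmless f (lin b) ∨ Special f (lin b))
    (hz : ∀ j ∈ T, Harmless f (lin (z j)) ∨ Special f (lin (z j))) :
    Ideal.span {C (C a * (X - C b) * ∏ j ∈ T, (X - C (z j))), f, derivative f} =
      (⊤ : Ideal F[X][X]) := by
  classical
  have h1 : IsCoprime (Ideal.span {(C (X - C b) : F[X][X])} *
      ∏ j ∈ T, Ideal.span {(C (X - C (z j)) : F[X][X])}) (Ideal.span {f, derivative f}) :=
    (fh_cop hb).mul_left (IsCoprime.prod_left fun j hj => fh_cop (hz j hj))
  rw [Ideal.prod_span_singleton, Ideal.span_singleton_mul_span_singleton, Ideal.isCoprime_iff_exists] at h1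
  obtain ⟨x, hx, y, hy, hxy⟩ := h1
  rw [Ideal.eq_top_iff_one, ← hxy]
  refine Ideal.add_mem _ ?_ (Ideal.span_mono (Set.subset_insert _ _) hy)
  obtain ⟨E, rfl⟩ := Ideal.mem_span_singleton.1 hx
  have h2 : (C (X - C b) * ∏ j ∈ T, C (X - C (z j)) : F[X][X]) =
      C (C a⁻¹) * C (C a * (X - C b) * ∏ j ∈ T, (X - C (z j))) := by
    rw [← map_prod, ← C_mul, ← C_mul, mul_assoc, ← mul_assoc (C a⁻¹), ← C_mul, inv_mul_cancel₀ ha,
      C_1, one_mul]
  rw [h2]
  exact Ideal.mul_mem_right _ _ (Ideal.mul_mem_left _ _ (Ideal.subset_span (Set.mem_insert _ _)))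

theorem sep_overK [Finite F] {f : F[X][X]} (hf : f.Monic) {v : HeightOneSpectrum F[X]}
    (h : Harmless f v ∨ Special f v) : (overK f).Separable :=
  Pool.Agent.H74.GR.sep_over hf v (fh_sep h)

end Pool.Agent.H94.GG
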