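import Mathlib

set_option autoImplicit false

/-!
# [H94 GG SN] Norms in `R[x]/(g)` and ring homomorphisms (Mathlib only)

`g` monic over a commutative ring `R`, `φ : R → R'`: the norm of the image of `δ` in `R'[x]/(φ g)` is the image of the norm.  The matrix of the multiplication by `φ δ` in the basis `1, x, .., x ^ (m - 1)` (`AdjoinRoot.powerBasis'`, `Algebra.norm_eq_matrix_det`, `Algebra.leftMulMatrix`) is the image of the
matrix of the multiplication by `δ` (`AdjoinRoot.modByMonicHom`, `Polynomial.map_modByMonic`; compare `gram_map` in `H74/GR/Gra`), `RingHom.map_det`.  If `R'` is trivial both sides are equal (`Subsingleton`); if `R` is trivial so is `R'`.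
-/

namespace Pool.Agent.H94.GG

open Polynomial

private theorem basis_pow {R : Type} [CommRing R] {g : R[X]} (hg : g.Monic) (i : Fin g.natDegree) :
    AdjoinRoot.powerBasisAux' hg i = AdjoinRoot.mk g (X ^ (i : ℕ)) := by
  have h := (AdjoinRoot.powerBasis' hg).basis_eq_pow i
  rw [map_pow, AdjoinRoot.mk_X]
  exact h

theorem norm_map {R R' : Type} [CommRing R] [CommRing R'] (φ : R →+* R') {g : R[X]}
    (hg : g.Monic) (δ : AdjoinRoot g) :
    Algebra.norm R' (AdjoinRoot.map φ g (g.map φ) dvd_rfl δ) = φ (Algebra.norm R δ) := by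
  classical
  rcases subsingleton_or_nontrivial R' with hR' | hR'
  · exact Subsingleton.elim _ _
  have hg' : (g.map φ).Monic := hg.map φ
  have hd : (g.map φ).natDegree = g.natDegree := hg.natDegree_map φ
  obtain ⟨p, rfl⟩ := AdjoinRoot.mk_surjective δ
  have hmk : ∀ q : R[X], AdjoinRoot.map φ g (g.map φ) dvd_rfl (AdjoinRoot.mk g q) =
      AdjoinRoot.mk (g.map φ) (q.map φ) := by
    intro q
    have h : (AdjoinRoot.map φ g (g.map φ) dvd_rfl).comp (AdjoinRoot.mk g) =
        (AdjoinRoot.mk (g.map φ)).comp (Polynomial.mapRingHom φ) := by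
      apply Polynomial.ringHom_ext
      · intro a
        simp
      · simp
    exact RingHom.congr_fun h q
  rw [hmk, Algebra.norm_eq_matrix_det (AdjoinRoot.powerBasisAux' hg),
    Algebra.norm_eq_matrix_det ((AdjoinRoot.powerBasisAux' hg').reindex (finCongr hd)), RingHom.map_det]
  congr 1
  ext i j
  rw [RingHom.mapMatrix_apply, Matrix.map_apply, Algebra.leftMulMatrix_eq_repr_mul,
    Algebra.leftMulMatrix_eq_repr_mul, Module.Basis.reindex_apply, Module.Basis.repr_reindex_apply, basis_pow, basis_pow,
    ← map_mul, ← map_mul, AdjoinRoot.powerBasisAux'_repr_apply_to_fun, AdjoinRoot.powerBasisAux'_repr_apply_to_fun,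
    AdjoinRoot.modByMonicHom_mk, AdjoinRoot.modByMonicHom_mk]
  have h1 : p.map φ * X ^ (((finCongr hd).symm j : Fin (g.map φ).natDegree) : ℕ) = (p * X ^ (j : ℕ)).map φ := by
    simp
  rw [h1, ← Polynomial.map_modByMonic _ hg, coeff_map]
  rfl

end Pool.Agent.H94.GG
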