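import Pool.Agent.H94.GG.FA
import Pool.Agent.H40.GC.ENC
import Pool.Agent.H40.GC.LTO
import Pool.Agent.H13.SM.Smo

set_option autoImplicit false

/-!
# [H94 GG FC] A positive share of the family is good for a configuration of five linear places

`e : Fin 5 → F` injective; `P = {lin (e 0), .., lin (e 3)}`, `Z = {lin (e 4)}`.  `GoodC g h e f`: `f ∈ FamS` (leading form irreducible, special at `P`, harmless at `Z`), smooth, `|S0| ≤ 2`, no nontrivial class of `S0` is a square at all places of `P`.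
`share`: let `c₀ = (1 / (2 (2 g + 1))) ^ 6`, so `#FamS ≥ c₀ #Fam` (`enc_low`, `P.card = 4`, `Z.card = 1`), `enc_g2` with `η = 1/10` (the hypothesis on `LatO` is the theorem of `LTO`), `smo` with `η' = c₀ / 30`.  With `x = #FamS`:
`#GoodC ≥ x - (2 + 1/10) / 3 * x - (2 + 1/10) / 16 * x - (c₀ / 30) #Fam ≥ x (1 - 7/10 - 21/160 - 1/30) ≥ x / 8 ≥ (c₀ / 8) #Fam` (`GoodC` is `FamS` minus three subsets).  `q0` = maximum of the two bounds; `h0` = maximum of the three.
-/

namespace Pool.Agent.H94.GG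

open Polynomial IsDedekindDomain
open Pool.Agent.H80.CC.Plane (overK overKv constKv toL toLv)
open Pool.Agent.H40.GC (FamS)

variable {F : Type} [Field F]

open Classical in
/-- the four places -/
noncomputable def plP (e : Fin 5 → F) : Finset (HeightOneSpectrum F[X]) :=
  Finset.univ.image fun s : Fin 4 => lin (e s.castSucc)

/-- good for a configuration -/
structure GoodC (g h : ℕ) (e : Fin 5 → F) (f : F[X][X]) : Prop where
  fam : FamS (2 * g + 1) h (plP e) {lin (e 4)} f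
  smooth : Smooth f
  two : ¬ ∃ δ δ' : AdjoinRoot (overK f), IsS0 f δ ∧ IsS0 f δ' ∧ ¬ IsSquare δ ∧ ¬ IsSquare δ' ∧
    ¬ IsSquare (δ * δ')
  strict : ¬ ∃ δ : AdjoinRoot (overK f), IsS0 f δ ∧ ¬ IsSquare δ ∧ ∀ v ∈ plP e, SqAt f v δ

private theorem card_four {α : Type} {A B C D E : α → Prop} (hB : {x | B x}.Finite)
    (hC : {x | C x}.Finite) (hD : {x | D x}.Finite) (hE : {x | E x}.Finite)
    (h : ∀ x, A x → B x ∨ C x ∨ D x ∨ E x) :
    Nat.card {x // A x} ≤ Nat.card {x // B x} + Nat.card {x // C x} + Nat.card {x // D x} +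
      Nat.card {x // E x} := by
  have e : ∀ P : α → Prop, Nat.card {x // P x} = {x | P x}.ncard := fun P =>
    Nat.card_coe_set_eq {x | P x}
  rw [e, e, e, e, e]
  have h1 : {x | A x} ⊆ (({x | B x} ∪ {x | C x}) ∪ {x | D x}) ∪ {x | E x} := by
    intro x hx
    rcases h x hx with h2 | h2 | h2 | h2
    · exact Or.inl (Or.inl (Or.inl h2))
    · exact Or.inl (Or.inl (Or.inr h2))
    · exact Or.inl (Or.inr h2)
    · exact Or.inr h2
  refine (Set.ncard_le_ncard h1 (((hB.union hC).union hD).union hE)).trans ?_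
  refine (Set.ncard_union_le _ _).trans (Nat.add_le_add_right ?_ _)
  refine (Set.ncard_union_le _ _).trans (Nat.add_le_add_right ?_ _)
  exact Set.ncard_union_le _ _

theorem share {g : ℕ} (hg : 1 ≤ g) : ∃ c : ℝ, 0 < c ∧ ∃ q0 : ℕ,
    ∀ (F : Type) [Field F] [Finite F], (2 : F) ≠ 0 → q0 ≤ Nat.card F →
    ∀ e : Fin 5 → F, Function.Injective e → ∃ h0 : ℕ, ∀ h : ℕ, h0 ≤ h →
      c * (Nat.card {f : F[X][X] // Fam (2 * g + 1) h f} : ℝ) ≤
        (Nat.card {f : F[X][X] // GoodC g h e f} : ℝ) := by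
  classical
  obtain ⟨c0, hc0⟩ : ∃ c0 : ℝ, c0 = (1 / (2 * (2 * g + 1 : ℝ))) ^ 6 := ⟨_, rfl⟩
  have hc0p : 0 < c0 := by rw [hc0]; positivity
  obtain ⟨q1, hq1⟩ := Pool.Agent.H40.GC.enc_g2 hg (1 / 10) (by norm_num)
  obtain ⟨q2, hq2⟩ := H13.SM.smo (2 * g + 1) (by omega) (c0 / 30) (by positivity)
  refine ⟨c0 / 8, by positivity, max q1 q2, ?_⟩
  intro F _ _ h2 hq e he
  have hinj : Function.Injective (fun s : Fin 4 => lin (e s.castSucc)) := by
    intro a b hab
    exact Fin.castSucc_injective _ (he (lin_inj hab))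
  have hP : (plP e).card = 4 := by
    unfold plP
    rw [Finset.card_image_of_injective _ hinj]
    simp
  have hmem : ∀ v ∈ plP e, ∃ s : Fin 4, v = lin (e s.castSucc) := by
    intro v hv
    unfold plP at hv
    rw [Finset.mem_image] at hv
    obtain ⟨s, -, hs⟩ := hv
    exact ⟨s, hs.symm⟩
  have hdis : Disjoint (plP e) {lin (e 4)} := by
    rw [Finset.disjoint_singleton_right]
    intro h4
    obtain ⟨s, hs⟩ := hmem _ h4
    have h5 := he (lin_inj hs)
    have h6 := s.isLt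
    have h7 := congrArg Fin.val h5
    simp at h7
    omega
  obtain ⟨h3, hh3⟩ := Pool.Agent.H40.GC.enc_low h2 hg hdis
  obtain ⟨h4, hh4⟩ := hq1 F h2 ((le_max_left _ _).trans hq)
    (fun h f _ hf hl hs => Pool.Agent.H40.GC.lato hg h f hf hl hs) (plP e) {lin (e 4)} hdis
    hP.le (by simp) (fun v hv => by
      obtain ⟨s, rfl⟩ := hmem v hv
      exact card_lin _) (fun v hv => by
      rw [Finset.mem_singleton] at hv
      subst hv
      exact card_lin _)
  obtain ⟨h5, hh5⟩ := hq2 F h2 ((le_max_right _ _).trans hq)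
  refine ⟨max h3 (max h4 h5), fun h hh => ?_⟩
  have l3 := hh3 h (by omega)
  obtain ⟨l4, l6⟩ := hh4 h (by omega)
  have l5 := hh5 h (by omega)
  rw [hP, Finset.card_singleton, ← hc0] at l3
  rw [hP] at l6
  have hfs : ({f : F[X][X] | Fam (2 * g + 1) h f}).Finite := H13.SM.fam_fin (2 * g + 1) h
  have hmain := card_four (A := fun f : F[X][X] => FamS (2 * g + 1) h (plP e) {lin (e 4)} f)
    (B := fun f => GoodC g h e f) (C := fun f => Fam (2 * g + 1) h f ∧ ¬ Smooth f)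
    (D := fun f => FamS (2 * g + 1) h (plP e) {lin (e 4)} f ∧ Smooth f ∧
        ∃ δ δ' : AdjoinRoot (overK f), IsS0 f δ ∧ IsS0 f δ' ∧ ¬ IsSquare δ ∧ ¬ IsSquare δ' ∧
          ¬ IsSquare (δ * δ'))
    (E := fun f => FamS (2 * g + 1) h (plP e) {lin (e 4)} f ∧ Smooth f ∧
        ∃ δ : AdjoinRoot (overK f), IsS0 f δ ∧ ¬ IsSquare δ ∧ ∀ v ∈ plP e, SqAt f v δ)
    (hfs.subset fun f hf => hf.fam.1) (hfs.subset fun f hf => hf.1)
    (hfs.subset fun f hf => hf.1.1) (hfs.subset fun f hf => hf.1.1) (by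
      intro f hf
      by_cases k1 : Smooth f
      · by_cases k2 : ∃ δ δ' : AdjoinRoot (overK f), IsS0 f δ ∧ IsS0 f δ' ∧ ¬ IsSquare δ ∧
          ¬ IsSquare δ' ∧ ¬ IsSquare (δ * δ')
        · exact Or.inr (Or.inr (Or.inl ⟨hf, k1, k2⟩))
        · by_cases k3 : ∃ δ : AdjoinRoot (overK f), IsS0 f δ ∧ ¬ IsSquare δ ∧
            ∀ v ∈ plP e, SqAt f v δ
          · exact Or.inr (Or.inr (Or.inr ⟨hf, k1, k3⟩))
          · exact Or.inl ⟨hf, k1, k2, k3⟩
      · exact Or.inr (Or.inl ⟨hf.1, k1⟩))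
  have hmain' : (Nat.card {f : F[X][X] // FamS (2 * g + 1) h (plP e) {lin (e 4)} f} : ℝ) ≤
      Nat.card {f : F[X][X] // GoodC g h e f} +
      Nat.card {f : F[X][X] // Fam (2 * g + 1) h f ∧ ¬ Smooth f} +
      Nat.card {f : F[X][X] // FamS (2 * g + 1) h (plP e) {lin (e 4)} f ∧ Smooth f ∧
        ∃ δ δ' : AdjoinRoot (overK f), IsS0 f δ ∧ IsS0 f δ' ∧ ¬ IsSquare δ ∧ ¬ IsSquare δ' ∧
          ¬ IsSquare (δ * δ')} +
      Nat.card {f : F[X][X] // FamS (2 * g + 1) h (plP e) {lin (e 4)} f ∧ Smooth f ∧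
        ∃ δ : AdjoinRoot (overK f), IsS0 f δ ∧ ¬ IsSquare δ ∧ ∀ v ∈ plP e, SqAt f v δ} := by
    exact_mod_cast hmain
  linarith

end Pool.Agent.H94.GG
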