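import Mathlib

set_option autoImplicit false

/-!
# [H94 GG FD] Reverse Markov inequality, and a lower bound for binomial coefficients (Mathlib only)

* `rev_markov`: `A` finite, `G_i ⊆ A` for `i < L`, `|G_i| ≥ c |A|`, `N(a) = #{i : a ∈ G_i}`.  `c L |A| ≤ ∑ |G_i| = ∑_a N(a) ≤ L #{a : N(a) ≥ c L / 2} + (c L / 2) |A|`.
* `choose_bd`: `N ≥ c q`, `q` large: `(q - 1) binom(N, k) ≥ c' q ^ (k + 1)`: `q - 1 ≥ q / 2`, `binom(N, k) ≥ (N + 1 - k) ^ k / k!` (`Nat.pow_le_choose`) `≥ (c q / 2) ^ k / k!` for `q` large (`N ≥ c q ≥ 2 k`).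
-/

namespace Pool.Agent.H94.GG

theorem rev_markov {A : Type} [Finite A] {L : ℕ} (hL : 0 < L) (G : Fin L → A → Prop) {c : ℝ}
    (h : ∀ i, c * (Nat.card A : ℝ) ≤ Nat.card {a : A // G i a}) :
    c / 2 * (Nat.card A : ℝ) ≤
      Nat.card {a : A // c / 2 * (L : ℝ) ≤ (Nat.card {i : Fin L // G i a} : ℝ)} := by
  classical
  have hA : Fintype A := Fintype.ofFinite A
  have hLr : (0 : ℝ) < L := Nat.cast_pos.2 hL
  rcases lt_or_ge c 0 with hc | hc
  · have h1 : c / 2 * (Nat.card A : ℝ) ≤ 0 :=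
      mul_nonpos_of_nonpos_of_nonneg (by linarith) (Nat.cast_nonneg _)
    exact h1.trans (Nat.cast_nonneg _)
  have e1 : ∀ i, (Nat.card {a : A // G i a} : ℝ) = ∑ a : A, if G i a then (1 : ℝ) else 0 := by
    intro i
    rw [Nat.card_eq_fintype_card, Fintype.card_subtype, Finset.card_filter]
    push_cast
    rfl
  have e2 : ∀ a, (Nat.card {i : Fin L // G i a} : ℝ) =
      ∑ i : Fin L, if G i a then (1 : ℝ) else 0 := by
    intro a
    rw [Nat.card_eq_fintype_card, Fintype.card_subtype, Finset.card_filter]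
    push_cast
    rfl
  have h2 : (L : ℝ) * (c * (Nat.card A : ℝ)) ≤ ∑ a : A, (Nat.card {i : Fin L // G i a} : ℝ) := by
    calc (L : ℝ) * (c * (Nat.card A : ℝ)) = ∑ _i : Fin L, c * (Nat.card A : ℝ) := by
          rw [Finset.sum_const, Finset.card_univ, Fintype.card_fin, nsmul_eq_mul]
      _ ≤ ∑ i : Fin L, (Nat.card {a : A // G i a} : ℝ) := Finset.sum_le_sum fun i _ => h i
      _ = ∑ a : A, (Nat.card {i : Fin L // G i a} : ℝ) := by
          simp only [e1, e2]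
          exact Finset.sum_comm
  have h3 : ∀ a : A, (Nat.card {i : Fin L // G i a} : ℝ) ≤
      (L : ℝ) * (if c / 2 * (L : ℝ) ≤ (Nat.card {i : Fin L // G i a} : ℝ) then 1 else 0) +
        c / 2 * (L : ℝ) := by
    intro a
    have h4 : 0 ≤ c / 2 * (L : ℝ) := by positivity
    have h5 : (Nat.card {i : Fin L // G i a} : ℝ) ≤ L := by
      rw [Nat.cast_le, Nat.card_eq_fintype_card]
      calc Fintype.card {i : Fin L // G i a} ≤ Fintype.card (Fin L) := Fintype.card_subtype_le _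
        _ = L := Fintype.card_fin L
    by_cases hp : c / 2 * (L : ℝ) ≤ (Nat.card {i : Fin L // G i a} : ℝ)
    · rw [if_pos hp, mul_one]
      linarith
    · rw [if_neg hp, mul_zero, zero_add]
      exact (not_le.1 hp).le
  have h6 : ∑ a : A, (Nat.card {i : Fin L // G i a} : ℝ) ≤
      (L : ℝ) * (Nat.card {a : A // c / 2 * (L : ℝ) ≤ (Nat.card {i : Fin L // G i a} : ℝ)} : ℝ) +
        (Nat.card A : ℝ) * (c / 2 * (L : ℝ)) := by
    refine (Finset.sum_le_sum fun a _ => h3 a).trans (le_of_eq ?_)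
    rw [Finset.sum_add_distrib, ← Finset.mul_sum, Finset.sum_const, Finset.card_univ,
      nsmul_eq_mul, ← Nat.card_eq_fintype_card]
    congr 2
    rw [Nat.card_eq_fintype_card, Fintype.card_subtype, Finset.card_filter]
    push_cast
    rfl
  have h7 : (L : ℝ) * (c / 2 * (Nat.card A : ℝ)) ≤ (L : ℝ) *
      (Nat.card {a : A // c / 2 * (L : ℝ) ≤ (Nat.card {i : Fin L // G i a} : ℝ)} : ℝ) := by
    nlinarith
  exact le_of_mul_le_mul_left h7 hLr

theorem choose_bd (k : ℕ) {c : ℝ} (hc : 0 < c) : ∃ c' : ℝ, 0 < c' ∧ ∃ Q : ℕ, ∀ q : ℕ, Q ≤ q →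
    ∀ N : ℕ, c * (q : ℝ) ≤ N → c' * (q : ℝ) ^ (k + 1) ≤ (((q - 1) * N.choose k : ℕ) : ℝ) := by
  have hkf : (0 : ℝ) < (k.factorial : ℝ) := Nat.cast_pos.2 (Nat.factorial_pos k)
  refine ⟨(1 / 2) * ((c / 2) ^ k / (k.factorial : ℝ)), by positivity,
    max 2 ⌈2 * (k : ℝ) / c⌉₊, fun q hq N hN => ?_⟩
  have hq2 : 2 ≤ q := le_trans (le_max_left _ _) hq
  have hq3 : 2 * (k : ℝ) / c ≤ q := by
    refine (Nat.le_ceil _).trans (Nat.cast_le.2 (le_trans (le_max_right _ _) hq))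
  have hq4 : 2 * (k : ℝ) ≤ c * q := by
    rw [div_le_iff₀ hc] at hq3
    linarith
  have hq2r : (2 : ℝ) ≤ q := by exact_mod_cast hq2
  have hkN : k ≤ N := by
    have : (k : ℝ) ≤ N := by
      have : (0 : ℝ) ≤ k := Nat.cast_nonneg k
      linarith
    exact_mod_cast this
  have h1 : c * q / 2 ≤ ((N + 1 - k : ℕ) : ℝ) := by
    rw [Nat.cast_sub (by omega)]
    push_cast
    linarith
  have h2 : (c * q / 2) ^ k / (k.factorial : ℝ) ≤ (N.choose k : ℝ) := by
    refine le_trans ?_ (Nat.pow_le_choose k N)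
    refine div_le_div_of_nonneg_right ?_ hkf.le
    exact pow_le_pow_left₀ (by positivity) h1 k
  have h3 : (q : ℝ) / 2 ≤ ((q - 1 : ℕ) : ℝ) := by
    rw [Nat.cast_sub (by omega)]
    push_cast
    linarith
  calc (1 / 2) * ((c / 2) ^ k / (k.factorial : ℝ)) * (q : ℝ) ^ (k + 1)
      = (q : ℝ) / 2 * ((c * q / 2) ^ k / (k.factorial : ℝ)) := by
        rw [pow_succ, mul_div_right_comm, mul_pow]
        ring
    _ ≤ ((q - 1 : ℕ) : ℝ) * (N.choose k : ℝ) := mul_le_mul h3 h2 (by positivity) (by positivity)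
    _ = (((q - 1) * N.choose k : ℕ) : ℝ) := by push_cast; rfl

end Pool.Agent.H94.GG
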