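import Mathlib

set_option autoImplicit false

/-!
# [H94 GG FE] Number of the polynomials `D` (Mathlib only)

`e : Fin L × Fin 5 → F` injective (`L` disjoint configurations of five points), `z i = e (i, 4)`, `y i` one of the five points of the configuration `i`.  If all polynomials `D = a (X - y i) ∏ j ∈ T, (X - z j)`, `a ≠ 0`, `i ∈ I`, `T ⊆ I`, `i ∉ T`, have the property `P`, then at least
`(q - 1) binom(|I|, k)` polynomials of degree `≤ k` have the property `P` (`k ≥ 1`).
The map `(a, T') ↦ a (X - y i) ∏ j ∈ T' \ {i}, (X - z j)` with `T' ⊆ I`, `|T'| = k`, `i = min T'` (`Finset.min'`), is injective: `a` is the leading coefficient; the roots of `D` are `y i` and the `z j`, all in different configurations, so `T'` is the set of the `j` such that `D` has a root among the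
`e (j, s)`.  Degree `k`.  (`Finset.powersetCard`, `Finset.card_powersetCard`; `Nat.card_le_card_of_injective`; the set of polynomials of degree `≤ k` is finite: `Finite` needs a small argument: for example `Polynomial.degreeLT` is finite-dimensional, or the injection `D ↦ (coefficients)`.)
-/

namespace Pool.Agent.H94.GG

open Polynomial

private theorem finite_deg {F : Type} [Field F] [Finite F] (k : ℕ) (P : F[X] → Prop) :
    Finite {D : F[X] // D.natDegree ≤ k ∧ P D} := by
  refine Finite.of_injective
    (fun D : {D : F[X] // D.natDegree ≤ k ∧ P D} => fun i : Fin (k + 1) => D.1.coeff i) ?_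
  rintro ⟨D, hD, _⟩ ⟨E, hE, _⟩ h
  apply Subtype.ext
  ext i
  by_cases hi : i ≤ k
  · have := congrFun h ⟨i, by omega⟩
    simpa using this
  · change D.coeff i = E.coeff i
    rw [coeff_eq_zero_of_natDegree_lt (by omega), coeff_eq_zero_of_natDegree_lt (by omega)]

private theorem roots_D {F : Type} [Field F] {L : ℕ} (e : Fin L × Fin 5 → F)
    (he : Function.Injective e) (y : Fin L → F) (a : F) (ha : a ≠ 0) (i : Fin L)
    (hi : ∃ s, y i = e (i, s)) (T : Finset (Fin L)) (j : Fin L) :
    (∃ s, (C a * (X - C (y i)) * ∏ j ∈ T, (X - C (e (j, 4)))).eval (e (j, s)) = 0) ↔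
      j ∈ insert i T := by
  obtain ⟨t, ht⟩ := hi
  simp only [eval_mul, eval_C, eval_sub, eval_X, eval_prod, mul_eq_zero, ha, false_or,
    Finset.prod_eq_zero_iff, sub_eq_zero, Finset.mem_insert]
  constructor
  · rintro ⟨s, hs | ⟨j', hj', hs⟩⟩
    · rw [ht] at hs
      exact Or.inl (congrArg Prod.fst (he hs))
    · have := congrArg Prod.fst (he hs)
      simp only at this
      subst this
      exact Or.inr hj'
  · rintro (rfl | hj)
    · exact ⟨t, Or.inl ht.symm⟩
    · exact ⟨4, Or.inr ⟨j, hj, rfl⟩⟩

private theorem lead_D {F : Type} [Field F] {L : ℕ} (z : Fin L → F) (b a : F) (T : Finset (Fin L)) :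
    (C a * (X - C b) * ∏ j ∈ T, (X - C (z j))).leadingCoeff = a := by
  rw [leadingCoeff_mul, leadingCoeff_mul, leadingCoeff_C, leadingCoeff_X_sub_C, mul_one,
    leadingCoeff_prod]
  simp

private theorem natDegree_D {F : Type} [Field F] {L : ℕ} (z : Fin L → F) (b a : F)
    (T : Finset (Fin L)) :
    (C a * (X - C b) * ∏ j ∈ T, (X - C (z j))).natDegree ≤ 1 + T.card := by
  refine natDegree_mul_le.trans (add_le_add ?_ ?_)
  · refine natDegree_mul_le.trans ?_
    rw [natDegree_C, natDegree_X_sub_C]
  · refine (natDegree_prod_le _ _).trans ?_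
    simp

theorem count_D {F : Type} [Field F] [Finite F] {L k : ℕ} (hk : 1 ≤ k) (e : Fin L × Fin 5 → F)
    (he : Function.Injective e) (I : Finset (Fin L)) (y : Fin L → F)
    (hy : ∀ i ∈ I, ∃ s, y i = e (i, s)) (P : F[X] → Prop)
    (hP : ∀ a : F, a ≠ 0 → ∀ i ∈ I, ∀ T ⊆ I, i ∉ T → T.card + 1 = k →
      P (C a * (X - C (y i)) * ∏ j ∈ T, (X - C (e (j, 4))))) :
    (Nat.card F - 1) * I.card.choose k ≤ Nat.card {D : F[X] // D.natDegree ≤ k ∧ P D} := by
  classical
  have := finite_deg k P
  have hne : ∀ T : {T // T ∈ I.powersetCard k}, T.1.Nonempty := fun T => by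
    have := (Finset.mem_powersetCard.1 T.2).2
    exact Finset.card_pos.1 (by omega)
  let m : {T // T ∈ I.powersetCard k} → Fin L := fun T => T.1.min' (hne T)
  have hm : ∀ T, m T ∈ T.1 := fun T => T.1.min'_mem (hne T)
  let D : {a : F // a ≠ 0} × {T // T ∈ I.powersetCard k} → F[X] := fun p =>
    C p.1.1 * (X - C (y (m p.2))) * ∏ j ∈ p.2.1.erase (m p.2), (X - C (e (j, 4)))
  have hD : ∀ p, (D p).natDegree ≤ k ∧ P (D p) := by
    rintro ⟨a, T⟩
    have hT := Finset.mem_powersetCard.1 T.2
    refine ⟨(natDegree_D (fun j => e (j, 4)) _ _ _).trans ?_, ?_⟩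
    · have h1 : (T.1.erase (m T)).card = T.1.card - 1 := Finset.card_erase_of_mem (hm T)
      simp only
      omega
    · refine hP a.1 a.2 _ (hT.1 (hm T)) _ ((Finset.erase_subset _ _).trans hT.1)
        (Finset.notMem_erase _ _) ?_
      rw [Finset.card_erase_of_mem (hm T)]
      omega
  have hinj : Function.Injective
      (fun p => (⟨D p, hD p⟩ : {D : F[X] // D.natDegree ≤ k ∧ P D})) := by
    rintro ⟨a, T⟩ ⟨b, U⟩ h
    have h' : D (a, T) = D (b, U) := congrArg Subtype.val h
    have hab : a = b := by
      apply Subtype.ext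
      have h1 : (D (a, T)).leadingCoeff = a.1 := lead_D (fun j => e (j, 4)) _ _ _
      have h2 : (D (b, U)).leadingCoeff = b.1 := lead_D (fun j => e (j, 4)) _ _ _
      rw [← h1, ← h2, h']
    have hTU : T = U := by
      apply Subtype.ext
      have hT := Finset.mem_powersetCard.1 T.2
      have hU := Finset.mem_powersetCard.1 U.2
      ext j
      have h1 := roots_D e he y a.1 a.2 (m T) (hy _ (hT.1 (hm T))) (T.1.erase (m T)) j
      have h2 := roots_D e he y b.1 b.2 (m U) (hy _ (hU.1 (hm U))) (U.1.erase (m U)) j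
      rw [Finset.insert_erase (hm T)] at h1
      rw [Finset.insert_erase (hm U)] at h2
      rw [← h1, ← h2]
      have h3 : C a.1 * (X - C (y (m T))) * ∏ j ∈ T.1.erase (m T), (X - C (e (j, 4))) =
          C b.1 * (X - C (y (m U))) * ∏ j ∈ U.1.erase (m U), (X - C (e (j, 4))) := h'
      rw [h3]
    rw [hab, hTU]
  have h1 := Nat.card_le_card_of_injective _ hinj
  refine le_trans (le_of_eq ?_) h1
  rw [Nat.card_prod]
  congr 1
  · have : Nat.card {a : F // a ≠ 0} = Nat.card F - 1 := by
      have hf : Fintype F := Fintype.ofFinite F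
      rw [Nat.card_eq_fintype_card, Nat.card_eq_fintype_card, Fintype.card_subtype_compl,
        Fintype.card_subtype_eq]
    exact this.symm
  · rw [Nat.card_eq_fintype_card, Fintype.card_coe, Finset.card_powersetCard]

end Pool.Agent.H94.GG
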