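import Pool.Agent.H94.GG.SW
import Pool.Agent.H80.CC.SelIdeal

set_option autoImplicit false

/-!
# [H94 GG SV] Local conditions give even multiplicities

`δ c² = b`, norm of `δ` a square, `deg f` odd.
* `evB_of_val`: `v ∤ D` and `toLv f v δ` is a value of the descent map of `D y² = f`.  As in the proof of `sel_ideal` in `H80/CC/SelIdeal` (copy): `local_val` with `n = 2`, `a = 1`, `m i = 2`, `b = 1` gives `j` with `w.valuation L δ * (exp (-1) ^ e(w/v)) ^ j = s ^ 2` for all `w` above `v`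
  (the instances: `Fact (Irreducible (overK f))` by `H94.TC.irreducible_map`, `(toField ..).toAlgebra`, as there; `desc D g P` is `descent 1 D g P` with `-D ^ 1 = -D`), and then `2 ∣ mult_w (b) + e j` as `hpar` in the proof of `H94.TL.glob_ideal` (there `b = x y`, here `δ c² = b`); `par_even`.
* `evB_of_sqAt`: `toLv f v δ = z ^ 2`: it is a value for `D = 1` with `r = 0`: `δ γ² = 1`, `γ = z⁻¹` (`toLv f v δ` is a unit); so `evB_of_val` with `D = 1`.
-/

namespace Pool.Agent.H94.GG

open Polynomial WithZero IsDedekindDomain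
open Pool.Agent.H80.CC.Plane (overK overKv constKv toL toLv)

variable {F : Type} [Field F]

theorem evB_of_val {f : F[X][X]} (hf : f.Monic) (hodd : Odd f.natDegree)
    [IsDedekindDomain (AdjoinRoot f)] {v : HeightOneSpectrum F[X]} {δ : AdjoinRoot (overK f)}
    {b c : AdjoinRoot f} (hb : b ≠ 0) (hδ : δ ≠ 0) (hc : c ≠ 0)
    (he : δ * toL f c ^ 2 = toL f b) (hN : ∃ y : RatFunc F, Algebra.norm (RatFunc F) δ = y ^ 2)
    {D : F[X]} (hD : D ∉ v.asIdeal) (h : IsVal (constKv D v) (overKv f v) (toLv f v δ)) :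
    EvB f v b := by
  classical
  let _ : Fact (Irreducible (overK f)) := ⟨H94.TC.irreducible_map (RatFunc F) f hf⟩
  let _ := (toL f).toAlgebra
  have : IsFractionRing (AdjoinRoot f) (AdjoinRoot (overK f)) :=
    H94.TC.isFractionRing_toField (RatFunc F) f hf
  have := H94.TC.torsionFree_adjoinRoot f hf
  have : Module.Finite F[X] (AdjoinRoot f) := hf.finite_adjoinRoot
  have : Module.Free F[X] (AdjoinRoot f) := hf.free_adjoinRoot
  have : IsScalarTower F[X] (AdjoinRoot f) (AdjoinRoot (overK f)) := by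
    refine IsScalarTower.of_algebraMap_eq fun x => ?_
    show _ = H94.TC.toField (RatFunc F) f _
    have h1 : algebraMap F[X] (AdjoinRoot f) x = AdjoinRoot.mk f (C x) := rfl
    rw [h1, H94.TC.toField_mk, Polynomial.map_C]
    rfl
  have hroot : algebraMap (AdjoinRoot f) (AdjoinRoot (overK f)) (AdjoinRoot.root f) =
      AdjoinRoot.root (overK f) := by
    show H94.TC.toField (RatFunc F) f _ = _
    rw [H94.TC.toField, AdjoinRoot.map_root]
    rfl
  obtain ⟨r, P, Q, γ, hM, hγ⟩ := h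
  obtain ⟨Δ, hΔ⟩ := AdjoinRoot.mk_surjective δ
  obtain ⟨G, hG⟩ := AdjoinRoot.mk_surjective γ
  have haev : aeval (algebraMap (AdjoinRoot f) (AdjoinRoot (overK f))
      (AdjoinRoot.root f)) Δ = δ := by
    rw [hroot, AdjoinRoot.aeval_eq, hΔ]
  obtain ⟨j, hj⟩ := H80.CC.local_val (K := RatFunc F) (L := AdjoinRoot (overK f)) (f := f) (n := 2) 1
    two_ne_zero v D hD Δ 1 (fun w _ h1 => w.isPrime.ne_top ((Ideal.eq_top_iff_one _).2 (by
      rw [map_one] at h1
      exact h1))) r (fun _ => 2) P Q G (fun _ => dvd_rfl) (fun i => (hM i).1)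
    (fun i => (hM i).2.1) (fun i => (hM i).2.2) (by
      rw [← AdjoinRoot.mk_eq_mk]
      rw [← hΔ, ← hG] at hγ
      have h1 : toLv f v (AdjoinRoot.mk (overK f) Δ) =
          AdjoinRoot.mk (overKv f v) (Δ.map (algebraMap (RatFunc F)
            (v.adicCompletion (RatFunc F)))) := H80.CC.toAdic_mk (RatFunc F) f v Δ
      rw [h1] at hγ
      have h2 : ∀ i, desc (constKv D v) (overKv f v) (P i) =
          AdjoinRoot.mk (overKv f v) ((C (-(constKv D v) ^ 1)) ^ (P i).natDegree * P i) := by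
        intro i
        rw [desc, map_mul, map_pow, pow_one]
      simp only [h2] at hγ
      rw [Polynomial.map_one, mul_one]
      show AdjoinRoot.mk (overKv f v) _ = AdjoinRoot.mk (overKv f v) _
      rw [map_mul, map_pow, hγ, map_prod]
      refine Finset.prod_congr rfl fun i _ => ?_
      rw [Nat.div_self two_pos, pow_one, pow_one, pow_one]
      rfl)
  refine par_even hf hodd hb hδ hc he hN (j := j) fun w hw => ?_
  obtain ⟨s, hs⟩ := hj w hw
  rw [haev] at hs
  exact par_of_val (L := AdjoinRoot (overK f)) w hb he hs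

theorem evB_of_sqAt {f : F[X][X]} (hf : f.Monic) (hodd : Odd f.natDegree)
    [IsDedekindDomain (AdjoinRoot f)] {v : HeightOneSpectrum F[X]} {δ : AdjoinRoot (overK f)}
    {b c : AdjoinRoot f} (hb : b ≠ 0) (hδ : δ ≠ 0) (hc : c ≠ 0)
    (he : δ * toL f c ^ 2 = toL f b) (hN : ∃ y : RatFunc F, Algebra.norm (RatFunc F) δ = y ^ 2)
    (h : SqAt f v δ) : EvB f v b := by
  have h1 : IsUnit (toLv f v δ) := by
    let _ : Fact (Irreducible (overK f)) := ⟨H94.TC.irreducible_map (RatFunc F) f hf⟩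
    exact (isUnit_iff_ne_zero.2 hδ).map (toLv f v)
  obtain ⟨z, hz⟩ := h
  rw [hz, isUnit_pow_iff two_ne_zero] at h1
  obtain ⟨u, hu⟩ := h1
  refine evB_of_val hf hodd hb hδ hc he hN (D := 1) (fun h2 => v.isPrime.ne_top
    ((Ideal.eq_top_iff_one _).2 h2)) ⟨0, Fin.elim0, Fin.elim0, ((u⁻¹ : (AdjoinRoot (overKv f v))ˣ) :
      AdjoinRoot (overKv f v)), fun i => i.elim0, ?_⟩
  rw [Fin.prod_univ_zero, hz, ← hu, ← mul_pow, Units.mul_inv, one_pow]

end Pool.Agent.H94.GG
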