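import Pool.Agent.H94.GG.SB
import Pool.Agent.H80.CC.SelIdeal

set_option autoImplicit false

/-!
# [H94 GG SW] Harmless places

`δ c² = b`, norm of `δ` a square, `deg f` odd.
* `evB_of_harmless`: `f` modulo `v` is irreducible: `O / v O` is a field, so there is only one prime of `O` above `v`.  As in the proof of `sel_ideal` in `H80/CC/SelIdeal` (copy the instances: `Fact (Irreducible (overK f))` by `H94.TC.irreducible_map`, `(toField ..).toAlgebra`, ..):
  `H94.TL.inert_local` with `n = 2` gives `j` with `w.valuation L δ * (exp (-1) ^ e(w/v)) ^ j = s ^ 2` for all `w` above `v`, and then `2 ∣ mult_w (b) + e j` as `hpar` in the proof of `H94.TL.glob_ideal` (there `b = x y`, here `δ c² = b`); `par_even`.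
-/

namespace Pool.Agent.H94.GG

open Polynomial WithZero IsDedekindDomain
open Pool.Agent.H80.CC.Plane (overK overKv constKv toL toLv)

/-- from valuations to multiplicities -/
theorem par_of_val {B L : Type*} [CommRing B] [IsDedekindDomain B] [Field L] [Algebra B L]
    [IsFractionRing B L] (w : HeightOneSpectrum B) {δ : L} {b c : B} (hb : b ≠ 0)
    (he : δ * algebraMap B L c ^ 2 = algebraMap B L b) {e j : ℕ} {s : ℤᵐ⁰}
    (hs : w.valuation L δ * ((exp (-1 : ℤ)) ^ e) ^ j = s ^ 2) :
    2 ∣ multiplicity w.asIdeal (Ideal.span {b}) + e * j := by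
  have hval : w.intValuation b = w.valuation L (δ * (algebraMap B L c) ^ 2) := by
    rw [he]; exact (w.valuation_of_algebraMap (K := L) b).symm
  rw [w.intValuation_eq_exp_neg_multiplicity hb, map_mul, map_pow] at hval
  refine H94.TL.dvd_of_exp_eq_pow (s := s * w.valuation L (algebraMap B L c)) ?_ two_ne_zero
  rw [mul_pow, ← hs]
  have h2 : (-((multiplicity w.asIdeal (Ideal.span {b}) + e * j : ℕ) : ℤ)) =
      -(multiplicity w.asIdeal (Ideal.span {b}) : ℤ) + ((e * j) • (-1 : ℤ)) := by
    simp only [nsmul_eq_mul]; push_cast; ring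
  rw [h2, exp_add, hval, exp_nsmul, pow_mul]
  exact mul_right_comm _ _ _

variable {F : Type} [Field F]

/-- only one prime above a harmless place -/
theorem harmless_unique {f : F[X][X]} {v : HeightOneSpectrum F[X]} (h : Harmless f v) {ϖ : F[X]}
    (hv : v.asIdeal = Ideal.span {ϖ}) {w : HeightOneSpectrum (AdjoinRoot f)}
    (hw : algebraMap F[X] (AdjoinRoot f) ϖ ∈ w.asIdeal) :
    w.asIdeal = v.asIdeal.map (AdjoinRoot.of f) := by
  have hmax := v.isMaximal
  let _ : Field (F[X] ⧸ v.asIdeal) := Ideal.Quotient.field v.asIdeal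
  have hirr : Irreducible (f.map (Ideal.Quotient.mk v.asIdeal)) := h
  have h1 : (Ideal.span {f.map (Ideal.Quotient.mk v.asIdeal)}).IsMaximal :=
    PrincipalIdealRing.isMaximal_of_irreducible hirr
  have h2 : IsField ((F[X] ⧸ v.asIdeal)[X] ⧸ Ideal.span {f.map (Ideal.Quotient.mk v.asIdeal)}) :=
    (Ideal.Quotient.maximal_ideal_iff_isField_quotient _).1 h1
  have h3 : IsField (AdjoinRoot f ⧸ v.asIdeal.map (AdjoinRoot.of f)) :=
    MulEquiv.isField h2 (AdjoinRoot.quotAdjoinRootEquivQuotPolynomialQuot v.asIdeal f).toMulEquiv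
  have h4 : (v.asIdeal.map (AdjoinRoot.of f)).IsMaximal := Ideal.Quotient.maximal_of_isField _ h3
  refine (h4.eq_of_le w.isPrime.ne_top ?_).symm
  rw [hv, Ideal.map_span, Set.image_singleton, Ideal.span_singleton_le_iff_mem]
  exact hw

theorem evB_of_harmless {f : F[X][X]} (hf : f.Monic) (hodd : Odd f.natDegree)
    [IsDedekindDomain (AdjoinRoot f)] {v : HeightOneSpectrum F[X]} {δ : AdjoinRoot (overK f)}
    {b c : AdjoinRoot f} (hb : b ≠ 0) (hδ : δ ≠ 0) (hc : c ≠ 0)
    (he : δ * toL f c ^ 2 = toL f b) (hN : ∃ y : RatFunc F, Algebra.norm (RatFunc F) δ = y ^ 2)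
    (h : Harmless f v) : EvB f v b := by
  classical
  let _ : Fact (Irreducible (overK f)) := ⟨H94.TC.irreducible_map (RatFunc F) f hf⟩
  let _ := (toL f).toAlgebra
  have : IsFractionRing (AdjoinRoot f) (AdjoinRoot (overK f)) :=
    H94.TC.isFractionRing_toField (RatFunc F) f hf
  have := H94.TC.torsionFree_adjoinRoot f hf
  have : Module.Finite F[X] (AdjoinRoot f) := hf.finite_adjoinRoot
  have : Module.Free F[X] (AdjoinRoot f) := hf.free_adjoinRoot
  have : IsScalarTower F[X] (AdjoinRoot f) (AdjoinRoot (overK f)) := by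
    refine IsScalarTower.of_algebraMap_eq fun x => ?_
    show _ = H94.TC.toField (RatFunc F) f _
    have h1 : algebraMap F[X] (AdjoinRoot f) x = AdjoinRoot.mk f (C x) := rfl
    rw [h1, H94.TC.toField_mk, Polynomial.map_C]
    rfl
  have hfin : Module.finrank F[X] (AdjoinRoot f) = f.natDegree :=
    finrank_quotient_span_eq_natDegree' hf
  have hcop : Nat.Coprime 2 (Module.finrank F[X] (AdjoinRoot f)) := by
    rw [hfin]
    exact (Nat.coprime_two_left).2 hodd
  obtain ⟨ϖ, hϖ, hv⟩ := H94.TL.exists_gen v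
  obtain ⟨j, hj⟩ := H94.TL.inert_local (K := RatFunc F) (L := AdjoinRoot (overK f)) two_ne_zero
    hcop v ϖ hϖ hv (fun w w' hw hw' => HeightOneSpectrum.ext
      ((harmless_unique h hv hw).trans (harmless_unique h hv hw').symm)) δ hδ hN
  refine par_even hf hodd hb hδ hc he hN (j := j) fun w hw => ?_
  obtain ⟨s, hs⟩ := hj w hw
  exact par_of_val (L := AdjoinRoot (overK f)) w hb he hs

end Pool.Agent.H94.GG
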