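import Pool.Agent.H94.GG.SG
import Pool.Agent.H94.GG.SV
import Pool.Agent.H94.GG.SW
import Pool.Agent.H74.GR.Pla
import Pool.Agent.H74.GR.Unf
import Pool.Agent.H74.GR.InfB

set_option autoImplicit false

/-!
# [H94 GG SEL] The Selmer step

`f` smooth (so `O` is a Dedekind domain), leading form irreducible.
* `sel_one`: all `δ` in `S0` are squares: the Selmer group is trivial for all `D` whose prime divisors are harmless.
* `sel_two`: `S0 = {1, σ}`, `v` special with `σ` not a square in `L_v`: the Selmer group is trivial for `D` with `v` dividing `D` once and all other prime divisors harmless.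
-/

namespace Pool.Agent.H94.GG

open Polynomial WithZero IsDedekindDomain
open Pool.Agent.H80.CC.Plane (overK overKv constKv toL toLv)

variable {F : Type} [Field F]

/-- representatives in `O` -/
theorem exists_bc {f : F[X][X]} (hf : f.Monic) [IsDomain (AdjoinRoot f)]
    {δ : AdjoinRoot (overK f)} (hδ : δ ≠ 0) :
    ∃ b c : AdjoinRoot f, b ≠ 0 ∧ c ≠ 0 ∧ δ * toL f c ^ 2 = toL f b := by
  let _ : Fact (Irreducible (overK f)) := ⟨H94.TC.irreducible_map (RatFunc F) f hf⟩
  let _ := (toL f).toAlgebra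
  have : IsFractionRing (AdjoinRoot f) (AdjoinRoot (overK f)) :=
    H94.TC.isFractionRing_toField (RatFunc F) f hf
  obtain ⟨x, y, hy, hxy⟩ := IsFractionRing.div_surjective (A := AdjoinRoot f) δ
  have hy0 : y ≠ 0 := nonZeroDivisors.ne_zero hy
  have hyL : toL f y ≠ 0 := by
    show algebraMap (AdjoinRoot f) (AdjoinRoot (overK f)) y ≠ 0
    rw [Ne, FaithfulSMul.algebraMap_eq_zero_iff]
    exact hy0
  have hxy' : δ = toL f x / toL f y := hxy.symm
  have hx0 : x ≠ 0 := by
    rintro rfl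
    rw [map_zero, zero_div] at hxy'
    exact hδ hxy'
  refine ⟨x * y, y, mul_ne_zero hx0 hy0, hy0, ?_⟩
  rw [hxy', map_mul]
  field_simp

theorem sel_one {f : F[X][X]} (hf : f.Monic) (hodd : Odd f.natDegree)
    [IsDedekindDomain (AdjoinRoot f)] (hS : ∀ δ, IsS0 f δ → ∃ z : AdjoinRoot (overK f), δ = z ^ 2)
    {D : F[X]} (hD : ∀ w : HeightOneSpectrum F[X], D ∈ w.asIdeal → Harmless f w)
    {δ : AdjoinRoot (overK f)} (h : IsSel D f δ) : ∃ z : AdjoinRoot (overK f), δ = z ^ 2 := by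
  obtain ⟨b, c, hb, hc, he⟩ := exists_bc hf h.ne_zero
  refine hS δ (evB_all hf hb h.ne_zero hc he h.norm fun w => ?_)
  by_cases hw : D ∈ w.asIdeal
  · exact evB_of_harmless hf hodd hb h.ne_zero hc he h.norm (hD w hw)
  · exact evB_of_val hf hodd hb h.ne_zero hc he h.norm hw (h.locally w)

theorem sel_two [Finite F] (h2 : (2 : F) ≠ 0) {m h g : ℕ} {f : F[X][X]} (hfam : Fam m h f)
    (hm : m = 2 * g + 1) [IsDedekindDomain (AdjoinRoot f)] (hl : Irreducible (lead m h f))
    {σ : AdjoinRoot (overK f)} (hσ : IsS0 f σ)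
    (hS : ∀ δ, IsS0 f δ → (∃ z : AdjoinRoot (overK f), δ = z ^ 2) ∨
      ∃ z : AdjoinRoot (overK f), δ * σ = z ^ 2)
    {v : HeightOneSpectrum F[X]} (hv : Special f v) (hσv : ¬ SqAt f v σ)
    {D : F[X]} (hD1 : D ∈ v.asIdeal) (hD2 : D ∉ v.asIdeal ^ 2)
    (hD : ∀ w : HeightOneSpectrum F[X], w ≠ v → D ∈ w.asIdeal → Harmless f w)
    {δ : AdjoinRoot (overK f)} (h : IsSel D f δ) : ∃ z : AdjoinRoot (overK f), δ = z ^ 2 := by
  classical
  have hf : f.Monic := hfam.monic
  have hodd : Odd f.natDegree := by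
    rw [hfam.deg, hm]
    exact ⟨g, rfl⟩
  have hirr : Irreducible (overK f) := H94.TC.irreducible_map (RatFunc F) f hf
  let _ : Fact (Irreducible (overK f)) := ⟨hirr⟩
  obtain ⟨b, c, hb, hc, he⟩ := exists_bc hf h.ne_zero
  have hev : ∀ w, w ≠ v → EvB f w b := by
    intro w hwv
    by_cases hw : D ∈ w.asIdeal
    · exact evB_of_harmless hf hodd hb h.ne_zero hc he h.norm (hD w hwv hw)
    · exact evB_of_val hf hodd hb h.ne_zero hc he h.norm hw (h.locally w)
  have hσδ : σ * δ ≠ 0 := mul_ne_zero hσ.1 h.ne_zero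
  have hN : ∃ y, Algebra.norm (RatFunc F) (σ * δ) = y ^ 2 := by
    obtain ⟨x, hx⟩ := hσ.2.1
    obtain ⟨y, hy⟩ := h.norm
    exact ⟨x * y, by rw [map_mul, hx, hy]; ring⟩
  have hi : Isot (overKv f v) (toLv f v (σ * δ)) := by
    refine Pool.Agent.H74.GR.rec_one h2 f hf (g := g) (by rw [hfam.deg, hm]) hirr (σ * δ) hσδ hN v
      (fun w hw => ?_) (Pool.Agent.H74.GR.uni_inf h2 f hfam hm hl (σ * δ) hσδ hN)
    exact Pool.Agent.H74.GR.uni_fin h2 f hf (g := g) (by rw [hfam.deg, hm]) hirr w (σ * δ) hσδ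
      (evAt_mul (evAt_of_isS0 hσ w) (evAt_of_evB hf hb hc he (hev w hw)))
  rcases sp_main h2 hf hodd hv hD1 hD2 h.ne_zero hσ.1 h.norm hσ.2.1 (h.locally v)
    (evAt_of_isS0 hσ v) hi with h3 | h3
  · have h4 : IsS0 f δ := by
      refine evB_all hf hb h.ne_zero hc he h.norm fun w => ?_
      by_cases hw : w = v
      · rw [hw]
        exact evB_of_sqAt hf hodd hb h.ne_zero hc he h.norm h3
      · exact hev w hw
    rcases hS δ h4 with h5 | ⟨z, hz⟩
    · exact h5
    · exfalso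
      apply hσv
      obtain ⟨y, hy⟩ := h3
      obtain ⟨t, ht⟩ := (isUnit_iff_ne_zero.2 h.ne_zero).map (toLv f v)
      have h6 : toLv f v δ * toLv f v σ = toLv f v z ^ 2 := by
        rw [← map_mul, hz, map_pow]
      refine ⟨y * toLv f v z * (t⁻¹ : (AdjoinRoot (overKv f v))ˣ), ?_⟩
      have h7 : ((t⁻¹ : (AdjoinRoot (overKv f v))ˣ) : AdjoinRoot (overKv f v)) * toLv f v δ = 1 := by
        rw [← ht]
        exact Units.inv_mul t
      rw [mul_pow, mul_pow, ← hy, ← h6]
      linear_combination -(toLv f v σ *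
        (((t⁻¹ : (AdjoinRoot (overKv f v))ˣ) : AdjoinRoot (overKv f v)) * toLv f v δ + 1)) * h7
  · exact absurd h3 hσv

end Pool.Agent.H94.GG
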