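import Pool.Agent.H94.GG.FC
import Pool.Agent.H94.GG.SEL
import Pool.Agent.H94.GG.FH
import Pool.Agent.H13.SM.Smk

set_option autoImplicit false

/-!
# [H94 GG FF] The good polynomials `D` for one `f`

`f` good for the configurations `i ∈ I`.  If all classes of `S0` are squares: `y i = e (i, 4)` (harmless), `sel_one`.  Otherwise `S0 = {1, σ}` and in each configuration there is a special place `lin (y i)` where `σ` is not a square: `sel_two`.
-/

namespace Pool.Agent.H94.GG

open Polynomial IsDedekindDomain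
open Pool.Agent.H80.CC.Plane (overK overKv constKv toL toLv)
open Pool.Agent.H40.GC (FamS)

/-- all properties of the good pairs over a finite field -/
structure GoodP (g h k : ℕ) {F : Type} [Field F] (D : F[X]) (f : F[X][X]) : Prop where
  degree : D.natDegree = k
  squarefree : Squarefree D
  smooth : Smooth f
  transversal : Ideal.span {C D, f, derivative f} = (⊤ : Ideal F[X][X])
  infinity : Irreducible (lead (2 * g + 1) h f)
  sel : SelTriv D f

private theorem isSq_iff {R : Type} [CommRing R] (x : R) : IsSquare x ↔ ∃ z, x = z ^ 2 :=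
  isSquare_iff_exists_sq x

private theorem assemble {F : Type} [Field F] [Finite F] {g h : ℕ} {L : ℕ}
    (e : Fin L × Fin 5 → F) (he : Function.Injective e) (f : F[X][X]) (I : Finset (Fin L))
    (hI : ∀ i ∈ I, GoodC g h (fun s => e (i, s)) f) (y : Fin L → Fin 5) {a : F} (ha : a ≠ 0)
    {i : Fin L} (hi : i ∈ I) {T : Finset (Fin L)} (hT : T ⊆ I) (hiT : i ∉ T)
    (hs : SelTriv (C a * (X - C (e (i, y i))) * ∏ j ∈ T, (X - C (e (j, 4)))) f) :
    GoodP g h (T.card + 1) (C a * (X - C (e (i, y i))) * ∏ j ∈ T, (X - C (e (j, 4)))) f := by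
  classical
  refine ⟨natDegree_D ha _ _ _, squarefree_D ha ?_ ?_, (hI i hi).smooth, transversal ha ?_ ?_,
    (hI i hi).fam.2.1, hs⟩
  · intro j hj h3
    have h4 := congrArg Prod.fst (he h3)
    exact hiT (by
      have h5 : j = i := h4
      rw [← h5]
      exact hj)
  · intro j _ j' _ h3
    exact congrArg Prod.fst (he h3)
  · obtain ⟨s, hs'⟩ : ∃ s, s = y i := ⟨_, rfl⟩
    rw [← hs']
    refine Fin.lastCases ?_ (fun s => ?_) s
    · left
      exact (hI i hi).fam.2.2.2 _ (Finset.mem_singleton_self _)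
    · right
      exact (hI i hi).fam.2.2.1 _ (Finset.mem_image.2 ⟨s, Finset.mem_univ _, rfl⟩)
  · intro j hj
    left
    exact (hI j (hT hj)).fam.2.2.2 _ (Finset.mem_singleton_self _)

theorem selTriv_good {F : Type} [Field F] [Finite F] (h2 : (2 : F) ≠ 0) {g h : ℕ} (hg : 1 ≤ g)
    {L : ℕ} (e : Fin L × Fin 5 → F) (he : Function.Injective e) (f : F[X][X])
    (I : Finset (Fin L)) (hI : ∀ i ∈ I, GoodC g h (fun s => e (i, s)) f) :
    ∃ y : Fin L → F, (∀ i ∈ I, ∃ s, y i = e (i, s)) ∧
      ∀ a : F, a ≠ 0 → ∀ i ∈ I, ∀ T ⊆ I, i ∉ T →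
        GoodP g h (T.card + 1) (C a * (X - C (y i)) * ∏ j ∈ T, (X - C (e (j, 4)))) f := by
  classical
  rcases I.eq_empty_or_nonempty with rfl | ⟨i₁, hi₁⟩
  · exact ⟨fun i => e (i, 4), fun i hi => absurd hi (Finset.notMem_empty i),
      fun a _ i hi => absurd hi (Finset.notMem_empty i)⟩
  have hG := hI i₁ hi₁
  obtain ⟨hfam, hl, -, -⟩ := hG.fam
  have hm0 : 2 * g + 1 ≠ 0 := by omega
  have hirr := H13.SM.irr (2 * g + 1) h hm0 f hfam hl
  have hded : IsDedekindDomain (AdjoinRoot f) := H13.SM.ded (2 * g + 1) h hm0 f hfam hl hG.smooth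
  have hf : f.Monic := hfam.monic
  have hodd : Odd f.natDegree := by
    rw [hfam.deg]
    exact ⟨g, rfl⟩
  have hharm : ∀ i ∈ I, Harmless f (lin (e (i, 4))) := by
    intro i hi
    exact (hI i hi).fam.2.2.2 _ (Finset.mem_singleton_self _)
  by_cases hA : ∀ δ : AdjoinRoot (overK f), IsS0 f δ → IsSquare δ
  · refine ⟨fun i => e (i, 4), fun i _ => ⟨4, rfl⟩, fun a ha i hi T hT hiT =>
      assemble e he f I hI (fun _ => 4) ha hi hT hiT ⟨hirr, fun δ hδ => ?_⟩⟩
    refine sel_one hf hodd (fun δ' h' => (isSq_iff _).1 (hA δ' h')) (fun w hw => ?_) hδ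
    have h3 : C a * (X - C (e (i, 4))) * ∏ j ∈ T, (X - C (e (j, 4))) =
        C a * ∏ j ∈ insert i T, (X - C (e (j, 4))) := by
      rw [Finset.prod_insert hiT, mul_assoc]
    rw [h3] at hw
    obtain ⟨j, hj, rfl⟩ := lin_of_mem ha hw
    rcases Finset.mem_insert.1 hj with rfl | hj
    · exact hharm _ hi
    · exact hharm _ (hT hj)
  · push Not at hA
    obtain ⟨σ, hσ, hσn⟩ := hA
    have hS : ∀ δ, IsS0 f δ → (∃ z : AdjoinRoot (overK f), δ = z ^ 2) ∨
        ∃ z : AdjoinRoot (overK f), δ * σ = z ^ 2 := by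
      intro δ hδ
      by_cases h3 : IsSquare δ
      · exact Or.inl ((isSq_iff _).1 h3)
      · by_cases h4 : IsSquare (δ * σ)
        · exact Or.inr ((isSq_iff _).1 h4)
        · exact absurd ⟨δ, σ, hδ, hσ, h3, hσn, h4⟩ hG.two
    have hex : ∀ i : Fin L, ∃ s : Fin 4, i ∈ I → ¬ SqAt f (lin (e (i, s.castSucc))) σ := by
      intro i
      by_cases hi : i ∈ I
      · by_contra hne
        push Not at hne
        apply (hI i hi).strict
        refine ⟨σ, hσ, hσn, fun v hv => ?_⟩
        obtain ⟨s, -, rfl⟩ := Finset.mem_image.1 hv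
        exact (hne s).2
      · exact ⟨0, fun h3 => absurd h3 hi⟩
    choose s hs using hex
    refine ⟨fun i => e (i, (s i).castSucc), fun i _ => ⟨_, rfl⟩, fun a ha i hi T hT hiT =>
      assemble e he f I hI (fun i => (s i).castSucc) ha hi hT hiT ⟨hirr, fun δ hδ => ?_⟩⟩
    have hspec : Special f (lin (e (i, (s i).castSucc))) := by
      refine (hI i hi).fam.2.2.1 _ (Finset.mem_image.2 ⟨s i, Finset.mem_univ _, rfl⟩)
    have hev : (C a * ∏ j ∈ T, (X - C (e (j, 4)))).eval (e (i, (s i).castSucc)) ≠ 0 := by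
      rw [eval_mul, eval_C, eval_prod]
      refine mul_ne_zero ha (Finset.prod_ne_zero_iff.2 fun j hj => ?_)
      rw [eval_sub, eval_X, eval_C, sub_ne_zero]
      intro h3
      have h4 := congrArg Prod.fst (he h3)
      exact hiT (by
        have h5 : i = j := h4
        rw [h5]
        exact hj)
    have hfac : C a * (X - C (e (i, (s i).castSucc))) * ∏ j ∈ T, (X - C (e (j, 4))) =
        (X - C (e (i, (s i).castSucc))) * (C a * ∏ j ∈ T, (X - C (e (j, 4)))) := by ring
    refine sel_two h2 hfam rfl hl hσ hS hspec (hs i hi) ?_ ?_ (fun w hw hD => ?_) hδ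
    · rw [mem_lin, hfac, eval_mul, eval_sub, eval_X, eval_C, sub_self, zero_mul]
    · rw [hfac]
      exact lin_sq hev
    · rw [hfac] at hD
      rcases w.isPrime.mem_or_mem hD with h3 | h3
      · exfalso
        have h4 : C (1 : F) * ∏ j ∈ ({()} : Finset Unit), (X - C (e (i, (s i).castSucc))) ∈
            w.asIdeal := by
          rw [C_1, one_mul, Finset.prod_singleton]
          exact h3
        obtain ⟨-, -, h5⟩ := lin_of_mem one_ne_zero h4
        exact hw h5
      · obtain ⟨j, hj, rfl⟩ := lin_of_mem ha h3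
        exact hharm _ (hT hj)

end Pool.Agent.H94.GG
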