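import Pool.Agent.H94.GG.FF
import Pool.Agent.H94.GG.FD
import Pool.Agent.H94.GG.FE

set_option autoImplicit false

/-!
# [H94 GG FG] THEOREM G over finite fields

`L = q / 5` disjoint configurations.  `share`, `rev_markov`: at least `(c / 2) |Fam|` polynomials `f` are good for at least `(c / 2) L` configurations; for each of them `count_D`, `selTriv_good` and `choose_bd` give at least `c' q ^ (k + 1)` good polynomials `D`.
-/

namespace Pool.Agent.H94.GG

open Polynomial IsDedekindDomain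
open Pool.Agent.H40.GC (FamS)

theorem sum_rev (m : ℕ) : ∑ i : Fin m, (m - (i : ℕ)) = m * (m + 1) / 2 := by
  have h1 : ∑ i : Fin m, (m - (i : ℕ)) = ∑ i ∈ Finset.range m, (m - i) :=
    Fin.sum_univ_eq_sum_range (fun i => m - i) m
  have h2 : ∑ i ∈ Finset.range m, (m - i) = ∑ i ∈ Finset.range m, (i + 1) := by
    rw [← Finset.sum_range_reflect]
    refine Finset.sum_congr rfl fun i hi => ?_
    have := Finset.mem_range.1 hi
    omega
  have h3 : ∑ i ∈ Finset.range m, (i + 1) = ∑ i ∈ Finset.range (m + 1), i := by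
    rw [Finset.sum_range_succ' (fun i => i) m]
    simp
  rw [h1, h2, h3, Finset.sum_range_id, Nat.add_sub_cancel, mul_comm]

theorem Mh_eq (m h : ℕ) : Pool.Agent.H40.GC.Mh m h = h * (m * (m + 1) / 2) + m := by
  unfold Pool.Agent.H40.GC.Mh
  rw [Finset.sum_add_distrib, ← Finset.sum_mul, sum_rev]
  simp [mul_comm]

theorem fam_finite {F : Type} [Field F] [Finite F] (m h : ℕ) :
    Finite {f : F[X][X] // Fam m h f} := by
  refine Nat.finite_of_card_ne_zero ?_
  rw [Pool.Agent.H40.GC.fmc_all]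
  exact pow_ne_zero _ Nat.card_pos.ne'

private theorem card_filt {α : Type} [Fintype α] (p : α → Prop) [DecidablePred p] :
    (Finset.univ.filter p).card = Nat.card {a // p a} := by
  rw [Nat.card_eq_fintype_card, Fintype.card_subtype]

theorem exists_conf {F : Type} [Field F] [Finite F] :
    ∃ e : Fin (Nat.card F / 5) × Fin 5 → F, Function.Injective e := by
  have := Fintype.ofFinite F
  have h1 : Fintype.card (Fin (Nat.card F / 5) × Fin 5) ≤ Fintype.card F := by
    rw [Fintype.card_prod, Fintype.card_fin, Fintype.card_fin, Nat.card_eq_fintype_card]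
    omega
  obtain ⟨e⟩ := Function.Embedding.nonempty_of_card_le h1
  exact ⟨e, e.injective⟩

/-- **THEOREM G2 over finite fields.** -/
theorem g2_fin {g : ℕ} (hg : 1 ≤ g) {k : ℕ} (hk : 1 ≤ k) : ∃ c : ℝ, 0 < c ∧ ∃ Q : ℕ,
    ∀ (F : Type) [Field F] [Finite F], (2 : F) ≠ 0 → Q ≤ Nat.card F → ∃ h₀ : ℕ, ∀ h ≥ h₀,
      c * (Nat.card F : ℝ) ^ (h * ((2 * g + 1) * ((2 * g + 1) + 1) / 2) + (2 * g + 1) + k + 1) ≤
        (Nat.card {p : F[X] × F[X][X] // p.1.natDegree ≤ k ∧ Fam (2 * g + 1) h p.2 ∧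
          GoodP g h k p.1 p.2} : ℝ) := by
  classical
  obtain ⟨c, hc, q0, hsh⟩ := share hg
  obtain ⟨c', hc', Q, hch⟩ := choose_bd k (c := c / 12) (by positivity)
  refine ⟨c / 2 * c', by positivity, max (max q0 Q) 30, fun F _ _ h2 hQ => ?_⟩
  have hq0 : q0 ≤ Nat.card F := ((le_max_left _ _).trans (le_max_left _ _)).trans hQ
  have hQ1 : Q ≤ Nat.card F := ((le_max_right _ _).trans (le_max_left _ _)).trans hQ
  have hq30 : 30 ≤ Nat.card F := (le_max_right _ _).trans hQ
  obtain ⟨e, he⟩ := exists_conf (F := F)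
  have hLpos : 0 < Nat.card F / 5 := by omega
  have hL6 : (Nat.card F : ℝ) / 6 ≤ ((Nat.card F / 5 : ℕ) : ℝ) := by
    rw [div_le_iff₀ (by norm_num : (0 : ℝ) < 6)]
    have h3 : Nat.card F ≤ Nat.card F / 5 * 6 := by omega
    exact_mod_cast h3
  have hsh' := fun i : Fin (Nat.card F / 5) => hsh F h2 hq0 (fun s => e (i, s)) (fun s s' hss => by
    have h3 := he hss
    exact (Prod.mk.inj h3).2)
  choose H hH using hsh'
  refine ⟨Finset.univ.sup H, fun h hh => ?_⟩
  have hfin := fam_finite (F := F) (2 * g + 1) h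
  let G : Fin (Nat.card F / 5) → {f : F[X][X] // Fam (2 * g + 1) h f} → Prop :=
    fun i f => GoodC g h (fun s => e (i, s)) f.1
  have hG : ∀ i, c * (Nat.card {f : F[X][X] // Fam (2 * g + 1) h f} : ℝ) ≤
      Nat.card {a : {f : F[X][X] // Fam (2 * g + 1) h f} // G i a} := by
    intro i
    refine (hH i h ((Finset.le_sup (Finset.mem_univ i)).trans hh)).trans (le_of_eq ?_)
    congr 1
    refine Nat.card_congr ?_
    exact
      { toFun := fun f => ⟨⟨f.1, f.2.fam.1⟩, f.2⟩
        invFun := fun a => ⟨a.1.1, a.2⟩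
        left_inv := fun _ => rfl
        right_inv := fun _ => rfl }
  have hrm := rev_markov hLpos G hG
  -- the number of `D` for one `f`
  have hD : ∀ f : {f : F[X][X] // Fam (2 * g + 1) h f},
      c / 2 * ((Nat.card F / 5 : ℕ) : ℝ) ≤ (Nat.card {i // G i f} : ℝ) →
      c' * (Nat.card F : ℝ) ^ (k + 1) ≤
        (Nat.card {D : F[X] // D.natDegree ≤ k ∧ GoodP g h k D f.1} : ℝ) := by
    intro f hf
    let I : Finset (Fin (Nat.card F / 5)) := Finset.univ.filter fun i => G i f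
    have hIc : I.card = Nat.card {i // G i f} := card_filt _
    obtain ⟨y, hy, hyD⟩ := selTriv_good h2 hg e he f.1 I (fun i hi => (Finset.mem_filter.1 hi).2)
    have h3 := count_D hk e he I y hy (fun D => GoodP g h k D f.1)
      (fun a ha i hi T hT hiT hc => by rw [← hc]; exact hyD a ha i hi T hT hiT)
    have h4 : c / 12 * (Nat.card F : ℝ) ≤ (I.card : ℝ) := by
      rw [hIc]
      refine le_trans ?_ hf
      have h5 := mul_le_mul_of_nonneg_left hL6 (by positivity : (0 : ℝ) ≤ c / 2)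
      refine le_trans (le_of_eq ?_) h5
      ring
    refine (hch (Nat.card F) hQ1 I.card h4).trans ?_
    exact_mod_cast h3
  -- the pairs
  have hfinD : Finite {D : F[X] // D.natDegree ≤ k} := by
    have h5 : {p : F[X] | p.natDegree ≤ k}.Finite := Pool.Agent.H94.PC.finite_natDegree_le F k
    exact h5.to_subtype
  let B := {f : {f : F[X][X] // Fam (2 * g + 1) h f} //
    c / 2 * ((Nat.card F / 5 : ℕ) : ℝ) ≤ (Nat.card {i // G i f} : ℝ)}
  let Y : B → Type := fun f => {D : F[X] // D.natDegree ≤ k ∧ GoodP g h k D f.1.1}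
  have hYf : ∀ f, Finite (Y f) := fun f =>
    Finite.of_injective (fun D : Y f => (⟨D.1, D.2.1⟩ : {D : F[X] // D.natDegree ≤ k}))
      (fun D D' hDD => by
        have h5 : D.1 = D'.1 := congrArg (fun z : {D : F[X] // D.natDegree ≤ k} => z.1) hDD
        exact Subtype.ext h5)
  have hBf : Finite B := inferInstance
  let _ : Fintype B := Fintype.ofFinite B
  have hfinP : Finite {p : F[X] × F[X][X] // p.1.natDegree ≤ k ∧ Fam (2 * g + 1) h p.2 ∧
      GoodP g h k p.1 p.2} := by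
    refine Finite.of_injective (β := {D : F[X] // D.natDegree ≤ k} ×
      {f : F[X][X] // Fam (2 * g + 1) h f}) (fun p => (⟨p.1.1, p.2.1⟩, ⟨p.1.2, p.2.2.1⟩)) ?_
    intro p p' hpp
    obtain ⟨h5, h6⟩ := Prod.mk.inj hpp
    exact Subtype.ext (Prod.ext (Subtype.ext_iff.1 h5) (Subtype.ext_iff.1 h6))
  have hle : Nat.card (Σ f : B, Y f) ≤ Nat.card {p : F[X] × F[X][X] // p.1.natDegree ≤ k ∧
      Fam (2 * g + 1) h p.2 ∧ GoodP g h k p.1 p.2} := by
    refine Nat.card_le_card_of_injective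
      (fun x => ⟨(x.2.1, x.1.1.1), x.2.2.1, x.1.1.2, x.2.2.2⟩) ?_
    rintro ⟨f, D⟩ ⟨f', D'⟩ hxx
    have h5 := Subtype.ext_iff.1 hxx
    obtain ⟨h6, h7⟩ := Prod.mk.inj h5
    have h8 : f = f' := Subtype.ext (Subtype.ext h7)
    subst h8
    have h9 : D = D' := Subtype.ext h6
    rw [h9]
  have hsum : (Nat.card B : ℝ) * (c' * (Nat.card F : ℝ) ^ (k + 1)) ≤
      (Nat.card (Σ f : B, Y f) : ℝ) := by
    rw [Nat.card_sigma]
    push_cast
    calc (Nat.card B : ℝ) * (c' * (Nat.card F : ℝ) ^ (k + 1))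
        = ∑ _f : B, c' * (Nat.card F : ℝ) ^ (k + 1) := by
          rw [Finset.sum_const, Finset.card_univ, nsmul_eq_mul, Nat.card_eq_fintype_card]
      _ ≤ ∑ f : B, (Nat.card (Y f) : ℝ) := Finset.sum_le_sum fun f _ => hD f.1 f.2
  have hcard : (Nat.card {f : F[X][X] // Fam (2 * g + 1) h f} : ℝ) =
      (Nat.card F : ℝ) ^ (h * ((2 * g + 1) * ((2 * g + 1) + 1) / 2) + (2 * g + 1)) := by
    rw [Pool.Agent.H40.GC.fmc_all, Mh_eq]
    push_cast
    rfl
  have hB : c / 2 * (Nat.card {f : F[X][X] // Fam (2 * g + 1) h f} : ℝ) ≤ (Nat.card B : ℝ) := hrm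
  calc c / 2 * c' * (Nat.card F : ℝ) ^
        (h * ((2 * g + 1) * ((2 * g + 1) + 1) / 2) + (2 * g + 1) + k + 1)
      = (c / 2 * (Nat.card {f : F[X][X] // Fam (2 * g + 1) h f} : ℝ)) *
          (c' * (Nat.card F : ℝ) ^ (k + 1)) := by
        rw [hcard, add_assoc _ k 1, pow_add]
        ring
    _ ≤ (Nat.card B : ℝ) * (c' * (Nat.card F : ℝ) ^ (k + 1)) :=
        mul_le_mul_of_nonneg_right hB (by positivity)
    _ ≤ (Nat.card (Σ f : B, Y f) : ℝ) := hsum
    _ ≤ _ := by exact_mod_cast hle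

end Pool.Agent.H94.GG
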