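import Pool.Agent.H94.GG.Defs

set_option autoImplicit false

/-!
# [H94 GG IA] Isotropic subspaces: basic lemmas

`tau hg z` is the coefficient of `x ^ (deg g - 1)` of the representative of degree `< deg g` of `z` in `k[x]/(g)`.
* `tau_mk`: unfold (`AdjoinRoot.modByMonicHom_mk`).  `tau_small`: `p %ₘ g = p` and the coefficient is `0` (or all is `0` if `deg g = 0`: not possible here).
* `isot_mul_sq`: with the subspace `X' = {z⁻¹ x : x ∈ X}` (`X.map` of the multiplication by `z⁻¹`, an injective linear map: same `finrank`); `β z² (z⁻¹ x) (z⁻¹ y) = β x y`.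
* `isot_of_mul_sq`: the same with `z⁻¹`.  `isot_mul_sq_iff`: both.
* `isot_C_mul`: the same subspace, `tau` is linear (`mk g (C c) * z = c • z`).
* `isot_of_le`: choose a subspace `X' ≤ X` of dimension `deg g / 2` (for example `Submodule.exists_finrank_eq..`, or the span of a part of a basis of `X`; `exists_submodule_finrank_le` or similar).
-/

namespace Pool.Agent.H94.GG

open Polynomial

variable {k : Type} [Field k]

theorem tau_mk {g : k[X]} (hg : g.Monic) (p : k[X]) :
    tau hg (AdjoinRoot.mk g p) = (p %ₘ g).coeff (g.natDegree - 1) := by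
  unfold tau
  rw [LinearMap.comp_apply, AdjoinRoot.modByMonicHom_mk hg p, lcoeff_apply]

theorem tau_small {g : k[X]} (hg : g.Monic) {p : k[X]} (hp : p.natDegree + 2 ≤ g.natDegree) :
    tau hg (AdjoinRoot.mk g p) = 0 := by
  rw [tau_mk, (modByMonic_eq_self_iff hg).2 (degree_lt_degree (by omega))]
  exact coeff_eq_zero_of_natDegree_lt (by omega)

theorem tau_C_mul {g : k[X]} (hg : g.Monic) (c : k) (z : AdjoinRoot g) :
    tau hg (AdjoinRoot.mk g (C c) * z) = c * tau hg z := by
  have h : AdjoinRoot.mk g (C c) * z = c • z := by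
    rw [Algebra.smul_def]
    rfl
  rw [h, map_smul, smul_eq_mul]

theorem isot_mul_sq {g : k[X]} {β z : AdjoinRoot g} (h : Isot g β) (hz : IsUnit z) :
    Isot g (β * z ^ 2) := by
  obtain ⟨hg, X', hX, hX'⟩ := h
  obtain ⟨u, rfl⟩ := hz
  refine ⟨hg, X'.map (DistribMulAction.toLinearEquiv k (AdjoinRoot g) u⁻¹).toLinearMap, ?_, ?_⟩
  · rw [LinearEquiv.finrank_map_eq, hX]
  · rintro _ ⟨x, hx, rfl⟩ _ ⟨y, hy, rfl⟩
    have e : β * (u : AdjoinRoot g) ^ 2 *
        ((DistribMulAction.toLinearEquiv k (AdjoinRoot g) u⁻¹).toLinearMap x) *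
        ((DistribMulAction.toLinearEquiv k (AdjoinRoot g) u⁻¹).toLinearMap y) = β * x * y := by
      simp only [LinearEquiv.coe_coe, DistribMulAction.toLinearEquiv_apply, Units.smul_def,
        smul_eq_mul]
      have h1 : (u : AdjoinRoot g) * ((u⁻¹ : (AdjoinRoot g)ˣ) : AdjoinRoot g) = 1 := u.mul_inv
      linear_combination (β * x * y) *
        ((u : AdjoinRoot g) * ((u⁻¹ : (AdjoinRoot g)ˣ) : AdjoinRoot g) + 1) * h1
    rw [e]
    exact hX' x hx y hy

theorem isot_mul_sq_iff {g : k[X]} {β z : AdjoinRoot g} (hz : IsUnit z) :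
    Isot g (β * z ^ 2) ↔ Isot g β := by
  refine ⟨fun h => ?_, fun h => isot_mul_sq h hz⟩
  obtain ⟨u, rfl⟩ := hz
  have h2 := isot_mul_sq h (u⁻¹).isUnit
  have e : β * (u : AdjoinRoot g) ^ 2 * ((u⁻¹ : (AdjoinRoot g)ˣ) : AdjoinRoot g) ^ 2 = β := by
    rw [mul_assoc, ← mul_pow, u.mul_inv, one_pow, mul_one]
  rwa [e] at h2

theorem isot_C_mul {g : k[X]} {β : AdjoinRoot g} (c : k) (h : Isot g β) :
    Isot g (AdjoinRoot.mk g (C c) * β) := by
  obtain ⟨hg, X', hX, hX'⟩ := h
  refine ⟨hg, X', hX, fun x hx y hy => ?_⟩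
  have e : AdjoinRoot.mk g (C c) * β * x * y = AdjoinRoot.mk g (C c) * (β * x * y) := by ring
  rw [e, tau_C_mul, hX' x hx y hy, mul_zero]

theorem isot_of_le {g : k[X]} (hg : g.Monic) {β : AdjoinRoot g} (X : Submodule k (AdjoinRoot g))
    (hX : g.natDegree / 2 ≤ Module.finrank k X) (h : ∀ x ∈ X, ∀ y ∈ X, tau hg (β * x * y) = 0) :
    Isot g β := by
  obtain ⟨f, hf⟩ := exists_linearIndependent_of_le_finrank hX
  have hf' : LinearIndependent k (fun i => (f i : AdjoinRoot g)) :=
    hf.map' X.subtype (Submodule.ker_subtype X)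
  refine ⟨hg, Submodule.span k (Set.range fun i => (f i : AdjoinRoot g)), ?_, ?_⟩
  · rw [finrank_span_eq_card hf', Fintype.card_fin]
  · have hle : Submodule.span k (Set.range fun i => (f i : AdjoinRoot g)) ≤ X := by
      rw [Submodule.span_le]
      rintro _ ⟨i, rfl⟩
      exact (f i).2
    exact fun x hx y hy => h x (hle hx) y (hle hy)

end Pool.Agent.H94.GG
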