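import Pool.Agent.H94.GG.IB1

set_option autoImplicit false

/-!
# [H94 GG IB] Moving lemma for Mumford pairs

`desc D g P = (-D) ^ (deg P) P(θ)` in `k[x]/(g)`.
* `desc_isUnit`: `P` prime to `g`, `D ≠ 0` (as `descent_isUnit` in `H80/CC/Plane`).  `desc_mul`: degrees of monic polynomials add up.  `desc_one`: `desc D g 1 = 1`.
* `move`.  If `P = 1` take `P' = Q' = 1`.  Otherwise replace `Q` by `Q %ₘ P` (`P ∣ C D * Q ^ 2 - g` remains true): `deg Q < n = deg P`.  Let `P S = D Q² - g`, and by `exists_shift` for `B * g` choose `c ≠ 0` with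
  `T = S + 2 D c Q + D c² P` prime to `B * g`.  Then `P T = D (Q + c P)² - g`, `deg (Q + c P) = n` with leading coefficient `c`.
  - If `2 n > m = deg g` (`m` is odd): `P T` has degree `2 n` and leading coefficient `D c²`; so `T` has degree `n` and leading coefficient `D c²`; `P' = C (D c²)⁻¹ * T`, `Q' = Q + c P`;
    `desc P * desc P' = (-D) ^ (2 n) (D c²)⁻¹ (P T)(θ) = (-D) ^ (2 n) (D c²)⁻¹ D Q'(θ)² = ((-D) ^ n c⁻¹ Q'(θ))²`.
  - If `2 n < m`: `P T` has degree `m` and leading coefficient `-1`; `T` has degree `m - n`, `P' = -T`; `desc P * desc P' = (-D) ^ m (-1) (P T)(θ) = D ^ m D Q'(θ)² = (D ^ ((m + 1) / 2) Q'(θ))²`.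
  `z` is a unit as `z²` is a product of units.  `IsMum D g P' Q'`: `P'` divides `P T`, `P'` is prime to `g` and to `B` as `T` is.
-/

namespace Pool.Agent.H94.GG

open Polynomial

variable {k : Type} [Field k]

theorem desc_isUnit {D : k} (hD : D ≠ 0) {g P : k[X]} (hP : IsCoprime P g) :
    IsUnit (desc D g P) := by
  refine IsUnit.mul (IsUnit.pow _ ?_) ?_
  · have h1 : IsUnit (C (-D) : k[X]) := by
      rw [isUnit_C, isUnit_iff_ne_zero]
      exact neg_ne_zero.2 hD
    exact h1.map _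
  · obtain ⟨s, t, hst⟩ := hP
    refine IsUnit.of_mul_eq_one (AdjoinRoot.mk g s) ?_
    rw [← map_mul, ← map_one (AdjoinRoot.mk g), ← hst, map_add, map_mul (AdjoinRoot.mk g) t g,
      AdjoinRoot.mk_self, mul_zero, add_zero, mul_comm]

theorem desc_mul {D : k} {g P P' : k[X]} (hP : P.Monic) (hP' : P'.Monic) :
    desc D g (P * P') = desc D g P * desc D g P' := by
  unfold desc
  rw [hP.natDegree_mul hP', pow_add, map_mul]
  ring

theorem desc_one (D : k) (g : k[X]) : desc D g 1 = 1 := by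
  unfold desc
  rw [natDegree_one, pow_zero, map_one, mul_one]

private theorem fin_step (D : k) (hD : D ≠ 0) {g P P' Q' : k[X]} {u : k} {N : ℕ}
    (hu : IsCoprime P g) (hu' : IsCoprime P' g) (hN : P.natDegree + P'.natDegree = N)
    (hPP : P * P' = C u * (C D * Q' ^ 2 - g)) {w : k} (hw : (-D) ^ N * (u * D) = w ^ 2) :
    ∃ z : AdjoinRoot g, IsUnit z ∧ desc D g P * desc D g P' = z ^ 2 := by
  have key : desc D g P * desc D g P' = (AdjoinRoot.mk g (C w * Q')) ^ 2 := by
    calc desc D g P * desc D g P' =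
          AdjoinRoot.mk g (C (-D)) ^ N * AdjoinRoot.mk g (P * P') := by
          unfold desc
          rw [← hN, pow_add, map_mul]
          ring
      _ = AdjoinRoot.mk g (C ((-D) ^ N * (u * D)) * Q' ^ 2) := by
          rw [hPP, ← map_pow, ← map_mul]
          have h1 : C (-D) ^ N * (C u * (C D * Q' ^ 2 - g)) =
              C ((-D) ^ N * (u * D)) * Q' ^ 2 + g * (-(C (-D) ^ N * C u)) := by
            rw [C_mul, C_pow, C_mul]
            ring
          rw [h1, map_add, map_mul (AdjoinRoot.mk g) g, AdjoinRoot.mk_self, zero_mul, add_zero]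
      _ = (AdjoinRoot.mk g (C w * Q')) ^ 2 := by
          rw [hw, ← map_pow, C_pow]
          congr 1
          ring
  refine ⟨_, ?_, key⟩
  have h1 := (desc_isUnit hD hu).mul (desc_isUnit hD hu')
  rw [key] at h1
  exact (isUnit_pow_iff two_ne_zero).1 h1

theorem move [Infinite k] (h2 : (2 : k) ≠ 0) {D : k} (hD : D ≠ 0) {g P Q : k[X]} (hg : g.Monic)
    (hodd : Odd g.natDegree) (h : IsMum D g P Q) {B : k[X]} (hB : B ≠ 0) :
    ∃ (P' Q' : k[X]) (z : AdjoinRoot g), IsMum D g P' Q' ∧ IsCoprime P' B ∧ IsUnit z ∧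
      desc D g P * desc D g P' = z ^ 2 := by
  obtain ⟨hP, hcop, hdvd⟩ := h
  by_cases hP1 : P = 1
  · refine ⟨1, 1, 1, ⟨monic_one, isCoprime_one_left, one_dvd _⟩, isCoprime_one_left, isUnit_one, ?_⟩
    rw [hP1, desc_one]
    ring
  obtain ⟨Q0, hQ0⟩ : ∃ Q0 : k[X], Q0 = Q %ₘ P := ⟨_, rfl⟩
  have hQdeg : Q0.natDegree < P.natDegree := by
    rw [hQ0]
    exact natDegree_modByMonic_lt Q hP hP1
  have hdvd0 : P ∣ C D * Q0 ^ 2 - g := by
    have h1 : Q0 = Q - P * (Q /ₘ P) := by rw [hQ0, modByMonic_eq_sub_mul_div]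
    have h3 : C D * Q0 ^ 2 - g = (C D * Q ^ 2 - g) + P * (C D * (P * (Q /ₘ P) ^ 2 - 2 * Q * (Q /ₘ P))) := by
      rw [h1]
      ring
    rw [h3]
    exact dvd_add hdvd (dvd_mul_right _ _)
  obtain ⟨S, hS⟩ := hdvd0
  obtain ⟨c, hc, hT⟩ := exists_shift h2 hD hcop hS (mul_ne_zero hB hg.ne_zero)
  obtain ⟨T, hTd⟩ : ∃ T : k[X], T = S + C (2 * D * c) * Q0 + C (D * c ^ 2) * P := ⟨_, rfl⟩
  rw [← hTd] at hT
  have hTB : IsCoprime T B := hT.of_mul_right_left
  have hTg : IsCoprime T g := hT.of_mul_right_right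
  obtain ⟨Q', hQ'⟩ : ∃ Q' : k[X], Q' = Q0 + C c * P := ⟨_, rfl⟩
  have hPT : P * T = C D * Q' ^ 2 - g := by
    have h3 : P * T = P * S + C (2 * D * c) * Q0 * P + C (D * c ^ 2) * P ^ 2 := by
      rw [hTd]
      ring
    rw [h3, ← hS, hQ']
    simp only [C_mul, C_pow, map_ofNat]
    ring
  have hcPn : (C c * P).natDegree = P.natDegree := natDegree_C_mul hc
  have hcPl : (C c * P).leadingCoeff = c := by rw [leadingCoeff_mul, leadingCoeff_C, hP.leadingCoeff, mul_one]
  have hlt : Q0.natDegree < (C c * P).natDegree := by rw [hcPn]; exact hQdeg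
  have hQn : Q'.natDegree = P.natDegree := by
    rw [hQ', natDegree_add_eq_right_of_natDegree_lt hlt, hcPn]
  have hQl : Q'.leadingCoeff = c := by
    rw [hQ', leadingCoeff_add_of_degree_lt (degree_lt_degree hlt), hcPl]
  have hQ0' : Q' ≠ 0 := by
    intro h3
    rw [h3, leadingCoeff_zero] at hQl
    exact hc hQl.symm
  have hDQn : (C D * Q' ^ 2).natDegree = 2 * P.natDegree := by
    rw [natDegree_C_mul hD, natDegree_pow, hQn]
  have hDQl : (C D * Q' ^ 2).leadingCoeff = D * c ^ 2 := by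
    rw [leadingCoeff_mul, leadingCoeff_C, leadingCoeff_pow, hQl]
  have hT0 : T ≠ 0 := by
    rintro rfl
    have h3 : C D * Q' ^ 2 = g := by rw [← sub_eq_zero, ← hPT, mul_zero]
    obtain ⟨a, ha⟩ := hodd
    rw [h3] at hDQn
    omega
  have hPTn : (P * T).natDegree = P.natDegree + T.natDegree := hP.natDegree_mul' hT0
  have hPTl : (P * T).leadingCoeff = T.leadingCoeff := by rw [leadingCoeff_mul, hP.leadingCoeff, one_mul]
  have hDc : D * c ^ 2 ≠ 0 := mul_ne_zero hD (pow_ne_zero 2 hc)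
  rcases lt_or_ge g.natDegree (2 * P.natDegree) with h3 | h3
  · have h4 : g.natDegree < (C D * Q' ^ 2).natDegree := by rw [hDQn]; exact h3
    have h5 : (P * T).natDegree = 2 * P.natDegree := by
      rw [hPT, natDegree_sub_eq_left_of_natDegree_lt h4, hDQn]
    have h6 : (P * T).leadingCoeff = D * c ^ 2 := by
      rw [hPT, leadingCoeff_sub_of_degree_lt (degree_lt_degree h4), hDQl]
    rw [hPTl] at h6
    have hu : IsUnit (C (D * c ^ 2)⁻¹ : k[X]) := by
      rw [isUnit_C, isUnit_iff_ne_zero]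
      exact inv_ne_zero hDc
    have hc1 : IsCoprime (C (D * c ^ 2)⁻¹ * T) g := (isCoprime_mul_unit_left_left hu T g).2 hTg
    obtain ⟨z, hz, hz2⟩ := fin_step D hD (P' := C (D * c ^ 2)⁻¹ * T) (Q' := Q') (u := (D * c ^ 2)⁻¹)
      (N := 2 * P.natDegree) (w := (-D) ^ P.natDegree * c⁻¹) hcop hc1
      (by rw [natDegree_C_mul (inv_ne_zero hDc)]; omega)
      (by rw [← hPT]; ring)
      (by
        rw [mul_pow, ← pow_mul, mul_comm P.natDegree 2]
        congr 1
        field_simp)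
    refine ⟨C (D * c ^ 2)⁻¹ * T, Q', z, ⟨?_, hc1, ?_⟩, (isCoprime_mul_unit_left_left hu T B).2 hTB, hz, hz2⟩
    · refine monic_C_mul_of_mul_leadingCoeff_eq_one ?_
      rw [h6, inv_mul_cancel₀ hDc]
    · rw [← hPT, hu.mul_left_dvd]
      exact dvd_mul_left _ _
  · have h3' : 2 * P.natDegree < g.natDegree := by
      obtain ⟨a, ha⟩ := hodd
      omega
    have h4 : (C D * Q' ^ 2).natDegree < g.natDegree := by rw [hDQn]; exact h3'
    have h5 : (P * T).natDegree = g.natDegree := by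
      rw [hPT, natDegree_sub_eq_right_of_natDegree_lt h4]
    have h6 : (P * T).leadingCoeff = -1 := by
      rw [hPT, leadingCoeff_sub_of_degree_lt' (degree_lt_degree h4), hg.leadingCoeff]
    rw [hPTl] at h6
    have hc1 : IsCoprime (-T) g := hTg.neg_left
    obtain ⟨a, ha⟩ := hodd
    obtain ⟨z, hz, hz2⟩ := fin_step D hD (P' := -T) (Q' := Q') (u := -1)
      (N := g.natDegree) (w := (-D) ^ (a + 1)) hcop hc1
      (by rw [natDegree_neg]; omega)
      (by rw [← hPT, C_neg, C_1]; ring)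
      (by
        rw [ha, ← pow_mul]
        ring)
    refine ⟨-T, Q', z, ⟨?_, hc1, ?_⟩, hTB.neg_left, hz, hz2⟩
    · unfold Monic
      rw [leadingCoeff_neg, h6, neg_neg]
    · rw [← hPT, neg_dvd]
      exact dvd_mul_left _ _

end Pool.Agent.H94.GG
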