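import Pool.Agent.H94.GG.Defs

/-!
# [H94 GG IB1] A shift which avoids a given polynomial

`k` infinite, `2 ≠ 0`, `D ≠ 0`, `P S = D Q² - f`, `P` prime to `f`, `B ≠ 0`.  `T c = S + 2 D c Q + D c² P`.  There is `c ≠ 0` with `T c` prime to `B`.
Proof.  For each irreducible (prime) `π` there are at most two `c` with `π ∣ T c`: if `π ∣ T c₁, T c₂, T c₃` for three different constants then the differences
`T c₁ - T c₂ = D (c₁ - c₂) (2 Q + (c₁ + c₂) P)` give `π ∣ 2 Q + (c₁ + c₂) P` and `π ∣ 2 Q + (c₁ + c₃) P`, so `π ∣ (c₂ - c₃) P`, `π ∣ P`, `π ∣ Q` (`2 ≠ 0`), and `π ∣ f = D Q² - P S`: contradiction with `P` prime to `f`.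
So `{c | π ∣ T c}` is finite (a subset of a pair, or `Set.Finite` because no three different elements).  The set of `c` such that `T c` is not prime to `B` is contained in the union
of these sets for the finitely many `π` in `(UniqueFactorizationMonoid.normalizedFactors B).toFinset` (a common non-unit factor of `T c` and `B` has a prime factor; `isCoprime_of_prime_dvd` / `EuclideanDomain`,
`UniqueFactorizationMonoid.exists_mem_normalizedFactors_of_dvd`), so finite, and `{c | c = 0}` is finite; `k` is infinite: `Set.Infinite.exists_notMem_finset` or `Set.Finite.infinite_compl`.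
-/

set_option autoImplicit false

namespace Pool.Agent.H94.GG

open Polynomial

private theorem three {k : Type} [Field k] (h2 : (2 : k) ≠ 0) {D : k} (hD : D ≠ 0)
    {f P Q S : k[X]} (hcop : IsCoprime P f) (hS : C D * Q ^ 2 - f = P * S) {π : k[X]}
    (hπ : Prime π) {c₁ c₂ c₃ : k} (h12 : c₁ ≠ c₂) (h13 : c₁ ≠ c₃) (h23 : c₂ ≠ c₃)
    (h1 : π ∣ S + C (2 * D * c₁) * Q + C (D * c₁ ^ 2) * P)
    (h2' : π ∣ S + C (2 * D * c₂) * Q + C (D * c₂ ^ 2) * P)
    (h3 : π ∣ S + C (2 * D * c₃) * Q + C (D * c₃ ^ 2) * P) : False := by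
  have hunit : ∀ a : k, a ≠ 0 → IsUnit (C a : k[X]) := fun a ha => by
    rw [isUnit_C]
    exact isUnit_iff_ne_zero.2 ha
  have key : ∀ a b : k, a ≠ b → π ∣ S + C (2 * D * a) * Q + C (D * a ^ 2) * P →
      π ∣ S + C (2 * D * b) * Q + C (D * b ^ 2) * P → π ∣ 2 * Q + C (a + b) * P := by
    intro a b hab ha hb
    have h4 := dvd_sub ha hb
    have h5 : S + C (2 * D * a) * Q + C (D * a ^ 2) * P - (S + C (2 * D * b) * Q + C (D * b ^ 2) * P) =
        C (D * (a - b)) * (2 * Q + C (a + b) * P) := by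
      simp only [C_mul, C_sub, C_add, C_pow]
      have : (C (2 : k) : k[X]) = 2 := rfl
      rw [this]
      ring
    rw [h5] at h4
    exact ((hunit _ (mul_ne_zero hD (sub_ne_zero.2 hab))).dvd_mul_left).1 h4
  have k12 := key _ _ h12 h1 h2'
  have k13 := key _ _ h13 h1 h3
  have k1 : π ∣ P := by
    have h4 := dvd_sub k12 k13
    have h5 : 2 * Q + C (c₁ + c₂) * P - (2 * Q + C (c₁ + c₃) * P) = C (c₂ - c₃) * P := by
      simp only [C_sub, C_add]
      ring
    rw [h5] at h4
    exact ((hunit _ (sub_ne_zero.2 h23)).dvd_mul_left).1 h4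
  have k2 : π ∣ Q := by
    have h4 : π ∣ C 2 * Q := by
      have h5 : (C 2 * Q : k[X]) = (2 * Q + C (c₁ + c₂) * P) - C (c₁ + c₂) * P := by
        have : (C (2 : k) : k[X]) = 2 := rfl
        rw [this]
        ring
      rw [h5]
      exact dvd_sub k12 (k1.mul_left _)
    exact ((hunit _ h2).dvd_mul_left).1 h4
  have k3 : π ∣ f := by
    have h5 : f = C D * Q ^ 2 - P * S := by rw [← hS]; ring
    rw [h5]
    exact dvd_sub ((dvd_pow k2 (by norm_num)).mul_left _) (k1.mul_right _)
  exact hπ.not_isUnit (hcop.isUnit_of_dvd' k1 k3)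

theorem exists_shift {k : Type} [Field k] [Infinite k] (h2 : (2 : k) ≠ 0) {D : k} (hD : D ≠ 0)
    {f P Q S : k[X]} (hcop : IsCoprime P f) (hS : C D * Q ^ 2 - f = P * S) {B : k[X]}
    (hB : B ≠ 0) :
    ∃ c : k, c ≠ 0 ∧ IsCoprime (S + C (2 * D * c) * Q + C (D * c ^ 2) * P) B := by
  classical
  have hfin : ∀ π : k[X], Prime π →
      {c : k | π ∣ S + C (2 * D * c) * Q + C (D * c ^ 2) * P}.Finite := by
    intro π hπ
    by_cases h0 : ∃ a b : k, a ≠ b ∧ π ∣ S + C (2 * D * a) * Q + C (D * a ^ 2) * P ∧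
        π ∣ S + C (2 * D * b) * Q + C (D * b ^ 2) * P
    · obtain ⟨a, b, hab, ha, hb⟩ := h0
      refine (Set.toFinite ({a, b} : Set k)).subset fun c hc => ?_
      by_contra hc'
      rw [Set.mem_insert_iff, Set.mem_singleton_iff, not_or] at hc'
      exact three h2 hD hcop hS hπ hab (Ne.symm hc'.1) (Ne.symm hc'.2) ha hb hc
    · refine Set.Subsingleton.finite fun a ha b hb => ?_
      by_contra hab
      exact h0 ⟨a, b, hab, ha, hb⟩
  have hbad : ({c : k | ¬ IsCoprime (S + C (2 * D * c) * Q + C (D * c ^ 2) * P) B} ∪ {0}).Finite := by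
    refine Set.Finite.union ?_ (Set.finite_singleton 0)
    refine ((UniqueFactorizationMonoid.normalizedFactors B).toFinset.finite_toSet.biUnion
      (t := fun π => {c : k | π ∣ S + C (2 * D * c) * Q + C (D * c ^ 2) * P}) ?_).subset ?_
    · intro π hπ
      rw [Finset.mem_coe, Multiset.mem_toFinset] at hπ
      exact hfin π (UniqueFactorizationMonoid.prime_of_normalized_factor π hπ)
    · intro c hc
      rw [Set.mem_ofPred_eq] at hc
      rw [Set.mem_iUnion₂]
      by_contra hcon
      apply hc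
      apply isCoprime_of_prime_dvd (fun h => hB h.2)
      intro z hz hzT hzB
      obtain ⟨π, hπ, hzπ⟩ := UniqueFactorizationMonoid.exists_mem_normalizedFactors_of_dvd hB
        hz.irreducible hzB
      exact hcon ⟨π, by rwa [Finset.mem_coe, Multiset.mem_toFinset], hzπ.symm.dvd.trans hzT⟩
  obtain ⟨c, hc⟩ := hbad.infinite_compl.nonempty
  rw [Set.mem_compl_iff, Set.mem_union, not_or, Set.mem_ofPred_eq, not_not, Set.mem_singleton_iff] at hc
  exact ⟨c, hc.2, hc.1⟩

end Pool.Agent.H94.GG
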