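import Pool.Agent.H94.GG.IB

set_option autoImplicit false

/-!
# [H94 GG IC] A value of the descent map is, up to squares, the value at one Mumford pair

`IsVal D g δ`: `δ * γ ^ 2 = ∏ i, desc D g (P i)` with Mumford pairs `(P i, Q i)`.
* `pair_mul`: two pairs `(P₁, Q₁)`, `(P₂, Q₂)`; by `move` (with `B = P₁ ≠ 0`, monic) replace `(P₂, Q₂)` by `(P', Q')` with `P'` prime to `P₁` and `desc P₂ * desc P' = z ^ 2`.  `P = P₁ P'` and `Q` by the Chinese remainder theorem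
  (`u P₁ + v P' = 1`, `Q = Q' u P₁ + Q₁ v P'`): `P₁ ∣ Q - Q₁`, `P' ∣ Q - Q'`, so `P₁` and `P'`, and so `P` (coprime), divide `C D * Q ^ 2 - g`.  `desc P = desc P₁ * desc P'` (`desc_mul`), so
  `desc P₁ * desc P₂ * (desc P') ^ 2 = desc P * z ^ 2`; all these are units (`desc_isUnit`).
* `one_pair`: induction on `r` for products over `Fin r` (`Fin.prod_univ_succ`, or `Finset.induction` over a finset of indices): a product of descents is `desc P` up to squares of units; the empty product is `desc 1 = 1` with the pair `(1, 0)`.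
  `γ` is a unit as `γ ^ 2` divides a unit.
-/

namespace Pool.Agent.H94.GG

open Polynomial

variable {k : Type} [Field k]

theorem pair_mul [Infinite k] (h2 : (2 : k) ≠ 0) {D : k} (hD : D ≠ 0) {g : k[X]} (hg : g.Monic)
    (hodd : Odd g.natDegree) {P₁ Q₁ P₂ Q₂ : k[X]} (h₁ : IsMum D g P₁ Q₁) (h₂ : IsMum D g P₂ Q₂) :
    ∃ (P Q : k[X]) (a b : AdjoinRoot g), IsMum D g P Q ∧ IsUnit a ∧ IsUnit b ∧
      desc D g P₁ * desc D g P₂ * a ^ 2 = desc D g P * b ^ 2 := by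
  obtain ⟨P', Q', z, h', hcop, hz, hzz⟩ := move h2 hD hg hodd h₂ h₁.1.ne_zero
  obtain ⟨u, v, huv⟩ := hcop
  have hcop' : IsCoprime P₁ P' := ⟨v, u, by rw [add_comm]; exact huv⟩
  have e1 : P₁ ∣ C D * (Q' * (v * P₁) + Q₁ * (u * P')) ^ 2 - g := by
    have h3 : C D * (Q' * (v * P₁) + Q₁ * (u * P')) ^ 2 - g =
        (C D * Q₁ ^ 2 - g) + P₁ * (C D * v * (Q' - Q₁) * (2 * Q₁ + v * P₁ * (Q' - Q₁))) := by
      have h4 : u * P' = 1 - v * P₁ := by rw [← huv]; ring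
      rw [h4]
      ring
    rw [h3]
    exact dvd_add h₁.2.2 (dvd_mul_right _ _)
  have e2 : P' ∣ C D * (Q' * (v * P₁) + Q₁ * (u * P')) ^ 2 - g := by
    have h3 : C D * (Q' * (v * P₁) + Q₁ * (u * P')) ^ 2 - g =
        (C D * Q' ^ 2 - g) + P' * (C D * u * (Q₁ - Q') * (2 * Q' + u * P' * (Q₁ - Q'))) := by
      have h4 : v * P₁ = 1 - u * P' := by rw [← huv]; ring
      rw [h4]
      ring
    rw [h3]
    exact dvd_add h'.2.2 (dvd_mul_right _ _)
  refine ⟨P₁ * P', Q' * (v * P₁) + Q₁ * (u * P'), desc D g P', z, ⟨h₁.1.mul h'.1,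
    h₁.2.1.mul_left h'.2.1, hcop'.mul_dvd e1 e2⟩, desc_isUnit hD h'.2.1, hz, ?_⟩
  rw [desc_mul h₁.1 h'.1, ← hzz]
  ring

theorem one_pair [Infinite k] (h2 : (2 : k) ≠ 0) {D : k} (hD : D ≠ 0) {g : k[X]} (hg : g.Monic)
    (hodd : Odd g.natDegree) {δ : AdjoinRoot g} (h : IsVal D g δ) :
    ∃ (P Q : k[X]) (a b : AdjoinRoot g), IsMum D g P Q ∧ IsUnit a ∧ IsUnit b ∧
      δ * a ^ 2 = desc D g P * b ^ 2 := by
  obtain ⟨r, P, Q, γ, hPQ, he⟩ := h
  have key : ∀ s : Finset (Fin r), ∃ (P' Q' : k[X]) (a b : AdjoinRoot g), IsMum D g P' Q' ∧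
      IsUnit a ∧ IsUnit b ∧ (∏ i ∈ s, desc D g (P i)) * a ^ 2 = desc D g P' * b ^ 2 := by
    intro s
    induction s using Finset.induction_on with
    | empty =>
      refine ⟨1, 0, 1, 1, ⟨monic_one, isCoprime_one_left, one_dvd _⟩, isUnit_one, isUnit_one, ?_⟩
      rw [Finset.prod_empty, desc_one]
    | insert i s hi ih =>
      obtain ⟨P', Q', a, b, h', ha, hb, hab⟩ := ih
      obtain ⟨P'', Q'', a', b', h'', ha', hb', hab'⟩ := pair_mul h2 hD hg hodd (hPQ i) h'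
      refine ⟨P'', Q'', a * a', b * b', h'', ha.mul ha', hb.mul hb', ?_⟩
      rw [Finset.prod_insert hi]
      calc desc D g (P i) * (∏ i ∈ s, desc D g (P i)) * (a * a') ^ 2
          = desc D g (P i) * ((∏ i ∈ s, desc D g (P i)) * a ^ 2) * a' ^ 2 := by ring
        _ = (desc D g (P i) * desc D g P' * a' ^ 2) * b ^ 2 := by rw [hab]; ring
        _ = desc D g P'' * (b * b') ^ 2 := by rw [hab']; ring
  obtain ⟨P', Q', a, b, h', ha, hb, hab⟩ := key Finset.univ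
  have hu : IsUnit (∏ i, desc D g (P i)) := by
    have := IsUnit.prod_univ_iff (f := fun i => desc D g (P i))
    exact this.2 fun i => desc_isUnit hD (hPQ i).2.1
  have hγ : IsUnit γ := by
    rw [← he] at hu
    exact (isUnit_pow_iff (two_ne_zero)).1 (isUnit_of_mul_isUnit_right hu)
  refine ⟨P', Q', γ * a, b, h', hγ.mul ha, hb, ?_⟩
  rw [← hab, ← he]
  ring

end Pool.Agent.H94.GG
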