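import Pool.Agent.H94.GG.IA

set_option autoImplicit false

/-!
# [H94 GG ID] The isotropic subspace of a Mumford pair

`g` monic of odd degree `m = 2 γ + 1`, `(P, Q)` a Mumford pair of `D y² = g(x)`, `n = deg P`.  Then `P(θ)⁻¹` (so also `P(θ)`, by `isot_mul_sq`) has an isotropic subspace of dimension `γ`.
Let `a = (n + m) / 2`, `b = n / 2` (natural number division), `U` the space of the `(u, w)` with `deg u < a`, `deg w < b` and `P ∣ u + w Q` (`degreeLT k a × degreeLT k b`, kernel of a linear map to `k[x]/(P)`, which has dimension `n`).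
* `a + b - n = γ` (check the parity of `n`), so `dim U ≥ γ`.
* `(u, w) ↦ u(θ) = mk g u` is injective on `U`: let `g ∣ u`, `u = g u₁`.  `P ∣ (u + w Q) (u - w Q)`, and `D u² - w² g = D (u + w Q) (u - w Q) + w² (D Q² - g)`, so `P ∣ D u² - w² g = g (D g u₁² - w²)`; `P` is prime to `g`, so
  `P ∣ D g u₁² - w²`.  Degrees: if `u₁ ≠ 0`: `deg (g u₁²) = 2 deg u - m ≤ n - 2` as `2 deg u ≤ n + m - 2`; `2 deg w ≤ n - 2`; so `D g u₁² = w²` (a multiple of `P` of degree `< n`; if `n ≤ 1` then `w = 0` and the same argument with `2 deg u - m < 0`, i.e. `u₁ = 0`);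
  the degree of the left side is odd if `u₁ ≠ 0`, of the right side even: so `u₁ = 0`, `w = 0`.
* isotropic: for `(u, w), (u', w')` in `U`: `D u u' - w w' g = D (u u' - w w' Q²) + w w' (D Q² - g)` and `u u' - w w' Q² = u (u' + w' Q) - w' Q (u + w Q)`, so it is `P c`, with `deg (P c) ≤ n + m - 2` (if nonzero), so `deg c ≤ m - 2`.
  In `k[x]/(g)`: `D u(θ) u'(θ) = P(θ) c(θ)`, so `P(θ)⁻¹ u(θ) u'(θ) = D⁻¹ c(θ)` and `tau = D⁻¹ * 0 = 0` (`tau_small`, `tau_C_mul`).
Then `isot_of_le` for the image of `U`.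
-/

namespace Pool.Agent.H94.GG

open Polynomial

private theorem idd_dvd {k : Type} [Field k] {D : k} {g P Q u w u' w' : k[X]}
    (h : P ∣ C D * Q ^ 2 - g) (h1 : P ∣ u + w * Q) (h2 : P ∣ u' + w' * Q) :
    P ∣ C D * (u * u') - w * w' * g := by
  have e : C D * (u * u') - w * w' * g =
      C D * (u * (u' + w' * Q) - w' * Q * (u + w * Q)) + w * w' * (C D * Q ^ 2 - g) := by ring
  rw [e]
  exact dvd_add (Dvd.dvd.mul_left (dvd_sub (Dvd.dvd.mul_left h2 _) (Dvd.dvd.mul_left h1 _)) _)
    (Dvd.dvd.mul_left h _)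

private theorem idd_deg {k : Type} [Field k] {u : k[X]} {a : ℕ} (hu : u.degree < a) :
    u = 0 ∨ u.natDegree + 1 ≤ a := by
  by_cases h : u = 0
  · exact Or.inl h
  · exact Or.inr ((natDegree_lt_iff_degree_lt h).2 hu)

private theorem idd_inj {k : Type} [Field k] {D : k} (hD : D ≠ 0) {g P Q u w : k[X]} (hg : g.Monic)
    (hodd : Odd g.natDegree) (h : IsMum D g P Q) (hu : u.degree < ((P.natDegree + g.natDegree) / 2 : ℕ))
    (hw : w.degree < (P.natDegree / 2 : ℕ)) (hU : P ∣ u + w * Q) (hgu : g ∣ u) : u = 0 ∧ w = 0 := by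
  obtain ⟨hP, hcop, hdvd⟩ := h
  obtain ⟨u₁, rfl⟩ := hgu
  have h1 := idd_dvd hdvd hU hU
  have e1 : C D * (g * u₁ * (g * u₁)) - w * w * g = g * (C D * g * u₁ ^ 2 - w ^ 2) := by ring
  rw [e1] at h1
  have h2 : P ∣ C D * g * u₁ ^ 2 - w ^ 2 := hcop.dvd_of_dvd_mul_left h1
  obtain ⟨j, hj⟩ := hodd
  have hCD : C D ≠ (0 : k[X]) := C_ne_zero.2 hD
  have hw' := idd_deg hw
  have hu' := idd_deg hu
  by_cases hu0 : u₁ = 0
  · subst hu0
    refine ⟨by ring, ?_⟩
    rcases hw' with hw' | hw'
    · exact hw'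
    · by_contra hw0
      have h3 : P ∣ w ^ 2 := by
        have := h2
        rw [show C D * g * (0 : k[X]) ^ 2 - w ^ 2 = -(w ^ 2) by ring, dvd_neg] at this
        exact this
      have h4 := natDegree_le_of_dvd h3 (pow_ne_zero 2 hw0)
      rw [natDegree_pow] at h4
      omega
  · exfalso
    have hg0 : g ≠ 0 := hg.ne_zero
    have hgu0 : g * u₁ ≠ 0 := mul_ne_zero hg0 hu0
    have h3 : (g * u₁).natDegree + 1 ≤ (P.natDegree + g.natDegree) / 2 := by
      rcases hu' with h | h
      · exact absurd h hgu0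
      · exact h
    rw [natDegree_mul hg0 hu0] at h3
    have hA0 : C D * g * u₁ ^ 2 ≠ 0 := mul_ne_zero (mul_ne_zero hCD hg0) (pow_ne_zero 2 hu0)
    have hAd : (C D * g * u₁ ^ 2).natDegree = g.natDegree + 2 * u₁.natDegree := by
      rw [natDegree_mul (mul_ne_zero hCD hg0) (pow_ne_zero 2 hu0), natDegree_mul hCD hg0, natDegree_C,
        natDegree_pow]
      omega
    have hwd : w ^ 2 = 0 ∨ ((w ^ 2).natDegree = 2 * w.natDegree ∧ w.natDegree + 1 ≤ P.natDegree / 2) := by
      rcases hw' with h | h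
      · left
        rw [h]
        ring
      · right
        exact ⟨natDegree_pow w 2, h⟩
    by_cases hne : C D * g * u₁ ^ 2 - w ^ 2 = 0
    · have h5 : C D * g * u₁ ^ 2 = w ^ 2 := sub_eq_zero.1 hne
      rcases hwd with h | ⟨h, h'⟩
      · exact hA0 (h5.trans h)
      · rw [h5] at hAd
        omega
    · have h6 := natDegree_le_of_dvd h2 hne
      have h7 := natDegree_sub_le (C D * g * u₁ ^ 2) (w ^ 2)
      have h8 : (w ^ 2).natDegree = 0 ∨ ((w ^ 2).natDegree = 2 * w.natDegree ∧ w.natDegree + 1 ≤ P.natDegree / 2) := by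
        rcases hwd with h | h
        · left
          rw [h, natDegree_zero]
        · exact Or.inr h
      rcases le_max_iff.1 (h6.trans h7) with h9 | h9
      · omega
      · rcases h8 with h | ⟨h, h'⟩
        · omega
        · omega

private theorem idd_iso {k : Type} [Field k] {D : k} (hD : D ≠ 0) {g P Q u w u' w' A B : k[X]} (hg : g.Monic)
    (hodd : Odd g.natDegree) (h3 : 3 ≤ g.natDegree) (h : IsMum D g P Q) (hA : A * P + B * g = 1)
    (hu : u.degree < ((P.natDegree + g.natDegree) / 2 : ℕ)) (hw : w.degree < (P.natDegree / 2 : ℕ))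
    (hu' : u'.degree < ((P.natDegree + g.natDegree) / 2 : ℕ)) (hw' : w'.degree < (P.natDegree / 2 : ℕ))
    (hU : P ∣ u + w * Q) (hU' : P ∣ u' + w' * Q) :
    tau hg (AdjoinRoot.mk g A * AdjoinRoot.mk g u * AdjoinRoot.mk g u') = 0 := by
  obtain ⟨hP, hcop, hdvd⟩ := h
  obtain ⟨c, hc⟩ := idd_dvd hdvd hU hU'
  obtain ⟨j, hj⟩ := hodd
  have hg0 : AdjoinRoot.mk g g = 0 := AdjoinRoot.mk_self
  have hcd : c.natDegree + 2 ≤ g.natDegree := by
    by_cases hc0 : c = 0
    · rw [hc0, natDegree_zero]
      omega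
    · have h4 : (P * c).natDegree = P.natDegree + c.natDegree := natDegree_mul hP.ne_zero hc0
      have h5 := natDegree_sub_le (C D * (u * u')) (w * w' * g)
      rw [hc, h4] at h5
      have h6 : (C D * (u * u')).natDegree ≤ P.natDegree + g.natDegree - 2 := by
        have h7 : (C D * (u * u')).natDegree ≤ (C D).natDegree + (u * u').natDegree := natDegree_mul_le
        rw [natDegree_C] at h7
        have h8 : (u * u').natDegree ≤ u.natDegree + u'.natDegree := natDegree_mul_le
        rcases idd_deg hu with h | h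
        · rw [h]
          simp
        · rcases idd_deg hu' with h' | h'
          · rw [h']
            simp
          · omega
      have h9 : (w * w' * g).natDegree ≤ P.natDegree + g.natDegree - 2 := by
        have h7 : (w * w' * g).natDegree ≤ (w * w').natDegree + g.natDegree := natDegree_mul_le
        have h8 : (w * w').natDegree ≤ w.natDegree + w'.natDegree := natDegree_mul_le
        rcases idd_deg hw with h | h
        · rw [h]
          simp
        · rcases idd_deg hw' with h' | h'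
          · rw [h']
            simp
          · omega
      rcases le_max_iff.1 h5 with h10 | h10
      · omega
      · omega
  have e1 : AdjoinRoot.mk g A * AdjoinRoot.mk g P = 1 := by
    rw [← map_mul, show A * P = 1 - B * g by rw [← hA]; ring, map_sub, map_mul, hg0, mul_zero, sub_zero,
      map_one]
  have e2 : AdjoinRoot.mk g (C D) * (AdjoinRoot.mk g u * AdjoinRoot.mk g u') =
      AdjoinRoot.mk g P * AdjoinRoot.mk g c := by
    have := congrArg (AdjoinRoot.mk g) hc
    rw [map_sub, map_mul (AdjoinRoot.mk g) (w * w') g, hg0, mul_zero, sub_zero, map_mul, map_mul, map_mul] at this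
    exact this
  have e3 : AdjoinRoot.mk g (C D⁻¹) * AdjoinRoot.mk g (C D) = 1 := by
    rw [← map_mul, ← C_mul, inv_mul_cancel₀ hD, C_1, map_one]
  have e4 : AdjoinRoot.mk g A * AdjoinRoot.mk g u * AdjoinRoot.mk g u' =
      AdjoinRoot.mk g (C D⁻¹) * AdjoinRoot.mk g c := by
    calc AdjoinRoot.mk g A * AdjoinRoot.mk g u * AdjoinRoot.mk g u'
        = (AdjoinRoot.mk g (C D⁻¹) * AdjoinRoot.mk g (C D)) *
            (AdjoinRoot.mk g A * AdjoinRoot.mk g u * AdjoinRoot.mk g u') := by rw [e3, one_mul]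
      _ = AdjoinRoot.mk g (C D⁻¹) * (AdjoinRoot.mk g A *
            (AdjoinRoot.mk g (C D) * (AdjoinRoot.mk g u * AdjoinRoot.mk g u'))) := by ring
      _ = AdjoinRoot.mk g (C D⁻¹) * ((AdjoinRoot.mk g A * AdjoinRoot.mk g P) * AdjoinRoot.mk g c) := by
          rw [e2]
          ring
      _ = AdjoinRoot.mk g (C D⁻¹) * AdjoinRoot.mk g c := by rw [e1, one_mul]
  rw [e4, tau_C_mul, tau_small hg hcd, mul_zero]

theorem isot_pair {k : Type} [Field k] {D : k} (hD : D ≠ 0) {g P Q : k[X]} (hg : g.Monic)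
    (hodd : Odd g.natDegree) (h : IsMum D g P Q) : Isot g (AdjoinRoot.mk g P) := by
  obtain ⟨A, B, hAB⟩ := h.2.1
  have e1 : AdjoinRoot.mk g A * AdjoinRoot.mk g P = 1 := by
    rw [← map_mul, show A * P = 1 - B * g by rw [← hAB]; ring, map_sub, map_mul, AdjoinRoot.mk_self, mul_zero,
      sub_zero, map_one]
  have hunit : IsUnit (AdjoinRoot.mk g P) := IsUnit.of_mul_eq_one_right _ e1
  suffices hs : Isot g (AdjoinRoot.mk g A) by
    have h5 := isot_mul_sq hs hunit
    have e5 : AdjoinRoot.mk g A * AdjoinRoot.mk g P ^ 2 = AdjoinRoot.mk g P := by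
      rw [pow_two, ← mul_assoc, e1, one_mul]
    rwa [e5] at h5
  obtain ⟨j, hj⟩ := hodd
  rcases Nat.eq_zero_or_pos j with hj0 | hj0
  · refine isot_of_le hg ⊥ (by rw [hj, hj0]; simp) ?_
    intro x hx y hy
    rw [Submodule.mem_bot] at hx
    rw [hx, mul_zero, zero_mul, map_zero]
  · have hodd : Odd g.natDegree := ⟨j, hj⟩
    have hP : P.Monic := h.1
    let a := (P.natDegree + g.natDegree) / 2
    let b := P.natDegree / 2
    have hfP : FiniteDimensional k (AdjoinRoot P) := (AdjoinRoot.powerBasis' hP).finite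
    have hdP : Module.finrank k (AdjoinRoot P) = P.natDegree := by
      rw [(AdjoinRoot.powerBasis' hP).finrank, AdjoinRoot.powerBasis'_dim]
    let Φ : (degreeLT k a × degreeLT k b) →ₗ[k] AdjoinRoot P :=
      { toFun := fun v => AdjoinRoot.mk P ((v.1 : k[X]) + (v.2 : k[X]) * Q)
        map_add' := by
          intro v v'
          rw [← map_add]
          congr 1
          show ((v.1 : k[X]) + (v'.1 : k[X])) + ((v.2 : k[X]) + (v'.2 : k[X])) * Q = _
          ring
        map_smul' := by
          intro c v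
          rw [RingHom.id_apply, AdjoinRoot.smul_mk]
          congr 1
          show (c • (v.1 : k[X])) + (c • (v.2 : k[X])) * Q = _
          rw [smul_add, smul_mul_assoc] }
    let L : (degreeLT k a × degreeLT k b) →ₗ[k] AdjoinRoot g :=
      { toFun := fun v => AdjoinRoot.mk g (v.1 : k[X])
        map_add' := by
          intro v v'
          rw [← map_add]
          rfl
        map_smul' := by
          intro c v
          rw [RingHom.id_apply, AdjoinRoot.smul_mk]
          rfl }
    have hfa : FiniteDimensional k (degreeLT k a) := (degreeLTEquiv k a).symm.finiteDimensional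
    have hfb : FiniteDimensional k (degreeLT k b) := (degreeLTEquiv k b).symm.finiteDimensional
    have hda : Module.finrank k (degreeLT k a) = a := by
      rw [(degreeLTEquiv k a).finrank_eq, Module.finrank_fin_fun]
    have hdb : Module.finrank k (degreeLT k b) = b := by
      rw [(degreeLTEquiv k b).finrank_eq, Module.finrank_fin_fun]
    have hrk := LinearMap.finrank_range_add_finrank_ker Φ
    rw [Module.finrank_prod, hda, hdb] at hrk
    have hrl : Module.finrank k (LinearMap.range Φ) ≤ P.natDegree := by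
      rw [← hdP]
      exact Submodule.finrank_le _
    have hker : g.natDegree / 2 ≤ Module.finrank k (LinearMap.ker Φ) := by
      have ha : a = (P.natDegree + g.natDegree) / 2 := rfl
      have hb : b = P.natDegree / 2 := rfl
      omega
    have hmem : ∀ v : degreeLT k a × degreeLT k b, v ∈ LinearMap.ker Φ →
        P ∣ (v.1 : k[X]) + (v.2 : k[X]) * Q := by
      intro v hv
      rw [LinearMap.mem_ker] at hv
      exact AdjoinRoot.mk_eq_zero.1 hv
    have hinj : Function.Injective (L.domRestrict (LinearMap.ker Φ)) := by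
      rw [injective_iff_map_eq_zero]
      rintro ⟨v, hv⟩ hv0
      have h6 : g ∣ (v.1 : k[X]) := AdjoinRoot.mk_eq_zero.1 hv0
      obtain ⟨h7, h8⟩ := idd_inj hD hg hodd h (mem_degreeLT.1 v.1.2) (mem_degreeLT.1 v.2.2) (hmem v hv) h6
      apply Subtype.ext
      exact Prod.ext (Subtype.ext h7) (Subtype.ext h8)
    have hX : g.natDegree / 2 ≤ Module.finrank k (LinearMap.range (L.domRestrict (LinearMap.ker Φ))) := by
      rw [LinearMap.finrank_range_of_inj hinj]
      exact hker
    refine isot_of_le hg _ hX ?_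
    rintro x ⟨⟨v, hv⟩, rfl⟩ y ⟨⟨v', hv'⟩, rfl⟩
    exact idd_iso hD hg hodd (by omega) h hAB (mem_degreeLT.1 v.1.2) (mem_degreeLT.1 v.2.2)
      (mem_degreeLT.1 v'.1.2) (mem_degreeLT.1 v'.2.2) (hmem v hv) (hmem v' hv')

end Pool.Agent.H94.GG
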