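import Pool.Agent.H94.GG.IC
import Pool.Agent.H94.GG.ID

set_option autoImplicit false

/-!
# [H94 GG ISO] Values of the descent map are isotropic

`one_pair`, `isot_pair`, `isot_C_mul`, `isot_mul_sq_iff`: `δ a² = (-D) ^ n P(θ) b²`.
-/

namespace Pool.Agent.H94.GG

open Polynomial

theorem isot_of_isVal {k : Type} [Field k] [Infinite k] (h2 : (2 : k) ≠ 0) {D : k} (hD : D ≠ 0)
    {g : k[X]} (hg : g.Monic) (hodd : Odd g.natDegree) {δ : AdjoinRoot g} (h : IsVal D g δ) :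
    Isot g δ := by
  obtain ⟨P, Q, a, b, hPQ, ha, hb, he⟩ := one_pair h2 hD hg hodd h
  rw [← isot_mul_sq_iff ha, he, isot_mul_sq_iff hb, desc, ← map_pow, ← C_pow]
  exact isot_C_mul _ (isot_pair hD hg hodd hPQ)

end Pool.Agent.H94.GG
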