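import Pool.Agent.H94.GG.SDefs

set_option autoImplicit false

/-!
# [H94 GG SA] Even multiplicities above `v`, and the ideals

`O = AdjoinRoot f` a Dedekind domain, `b ≠ 0`.
* `exists_split`: the multiplicities of `(b)` at the primes above `v` are even: `(b) = I² J` with `s ∈ J`, `s ∈ F[t]`, `s ∉ v`.  `J` = product of the prime powers `w ^ e_w` of `(b)` over the primes `w` not above `v`, `I` = product of the `w ^ (e_w / 2)` over the primes above `v`
  (`Ideal.finprod_heightOneSpectrum_pow_multiplicity`, `finprod_mul_distrib`, or induction on factorizations; compare `exists_pow_ideal` in `H94/TL/Glob`).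
  For `w` not above `v`: `w ∩ F[t]` is a nonzero prime ideal (integral extension) different from `v`, so there is `s_w ∈ w ∩ F[t]`, `s_w ∉ v` (maximal ideals); `s = ∏ s_w ^ e_w`.
* `evAt_of_evB`: so `EvAt f v δ` if `δ c² = b`.
* `evB_all`: if the multiplicities are even at all primes above all `v` (every prime of `O` lies over some `v`: `hbelow` in the proof of `H94.TL.exists_twist`) then `(b) = I²` (`H94.TL.exists_pow_ideal`), so `IsS0 f δ`.
* `evAt_of_isS0`: `IsS0 f σ` gives `EvAt f v σ` for all `v` (`J = ⊤`, `s = 1`).  `evAt_mul`: products.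
-/

namespace Pool.Agent.H94.GG

open Polynomial WithZero IsDedekindDomain
open Pool.Agent.H80.CC.Plane (overK overKv constKv toL toLv)

variable {F : Type} [Field F]

section

variable {A : Type*} [CommRing A] {B : Type*} [CommRing B] [IsDedekindDomain B] [Algebra A B]
  [Algebra.IsIntegral A B] [IsDomain A]

private theorem below_max (w : HeightOneSpectrum B) [Ring.DimensionLEOne A] [Module.IsTorsionFree A B] :
    (w.asIdeal.under A).IsMaximal ∧ w.asIdeal.under A ≠ ⊥ := by
  have hne : w.asIdeal.under A ≠ ⊥ := by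
    intro h0
    exact w.ne_bot (Ideal.eq_bot_of_comap_eq_bot (R := A) h0)
  have hp : (w.asIdeal.under A).IsPrime := Ideal.IsPrime.under A w.asIdeal
  exact ⟨hp.isMaximal hne, hne⟩

private theorem exists_sep (v : HeightOneSpectrum A) (w : HeightOneSpectrum B) [Ring.DimensionLEOne A]
    [Module.IsTorsionFree A B] (h : ¬ w.asIdeal.LiesOver v.asIdeal) :
    ∃ s : A, algebraMap A B s ∈ w.asIdeal ∧ s ∉ v.asIdeal := by
  by_contra hcon
  push Not at hcon
  obtain ⟨hmax, hne⟩ := below_max (A := A) w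
  have hle : w.asIdeal.under A ≤ v.asIdeal := fun s hs => hcon s hs
  have he := hmax.eq_of_le v.isPrime.ne_top hle
  exact h ⟨he.symm⟩

private theorem split (v : HeightOneSpectrum A) [Ring.DimensionLEOne A] [Module.IsTorsionFree A B]
    (b : B) (hb : b ≠ 0)
    (h : ∀ w : HeightOneSpectrum B, w.asIdeal.LiesOver v.asIdeal →
      2 ∣ multiplicity w.asIdeal (Ideal.span {b})) :
    ∃ (I J : Ideal B) (s : A), Ideal.span {b} = I ^ 2 * J ∧ algebraMap A B s ∈ J ∧
      s ∉ v.asIdeal := by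
  classical
  have hJ0 : Ideal.span {b} ≠ (⊥ : Ideal B) := by
    rw [Ne, Ideal.span_singleton_eq_bot]
    exact hb
  have hfin : {w : HeightOneSpectrum B | w.asIdeal ∣ Ideal.span {b}}.Finite :=
    Ideal.finite_factors hJ0
  obtain ⟨S, hS⟩ : ∃ S : Finset (HeightOneSpectrum B), S = hfin.toFinset := ⟨_, rfl⟩
  have hprod : ∏ w ∈ S, w.asIdeal ^ multiplicity w.asIdeal (Ideal.span {b}) = Ideal.span {b} := by
    conv_rhs => rw [← Ideal.finprod_heightOneSpectrum_pow_multiplicity hJ0]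
    symm
    refine finprod_eq_prod_of_mulSupport_subset _ ?_
    intro w hw
    rw [Function.mem_mulSupport] at hw
    rw [hS, Finset.mem_coe, Set.Finite.mem_toFinset]
    show w.asIdeal ∣ Ideal.span {b}
    by_contra hd
    apply hw
    rw [multiplicity_eq_zero.2 hd, pow_zero]
  have hsep : ∀ w : HeightOneSpectrum B, ∃ s : A, ¬ w.asIdeal.LiesOver v.asIdeal →
      algebraMap A B s ∈ w.asIdeal ∧ s ∉ v.asIdeal := by
    intro w
    by_cases hw : w.asIdeal.LiesOver v.asIdeal
    · exact ⟨0, fun h => absurd hw h⟩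
    · obtain ⟨s, hs⟩ := exists_sep v w hw
      exact ⟨s, fun _ => hs⟩
  choose σ hσ using hsep
  refine ⟨∏ w ∈ S.filter (fun w => w.asIdeal.LiesOver v.asIdeal),
      w.asIdeal ^ (multiplicity w.asIdeal (Ideal.span {b}) / 2),
    ∏ w ∈ S.filter (fun w => ¬ w.asIdeal.LiesOver v.asIdeal),
      w.asIdeal ^ multiplicity w.asIdeal (Ideal.span {b}),
    ∏ w ∈ S.filter (fun w => ¬ w.asIdeal.LiesOver v.asIdeal),
      σ w ^ multiplicity w.asIdeal (Ideal.span {b}), ?_, ?_, ?_⟩
  · conv_lhs => rw [← hprod, ← Finset.prod_filter_mul_prod_filter_not S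
      (fun w => w.asIdeal.LiesOver v.asIdeal)]
    congr 1
    rw [← Finset.prod_pow]
    refine Finset.prod_congr rfl fun w hw => ?_
    rw [← pow_mul]
    congr 1
    exact (Nat.div_mul_cancel (h w (Finset.mem_filter.1 hw).2)).symm
  · rw [map_prod]
    refine Ideal.prod_mem_prod fun w hw => ?_
    rw [map_pow]
    exact Ideal.pow_mem_pow (hσ w (Finset.mem_filter.1 hw).2).1 _
  · have hv := v.isPrime
    intro hmem
    rw [hv.prod_mem_iff] at hmem
    obtain ⟨w, hw, hw2⟩ := hmem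
    exact (hσ w (Finset.mem_filter.1 hw).2).2 (hv.mem_of_pow_mem _ hw2)

end

theorem exists_split {f : F[X][X]} (hf : f.Monic) [IsDedekindDomain (AdjoinRoot f)]
    {v : HeightOneSpectrum F[X]} {b : AdjoinRoot f} (hb : b ≠ 0) (h : EvB f v b) :
    ∃ (I J : Ideal (AdjoinRoot f)) (s : F[X]), Ideal.span {b} = I ^ 2 * J ∧
      algebraMap F[X] (AdjoinRoot f) s ∈ J ∧ s ∉ v.asIdeal := by
  have hfin : Module.Finite F[X] (AdjoinRoot f) := hf.finite_adjoinRoot
  have hfree : Module.Free F[X] (AdjoinRoot f) := hf.free_adjoinRoot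
  have hint : Algebra.IsIntegral F[X] (AdjoinRoot f) := Algebra.IsIntegral.of_finite _ _
  exact split v b hb h

theorem evAt_of_evB {f : F[X][X]} (hf : f.Monic) [IsDedekindDomain (AdjoinRoot f)]
    {v : HeightOneSpectrum F[X]} {δ : AdjoinRoot (overK f)} {b c : AdjoinRoot f} (hb : b ≠ 0)
    (hc : c ≠ 0) (he : δ * toL f c ^ 2 = toL f b) (h : EvB f v b) : EvAt f v δ := by
  obtain ⟨I, J, s, h1, h2, h3⟩ := exists_split hf hb h
  exact ⟨I, J, b, c, s, hc, he, h1, h2, h3⟩

theorem evB_all {f : F[X][X]} (hf : f.Monic) [IsDedekindDomain (AdjoinRoot f)]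
    {δ : AdjoinRoot (overK f)} {b c : AdjoinRoot f} (hb : b ≠ 0) (hδ : δ ≠ 0)
    (hc : c ≠ 0) (he : δ * toL f c ^ 2 = toL f b)
    (hN : ∃ y : RatFunc F, Algebra.norm (RatFunc F) δ = y ^ 2)
    (h : ∀ v : HeightOneSpectrum F[X], EvB f v b) : IsS0 f δ := by
  have hfin : Module.Finite F[X] (AdjoinRoot f) := hf.finite_adjoinRoot
  have hfree : Module.Free F[X] (AdjoinRoot f) := hf.free_adjoinRoot
  have hint : Algebra.IsIntegral F[X] (AdjoinRoot f) := Algebra.IsIntegral.of_finite _ _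
  have hJ0 : Ideal.span {b} ≠ (⊥ : Ideal (AdjoinRoot f)) := by
    rw [Ne, Ideal.span_singleton_eq_bot]
    exact hb
  obtain ⟨I, hI, _⟩ := Pool.Agent.H94.TL.exists_pow_ideal 2 (Ideal.span {b}) hJ0 fun w => by
    obtain ⟨hmax, hne⟩ := below_max (A := F[X]) w
    exact h ⟨w.asIdeal.under F[X], hmax.isPrime, hne⟩ w ⟨rfl⟩
  exact ⟨hδ, hN, I, b, c, hc, he, hI.symm⟩

theorem evAt_of_isS0 {f : F[X][X]} {σ : AdjoinRoot (overK f)} (h : IsS0 f σ)
    (v : HeightOneSpectrum F[X]) : EvAt f v σ := by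
  obtain ⟨_, _, I, b, c, hc, he, hI⟩ := h
  refine ⟨I, ⊤, b, c, 1, hc, he, ?_, Submodule.mem_top, ?_⟩
  · rw [hI, Ideal.mul_top]
  · intro h1
    exact v.isPrime.ne_top ((Ideal.eq_top_iff_one _).2 h1)

theorem evAt_mul {f : F[X][X]} [IsDomain (AdjoinRoot f)] {v : HeightOneSpectrum F[X]}
    {δ δ' : AdjoinRoot (overK f)} (h : EvAt f v δ) (h' : EvAt f v δ') : EvAt f v (δ * δ') := by
  obtain ⟨I, J, b, c, s, hc, he, hI, hs, hs'⟩ := h
  obtain ⟨I', J', b', c', s', hc', he', hI', ht, ht'⟩ := h'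
  refine ⟨I * I', J * J', b * b', c * c', s * s', mul_ne_zero hc hc', ?_, ?_, ?_, ?_⟩
  · rw [map_mul, map_mul, ← he, ← he']
    ring
  · rw [← Ideal.span_singleton_mul_span_singleton, hI, hI']
    ring
  · rw [map_mul]
    exact Ideal.mul_mem_mul hs ht
  · intro h1
    rcases v.isPrime.mem_or_mem h1 with h2 | h2
    · exact hs' h2
    · exact ht' h2

end Pool.Agent.H94.GG
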