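import Pool.Agent.H94.GG.SA
import Mathlib

set_option autoImplicit false

/-!
# [H94 GG SB] The norm of an element which is even at `v`

`δ c² = b`, `(b) = I² J`, `s ∈ J`, `s ∉ v`.  Then `v (N δ)` is a square in `ℤᵐ⁰`.
`Ideal.relNorm F[X]` (multiplicative, `Ideal.relNorm_singleton`, `Algebra.intNorm_eq_norm`; see the proof of `H94.TL.glob_ideal`): `relNorm I = (g)`, `relNorm J = (j)` with `j ∣ N(s) = s ^ m`, so `j ∉ v`, and `N(b) = (unit) g² j`; `N(δ) N(c)² = N(b)` (`Algebra.norm_localization`), `v` of a unit is `1`.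
`par_even`: if the multiplicities of `b` at `w` above `v` satisfy `2 ∣ mult_w (b) + e(w/v) j` and `N(δ)` is a square, `deg f` odd, then they are even: let `v.asIdeal = (ϖ)` (`H94.TL.exists_gen`); `δ' = δ ϖ ^ j`, `b' = b ϖ ^ j`: `mult_w (b') = mult_w (b) + e j` (`mult_w (ϖ) = e(w/v)`:
see `exists_twist` in `H94/TL/Glob`), so `EvB f v b'`, `EvAt f v δ'`, `v (N δ') = v (N δ) exp (-1) ^ (m j)` is a square, so `m j` is even, `j` is even, and then `mult_w (b)` is even.
-/

namespace Pool.Agent.H94.GG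

open Polynomial WithZero IsDedekindDomain
open Pool.Agent.H80.CC.Plane (overK overKv constKv toL toLv)

section general

variable {A K : Type*} [CommRing A] [IsDomain A] [IsPrincipalIdealRing A] [Field K] [Algebra A K]
  [IsFractionRing A K]

variable {B : Type*} [CommRing B] [IsDedekindDomain B] [Algebra A B] [Module.IsTorsionFree A B]
  [Module.Free A B] [Module.Finite A B]

variable {L : Type*} [Field L] [Algebra K L] [Algebra A L] [IsScalarTower A K L]
  [Algebra B L] [IsFractionRing B L] [IsScalarTower A B L]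

theorem norm_gen (v : HeightOneSpectrum A) {δ : L} {b c : B} (hc : c ≠ 0)
    (he : δ * algebraMap B L c ^ 2 = algebraMap B L b) {I J : Ideal B}
    (hIJ : Ideal.span {b} = I ^ 2 * J) {s : A} (hs : algebraMap A B s ∈ J) (hsv : s ∉ v.asIdeal) :
    ∃ t : ℤᵐ⁰, v.valuation K (Algebra.norm K δ) = t ^ 2 := by
  have hfin : Module.finrank K L = Module.finrank A B := by
    rw [IsFractionRing.finrank_eq A K B L]
  have hfd : FiniteDimensional K L := by
    apply Module.finite_of_finrank_pos
    rw [hfin]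
    exact Module.finrank_pos
  have hnorm : ∀ z : B, Algebra.norm K (algebraMap B L z) =
      algebraMap A K (Algebra.norm A z) := by
    intro z
    exact Algebra.norm_localization A (nonZeroDivisors A) z
  obtain ⟨g, hg⟩ := (IsPrincipalIdealRing.principal (Ideal.relNorm A I)).principal
  obtain ⟨j, hj⟩ := (IsPrincipalIdealRing.principal (Ideal.relNorm A J)).principal
  have hg' : Ideal.relNorm A I = Ideal.span {g} := hg
  have hj' : Ideal.relNorm A J = Ideal.span {j} := hj
  have h1 := congrArg (Ideal.relNorm A) hIJ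
  rw [map_mul, map_pow, Ideal.relNorm_singleton, Algebra.intNorm_eq_norm, hg', hj',
    Ideal.span_singleton_pow, Ideal.span_singleton_mul_span_singleton,
    Ideal.span_singleton_eq_span_singleton] at h1
  obtain ⟨u, hu⟩ := h1
  -- `j` is prime to `v`
  have h2 : j ∣ s ^ Module.finrank A B := by
    have h3 : J ∣ Ideal.span {algebraMap A B s} := by
      rw [Ideal.dvd_span_singleton]
      exact hs
    have h4 := map_dvd (Ideal.relNorm A) h3
    rw [Ideal.relNorm_singleton, Algebra.intNorm_eq_norm, hj', Algebra.norm_algebraMap,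
      Ideal.dvd_span_singleton, Ideal.mem_span_singleton] at h4
    exact h4
  have h3 : j ∉ v.asIdeal := by
    intro h4
    apply hsv
    have h5 : s ^ Module.finrank A B ∈ v.asIdeal := by
      obtain ⟨x, hx⟩ := h2
      rw [hx]
      exact Ideal.mul_mem_right _ _ h4
    exact v.isPrime.mem_of_pow_mem _ h5
  have hvj : v.intValuation j = 1 := HeightOneSpectrum.intValuation_eq_one_iff.2 h3
  have hvu : v.intValuation (u : A) = 1 := by
    rw [HeightOneSpectrum.intValuation_eq_one_iff]
    intro h4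
    exact v.isPrime.ne_top (Ideal.eq_top_of_isUnit_mem _ h4 u.isUnit)
  have hcL : algebraMap B L c ≠ 0 := by
    rw [Ne, FaithfulSMul.algebraMap_eq_zero_iff]
    exact hc
  have h6 := congrArg (Algebra.norm K) he
  rw [map_mul, map_pow, hnorm, hnorm] at h6
  have h7 : (algebraMap A K (Algebra.norm A c)) ≠ 0 := by
    rw [← hnorm, Ne, Algebra.norm_eq_zero_iff]
    exact hcL
  have h8 := congrArg (v.valuation K) h6
  rw [map_mul, map_pow] at h8
  have h9 : v.valuation K (algebraMap A K (Algebra.norm A b)) = v.intValuation g ^ 2 := by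
    rw [HeightOneSpectrum.valuation_of_algebraMap]
    have h10 := congrArg v.intValuation hu
    rw [map_mul, map_mul, map_pow, hvj, hvu, mul_one, mul_one] at h10
    exact h10
  rw [h9] at h8
  refine ⟨v.intValuation g / v.valuation K (algebraMap A K (Algebra.norm A c)), ?_⟩
  have h11 : v.valuation K (algebraMap A K (Algebra.norm A c)) ≠ 0 := by
    rw [Valuation.ne_zero_iff]
    exact h7
  rw [div_pow, eq_div_iff (pow_ne_zero _ h11)]
  exact h8

/-- multiplicities of `b ϖ ^ j` -/
theorem mult_twist (v : HeightOneSpectrum A) {ϖ : A} (hϖ : ϖ ≠ 0) (hv : v.asIdeal = Ideal.span {ϖ})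
    {b : B} (hb : b ≠ 0) (j : ℕ) (w : HeightOneSpectrum B) (hw : w.asIdeal.LiesOver v.asIdeal) :
    multiplicity w.asIdeal (Ideal.span {b * algebraMap A B ϖ ^ j}) =
      multiplicity w.asIdeal (Ideal.span {b}) + v.asIdeal.ramificationIdx' w.asIdeal * j := by
  have hϖB : algebraMap A B ϖ ≠ 0 := by
    rw [Ne, FaithfulSMul.algebraMap_eq_zero_iff]
    exact hϖ
  have h1 := HeightOneSpectrum.intValuation_liesOver (B := B) v w ϖ
  rw [v.intValuation_singleton hϖ hv] at h1
  have h2 := HeightOneSpectrum.intValuation_eq_exp_neg_multiplicity w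
    (mul_ne_zero hb (pow_ne_zero j hϖB))
  rw [map_mul, map_pow, ← h1, HeightOneSpectrum.intValuation_eq_exp_neg_multiplicity w hb,
    ← pow_mul, ← exp_nsmul, ← exp_add, exp_inj] at h2
  simp only [nsmul_eq_mul] at h2
  push_cast at h2
  have h3 : ((multiplicity w.asIdeal (Ideal.span {b}) +
      v.asIdeal.ramificationIdx' w.asIdeal * j : ℕ) : ℤ) =
      (multiplicity w.asIdeal (Ideal.span {b * algebraMap A B ϖ ^ j}) : ℤ) := by
    push_cast
    linarith
  exact_mod_cast h3.symm

end general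

variable {F : Type} [Field F]

theorem norm_of_evAt {f : F[X][X]} (hf : f.Monic) [IsDedekindDomain (AdjoinRoot f)]
    {v : HeightOneSpectrum F[X]} {δ : AdjoinRoot (overK f)} (hδ : δ ≠ 0) (h : EvAt f v δ) :
    ∃ s : ℤᵐ⁰, v.valuation (RatFunc F) (Algebra.norm (RatFunc F) δ) = s ^ 2 := by
  classical
  let _ : Fact (Irreducible (overK f)) := ⟨H94.TC.irreducible_map (RatFunc F) f hf⟩
  let _ := (toL f).toAlgebra
  have : IsFractionRing (AdjoinRoot f) (AdjoinRoot (overK f)) :=
    H94.TC.isFractionRing_toField (RatFunc F) f hf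
  have := H94.TC.torsionFree_adjoinRoot f hf
  have : Module.Finite F[X] (AdjoinRoot f) := hf.finite_adjoinRoot
  have : Module.Free F[X] (AdjoinRoot f) := hf.free_adjoinRoot
  have : IsScalarTower F[X] (AdjoinRoot f) (AdjoinRoot (overK f)) := by
    refine IsScalarTower.of_algebraMap_eq fun x => ?_
    show _ = H94.TC.toField (RatFunc F) f _
    have h1 : algebraMap F[X] (AdjoinRoot f) x = AdjoinRoot.mk f (C x) := rfl
    rw [h1, H94.TC.toField_mk, Polynomial.map_C]
    rfl
  obtain ⟨I, J, b, c, s, hc, he, hIJ, hs, hsv⟩ := h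
  exact norm_gen (K := RatFunc F) (L := AdjoinRoot (overK f)) v hc he hIJ hs hsv

theorem par_even {f : F[X][X]} (hf : f.Monic) (hodd : Odd f.natDegree)
    [IsDedekindDomain (AdjoinRoot f)] {v : HeightOneSpectrum F[X]} {δ : AdjoinRoot (overK f)}
    {b c : AdjoinRoot f} (hb : b ≠ 0) (hδ : δ ≠ 0) (hc : c ≠ 0)
    (he : δ * toL f c ^ 2 = toL f b) (hN : ∃ y : RatFunc F, Algebra.norm (RatFunc F) δ = y ^ 2)
    {j : ℕ} (h : ∀ w : HeightOneSpectrum (AdjoinRoot f), w.asIdeal.LiesOver v.asIdeal →
      2 ∣ multiplicity w.asIdeal (Ideal.span {b}) +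
        v.asIdeal.ramificationIdx' w.asIdeal * j) : EvB f v b := by
  classical
  let _ : Fact (Irreducible (overK f)) := ⟨H94.TC.irreducible_map (RatFunc F) f hf⟩
  let _ := (toL f).toAlgebra
  have : IsFractionRing (AdjoinRoot f) (AdjoinRoot (overK f)) :=
    H94.TC.isFractionRing_toField (RatFunc F) f hf
  have := H94.TC.torsionFree_adjoinRoot f hf
  have : Module.Finite F[X] (AdjoinRoot f) := hf.finite_adjoinRoot
  have : Module.Free F[X] (AdjoinRoot f) := hf.free_adjoinRoot
  have : IsScalarTower F[X] (AdjoinRoot f) (AdjoinRoot (overK f)) := by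
    refine IsScalarTower.of_algebraMap_eq fun x => ?_
    show _ = H94.TC.toField (RatFunc F) f _
    have h1 : algebraMap F[X] (AdjoinRoot f) x = AdjoinRoot.mk f (C x) := rfl
    rw [h1, H94.TC.toField_mk, Polynomial.map_C]
    rfl
  have hfin : Module.finrank F[X] (AdjoinRoot f) = f.natDegree :=
    finrank_quotient_span_eq_natDegree' hf
  have hfinL : Module.finrank (RatFunc F) (AdjoinRoot (overK f)) = f.natDegree := by
    rw [← hfin, IsFractionRing.finrank_eq F[X] (RatFunc F) (AdjoinRoot f) (AdjoinRoot (overK f))]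
  obtain ⟨ϖ, hϖ, hv⟩ := H94.TL.exists_gen v
  have hϖB : algebraMap F[X] (AdjoinRoot f) ϖ ≠ 0 := by
    rw [Ne, FaithfulSMul.algebraMap_eq_zero_iff]
    exact hϖ
  have hϖK : algebraMap F[X] (RatFunc F) ϖ ≠ 0 := by
    rw [Ne, FaithfulSMul.algebraMap_eq_zero_iff]
    exact hϖ
  have hϖL : toL f (algebraMap F[X] (AdjoinRoot f) ϖ) =
      algebraMap (RatFunc F) (AdjoinRoot (overK f)) (algebraMap F[X] (RatFunc F) ϖ) := by
    have h1 : algebraMap (AdjoinRoot f) (AdjoinRoot (overK f))
        (algebraMap F[X] (AdjoinRoot f) ϖ) =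
        algebraMap (RatFunc F) (AdjoinRoot (overK f)) (algebraMap F[X] (RatFunc F) ϖ) := by
      rw [← IsScalarTower.algebraMap_apply, ← IsScalarTower.algebraMap_apply]
    exact h1
  have hev : EvB f v (b * algebraMap F[X] (AdjoinRoot f) ϖ ^ j) := by
    intro w hw
    rw [mult_twist v hϖ hv hb j w hw]
    exact h w hw
  have h1 : (algebraMap (RatFunc F) (AdjoinRoot (overK f)) (algebraMap F[X] (RatFunc F) ϖ)) ≠ 0 := by
    rw [Ne, map_eq_zero]
    exact hϖK
  have h2 : EvAt f v (δ * algebraMap (RatFunc F) (AdjoinRoot (overK f))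
      (algebraMap F[X] (RatFunc F) ϖ ^ j)) := by
    refine evAt_of_evB hf (mul_ne_zero hb (pow_ne_zero j hϖB)) hc ?_ hev
    rw [map_pow, map_mul, ← he, map_pow, hϖL]
    ring
  have h3 : δ * algebraMap (RatFunc F) (AdjoinRoot (overK f))
      (algebraMap F[X] (RatFunc F) ϖ ^ j) ≠ 0 := by
    rw [map_pow]
    exact mul_ne_zero hδ (pow_ne_zero _ h1)
  obtain ⟨s, hs⟩ := norm_of_evAt hf h3 h2
  obtain ⟨y, hy⟩ := hN
  have hy0 : y ≠ 0 := by
    rintro rfl
    have hfd : FiniteDimensional (RatFunc F) (AdjoinRoot (overK f)) := by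
      apply Module.finite_of_finrank_pos
      rw [hfinL]
      exact hodd.pos
    rw [zero_pow two_ne_zero, Algebra.norm_eq_zero_iff] at hy
    exact hδ hy
  rw [map_mul, hy, Algebra.norm_algebraMap, hfinL, map_mul, map_pow, ← pow_mul, map_pow,
    HeightOneSpectrum.valuation_of_algebraMap, v.intValuation_singleton hϖ hv] at hs
  have hvy : v.valuation (RatFunc F) y ≠ 0 := by
    rw [Valuation.ne_zero_iff]
    exact hy0
  have h4 : (exp (-((j * f.natDegree : ℕ) : ℤ)) : ℤᵐ⁰) = (s / v.valuation (RatFunc F) y) ^ 2 := by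
    have h9 : (exp (-1 : ℤ) : ℤᵐ⁰) ^ (f.natDegree * j) = exp (-((j * f.natDegree : ℕ) : ℤ)) := by
      rw [← exp_nsmul]
      congr 1
      simp only [nsmul_eq_mul]
      push_cast
      ring
    have h10 : (exp (-1 : ℤ) : ℤᵐ⁰) ^ (j * f.natDegree) = exp (-((j * f.natDegree : ℕ) : ℤ)) := by
      rw [mul_comm j, h9, mul_comm j]
    first
      | rw [div_pow, ← hs, h10, mul_div_cancel_left₀ _ (pow_ne_zero _ hvy)]
      | rw [div_pow, ← hs, h9, mul_div_cancel_left₀ _ (pow_ne_zero _ hvy)]
  have h5 : 2 ∣ j * f.natDegree := H94.TL.dvd_of_exp_eq_pow h4 two_ne_zero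
  have h6 : 2 ∣ j := by
    have h7 : Nat.Coprime 2 f.natDegree := (Nat.coprime_two_left).2 hodd
    exact h7.dvd_of_dvd_mul_right h5
  intro w hw
  have h8 := h w hw
  exact (Nat.dvd_add_left (h6.mul_left _)).1 h8

end Pool.Agent.H94.GG
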