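import Pool.Agent.H94.GG.TDefs

set_option autoImplicit false

/-!
# [H94 GG SDefs] THEOREM G, chapter SEL: definitions

* `embO v : F[t] → OO K_v`.
* `EvB f v b`: the multiplicities of the ideal `(b)` of `O = F[t][x]/(f)` at the primes above `v` are even.
-/

namespace Pool.Agent.H94.GG

open Polynomial WithZero IsDedekindDomain
open Pool.Agent.H80.CC.Plane (overK overKv constKv toL toLv)

variable {F : Type} [Field F]

/-- the embedding of `F[t]` into the valuation ring of `K_v` -/
noncomputable def embO (v : HeightOneSpectrum F[X]) : F[X] →+* OO (v.adicCompletion (RatFunc F)) :=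
  RingHom.codRestrict ((algebraMap (RatFunc F) (v.adicCompletion (RatFunc F))).comp
    (algebraMap F[X] (RatFunc F))) _ (fun a => by
      rw [Valuation.mem_integer_iff, RingHom.comp_apply]
      have h1 : (Valued.v (algebraMap (RatFunc F) (v.adicCompletion (RatFunc F))
        (algebraMap F[X] (RatFunc F) a)) : ℤᵐ⁰) = v.valuation (RatFunc F)
          (algebraMap F[X] (RatFunc F) a) := HeightOneSpectrum.valuedAdicCompletion_eq_valuation' v _
      rw [h1]
      exact v.valuation_le_one a)

theorem coe_embO (v : HeightOneSpectrum F[X]) (a : F[X]) :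
    ((embO v a : OO (v.adicCompletion (RatFunc F))) : v.adicCompletion (RatFunc F)) =
      constKv a v := rfl

theorem embO_val (v : HeightOneSpectrum F[X]) (a : F[X]) :
    (Valued.v ((embO v a : OO (v.adicCompletion (RatFunc F))) :
      v.adicCompletion (RatFunc F)) : ℤᵐ⁰) = v.intValuation a := by
  have h1 : (Valued.v (algebraMap (RatFunc F) (v.adicCompletion (RatFunc F))
        (algebraMap F[X] (RatFunc F) a)) : ℤᵐ⁰) = v.valuation (RatFunc F)
          (algebraMap F[X] (RatFunc F) a) := HeightOneSpectrum.valuedAdicCompletion_eq_valuation' v _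
  rw [← v.valuation_of_algebraMap (K := RatFunc F) a]
  exact h1

theorem map_embO (f : F[X][X]) (v : HeightOneSpectrum F[X]) :
    (f.map (embO v)).map (OO (v.adicCompletion (RatFunc F))).subtype = overKv f v := by
  unfold overKv overK
  rw [Polynomial.map_map, Polynomial.map_map]
  rfl

/-- the multiplicities of `b` at the primes above `v` are even -/
def EvB (f : F[X][X]) [IsDedekindDomain (AdjoinRoot f)] (v : HeightOneSpectrum F[X])
    (b : AdjoinRoot f) : Prop :=
  ∀ w : HeightOneSpectrum (AdjoinRoot f), w.asIdeal.LiesOver v.asIdeal →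
    2 ∣ multiplicity w.asIdeal (Ideal.span {b})

end Pool.Agent.H94.GG
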