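import Pool.Agent.H94.GG.TJ

set_option autoImplicit false

/-!
# [H94 GG TM] Squares of ideals at a special place

`Λ = AdjoinRoot S.f` over `OO M`, `f = (X - c) G` with `X - c`, `G` coprime over `OO M`, so `Λ = OO M × R₂`, `R₂ = (OO M)[X]/(G)`.
* `OO M` is a principal ideal ring (every nonzero element is a unit times a power of `ϖ`; every ideal is generated by an element of maximal valuation).  `R₂` is a domain (`G` is irreducible over `OO M`, as `Ḡ` is: it is a subring of the field `M[x]/(G)`, or argue with `ϖ`) in which every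
  nonzero element is a unit times a power of `ϖ`: a nonzero class has a representative `h` of degree `< deg G`, `h = ϖ ^ j u` with `ū ≠ 0`, coprime to `Ḡ`, and `unit_mod`.  So its ideals are principal.
* An ideal of `Λ` is principal: with idempotents, or through the ring isomorphism with the product.
* `ideal_sq`: `(b) = I ^ 2` and `b` becomes a unit in `AdjoinRoot S.fM` (so `b` is not a zero divisor in `Λ`; `Λ` injects, it is free over `OO M`).  `I = (i)`, `b = i² r`, `i² = b s`, so `s r = 1`: `b = i² r` with `r` a unit of `Λ`.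
* `ev_of_ideal`: `b = mk B`, `S.cl B` is a unit, `(mk B) = I ^ 2`: then `S.Ev (S.cl B)`: `i = mk z`, `r = mk u`, `u` is coprime to `S.f` modulo `ϖ` as `mk u` is a unit in `Λ`.
-/

namespace Pool.Agent.H94.GG

open Polynomial WithZero

private theorem map_mk' {R S : Type} [CommRing R] [CommRing S] (g : R →+* S) (p : R[X])
    (q : S[X]) (h : q ∣ p.map g) (u : R[X]) :
    AdjoinRoot.map g p q h (AdjoinRoot.mk p u) = AdjoinRoot.mk q (u.map g) := by
  have e : (AdjoinRoot.map g p q h).comp (AdjoinRoot.mk p) =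
      (AdjoinRoot.mk q).comp (mapRingHom g) := by
    apply Polynomial.ringHom_ext
    · intro a
      simp
    · simp
  exact RingHom.congr_fun e u

private theorem eq_ker {M : Type} [Field M] [hv : Valued M ℤᵐ⁰] {κ : Type} [Field κ]
    (L : Loc M κ) {f Q : (OO M)[X]} (hf : f.Monic) (hQ : Q ∣ f)
    (hirr : Irreducible (Q.map L.red)) {P : Ideal (AdjoinRoot f)} (hP : P.IsMaximal)
    (hm : AdjoinRoot.mk f Q ∈ P) :
    P = RingHom.ker (AdjoinRoot.map L.red f (Q.map L.red) (Polynomial.map_dvd L.red hQ)) := by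
  have : Module.Finite (OO M) (AdjoinRoot f) := hf.finite_adjoinRoot
  have : Algebra.IsIntegral (OO M) (AdjoinRoot f) := Algebra.IsIntegral.of_finite _ _
  have : Fact (Irreducible (Q.map L.red)) := ⟨hirr⟩
  have hmax : (P.comap (algebraMap (OO M) (AdjoinRoot f))).IsMaximal :=
    Ideal.isMaximal_comap_of_isIntegral_of_isMaximal P
  -- the elements of the kernel of the residue map are in `P`
  have h1 : ∀ x : OO M, L.red x = 0 → AdjoinRoot.of f x ∈ P := by
    intro x hx
    by_contra hn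
    have hn' : x ∉ P.comap (algebraMap (OO M) (AdjoinRoot f)) := hn
    obtain ⟨y, p, hp, he⟩ := hmax.exists_inv hn'
    have hu : IsUnit p := by
      rw [isUnit_iff_red L]
      intro h0
      have h3 := congrArg L.red he
      rw [map_add, map_mul, hx, h0, mul_zero, add_zero, map_one] at h3
      exact zero_ne_one h3
    exact hmax.ne_top (Ideal.eq_top_of_isUnit_mem _ hp hu)
  -- polynomials with zero reduction
  have h2 : ∀ R : (OO M)[X], R.map L.red = 0 → AdjoinRoot.mk f R ∈ P := by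
    intro R hR
    rw [R.as_sum_range_C_mul_X_pow, map_sum]
    refine Ideal.sum_mem _ (fun i _ => ?_)
    rw [map_mul, AdjoinRoot.mk_C]
    apply Ideal.mul_mem_right
    apply h1
    rw [← Polynomial.coeff_map, hR, Polynomial.coeff_zero]
  have hle : RingHom.ker (AdjoinRoot.map L.red f (Q.map L.red)
      (Polynomial.map_dvd L.red hQ)) ≤ P := by
    intro z hz
    obtain ⟨u, rfl⟩ := AdjoinRoot.mk_surjective z
    rw [RingHom.mem_ker, map_mk', AdjoinRoot.mk_eq_zero] at hz
    obtain ⟨q, hq⟩ := hz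
    obtain ⟨q', rfl⟩ := Polynomial.map_surjective _ L.surj q
    have h3 : (u - Q * q').map L.red = 0 := by
      rw [Polynomial.map_sub, Polynomial.map_mul, hq, sub_self]
    have h4 := h2 _ h3
    rw [map_sub, map_mul] at h4
    have h5 : AdjoinRoot.mk f Q * AdjoinRoot.mk f q' ∈ P := P.mul_mem_right _ hm
    have h6 := P.add_mem h4 h5
    rwa [sub_add_cancel] at h6
  have hkm : (RingHom.ker (AdjoinRoot.map L.red f (Q.map L.red)
      (Polynomial.map_dvd L.red hQ))).IsMaximal := by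
    apply RingHom.ker_isMaximal_of_surjective
    intro z
    obtain ⟨u, rfl⟩ := AdjoinRoot.mk_surjective z
    obtain ⟨u', rfl⟩ := Polynomial.map_surjective _ L.surj u
    exact ⟨AdjoinRoot.mk f u', map_mk' _ _ _ _ _⟩
  exact (hkm.eq_of_le hP.ne_top hle).symm

private theorem ex_ker {M : Type} [Field M] [hv : Valued M ℤᵐ⁰] {κ : Type} [Field κ]
    (L : Loc M κ) {f Q : (OO M)[X]} (hf : f.Monic) (hQ : Q ∣ f)
    (hirr : Irreducible (Q.map L.red)) : ∃ K : Ideal (AdjoinRoot f),
      ∀ P : Ideal (AdjoinRoot f), P.IsMaximal → AdjoinRoot.mk f Q ∈ P → P = K :=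
  ⟨_, fun _ hP hm => eq_ker L hf hQ hirr hP hm⟩

private theorem fin_max {M : Type} [Field M] [hv : Valued M ℤᵐ⁰] {κ : Type} [Field κ]
    {L : Loc M κ} (S : Spl L) : {I : Ideal (AdjoinRoot S.f) | I.IsMaximal}.Finite := by
  obtain ⟨Q, hQ⟩ : ∃ Q : (OO M)[X], Q = X - C S.c := ⟨_, rfl⟩
  have hf : S.f = Q * S.G := by rw [hQ]; rfl
  have hirr : Irreducible (Q.map L.red) := by
    rw [hQ, Polynomial.map_sub, map_X, map_C]
    exact irreducible_X_sub_C _
  obtain ⟨K1, hK1⟩ := ex_ker L S.f_monic ⟨S.G, hf⟩ hirr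
  obtain ⟨K2, hK2⟩ := ex_ker L S.f_monic ⟨Q, hf.trans (mul_comm _ _)⟩ S.irr
  refine ((Set.finite_singleton K2).insert K1).subset ?_
  intro P hP
  have hP' : P.IsMaximal := hP
  have h0 : AdjoinRoot.mk S.f Q * AdjoinRoot.mk S.f S.G ∈ P := by
    rw [← map_mul, ← hf, AdjoinRoot.mk_self]
    exact P.zero_mem
  rcases hP'.isPrime.mem_or_mem h0 with h | h
  · exact Or.inl (hK1 P hP' h)
  · exact Or.inr (hK2 P hP' h)

theorem ideal_sq {M : Type} [Field M] [hv : Valued M ℤᵐ⁰] {κ : Type} [Field κ] {L : Loc M κ}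
    (S : Spl L) {b : AdjoinRoot S.f} {I : Ideal (AdjoinRoot S.f)} (hI : Ideal.span {b} = I ^ 2)
    (hb : b ∈ nonZeroDivisors (AdjoinRoot S.f)) :
    ∃ i r : AdjoinRoot S.f, IsUnit r ∧ b = i ^ 2 * r := by
  have hu : IsUnit (I : FractionalIdeal (nonZeroDivisors (AdjoinRoot S.f))
      (FractionRing (AdjoinRoot S.f))) := by
    have h1 : IsUnit ((Ideal.span {b} : Ideal (AdjoinRoot S.f)) :
        FractionalIdeal (nonZeroDivisors (AdjoinRoot S.f)) (FractionRing (AdjoinRoot S.f))) := by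
      rw [FractionalIdeal.coeIdeal_span_singleton]
      have hb' : IsUnit (algebraMap (AdjoinRoot S.f) (FractionRing (AdjoinRoot S.f)) b) :=
        IsLocalization.map_units _ ⟨b, hb⟩
      obtain ⟨w, hw⟩ := hb'
      refine IsUnit.of_mul_eq_one (FractionalIdeal.spanSingleton _ ((w⁻¹ : Units _) :
        FractionRing (AdjoinRoot S.f))) ?_
      rw [FractionalIdeal.spanSingleton_mul_spanSingleton, ← hw, Units.mul_inv,
        FractionalIdeal.spanSingleton_one]
    rw [hI, FractionalIdeal.coeIdeal_pow] at h1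
    exact (isUnit_pow_iff two_ne_zero).mp h1
  obtain ⟨⟨i, hi⟩⟩ := Ideal.IsPrincipal.of_finite_maximals_of_isUnit (fin_max S) hu
  have hi' : I = Ideal.span {i} := hi
  rw [hi', Ideal.span_singleton_pow] at hI
  obtain ⟨r, hr⟩ : i ^ 2 ∣ b := by
    rw [← Ideal.mem_span_singleton, ← hI]
    exact Ideal.mem_span_singleton_self b
  obtain ⟨s, hs⟩ : b ∣ i ^ 2 := by
    rw [← Ideal.mem_span_singleton, hI]
    exact Ideal.mem_span_singleton_self _
  refine ⟨i, r, ?_, hr⟩
  have h3 : b * (s * r - 1) = 0 := by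
    rw [mul_sub, ← mul_assoc, ← hs, ← hr, mul_one, sub_self]
  have h4 : s * r - 1 = 0 := (mul_right_mem_nonZeroDivisors_eq_zero_iff hb).mp
    (by rw [mul_comm]; exact h3)
  exact IsUnit.of_mul_eq_one s (by rw [mul_comm]; exact sub_eq_zero.mp h4)

theorem ev_of_ideal {M : Type} [Field M] [hv : Valued M ℤᵐ⁰] {κ : Type} [Field κ] {L : Loc M κ}
    (S : Spl L) {B : (OO M)[X]} {I : Ideal (AdjoinRoot S.f)}
    (hI : Ideal.span {AdjoinRoot.mk S.f B} = I ^ 2) (hb : IsUnit (S.cl B)) : S.Ev (S.cl B) := by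
  let ψ : AdjoinRoot S.f →+* AdjoinRoot S.fM :=
    AdjoinRoot.map (OO M).subtype S.f S.fM (dvd_refl _)
  have hψ : ∀ u, ψ (AdjoinRoot.mk S.f u) = S.cl u := fun u => map_mk' _ _ _ _ _
  have hinj : ∀ z, ψ z = 0 → z = 0 := by
    intro z hz
    obtain ⟨u, rfl⟩ := AdjoinRoot.mk_surjective z
    rw [hψ, Spl.cl, AdjoinRoot.mk_eq_zero, Spl.fM,
      Polynomial.map_dvd_map _ Subtype.val_injective S.f_monic] at hz
    exact AdjoinRoot.mk_eq_zero.mpr hz
  have hnz : AdjoinRoot.mk S.f B ∈ nonZeroDivisors (AdjoinRoot S.f) := by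
    rw [mem_nonZeroDivisors_iff_right]
    intro x hx
    apply hinj
    have h1 := congrArg ψ hx
    rw [map_mul, hψ, map_zero] at h1
    exact (IsUnit.mul_left_eq_zero hb).mp h1
  obtain ⟨i, r, hr, he⟩ := ideal_sq S hI hnz
  obtain ⟨z, rfl⟩ := AdjoinRoot.mk_surjective i
  obtain ⟨u, rfl⟩ := AdjoinRoot.mk_surjective r
  have he' : S.cl B = S.cl z ^ 2 * S.cl u := by
    have h1 := congrArg ψ he
    rw [map_mul, map_pow, hψ, hψ, hψ] at h1
    exact h1
  refine ⟨S.cl z, u, ?_, ?_, he'⟩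
  · rw [he'] at hb
    exact (isUnit_pow_iff two_ne_zero).mp (isUnit_of_mul_isUnit_left hb)
  · obtain ⟨s, hs⟩ := hr.exists_right_inv
    obtain ⟨s, rfl⟩ := AdjoinRoot.mk_surjective s
    have h1 : AdjoinRoot.mk S.f (u * s - 1) = 0 := by
      rw [map_sub, map_mul, hs, map_one, sub_self]
    rw [AdjoinRoot.mk_eq_zero] at h1
    obtain ⟨q, hq⟩ := h1
    have h2 := congrArg (Polynomial.map L.red) hq
    rw [Polynomial.map_sub, Polynomial.map_mul, Polynomial.map_mul, Polynomial.map_one] at h2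
    refine ⟨s.map L.red, - q.map L.red, ?_⟩
    linear_combination h2

end Pool.Agent.H94.GG
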