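import Pool.Agent.H94.GG.SP
import Pool.Agent.H94.GG.TM

set_option autoImplicit false

/-!
# [H94 GG SQ] Even at a special place means of even type

`EvAt f v σ`: `σ c² = b`, `(b) = I² J` in `O = F[t][x]/(f)`, `s ∈ J`, `s ∉ v`.  `S.f = f.map (embO v)`: the ring homomorphism `ρ : O → Λ = AdjoinRoot S.f` (`AdjoinRoot.map (embO v) f S.f`); `(ρ b) = (I Λ)² (J Λ)` (`Ideal.map_span`, `Ideal.map_mul`, `Ideal.map_pow`) and `J Λ = ⊤`
(`isUnit_embO`).  With `b = mk B`, `c = mk C`: `ρ b = mk (B.map (embO v))`, and the image of `b` in `AdjoinRoot (overKv f v)`, which is `toLv (toL b)`, is a unit since `toLv` maps nonzero elements of the field `L` (`f` is irreducible over `K`: `H94.TC.irreducible_map`) to units.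
`ev_of_ideal`: `S.Ev (S.cl (B.map (embO v)))`; divide by the square of the unit `toLv (toL c)`.
To avoid casts: replace `overKv f v` by `S.fM` through a general statement `∀ g : M[X], g = S.fM → ..` and `rintro _ rfl`.
-/

namespace Pool.Agent.H94.GG

open Polynomial WithZero IsDedekindDomain
open Pool.Agent.H80.CC.Plane (overK overKv constKv toL toLv)

variable {F : Type} [Field F]

private theorem map_mk' {R S : Type} [CommRing R] [CommRing S] (φ : R →+* S) (p : R[X]) (q : S[X])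
    (h : q ∣ p.map φ) (P : R[X]) :
    AdjoinRoot.map φ p q h (AdjoinRoot.mk p P) = AdjoinRoot.mk q (P.map φ) := by
  have h1 : (AdjoinRoot.map φ p q h).comp (AdjoinRoot.mk p) =
      (AdjoinRoot.mk q).comp (Polynomial.mapRingHom φ) := by
    apply Polynomial.ringHom_ext
    · intro a
      simp
    · simp
  exact RingHom.congr_fun h1 P

private theorem unit_cast {M : Type} [Field M] {g g' : M[X]} (h : g = g') (p : M[X])
    (hp : IsUnit (AdjoinRoot.mk g p)) : IsUnit (AdjoinRoot.mk g' p) := by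
  subst h
  exact hp

private theorem eq_cast {M : Type} [Field M] {g g' : M[X]} (h : g = g') (p q : M[X])
    (hp : ∃ z : AdjoinRoot g', IsUnit z ∧
      AdjoinRoot.mk g' p = z ^ 2 * AdjoinRoot.mk g' q) :
    ∃ z : AdjoinRoot g, IsUnit z ∧ AdjoinRoot.mk g p = z ^ 2 * AdjoinRoot.mk g q := by
  subst h
  exact hp

private theorem span_red {A B : Type} [CommRing A] [CommRing B] (ρ : A →+* B) {b s : A}
    {I J : Ideal A} (h : Ideal.span {b} = I ^ 2 * J) (hs : s ∈ J) (hu : IsUnit (ρ s)) :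
    Ideal.span {ρ b} = (I.map ρ) ^ 2 := by
  have h1 := congrArg (Ideal.map ρ) h
  rw [Ideal.map_span, Set.image_singleton, Ideal.map_mul, Ideal.map_pow,
    Ideal.eq_top_of_isUnit_mem (J.map ρ) (Ideal.mem_map_of_mem ρ hs) hu, Ideal.mul_top] at h1
  exact h1

theorem ev_of_evAt {f : F[X][X]} (hf : f.Monic) [IsDomain (AdjoinRoot f)]
    {v : HeightOneSpectrum F[X]} {κ : Type} [Field κ]
    {L : Loc (v.adicCompletion (RatFunc F)) κ} (S : Spl L) (hS : S.f = f.map (embO v))
    {σ : AdjoinRoot (overK f)} (hσ : σ ≠ 0) (h : EvAt f v σ) :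
    ∃ (z : AdjoinRoot (overKv f v)) (u : (OO (v.adicCompletion (RatFunc F)))[X]), IsUnit z ∧
      IsCoprime (u.map L.red) (S.f.map L.red) ∧ toLv f v σ = z ^ 2 *
        AdjoinRoot.mk (overKv f v) (u.map (OO (v.adicCompletion (RatFunc F))).subtype) := by
  obtain ⟨I, J, b, c, s, hc, hbc, hI, hsJ, hsv⟩ := h
  have hfM : overKv f v = S.fM := by
    rw [Spl.fM, hS, map_embO]
  -- injectivity
  have hinj : Function.Injective (toL f) := H94.TC.toField_injective (RatFunc F) f hf
  have hLc : toL f c ≠ 0 := by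
    intro h0
    exact hc (hinj (by rw [h0, map_zero]))
  let _ : Fact (Irreducible (overK f)) := ⟨H94.TC.irreducible_map (RatFunc F) f hf⟩
  have hLb : toL f b ≠ 0 := by
    rw [← hbc]
    exact mul_ne_zero hσ (pow_ne_zero 2 hLc)
  have hub : IsUnit (toLv f v (toL f b)) := (isUnit_iff_ne_zero.2 hLb).map (toLv f v)
  have huc : IsUnit (toLv f v (toL f c)) := (isUnit_iff_ne_zero.2 hLc).map (toLv f v)
  obtain ⟨B, rfl⟩ := AdjoinRoot.mk_surjective b
  -- the image of `b`
  have himg : toLv f v (toL f (AdjoinRoot.mk f B)) = AdjoinRoot.mk (overKv f v)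
      ((B.map (embO v)).map (OO (v.adicCompletion (RatFunc F))).subtype) := by
    unfold toLv toL
    rw [map_mk', map_mk']
    congr 1
    exact (map_embO B v).symm
  -- the ring homomorphism to `Λ`
  have hdvd : S.f ∣ f.map (embO v) := by rw [hS]
  have hρb : AdjoinRoot.map (embO v) f S.f hdvd (AdjoinRoot.mk f B) =
      AdjoinRoot.mk S.f (B.map (embO v)) := map_mk' _ _ _ _ _
  have hρs : IsUnit (AdjoinRoot.map (embO v) f S.f hdvd (algebraMap F[X] (AdjoinRoot f) s)) := by
    have h1 : AdjoinRoot.map (embO v) f S.f hdvd (algebraMap F[X] (AdjoinRoot f) s) =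
        AdjoinRoot.of S.f (embO v s) := by
      rw [AdjoinRoot.algebraMap_eq]
      exact AdjoinRoot.map_of _ _ _ _ _
    rw [h1]
    exact (isUnit_embO hsv).map _
  have hspan := span_red (AdjoinRoot.map (embO v) f S.f hdvd) hI hsJ hρs
  rw [hρb] at hspan
  have hunit : IsUnit (S.cl (B.map (embO v))) := by
    unfold Spl.cl
    rw [himg] at hub
    exact unit_cast hfM _ hub
  obtain ⟨z, u, hz, hu, hzu⟩ := ev_of_ideal S hspan hunit
  obtain ⟨z', hz', hzu'⟩ := eq_cast hfM
    ((B.map (embO v)).map (OO (v.adicCompletion (RatFunc F))).subtype)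
    (u.map (OO (v.adicCompletion (RatFunc F))).subtype) ⟨z, hz, hzu⟩
  obtain ⟨γ, hγ⟩ := huc
  refine ⟨z' * ((γ⁻¹ : (AdjoinRoot (overKv f v))ˣ) : AdjoinRoot (overKv f v)), u,
    hz'.mul (Units.isUnit _), hu, ?_⟩
  have h1 : toLv f v σ * (γ : AdjoinRoot (overKv f v)) ^ 2 = z' ^ 2 *
      AdjoinRoot.mk (overKv f v) (u.map (OO (v.adicCompletion (RatFunc F))).subtype) := by
    rw [hγ, ← hzu', ← himg, ← hbc, map_mul, map_pow]
  have h2 : (γ : AdjoinRoot (overKv f v)) *
      ((γ⁻¹ : (AdjoinRoot (overKv f v))ˣ) : AdjoinRoot (overKv f v)) = 1 := Units.mul_inv γ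
  calc toLv f v σ = toLv f v σ * ((γ : AdjoinRoot (overKv f v)) *
        ((γ⁻¹ : (AdjoinRoot (overKv f v))ˣ) : AdjoinRoot (overKv f v))) ^ 2 := by
          rw [h2, one_pow, mul_one]
    _ = (toLv f v σ * (γ : AdjoinRoot (overKv f v)) ^ 2) *
        ((γ⁻¹ : (AdjoinRoot (overKv f v))ˣ) : AdjoinRoot (overKv f v)) ^ 2 := by ring
    _ = _ := by rw [h1]; ring

end Pool.Agent.H94.GG
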