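import Pool.Agent.H94.GG.TWO
import Pool.Agent.H94.GG.SQ
import Pool.Agent.H94.GG.SN

set_option autoImplicit false

/-!
# [H94 GG SG] The step at a special place which divides `D` once

`δ` a value for `D`, `σ` even at `v`, `σ δ` isotropic at `v`, norms squares.  Then `δ` or `σ` is a square in `L_v`.
`δ` is of even type: `val_ev_sq`.  `δ` is of odd type: `σ δ` is of odd type, both isotropic, so `σ δ²` is a square (`od_od`).
-/

namespace Pool.Agent.H94.GG

open Polynomial WithZero IsDedekindDomain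
open Pool.Agent.H80.CC.Plane (overK overKv constKv toL toLv)

theorem sp_abs {M : Type} [Field M] [hv : Valued M ℤᵐ⁰] [CompleteSpace M] {κ : Type}
    [Field κ] [Finite κ] (h2 : (2 : κ) ≠ 0) {L : Loc M κ} (S : Spl L) {D : OO M}
    (hD : (Valued.v : Valuation M ℤᵐ⁰) (D : M) = exp (-1 : ℤ)) {δ σ : AdjoinRoot S.fM}
    (hδ : IsUnit δ) (hN : ∃ y : M, Algebra.norm M δ = y ^ 2)
    (hN' : ∃ y : M, Algebra.norm M σ = y ^ 2) (hval : IsVal (D : M) S.fM δ) (hσ : S.Ev σ)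
    (hi : Isot S.fM (σ * δ)) :
    (∃ z : AdjoinRoot S.fM, δ = z ^ 2) ∨ ∃ z : AdjoinRoot S.fM, σ = z ^ 2 := by
  rcases ev_or_od S hδ hN with h | h
  · exact Or.inl (val_ev_sq h2 S hD hN hval h)
  · right
    have hinf := infinite_of_loc L
    have hD0 : (D : M) ≠ 0 := by
      intro h0
      rw [h0, map_zero] at hD
      exact exp_ne_zero hD.symm
    have h2M : (2 : M) ≠ 0 := by
      intro h0
      have h1 := two_val L h2
      rw [h0, map_zero] at h1
      exact zero_ne_one h1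
    have hodd : Odd S.fM.natDegree := by
      rw [S.natDegree_fM]
      exact S.even.add_one
    obtain ⟨x, hx⟩ := hN
    obtain ⟨y, hy⟩ := hN'
    have hod : S.Od (σ * δ) := by
      rw [mul_comm]
      exact S.od_mul_ev h hσ
    obtain ⟨z, hz⟩ := od_od h2 S hod h ⟨y * x, by rw [map_mul, hy, hx]; ring⟩ ⟨x, hx⟩ hi
      (isot_of_isVal h2M hD0 S.fM_monic hodd hval)
    obtain ⟨t, ht⟩ := hδ
    refine ⟨((t⁻¹ : (AdjoinRoot S.fM)ˣ) : AdjoinRoot S.fM) * z, ?_⟩
    rw [mul_pow, ← hz, ← ht]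
    have h3 : ((t⁻¹ : (AdjoinRoot S.fM)ˣ) : AdjoinRoot S.fM) * (t : AdjoinRoot S.fM) = 1 :=
      Units.inv_mul t
    linear_combination -(σ * (((t⁻¹ : (AdjoinRoot S.fM)ˣ) : AdjoinRoot S.fM) * t + 1)) * h3

private theorem key {M : Type} [Field M] [hv : Valued M ℤᵐ⁰] [CompleteSpace M] {κ : Type}
    [Field κ] [Finite κ] (h2 : (2 : κ) ≠ 0) {L : Loc M κ} (S : Spl L) {D : OO M}
    (hD : (Valued.v : Valuation M ℤᵐ⁰) (D : M) = exp (-1 : ℤ)) (g : M[X]) (hg : g = S.fM)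
    (δ σ : AdjoinRoot g)
    (hδ : IsUnit δ) (hN : ∃ y : M, Algebra.norm M δ = y ^ 2)
    (hN' : ∃ y : M, Algebra.norm M σ = y ^ 2) (hval : IsVal (D : M) g δ)
    (hσ : ∃ (z : AdjoinRoot g) (u : (OO M)[X]), IsUnit z ∧
      IsCoprime (u.map L.red) (S.f.map L.red) ∧
      σ = z ^ 2 * AdjoinRoot.mk g (u.map (OO M).subtype))
    (hi : Isot g (σ * δ)) :
    (∃ z : AdjoinRoot g, δ = z ^ 2) ∨ ∃ z : AdjoinRoot g, σ = z ^ 2 := by
  subst hg
  exact sp_abs h2 S hD hδ hN hN' hval hσ hi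

/-- norms of the images in `L_v` -/
theorem norm_toLv {F : Type} [Field F] {f : F[X][X]} (hf : f.Monic)
    (v : HeightOneSpectrum F[X]) (δ : AdjoinRoot (overK f)) :
    Algebra.norm (v.adicCompletion (RatFunc F)) (toLv f v δ) =
      algebraMap (RatFunc F) (v.adicCompletion (RatFunc F)) (Algebra.norm (RatFunc F) δ) :=
  norm_map _ (hf.map _) δ

theorem sp_main {F : Type} [Field F] [Finite F] (h2 : (2 : F) ≠ 0) {f : F[X][X]} (hf : f.Monic)
    (hodd : Odd f.natDegree) [IsDomain (AdjoinRoot f)] {v : HeightOneSpectrum F[X]}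
    (hv : Special f v) {D : F[X]} (hD1 : D ∈ v.asIdeal) (hD2 : D ∉ v.asIdeal ^ 2)
    {δ σ : AdjoinRoot (overK f)} (hδ : δ ≠ 0) (hσ : σ ≠ 0)
    (hN : ∃ y : RatFunc F, Algebra.norm (RatFunc F) δ = y ^ 2)
    (hN' : ∃ y : RatFunc F, Algebra.norm (RatFunc F) σ = y ^ 2)
    (hval : IsVal (constKv D v) (overKv f v) (toLv f v δ)) (hev : EvAt f v σ)
    (hi : Isot (overKv f v) (toLv f v (σ * δ))) : SqAt f v δ ∨ SqAt f v σ := by
  obtain ⟨κ, _, _, e, L, hL⟩ := exists_loc v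
  obtain ⟨S, hS1, hS2⟩ := special_spl hf hodd hv e L hL
  have hκ2 := two_ne h2 e
  let _ : Fact (Irreducible (overK f)) := ⟨H94.TC.irreducible_map (RatFunc F) f hf⟩
  have hDv : (Valued.v ((embO v D : OO (v.adicCompletion (RatFunc F))) :
      v.adicCompletion (RatFunc F)) : ℤᵐ⁰) = exp (-1 : ℤ) := by
    rw [embO_val]
    have hD0 : D ≠ 0 := by
      rintro rfl
      exact hD2 (zero_mem _)
    refine le_antisymm ?_ ?_
    · have h1 := (v.intValuation_le_pow_iff_mem D 1).2 (by rwa [pow_one])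
      simpa using h1
    · by_contra h1
      apply hD2
      rw [← v.intValuation_le_pow_iff_mem D 2]
      rw [not_le] at h1
      have h3 : v.intValuation D ≠ 0 := v.intValuation_ne_zero D hD0
      rw [← exp_log h3] at h1 ⊢
      rw [exp_lt_exp] at h1
      rw [exp_le_exp]
      push_cast
      omega
  obtain ⟨x, hx⟩ := hN
  obtain ⟨y, hy⟩ := hN'
  rw [map_mul] at hi
  exact key hκ2 S hDv (overKv f v) hS2.symm (toLv f v δ) (toLv f v σ)
    ((isUnit_iff_ne_zero.2 hδ).map _) ⟨_, by rw [norm_toLv hf, hx, map_pow]⟩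
    ⟨_, by rw [norm_toLv hf, hy, map_pow]⟩ hval (ev_of_evAt hf S hS1 hσ hev) hi

end Pool.Agent.H94.GG
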