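import Pool.Agent.H94.GG.SDefs

set_option autoImplicit false

/-!
# [H94 GG SL] The residue map of `K_v`

`F` finite, `v` a prime of `F[t]`.  There are a finite field `κ`, a ring isomorphism `e : F[t]/v ≃ κ` and `L : Loc K_v κ` with `L.red (embO v a) = e (a mod v)`.
Take `κ = F[t] ⧸ v.asIdeal` with the field structure `Ideal.Quotient.field` (`v.isMaximal`), `e` the identity (it is finite: `v.asIdeal = (P)`, `P ≠ 0`, so the quotient is finite-dimensional over `F`; compare `AdjoinRoot`, `(AdjoinRoot.powerBasis _).finite`, `Module.finite_of_finite F`, or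
`Ideal.finite_quotient..`).  The residue map: copy `rs_mk` (private) and `rsp_approx` in `H94/PN/RSP`: for `x ∈ OO K_v` there is `a ∈ F[t]` with `v (x - a) < 1` (`H94.TC.exists_approx` with exponent `1`), `red x = e (a mod v)`; `v (embO v a) < 1 ↔ a ∈ v.asIdeal` (`embO_val`,
`HeightOneSpectrum.intValuation_lt_one_iff_mem`).  The uniformizer: `embO v P` with `v.asIdeal = (P)` (`H94.TL.exists_gen v`, `HeightOneSpectrum.intValuation_singleton`: value `exp (-1)`).
Also `two_ne` : `2 ≠ 0` in `κ` if `2 ≠ 0` in `F` (`F → F[t] → F[t]/v ≃ κ` is a ring homomorphism of fields).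
-/

namespace Pool.Agent.H94.GG

open Polynomial WithZero IsDedekindDomain
open Pool.Agent.H80.CC.Plane (overK overKv constKv toL toLv)

private theorem rs_mk {M R κ : Type} [Field M] [CommRing R] [Field κ] (v : Valuation M ℤᵐ⁰)
    (e : R →+* M) (q : R →+* κ) (hq : Function.Surjective q) (he : ∀ r, v (e r) ≤ 1)
    (hk : ∀ r, q r = 0 ↔ v (e r) < 1) (ha : ∀ x : M, v x ≤ 1 → ∃ r, v (x - e r) < 1) :
    ∃ red : v.integer →+* κ, Function.Surjective red ∧ (∀ x, red x = 0 ↔ v (x : M) < 1) ∧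
      ∀ (x : v.integer) (r : R), v ((x : M) - e r) < 1 → red x = q r := by
  have hx1 : ∀ x : v.integer, v (x : M) ≤ 1 := fun x => (Valuation.mem_integer_iff v _).1 x.2
  choose! f hf using ha
  have key : ∀ (x : M) (r r' : R), v (x - e r) < 1 → v (x - e r') < 1 → q r = q r' := by
    intro x r r' h h'
    rw [← sub_eq_zero, ← map_sub, hk, map_sub]
    have h1 : e r - e r' = (x - e r') - (x - e r) := by ring
    rw [h1]
    exact lt_of_le_of_lt (v.map_sub _ _) (max_lt h' h)
  have hun : ∀ (x : v.integer) (r : R), v ((x : M) - e r) < 1 → q (f (x : M)) = q r :=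
    fun x r h => key _ _ _ (hf _ (hx1 x)) h
  refine ⟨{ toFun := fun x => q (f (x : M)), map_one' := ?_, map_mul' := ?_, map_zero' := ?_,
            map_add' := ?_ }, ?_, ?_, ?_⟩
  · rw [hun 1 1 (by
      rw [map_one e]
      have : ((1 : v.integer) : M) - 1 = 0 := by simp
      rw [this, map_zero]
      exact zero_lt_one), map_one]
  · intro x y
    rw [← map_mul q, hun (x * y) (f (x : M) * f (y : M))]
    have h1 : ((x * y : v.integer) : M) - e (f (x : M) * f (y : M)) =
        (x : M) * ((y : M) - e (f (y : M))) + ((x : M) - e (f (x : M))) * e (f (y : M)) := by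
      rw [map_mul]
      push_cast
      ring
    rw [h1]
    refine lt_of_le_of_lt (v.map_add _ _) (max_lt ?_ ?_)
    · rw [map_mul]
      exact lt_of_le_of_lt (mul_le_of_le_one_left' (hx1 x)) (hf _ (hx1 y))
    · rw [map_mul]
      exact lt_of_le_of_lt (mul_le_of_le_one_right' (he _)) (hf _ (hx1 x))
  · rw [hun 0 0 (by
      rw [map_zero e]
      have : ((0 : v.integer) : M) - 0 = 0 := by simp
      rw [this, map_zero]
      exact zero_lt_one), map_zero]
  · intro x y
    rw [← map_add q, hun (x + y) (f (x : M) + f (y : M))]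
    have h1 : ((x + y : v.integer) : M) - e (f (x : M) + f (y : M)) =
        ((x : M) - e (f (x : M))) + ((y : M) - e (f (y : M))) := by
      rw [map_add]
      push_cast
      ring
    rw [h1]
    exact lt_of_le_of_lt (v.map_add _ _) (max_lt (hf _ (hx1 x)) (hf _ (hx1 y)))
  · intro c
    obtain ⟨r, rfl⟩ := hq c
    refine ⟨⟨e r, (Valuation.mem_integer_iff v _).2 (he r)⟩, ?_⟩
    refine hun ⟨e r, (Valuation.mem_integer_iff v _).2 (he r)⟩ r ?_
    have : ((⟨e r, (Valuation.mem_integer_iff v _).2 (he r)⟩ : v.integer) : M) - e r = 0 :=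
      sub_self _
    rw [this, map_zero]
    exact zero_lt_one
  · intro x
    have h1 := hf _ (hx1 x)
    show q (f (x : M)) = 0 ↔ _
    rw [hk]
    constructor
    · intro h2
      have h3 : (x : M) = ((x : M) - e (f (x : M))) + e (f (x : M)) := by ring
      rw [h3]
      exact lt_of_le_of_lt (v.map_add _ _) (max_lt h1 h2)
    · intro h2
      have h3 : e (f (x : M)) = (x : M) - ((x : M) - e (f (x : M))) := by ring
      rw [h3]
      exact lt_of_le_of_lt (v.map_sub _ _) (max_lt h2 h1)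
  · intro x r h
    exact hun x r h

private theorem sl_approx {F : Type} [Field F] (v : HeightOneSpectrum F[X])
    (s : v.adicCompletion (RatFunc F)) (hs : (Valued.v s : ℤᵐ⁰) ≤ 1) :
    ∃ g : F[X], (Valued.v (s - algebraMap (RatFunc F) (v.adicCompletion (RatFunc F))
      (algebraMap F[X] (RatFunc F) g)) : ℤᵐ⁰) < 1 := by
  obtain ⟨ϖ, hϖ0, hϖ⟩ : ∃ ϖ : F[X], ϖ ≠ 0 ∧ v.asIdeal = Ideal.span {ϖ} := by
    obtain ⟨ϖ, hϖ⟩ := (IsPrincipalIdealRing.principal v.asIdeal).principal
    refine ⟨ϖ, ?_, hϖ⟩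
    rintro rfl
    apply v.ne_bot
    rw [hϖ]
    exact Ideal.span_singleton_eq_bot.2 rfl
  obtain ⟨y, hy⟩ := TC.exists_approx (K := RatFunc F) v ϖ hϖ0 hϖ 1 ⟨s, hs⟩
  rw [TC.pow_dvd_iff (K := RatFunc F) v ϖ hϖ0 hϖ] at hy
  refine ⟨y, ?_⟩
  have h3 : (((⟨s, hs⟩ : v.adicCompletionIntegers (RatFunc F)) -
      algebraMap F[X] (v.adicCompletionIntegers (RatFunc F)) y :
        v.adicCompletionIntegers (RatFunc F)) : v.adicCompletion (RatFunc F)) =
        s - algebraMap (RatFunc F) (v.adicCompletion (RatFunc F))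
          (algebraMap F[X] (RatFunc F) y) := by
    rw [HeightOneSpectrum.algebraMap_adicCompletion]
    push_cast
    rw [HeightOneSpectrum.algebraMap_adicCompletionIntegers_apply]
    rfl
  rw [h3] at hy
  refine lt_of_le_of_lt hy ?_
  rw [← exp_zero, exp_lt_exp]
  norm_num

theorem exists_loc {F : Type} [Field F] [Finite F] (v : HeightOneSpectrum F[X]) :
    ∃ (κ : Type) (_ : Field κ) (_ : Finite κ) (e : (F[X] ⧸ v.asIdeal) ≃+* κ)
      (L : Loc (v.adicCompletion (RatFunc F)) κ),
      ∀ a : F[X], L.red (embO v a) = e (Ideal.Quotient.mk v.asIdeal a) := by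
  obtain ⟨ϖ, hϖ0, hϖ⟩ : ∃ ϖ : F[X], ϖ ≠ 0 ∧ v.asIdeal = Ideal.span {ϖ} := by
    obtain ⟨ϖ, hϖ⟩ := (IsPrincipalIdealRing.principal v.asIdeal).principal
    refine ⟨ϖ, ?_, hϖ⟩
    rintro rfl
    apply v.ne_bot
    rw [hϖ]
    exact Ideal.span_singleton_eq_bot.2 rfl
  have hmax : v.asIdeal.IsMaximal := v.isMaximal
  let _ : Field (F[X] ⧸ v.asIdeal) := Ideal.Quotient.field v.asIdeal
  have hfin : Finite (F[X] ⧸ v.asIdeal) := by
    rw [hϖ]
    have h1 : FiniteDimensional F (AdjoinRoot ϖ) := (AdjoinRoot.powerBasis hϖ0).finite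
    have h2 : Finite (AdjoinRoot ϖ) := Module.finite_of_finite F
    exact h2
  obtain ⟨red, hs, hk, hr⟩ := rs_mk (Valued.v : Valuation (v.adicCompletion (RatFunc F)) ℤᵐ⁰)
    ((algebraMap (RatFunc F) (v.adicCompletion (RatFunc F))).comp (algebraMap F[X] (RatFunc F)))
    (Ideal.Quotient.mk v.asIdeal) Ideal.Quotient.mk_surjective
    (fun r => (Valuation.mem_integer_iff _ _).1 (embO v r).2)
    (fun r => by
      rw [Ideal.Quotient.eq_zero_iff_mem, ← v.intValuation_lt_one_iff_mem, ← embO_val]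
      exact Iff.rfl)
    (fun x hx => sl_approx v x hx)
  refine ⟨F[X] ⧸ v.asIdeal, inferInstance, hfin, RingEquiv.refl _,
    ⟨red, hs, hk, embO v ϖ, ?_⟩, ?_⟩
  · rw [embO_val, v.intValuation_singleton hϖ0 hϖ]
  · intro a
    refine hr (embO v a) a ?_
    rw [coe_embO]
    have h1 : constKv a v - ((algebraMap (RatFunc F) (v.adicCompletion (RatFunc F))).comp
        (algebraMap F[X] (RatFunc F))) a = 0 := sub_self _
    rw [h1, map_zero]
    exact zero_lt_one

theorem two_ne {F : Type} [Field F] (h2 : (2 : F) ≠ 0) {v : HeightOneSpectrum F[X]} {κ : Type}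
    [Field κ] (e : (F[X] ⧸ v.asIdeal) ≃+* κ) : (2 : κ) ≠ 0 := by
  intro h
  have hmax : v.asIdeal.IsMaximal := v.isMaximal
  have h1 : Function.Injective ((e : (F[X] ⧸ v.asIdeal) →+* κ).comp
      ((Ideal.Quotient.mk v.asIdeal).comp (C : F →+* F[X]))) := RingHom.injective _
  apply h2
  apply h1
  rw [map_zero, map_ofNat]
  exact h

end Pool.Agent.H94.GG
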