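import Mathlib

set_option autoImplicit false

/-!
# [H94 GG TF] `k[x]/((x - c) G)`, `G(c) ≠ 0`: squares, units and norms (Mathlib only)

`k` a field, `G` monic, `G(c) ≠ 0`, `f = (X - C c) * G`: the Chinese remainder theorem `k[x]/(f) = k × k[x]/(G)`, `h ↦ (h(c), h mod G)`.
* `tf_sq`: `h(c) = a ^ 2` and `h ≡ z ^ 2` modulo `G` gives `h ≡ w ^ 2` modulo `f`: `w ≡ a` modulo `X - c`, `w ≡ z` modulo `G` (Bezout).
* `tf_crt`: polynomials with given residues.
* `tf_norm`: `N(h mod f) = h(c) * N(h mod G)`.  (The algebra isomorphism with `k × k[x]/(G)` and `Algebra.norm` of a product, e.g. `LinearMap.det_prodMap`, `LinearMap.det_conj`; or resultants / products over the roots.)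
-/

namespace Pool.Agent.H94.GG

open Polynomial

private lemma tf_cop {k : Type} [Field k] {c : k} {G : k[X]} (hc : G.eval c ≠ 0) :
    IsCoprime (X - C c) G := by
  rw [(irreducible_X_sub_C c).coprime_iff_not_dvd, dvd_iff_isRoot]
  exact hc

theorem tf_crt {k : Type} [Field k] {c : k} {G : k[X]} (hc : G.eval c ≠ 0) (a : k) (r : k[X]) :
    ∃ h : k[X], h.eval c = a ∧ G ∣ h - r := by
  obtain ⟨u, v, huv⟩ := tf_cop hc
  refine ⟨r * u * (X - C c) + C a * (v * G), ?_, ⟨(C a - r) * v, ?_⟩⟩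
  · have h1 := congrArg (eval c) huv
    simp only [eval_add, eval_mul, eval_sub, eval_X, eval_C, sub_self, mul_zero, zero_add,
      eval_one] at h1 ⊢
    rw [h1, mul_one]
  · linear_combination r * huv

private lemma tf_dvd {k : Type} [Field k] {c : k} {G : k[X]} (hc : G.eval c ≠ 0) {h : k[X]}
    (h1 : h.eval c = 0) (h2 : G ∣ h) : (X - C c) * G ∣ h :=
  (tf_cop hc).mul_dvd (dvd_iff_isRoot.2 h1) h2

theorem tf_sq {k : Type} [Field k] {c : k} {G : k[X]} (hc : G.eval c ≠ 0) {h : k[X]} {a : k}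
    (ha : h.eval c = a ^ 2) {z : AdjoinRoot G} (hz : AdjoinRoot.mk G h = z ^ 2) :
    ∃ w : AdjoinRoot ((X - C c) * G), AdjoinRoot.mk ((X - C c) * G) h = w ^ 2 := by
  obtain ⟨z0, rfl⟩ := AdjoinRoot.mk_surjective z
  obtain ⟨w0, hw1, hw2⟩ := tf_crt hc a z0
  refine ⟨AdjoinRoot.mk _ w0, ?_⟩
  rw [← map_pow, AdjoinRoot.mk_eq_mk] at hz
  rw [← map_pow, AdjoinRoot.mk_eq_mk]
  refine tf_dvd hc ?_ ?_
  · rw [eval_sub, eval_pow, ha, hw1, sub_self]
  · have h1 : h - w0 ^ 2 = (h - z0 ^ 2) - (w0 - z0) * (w0 + z0) := by ring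
    rw [h1]
    exact dvd_sub hz (hw2.mul_right _)

private lemma tf_norm_prod {k : Type} [Field k] {A : Type} [CommRing A] [Algebra k A]
    [Module.Finite k A] (a : k) (b : A) :
    Algebra.norm k ((a, b) : k × A) = a * Algebra.norm k b := by
  have h1 : Algebra.lmul k (k × A) (a, b) =
      LinearMap.prodMap (Algebra.lmul k k a) (Algebra.lmul k A b) := by
    refine LinearMap.ext fun x => ?_
    rfl
  have h2 : LinearMap.det (Algebra.lmul k k a) = a := by
    rw [← Algebra.norm_apply, Algebra.norm_self]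
    rfl
  rw [Algebra.norm_apply, Algebra.norm_apply, h1, LinearMap.det_prodMap, h2]

theorem tf_norm {k : Type} [Field k] {c : k} {G : k[X]} (hG : G.Monic) (hc : G.eval c ≠ 0)
    (h : k[X]) : Algebra.norm k (AdjoinRoot.mk ((X - C c) * G) h) =
      h.eval c * Algebra.norm k (AdjoinRoot.mk G h) := by
  have : Module.Finite k (AdjoinRoot G) := hG.finite_adjoinRoot
  obtain ⟨φ, hφ⟩ : ∃ φ : AdjoinRoot ((X - C c) * G) →ₐ[k] k × AdjoinRoot G,
      ∀ g : k[X], φ (AdjoinRoot.mk _ g) = (g.eval c, AdjoinRoot.mk G g) := by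
    refine ⟨AlgHom.prod
      (AdjoinRoot.liftAlgHom ((X - C c) * G) (Algebra.ofId k k) c (by
        rw [eval₂_mul, eval₂_sub, eval₂_X, eval₂_C]
        simp))
      (AdjoinRoot.algHomOfDvd k _ _ (Dvd.intro_left _ rfl)), fun g => ?_⟩
    rw [AlgHom.prod_apply, AdjoinRoot.liftAlgHom_mk]
    refine Prod.ext ?_ ?_
    · rfl
    · change AdjoinRoot.algHomOfDvd k _ _ _ (AdjoinRoot.mk _ g) = AdjoinRoot.mk G g
      exact AdjoinRoot.aeval_eq g
  have hinj : Function.Injective φ := by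
    rw [injective_iff_map_eq_zero]
    intro x hx
    obtain ⟨g, rfl⟩ := AdjoinRoot.mk_surjective x
    rw [hφ, Prod.mk_eq_zero, AdjoinRoot.mk_eq_zero] at hx
    rw [AdjoinRoot.mk_eq_zero]
    exact tf_dvd hc hx.1 hx.2
  have hsur : Function.Surjective φ := by
    rintro ⟨a, b⟩
    obtain ⟨r, rfl⟩ := AdjoinRoot.mk_surjective b
    obtain ⟨g, hg1, hg2⟩ := tf_crt hc a r
    refine ⟨AdjoinRoot.mk _ g, ?_⟩
    rw [hφ, hg1]
    rw [AdjoinRoot.mk_eq_mk.2 hg2]
  have h1 := Algebra.norm_eq_of_algEquiv (AlgEquiv.ofBijective φ ⟨hinj, hsur⟩)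
    (AdjoinRoot.mk ((X - C c) * G) h)
  rw [← h1, AlgEquiv.ofBijective_apply, hφ, tf_norm_prod]

end Pool.Agent.H94.GG
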