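import Pool.Agent.H94.GG.TA
import Pool.Agent.H94.GG.TF

set_option autoImplicit false

/-!
# [H94 GG TJ] Elements of even and odd type: products

`S.f = (X - C c) * G`; `S.fM` is its image over `M`; `G(c)` is a unit (its reduction is `Ḡ(c̄) ≠ 0`).
* `f_monic`, `fM_monic`, `natDegree_f`, `natDegree_fM`: degree `deg G + 1` (odd); `fM_eq`: `S.fM = (X - C (c : M)) * G.map`; `Gc_ne`: `(G.map).eval (c : M) ≠ 0`.
* `cl_mul`, `cl_unit`: `u` coprime to `S.f` modulo `ϖ`: `S.cl u` is a unit (`unit_mod`).  `cl_w_unit`: `w(c) = 1`, `G ∣ w - C ϖ`: `S.cl w` is a unit (`w` is coprime to `X - c` and to `G.map` over `M`, as `ϖ ≠ 0` is invertible in `M`).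
* `ev_unit`, `od_unit`, `ev_mul`, `od_mul_ev`: with `z z'` and `u u'`.
* `sq_ev`: `z ^ 2` is of even type (`u = 1`).
* `exists_w`: there is `w` with `w(c) = 1`, `G ∣ w - C ϖ`; more generally (`int_crt`) an integral polynomial with given value at `c` and given class modulo `G` (`X - c` and `G` are coprime over `OO M`: `cop_lift`, or `G(c)` is a unit).
* `cop_iff`: `u` is coprime to `S.f` modulo `ϖ` iff `red (u(c)) ≠ 0` and `u` is coprime to `G` modulo `ϖ`.
-/

namespace Pool.Agent.H94.GG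

open Polynomial WithZero

namespace Spl

variable {M : Type} [Field M] [hv : Valued M ℤᵐ⁰] {κ : Type} [Field κ] {L : Loc M κ} (S : Spl L)

theorem f_monic : S.f.Monic := (monic_X_sub_C _).mul S.mon

theorem fM_monic : S.fM.Monic := S.f_monic.map _

theorem natDegree_f : S.f.natDegree = S.G.natDegree + 1 := by
  rw [f, (monic_X_sub_C _).natDegree_mul S.mon, natDegree_X_sub_C, add_comm]

theorem natDegree_fM : S.fM.natDegree = S.G.natDegree + 1 := by
  rw [fM, S.f_monic.natDegree_map, natDegree_f]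

theorem natDegree_pos : 1 ≤ S.G.natDegree := by
  have h := S.irr.natDegree_pos
  rwa [S.mon.natDegree_map] at h

theorem fM_eq : S.fM = (X - C (S.c : M)) * S.G.map (OO M).subtype := by
  rw [fM, f, Polynomial.map_mul, Polynomial.map_sub, map_X, map_C]
  rfl

private theorem tj_red : L.red (S.G.eval S.c) ≠ 0 := by
  have h := S.ne
  rwa [eval_map, eval₂_at_apply] at h

private theorem tj_coe (p : (OO M)[X]) (a : OO M) :
    (p.map (OO M).subtype).eval (a : M) = ((p.eval a : OO M) : M) := by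
  rw [eval_map]
  exact eval₂_at_apply (OO M).subtype a

theorem Gc_ne : (S.G.map (OO M).subtype).eval (S.c : M) ≠ 0 := by
  rw [tj_coe]
  intro h
  have h1 : S.G.eval S.c = 0 := Subtype.ext h
  exact S.tj_red (by rw [h1, map_zero])

theorem cl_mul (u u' : (OO M)[X]) : S.cl (u * u') = S.cl u * S.cl u' := by
  rw [cl, Polynomial.map_mul, map_mul]
  rfl

theorem cop_iff (u : (OO M)[X]) : IsCoprime (u.map L.red) (S.f.map L.red) ↔
    L.red (u.eval S.c) ≠ 0 ∧ IsCoprime (u.map L.red) (S.G.map L.red) := by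
  have h1 : IsCoprime (u.map L.red) (X - C (L.red S.c)) ↔ L.red (u.eval S.c) ≠ 0 := by
    rw [isCoprime_comm, (irreducible_X_sub_C (L.red S.c)).coprime_iff_not_dvd, dvd_iff_isRoot,
      IsRoot, eval_map, eval₂_at_apply]
  rw [f, Polynomial.map_mul, Polynomial.map_sub, map_X, map_C, IsCoprime.mul_right_iff, h1]

theorem cl_unit {u : (OO M)[X]} (h : IsCoprime (u.map L.red) (S.f.map L.red)) :
    IsUnit (S.cl u) := (unit_mod L S.f_monic h).2

private theorem tj_unit {k : Type} [Field k] {a b : k[X]} (h : IsCoprime a b) :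
    IsUnit (AdjoinRoot.mk b a) := by
  obtain ⟨s, t, hst⟩ := h
  refine IsUnit.of_mul_eq_one (AdjoinRoot.mk b s) ?_
  have h1 := congrArg (AdjoinRoot.mk b) hst
  rw [map_add, map_mul, map_mul, AdjoinRoot.mk_self, mul_zero, add_zero, map_one] at h1
  rw [mul_comm]
  exact h1

theorem cl_w_unit {w : (OO M)[X]} (h1 : w.eval S.c = 1) (h2 : S.G ∣ w - C L.ϖ) :
    IsUnit (S.cl w) := by
  have hϖ : (L.ϖ : M) ≠ 0 := by
    intro h0
    have h := L.hϖ
    rw [h0, map_zero] at h
    exact exp_ne_zero h.symm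
  have key : IsCoprime (w.map (OO M).subtype) S.fM := by
    rw [fM_eq, IsCoprime.mul_right_iff]
    constructor
    · rw [isCoprime_comm, (irreducible_X_sub_C (S.c : M)).coprime_iff_not_dvd, dvd_iff_isRoot,
        IsRoot, tj_coe, h1]
      exact one_ne_zero
    · obtain ⟨t, ht⟩ := h2
      have h3 : w.map (OO M).subtype = C (L.ϖ : M) + S.G.map (OO M).subtype *
          t.map (OO M).subtype := by
        rw [← Polynomial.map_mul, ← ht, Polynomial.map_sub, map_C]
        exact (add_sub_cancel _ _).symm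
      refine ⟨C ((L.ϖ : M)⁻¹), - (C ((L.ϖ : M)⁻¹) * t.map (OO M).subtype), ?_⟩
      rw [h3, mul_add, ← C_mul, inv_mul_cancel₀ hϖ, C_1]
      ring
  exact tj_unit key

theorem int_crt (a : OO M) (r : (OO M)[X]) : ∃ w : (OO M)[X], w.eval S.c = a ∧ S.G ∣ w - r := by
  obtain ⟨g, hg⟩ := ((isUnit_iff_red L _).2 S.tj_red).exists_right_inv
  refine ⟨r + S.G * C (g * (a - r.eval S.c)), ?_, ?_⟩
  · rw [eval_add, eval_mul, eval_C, ← mul_assoc, hg, one_mul, add_sub_cancel]
  · rw [add_sub_cancel_left]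
    exact dvd_mul_right _ _

theorem exists_w : ∃ w : (OO M)[X], w.eval S.c = 1 ∧ S.G ∣ w - C L.ϖ :=
  S.int_crt 1 _

theorem ev_unit {δ : AdjoinRoot S.fM} (h : S.Ev δ) : IsUnit δ := by
  obtain ⟨z, u, hz, hu, rfl⟩ := h
  exact (hz.pow 2).mul (S.cl_unit hu)

theorem od_unit {δ : AdjoinRoot S.fM} (h : S.Od δ) : IsUnit δ := by
  obtain ⟨z, u, w, hz, hu, hw1, hw2, rfl⟩ := h
  rw [cl_mul]
  exact (hz.pow 2).mul ((S.cl_unit hu).mul (S.cl_w_unit hw1 hw2))

theorem ev_mul {δ δ' : AdjoinRoot S.fM} (h : S.Ev δ) (h' : S.Ev δ') : S.Ev (δ * δ') := by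
  obtain ⟨z, u, hz, hu, rfl⟩ := h
  obtain ⟨z', u', hz', hu', rfl⟩ := h'
  refine ⟨z * z', u * u', hz.mul hz', ?_, ?_⟩
  · rw [Polynomial.map_mul]
    exact hu.mul_left hu'
  · rw [cl_mul]
    ring

theorem od_mul_ev {δ δ' : AdjoinRoot S.fM} (h : S.Od δ) (h' : S.Ev δ') : S.Od (δ * δ') := by
  obtain ⟨z, u, w, hz, hu, hw1, hw2, rfl⟩ := h
  obtain ⟨z', u', hz', hu', rfl⟩ := h'
  refine ⟨z * z', u * u', w, hz.mul hz', ?_, hw1, hw2, ?_⟩
  · rw [Polynomial.map_mul]
    exact hu.mul_left hu'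
  · rw [cl_mul, cl_mul, cl_mul]
    ring

theorem sq_ev {z : AdjoinRoot S.fM} (hz : IsUnit z) : S.Ev (z ^ 2) := by
  refine ⟨z, 1, hz, ?_, ?_⟩
  · rw [Polynomial.map_one]
    exact isCoprime_one_left
  · rw [cl, Polynomial.map_one, map_one, mul_one]

end Spl

end Pool.Agent.H94.GG
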