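import Pool.Agent.H94.GG.TT

set_option autoImplicit false

/-!
# [H94 GG TS] Polynomials with a special reduction

`f₀` monic over `OO M` of odd degree, `f₀` modulo `ϖ` is `(X - C c̄) * Ḡ` with `Ḡ` monic irreducible, `Ḡ(c̄) ≠ 0`.  By `hens_root` (a lift `a` of `c̄`; `f₀' (c̄) = Ḡ(c̄) ≠ 0`) there is a root `c` of `f₀` with reduction `c̄`; `G = f₀ /ₘ (X - C c)`, `f₀ = (X - C c) * G`, monic;
`Ḡ = G.map red` by cancellation; the degree of `G` is even.
-/

namespace Pool.Agent.H94.GG

open Polynomial WithZero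

theorem exists_spl {M : Type} [Field M] [hv : Valued M ℤᵐ⁰] [CompleteSpace M] {κ : Type}
    [Field κ] (L : Loc M κ) {f₀ : (OO M)[X]} (hf : f₀.Monic) (hodd : Odd f₀.natDegree) {c' : κ}
    {G' : κ[X]} (hirr : Irreducible G') (hmon : G'.Monic) (hne : G'.eval c' ≠ 0)
    (h : f₀.map L.red = (X - C c') * G') : ∃ S : Spl L, S.f = f₀ := by
  obtain ⟨a, rfl⟩ := L.surj c'
  have h0 : L.red (f₀.eval a) = 0 := by
    have h1 : (f₀.map L.red).eval (L.red a) = 0 := by
      rw [h, eval_mul, eval_sub, eval_X, eval_C, sub_self, zero_mul]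
    rwa [eval_map, eval₂_at_apply] at h1
  have h1 : L.red (f₀.derivative.eval a) ≠ 0 := by
    have h2 : (f₀.derivative.map L.red).eval (L.red a) = G'.eval (L.red a) := by
      rw [← derivative_map, h, derivative_mul, derivative_X_sub_C, one_mul, eval_add, eval_mul,
        eval_sub, eval_X, eval_C, sub_self, zero_mul, add_zero]
    rw [eval_map, eval₂_at_apply] at h2
    rw [h2]
    exact hne
  obtain ⟨c, hc, hca⟩ := hens_root L hf h0 h1
  obtain ⟨G, hG⟩ : X - C c ∣ f₀ := dvd_iff_isRoot.2 hc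
  have hGm : G.Monic := (monic_X_sub_C c).of_mul_monic_left (hG ▸ hf)
  have hred : G.map L.red = G' := by
    have h2 := h
    rw [hG, Polynomial.map_mul, Polynomial.map_sub, map_X, map_C, hca] at h2
    exact mul_left_cancel₀ (X_sub_C_ne_zero _) h2
  have heven : Even G.natDegree := by
    rw [hG, (monic_X_sub_C c).natDegree_mul hGm, natDegree_X_sub_C] at hodd
    obtain ⟨j, hj⟩ := hodd
    exact ⟨j, by omega⟩
  exact ⟨⟨c, G, hGm, heven, by rw [hred]; exact hirr, by rw [hred, hca]; exact hne⟩, hG.symm⟩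

end Pool.Agent.H94.GG
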