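import Pool.Agent.H94.GG.SL
import Pool.Agent.H94.GG.TS
import Pool.Agent.H94.GG.TJ

set_option autoImplicit false

/-!
# [H94 GG SP] Special places

* `special_spl`: `f` monic of odd degree, `Special f v`, `e`, `L` as in `exists_loc`: there is `S : Spl L` with `S.f = f.map (embO v)` (`exists_spl` for `f₀ = f.map (embO v)`, `f₀.map L.red = (f mod v).map e`; `K_v` is complete; the images under `e` of an irreducible polynomial and of a
  nonzero value), so `S.fM = overKv f v` (`map_embO`).
* `cop_of_notMem`: for `s ∈ F[t]`, `s ∉ v`: `embO v s` is a unit of `OO K_v`.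
-/

namespace Pool.Agent.H94.GG

open Polynomial WithZero IsDedekindDomain
open Pool.Agent.H80.CC.Plane (overK overKv constKv toL toLv)

variable {F : Type} [Field F]

theorem special_spl {f : F[X][X]} (hf : f.Monic) (hodd : Odd f.natDegree)
    {v : HeightOneSpectrum F[X]} (hv : Special f v) {κ : Type} [Field κ]
    (e : (F[X] ⧸ v.asIdeal) ≃+* κ) (L : Loc (v.adicCompletion (RatFunc F)) κ)
    (hL : ∀ a : F[X], L.red (embO v a) = e (Ideal.Quotient.mk v.asIdeal a)) :
    ∃ S : Spl L, S.f = f.map (embO v) ∧ S.fM = overKv f v := by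
  obtain ⟨c, G, hirr, hmon, hne, h⟩ := hv
  have hmapred : (f.map (embO v)).map L.red =
      (f.map (Ideal.Quotient.mk v.asIdeal)).map (e : (F[X] ⧸ v.asIdeal) →+* κ) := by
    rw [Polynomial.map_map, Polynomial.map_map]
    congr 1
    exact RingHom.ext fun a => hL a
  have hodd' : Odd (f.map (embO v)).natDegree := by
    rw [hf.natDegree_map]
    exact hodd
  have hirr' : Irreducible (G.map (e : (F[X] ⧸ v.asIdeal) →+* κ)) := by
    have h1 : Irreducible (Polynomial.mapEquiv e G) :=
      (MulEquiv.irreducible_iff (Polynomial.mapEquiv e)).2 hirr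
    exact h1
  have hmon' : (G.map (e : (F[X] ⧸ v.asIdeal) →+* κ)).Monic := hmon.map _
  have hne' : (G.map (e : (F[X] ⧸ v.asIdeal) →+* κ)).eval
      ((e : (F[X] ⧸ v.asIdeal) →+* κ) c) ≠ 0 := by
    rw [eval_map, eval₂_at_apply]
    intro h0
    exact hne (e.injective (by rw [map_zero]; exact h0))
  have hfac : (f.map (embO v)).map L.red =
      (X - C ((e : (F[X] ⧸ v.asIdeal) →+* κ) c)) * G.map (e : (F[X] ⧸ v.asIdeal) →+* κ) := by
    rw [hmapred, h, Polynomial.map_mul, Polynomial.map_sub, map_X, map_C]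
  obtain ⟨S, hS⟩ := exists_spl L (hf.map (embO v)) hodd' hirr' hmon' hne' hfac
  refine ⟨S, hS, ?_⟩
  unfold Spl.fM
  rw [hS, map_embO]

theorem isUnit_embO {v : HeightOneSpectrum F[X]} {s : F[X]} (hs : s ∉ v.asIdeal) :
    IsUnit (embO v s) := by
  have h1 : (Valued.v ((embO v s : OO (v.adicCompletion (RatFunc F))) :
      v.adicCompletion (RatFunc F)) : ℤᵐ⁰) = 1 := by
    rw [embO_val]
    have h2 := v.intValuation_le_one s
    have h3 : ¬ v.intValuation s < 1 := fun h => hs ((v.intValuation_lt_one_iff_mem s).1 h)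
    exact le_antisymm h2 (not_lt.1 h3)
  have h0 : ((embO v s : OO (v.adicCompletion (RatFunc F))) : v.adicCompletion (RatFunc F)) ≠ 0 := by
    intro h
    rw [h, map_zero] at h1
    exact zero_ne_one h1
  have h4 : (Valued.v (((embO v s : OO (v.adicCompletion (RatFunc F))) :
      v.adicCompletion (RatFunc F))⁻¹) : ℤᵐ⁰) ≤ 1 := by
    rw [map_inv₀, h1, inv_one]
  refine IsUnit.of_mul_eq_one (⟨_, h4⟩ : OO (v.adicCompletion (RatFunc F))) ?_
  apply Subtype.ext
  exact mul_inv_cancel₀ h0

end Pool.Agent.H94.GG
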