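import Pool.Agent.H94.GG.TDefs

set_option autoImplicit false

/-!
# [H94 GG TA] Coprime polynomials over the valuation ring, units modulo a monic polynomial

* `isUnit_iff_red`: `x ∈ OO M` is a unit iff `L.red x ≠ 0` (`v x = 1`; the inverse has `v = 1`).  `two_val`: `2 ≠ 0` in `κ` gives `v 2 = 1`.
* `cop_lift`: `P` monic, `P` and `Q` coprime modulo `ϖ`: then they are coprime in `(OO M)[X]`.  Proof: `N = (OO M)[X] / (P, Q)` is a finitely generated `OO M`-module (`P` monic: quotient of `AdjoinRoot P`) and `N = 𝔪 N` for `𝔪 = ker red`, which is in the Jacobson radical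
  (the other elements are units), so `N = 0` (Nakayama).  Or directly: lift a Bezout identity (`Polynomial.map_surjective`): `A P + B Q = 1 + R` with `R.map red = 0`; modulo `P` we get `B Q = 1 + R'` in the finite free `OO M`-algebra `AdjoinRoot P`, `R'` in `𝔪 (AdjoinRoot P)`, and
  `1 + R'` is a unit there (`𝔪 S` is in the Jacobson radical of the integral extension `S` of a local ring; `isUnit_of_..jacobson`, `Ideal.map_le_jacobson..` or norm/determinant: `Algebra.norm (1 + R')` is `1` modulo `𝔪`, so a unit, and an element with unit norm is a unit, `Algebra.isUnit_norm`..).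
  Or: Mathlib's resultant: `P.resultant Q` is a unit iff its image in `κ` is not zero.
* `unit_mod`: `P` monic, `u` coprime to `P` modulo `ϖ`: `AdjoinRoot.mk P u` is a unit (from `cop_lift`), and so is its image over `M`.
-/

namespace Pool.Agent.H94.GG

open Polynomial WithZero

variable {M : Type} [Field M] [hv : Valued M ℤᵐ⁰] {κ : Type} [Field κ] (L : Loc M κ)

theorem isUnit_iff_red (x : OO M) : IsUnit x ↔ L.red x ≠ 0 := by
  constructor
  · intro h h0
    have h1 := h.map L.red
    rw [h0] at h1
    exact not_isUnit_zero h1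
  · intro h
    have h1 : (Valued.v : Valuation M ℤᵐ⁰) (x : M) = 1 :=
      le_antisymm x.2 (not_lt.1 fun h2 => h ((L.ker x).2 h2))
    have h2 : (x : M) ≠ 0 := by
      intro h3
      rw [h3, map_zero] at h1
      exact zero_ne_one h1
    have h3 : (Valued.v : Valuation M ℤᵐ⁰) ((x : M)⁻¹) ≤ 1 := by
      rw [map_inv₀, h1, inv_one]
    refine IsUnit.of_mul_eq_one (⟨(x : M)⁻¹, h3⟩ : OO M) (Subtype.ext ?_)
    exact mul_inv_cancel₀ h2

include L in
theorem two_val (h2 : (2 : κ) ≠ 0) : (Valued.v : Valuation M ℤᵐ⁰) (2 : M) = 1 := by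
  have h1 : (Valued.v : Valuation M ℤᵐ⁰) ((2 : OO M) : M) ≤ 1 := (2 : OO M).2
  have h3 : ((2 : OO M) : M) = 2 := rfl
  rw [h3] at h1
  refine le_antisymm h1 (not_lt.1 fun h4 => h2 ?_)
  rw [← h3] at h4
  have h5 := (L.ker 2).2 h4
  rwa [map_ofNat] at h5

theorem cop_lift {P Q : (OO M)[X]} (hP : P.Monic) (h : IsCoprime (P.map L.red) (Q.map L.red)) :
    IsCoprime P Q := by
  rw [← isUnit_resultant_iff_isCoprime hP, isUnit_iff_red L, ← resultant_map_map]
  have h1 := (isUnit_resultant_iff_isCoprime (hP.map L.red)).2 h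
  obtain ⟨k, hk⟩ := Nat.exists_eq_add_of_le (natDegree_map_le (f := L.red) (p := Q))
  rw [hk, resultant_add_right_deg _ _ _ _ _ le_rfl]
  rw [hP.natDegree_map] at h1
  have h2 : (P.map L.red).coeff P.natDegree = 1 := by
    rw [coeff_map, hP.coeff_natDegree, map_one]
  rw [h2, one_pow, one_mul]
  exact h1.ne_zero

theorem unit_mod {P u : (OO M)[X]} (hP : P.Monic)
    (h : IsCoprime (u.map L.red) (P.map L.red)) :
    IsUnit (AdjoinRoot.mk P u) ∧
      IsUnit (AdjoinRoot.mk (P.map (OO M).subtype) (u.map (OO M).subtype)) := by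
  obtain ⟨a, b, hab⟩ := cop_lift L hP h.symm
  constructor
  · refine IsUnit.of_mul_eq_one (AdjoinRoot.mk P b) ?_
    have h1 := congrArg (AdjoinRoot.mk P) hab
    rw [map_add, map_mul, map_mul, map_one, AdjoinRoot.mk_self, mul_zero, zero_add] at h1
    rw [mul_comm]
    exact h1
  · have hab' : a.map (OO M).subtype * P.map (OO M).subtype + b.map (OO M).subtype * u.map (OO M).subtype = 1 := by
      rw [← Polynomial.map_mul, ← Polynomial.map_mul, ← Polynomial.map_add, hab, Polynomial.map_one]
    refine IsUnit.of_mul_eq_one (AdjoinRoot.mk _ (b.map (OO M).subtype)) ?_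
    have h1 := congrArg (AdjoinRoot.mk (P.map (OO M).subtype)) hab'
    rw [map_add, map_mul, map_mul, map_one, AdjoinRoot.mk_self, mul_zero, zero_add] at h1
    rw [mul_comm]
    exact h1

end Pool.Agent.H94.GG
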