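import Mathlib

set_option autoImplicit false

/-!
# [H94 GG TB] The trace form functional of a product `(X - C c) * G` (Mathlib only)

`R` a commutative ring, `G` monic of degree `n ≥ 1`, `s (X - c) + t G = 1`.  For a monic `g` let `τ_g h = (h %ₘ g).coeff (deg g - 1)`; it is linear and depends only on `h` modulo `g`.
* `tb_unit`: `τ_G s * G(c) = -1`.  Let `s = G q + r`, `deg r < n`, `t' = t + q (X - c)`: `r (X - c) + t' G = 1`.  By degrees `t'` is a constant (`G` is monic of degree `n`, `deg (r (X - c)) ≤ n`), evaluation at `c`: `t' G(c) = 1`; coefficient of `X ^ n`: `r.coeff (n - 1) + t' = 0`.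
* `tb_main`: `τ_((X - c) G) h = τ_G (h s) - h(c) τ_G s`.  `h = (X - c) G q + r`, `deg r ≤ n`, `r = (X - c) r₁ + C (r(c))`, `r(c) = h(c)`; the coefficient of `X ^ n` in `r` is that of `X ^ (n - 1)` in `r₁` (`n ≥ 1`), `deg r₁ < n`.
  Modulo `G`: `(h - C (h(c))) s ≡ (X - c) r₁ s ≡ r₁`, so `r₁ = ((h - C (h(c))) s) %ₘ G`.
-/

namespace Pool.Agent.H94.GG

open Polynomial

private theorem coeff_mul_lin {R : Type} [CommRing R] (r : R[X]) (c : R) (n : ℕ) :
    (r * (X - C c)).coeff (n + 1) = r.coeff n - r.coeff (n + 1) * c := by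
  rw [mul_sub, coeff_sub, coeff_mul_X, coeff_mul_C]

private theorem coeff_top {R : Type} [CommRing R] [Nontrivial R] {G : R[X]} (hG : G.Monic) {r : R[X]}
    (hr : r.degree < G.degree) {m : ℕ} (hm : G.natDegree ≤ m) : r.coeff m = 0 := by
  apply coeff_eq_zero_of_degree_lt
  refine lt_of_lt_of_le hr ?_
  rw [degree_eq_natDegree hG.ne_zero]
  exact_mod_cast hm

theorem tb_unit {R : Type} [CommRing R] [Nontrivial R] {c : R} {G s t : R[X]} (hG : G.Monic)
    (hn : 1 ≤ G.natDegree) (hs : s * (X - C c) + t * G = 1) :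
    (s %ₘ G).coeff (G.natDegree - 1) * G.eval c = -1 := by
  obtain ⟨n, hn'⟩ : ∃ n, G.natDegree = n + 1 := ⟨G.natDegree - 1, by omega⟩
  have h1 := modByMonic_add_div s G
  have hr := degree_modByMonic_lt s hG
  set r := s %ₘ G with hrdef
  set q := s /ₘ G with hqdef
  have h2 : r * (X - C c) + (t + q * (X - C c)) * G = 1 := by
    rw [← hs]
    rw [← h1]
    ring
  set t' := t + q * (X - C c) with ht'
  have h3 : t' * G = 1 - r * (X - C c) := by rw [← h2]; ring
  have h4 : (t' * G).degree ≤ G.degree := by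
    rw [h3]
    refine (degree_sub_le _ _).trans (max_le ?_ ?_)
    · rw [degree_one, degree_eq_natDegree hG.ne_zero]
      exact_mod_cast Nat.zero_le _
    · rw [(monic_X_sub_C c).degree_mul, degree_X_sub_C, degree_eq_natDegree hG.ne_zero, hn']
      rw [degree_eq_natDegree hG.ne_zero, hn'] at hr
      have h5 : r.degree ≤ (n : WithBot ℕ) := by
        rw [degree_le_iff_coeff_zero]
        intro m hm
        apply coeff_eq_zero_of_degree_lt
        refine lt_of_lt_of_le hr ?_
        exact_mod_cast hm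
      push_cast
      exact add_le_add_left h5 1
  have h5 : t'.degree ≤ 0 := by
    rw [hG.degree_mul, degree_eq_natDegree hG.ne_zero] at h4
    by_contra h6
    push Not at h6
    have h7 : t' ≠ 0 := fun h => by rw [h, degree_zero] at h6; exact absurd h6 (by simp)
    rw [degree_eq_natDegree h7] at h4 h6
    have h8 : 0 < t'.natDegree := by exact_mod_cast h6
    have h9 : t'.natDegree + G.natDegree ≤ G.natDegree := by exact_mod_cast h4
    omega
  have h6 := eq_C_of_degree_le_zero h5
  rw [h6] at h2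
  have h7 := congrArg (fun p => p.eval c) h2
  simp only [eval_add, eval_mul, eval_sub, eval_X, eval_C, sub_self, mul_zero, zero_add, eval_one] at h7
  have h8 := congrArg (fun p => p.coeff (n + 1)) h2
  simp only [coeff_add, coeff_C_mul] at h8
  rw [coeff_mul_lin, coeff_top hG hr (m := n + 1) (by rw [hn'])] at h8
  have h9 : G.coeff (n + 1) = 1 := by rw [← hn']; exact hG.coeff_natDegree
  rw [h9, coeff_one, if_neg (Nat.succ_ne_zero n)] at h8
  rw [hn', Nat.add_sub_cancel]
  linear_combination (G.eval c) * h8 - h7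

theorem tb_main {R : Type} [CommRing R] [Nontrivial R] {c : R} {G s t : R[X]} (hG : G.Monic)
    (hn : 1 ≤ G.natDegree) (hs : s * (X - C c) + t * G = 1) (h : R[X]) :
    (h %ₘ ((X - C c) * G)).coeff G.natDegree =
      ((h * s) %ₘ G).coeff (G.natDegree - 1) -
        h.eval c * (s %ₘ G).coeff (G.natDegree - 1) := by
  obtain ⟨n, hn'⟩ : ∃ n, G.natDegree = n + 1 := ⟨G.natDegree - 1, by omega⟩
  have hF : ((X - C c) * G).Monic := (monic_X_sub_C c).mul hG
  have h1 := modByMonic_add_div h ((X - C c) * G)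
  have hr := degree_modByMonic_lt h hF
  set r := h %ₘ ((X - C c) * G) with hrdef
  set q := h /ₘ ((X - C c) * G) with hqdef
  have hrc : r.eval c = h.eval c := by
    rw [← h1]
    simp only [eval_add, eval_mul, eval_sub, eval_X, eval_C, sub_self, zero_mul, add_zero]
  have h2 := modByMonic_add_div r (X - C c)
  rw [modByMonic_X_sub_C_eq_C_eval, hrc] at h2
  set r₁ := r /ₘ (X - C c) with hr₁
  have hd : ((X - C c) * G).degree = ((n + 2 : ℕ) : WithBot ℕ) := by
    rw [hG.degree_mul, degree_X_sub_C, degree_eq_natDegree hG.ne_zero, hn']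
    push_cast
    ring
  have hr₁d : r₁.degree < G.degree := by
    rw [degree_eq_natDegree hG.ne_zero, hn']
    by_contra h6
    push Not at h6
    have h7 : r₁ ≠ 0 := fun h => by rw [h, degree_zero] at h6; exact absurd h6 (by simp)
    have h8 : ((X - C c) * r₁).degree = ((r₁.natDegree + 1 : ℕ) : WithBot ℕ) := by
      rw [mul_comm, (monic_X_sub_C c).degree_mul, degree_X_sub_C, degree_eq_natDegree h7]
      push_cast
      ring
    rw [degree_eq_natDegree h7] at h6
    have h9 : n + 1 ≤ r₁.natDegree := by exact_mod_cast h6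
    have h10 : (X - C c) * r₁ = r - C (h.eval c) := by rw [← h2]; ring
    have h11 : ((X - C c) * r₁).degree < ((n + 2 : ℕ) : WithBot ℕ) := by
      rw [h10]
      refine lt_of_le_of_lt (degree_sub_le _ _) (max_lt (by rw [← hd]; exact hr) ?_)
      refine lt_of_le_of_lt degree_C_le ?_
      exact_mod_cast Nat.succ_pos _
    rw [h8] at h11
    have h12 : r₁.natDegree + 1 < n + 2 := by exact_mod_cast h11
    omega
  have h3 : r.coeff (n + 1) = r₁.coeff n := by
    rw [← h2, coeff_add, coeff_C, if_neg (Nat.succ_ne_zero n), mul_comm, coeff_mul_lin,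
      coeff_top hG hr₁d (m := n + 1) (by rw [hn'])]
    ring
  have h4 : ((h - C (h.eval c)) * s) %ₘ G = r₁ := by
    refine (div_modByMonic_unique ((X - C c) * q * s - r₁ * t) r₁ hG ⟨?_, hr₁d⟩).2
    have h5 : h - C (h.eval c) = (X - C c) * r₁ + (X - C c) * G * q := by
      linear_combination (-1 : R[X]) * h1 - h2
    rw [h5]
    linear_combination (-r₁) * hs
  have h5 : (h - C (h.eval c)) * s = h * s - h.eval c • s := by
    rw [smul_eq_C_mul]
    ring
  rw [h5, sub_modByMonic, smul_modByMonic] at h4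
  rw [hn', Nat.add_sub_cancel, h3, ← h4, coeff_sub, coeff_smul, smul_eq_mul]

end Pool.Agent.H94.GG
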