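import Pool.Agent.H94.GG.TDefs

set_option autoImplicit false

/-!
# [H94 GG TC] Integral vectors with independent reductions in a subspace

`V ≤ M ^ ι` of dimension `d`: there are `d` integral vectors in `V` whose reductions are linearly independent over `κ`.
Induction on `d`.  Take `x ≠ 0` in `V`, scale it by a power of `ϖ` (or divide by a coordinate of maximal valuation) so that all coordinates are integral and the coordinate `j` is `1`.  `V' = {y ∈ V | y j = 0}` has dimension `d - 1` (kernel of the `j`-th coordinate on `V`,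
which is onto).  With the vectors of `V'`: a relation `a₁ x̄ + ∑ aᵢ ȳᵢ = 0` gives `a₁ = 0` in coordinate `j`, then all `aᵢ = 0`.
`tc_poly`: the same for a subspace of `M[x]/(f)`, `f = f₀.map`, `f₀` monic of degree `m`: polynomials of degree `< m` (basis `1, x, .., x ^ (m-1)`; `AdjoinRoot.powerBasis'`, `AdjoinRoot.modByMonicHom`).
-/

namespace Pool.Agent.H94.GG

open Polynomial WithZero

variable {M : Type} [Field M] [hv : Valued M ℤᵐ⁰] {κ : Type} [Field κ] (L : Loc M κ)

theorem tc_vec {ι : Type} [Fintype ι] {d : ℕ} (V : Submodule M (ι → M))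
    (hd : Module.finrank M V = d) :
    ∃ p : Fin d → ι → OO M, (∀ i, (fun j => ((p i j : OO M) : M)) ∈ V) ∧
      LinearIndependent κ (fun i (j : ι) => L.red (p i j)) := by
  induction d generalizing V with
  | zero => exact ⟨fun i => i.elim0, fun i => i.elim0, linearIndependent_empty_type⟩
  | succ d ih =>
    have hne : V ≠ ⊥ := by
      intro h
      rw [h, finrank_bot] at hd
      exact Nat.succ_ne_zero d hd.symm
    obtain ⟨x, hxV, hx0⟩ := V.ne_bot_iff.1 hne
    obtain ⟨j₀, hj₀⟩ : ∃ j, x j ≠ 0 := by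
      by_contra h
      push Not at h
      exact hx0 (funext h)
    obtain ⟨j, -, hj⟩ := Finset.exists_max_image Finset.univ
      (fun i => (Valued.v : Valuation M ℤᵐ⁰) (x i)) ⟨j₀, Finset.mem_univ _⟩
    have hxj : x j ≠ 0 := by
      intro h
      have h1 := hj j₀ (Finset.mem_univ _)
      simp only [h, map_zero] at h1
      exact hj₀ ((Valuation.zero_iff _).1 (le_antisymm h1 zero_le))
    have hvj : (Valued.v : Valuation M ℤᵐ⁰) (x j) ≠ 0 := (Valuation.ne_zero_iff _).2 hxj
    have hy : ∀ i, (Valued.v : Valuation M ℤᵐ⁰) ((x j)⁻¹ * x i) ≤ 1 := by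
      intro i
      rw [map_mul, map_inv₀]
      calc ((Valued.v : Valuation M ℤᵐ⁰) (x j))⁻¹ * (Valued.v : Valuation M ℤᵐ⁰) (x i)
          ≤ ((Valued.v : Valuation M ℤᵐ⁰) (x j))⁻¹ * (Valued.v : Valuation M ℤᵐ⁰) (x j) :=
            mul_le_mul_right (hj i (Finset.mem_univ _)) _
        _ = 1 := inv_mul_cancel₀ hvj
    let y : ι → OO M := fun i => ⟨(x j)⁻¹ * x i, hy i⟩
    have hyV : (fun i => ((y i : OO M) : M)) ∈ V := V.smul_mem (x j)⁻¹ hxV
    have hyj : y j = 1 := Subtype.ext (inv_mul_cancel₀ hxj)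
    let φ : V →ₗ[M] M := (LinearMap.proj j).comp V.subtype
    have hφ : LinearMap.range φ = ⊤ := by
      rw [LinearMap.range_eq_top]
      intro a
      refine ⟨a • ⟨_, hyV⟩, ?_⟩
      show a * ((y j : OO M) : M) = a
      rw [hyj]
      exact mul_one a
    have h1 := φ.finrank_range_add_finrank_ker
    rw [hφ, finrank_top, Module.finrank_self, hd] at h1
    have h2 : Module.finrank M ((LinearMap.ker φ).map V.subtype) = d := by
      rw [Submodule.finrank_map_subtype_eq]
      omega
    obtain ⟨p, hp1, hp2⟩ := ih _ h2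
    have hp3 : ∀ i, (fun k => ((p i k : OO M) : M)) ∈ V ∧ p i j = 0 := by
      intro i
      obtain ⟨w, hw1, hw2⟩ := hp1 i
      have hw3 : ((p i j : OO M) : M) = 0 := by
        have h3 := congrFun hw2 j
        rw [← h3]
        exact LinearMap.mem_ker.1 hw1
      exact ⟨hw2 ▸ w.2, Subtype.ext hw3⟩
    refine ⟨Fin.cons y p, fun i => Fin.cases hyV (fun i => (hp3 i).1) i, ?_⟩
    have h4 : (fun i (k : ι) => L.red ((Fin.cons y p : Fin (d + 1) → ι → OO M) i k)) =
        Fin.cons (fun k => L.red (y k)) (fun i (k : ι) => L.red (p i k)) := by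
      funext i
      exact Fin.cases rfl (fun i => rfl) i
    rw [h4, linearIndependent_finCons]
    refine ⟨hp2, fun h5 => ?_⟩
    have h6 : Submodule.span κ (Set.range fun i (k : ι) => L.red (p i k)) ≤
        LinearMap.ker (LinearMap.proj (R := κ) (φ := fun _ : ι => κ) j) := by
      rw [Submodule.span_le]
      rintro _ ⟨i, rfl⟩
      show L.red (p i j) = 0
      rw [(hp3 i).2, map_zero]
    have h7 : L.red (y j) = 0 := h6 h5
    rw [hyj, map_one] at h7
    exact one_ne_zero h7

theorem tc_poly {f₀ : (OO M)[X]} (hf : f₀.Monic) {d : ℕ}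
    (V : Submodule M (AdjoinRoot (f₀.map (OO M).subtype))) (hd : Module.finrank M V = d) :
    ∃ p : Fin d → (OO M)[X], (∀ i, (p i).degree < f₀.degree) ∧
      (∀ i, AdjoinRoot.mk (f₀.map (OO M).subtype) ((p i).map (OO M).subtype) ∈ V) ∧
      LinearIndependent κ (fun i => (p i).map L.red) := by
  have hfM : (f₀.map (OO M).subtype).Monic := hf.map _
  let b := (AdjoinRoot.powerBasis' hfM)
  let e : AdjoinRoot (f₀.map (OO M).subtype) ≃ₗ[M] (Fin b.dim → M) := b.basis.equivFun
  have hdim : b.dim = f₀.natDegree := hf.natDegree_map _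
  have h1 : Module.finrank M (V.map (e : AdjoinRoot (f₀.map (OO M).subtype) →ₗ[M] (Fin b.dim → M))) = d := by
    rw [← hd]
    exact LinearEquiv.finrank_map_eq e V
  obtain ⟨p, hp1, hp2⟩ := tc_vec L _ h1
  have hco : ∀ (i : Fin d) (k : Fin b.dim), (∑ j : Fin b.dim, C (p i j) * X ^ (j : ℕ)).coeff (k : ℕ) = p i k := by
    intro i k
    rw [finsetSum_coeff, Finset.sum_eq_single k]
    · rw [coeff_C_mul_X_pow, if_pos rfl]
    · intro j _ hj
      rw [coeff_C_mul_X_pow, if_neg fun h => hj (Fin.ext h.symm)]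
    · exact fun h => absurd (Finset.mem_univ k) h
  refine ⟨fun i => ∑ j : Fin b.dim, C (p i j) * X ^ (j : ℕ), fun i => ?_, fun i => ?_, ?_⟩
  · rw [degree_eq_natDegree hf.ne_zero, ← hdim]
    exact degree_sum_fin_lt _
  · have h2 : AdjoinRoot.mk (f₀.map (OO M).subtype) ((∑ j : Fin b.dim, C (p i j) * X ^ (j : ℕ)).map (OO M).subtype) =
        e.symm fun j => ((p i j : OO M) : M) := by
      rw [Polynomial.map_sum, map_sum]
      show _ = b.basis.equivFun.symm _
      rw [Module.Basis.equivFun_symm_apply]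
      refine Finset.sum_congr rfl fun j _ => ?_
      rw [b.basis_eq_pow, Polynomial.map_mul, Polynomial.map_C, Polynomial.map_pow, Polynomial.map_X, map_mul, map_pow,
        AdjoinRoot.mk_X, AdjoinRoot.mk_C, Algebra.smul_def]
      rfl
    rw [h2]
    obtain ⟨w, hw1, hw2⟩ := hp1 i
    have h3 : e w = fun j => ((p i j : OO M) : M) := hw2
    rw [← h3, e.symm_apply_apply]
    exact hw1
  · let Ψ : κ[X] →ₗ[κ] (Fin b.dim → κ) := LinearMap.pi fun k => lcoeff κ (k : ℕ)
    refine LinearIndependent.of_comp Ψ ?_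
    have h2 : (Ψ ∘ fun i => (∑ j : Fin b.dim, C (p i j) * X ^ (j : ℕ)).map L.red) = fun i k => L.red (p i k) := by
      funext i k
      show ((∑ j : Fin b.dim, C (p i j) * X ^ (j : ℕ)).map L.red).coeff (k : ℕ) = _
      rw [coeff_map, hco]
    rw [h2]
    exact hp2

end Pool.Agent.H94.GG
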