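import Pool.Agent.H94.GG.IA

set_option autoImplicit false

/-!
# [H94 GG TD] Maximal isotropic subspaces and norms

`k` a field, `g` monic of even degree `2 n`, `β, β'` units of `A = k[x]/(g)` with `Isot g β`, `Isot g β'`.  Then `N(β β')` is a square.
Proof.  For a basis `e` of `A` let `G_e(β) = (tau (β e_i e_j))` (Gram matrix).  In the basis `1, θ, .., θ ^ (2n-1)`: `G(β) = G(1) * (matrix of β)` up to transposition (`β θ ^ j = ∑ M_ij θ ^ i`), so `det G(β) = det G(1) * N(β)`, and `G(1)` has determinant `± 1`: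
`tau (θ ^ (i + j))` is `0` for `i + j < 2n - 1`, `1` for `i + j = 2n - 1` (it is enough that `det G(1) ≠ 0`: the form `tau (x y)` is nondegenerate: if `x = ∑ x_i θ ^ i ≠ 0` with largest index `i` then `tau (x θ ^ (2n - 1 - i)) = x_i ≠ 0`).
If `X` is isotropic of dimension `n` for `β`: extend a basis of `X` to a basis of `A`; the Gram matrix in this basis is the block matrix `[[0, B], [Bᵀ, E]]`, with determinant `(-1) ^ n (det B)²` (`Matrix.det_fromBlocks_zero₁₁` or similar; swap the block columns), and a change of basis multiplies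
the determinant by a square.  So `det G(1) N(β) = (-1) ^ n a²`, `det G(1) N(β') = (-1) ^ n b²`, and `N(β β') = (a b / det G(1))²`.
(The hypotheses that `β`, `β'` are units are not used for this.)
-/

namespace Pool.Agent.H94.GG

open Polynomial

open Matrix in
private theorem gm_block {k ι : Type} [Field k] [Fintype ι] [DecidableEq ι] :
    ∃ ε : k, ε ^ 2 = 1 ∧ ∀ (G : Matrix (ι ⊕ ι) (ι ⊕ ι) k), (∀ i j, G (Sum.inl i) (Sum.inl j) = 0) → G.IsSymm →
      ∃ a : k, G.det * ε = a ^ 2 := by
  refine ⟨(fromBlocks 0 1 1 0 : Matrix (ι ⊕ ι) (ι ⊕ ι) k).det, ?_, ?_⟩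
  · rw [sq, ← det_mul, fromBlocks_multiply]
    simp
  · intro G h0 hs
    refine ⟨G.toBlocks₁₂.det, ?_⟩
    have h1 : G = fromBlocks 0 G.toBlocks₁₂ G.toBlocks₁₂ᵀ G.toBlocks₂₂ := by
      ext i j
      rcases i with i | i <;> rcases j with j | j
      · exact h0 i j
      · rfl
      · exact hs.apply _ _
      · rfl
    rw [← det_mul]
    have h2 : G * fromBlocks 0 1 1 0 = fromBlocks G.toBlocks₁₂ 0 G.toBlocks₂₂ G.toBlocks₁₂ᵀ := by
      conv_lhs => rw [h1]
      rw [fromBlocks_multiply]
      simp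
    rw [h2, det_fromBlocks_zero₁₂, det_transpose, sq]

section

variable {k : Type} [Field k] {g : k[X]} {ι : Type} [Fintype ι] [DecidableEq ι]

private noncomputable def gm (hg : g.Monic) (e : Module.Basis ι k (AdjoinRoot g)) (β : AdjoinRoot g) : Matrix ι ι k :=
  Matrix.of fun i j => tau hg (β * e i * e j)

private theorem gm_symm (hg : g.Monic) (e : Module.Basis ι k (AdjoinRoot g)) (β : AdjoinRoot g) :
    (gm hg e β).IsSymm := by
  refine Matrix.IsSymm.ext fun i j => ?_
  show tau hg (β * e j * e i) = tau hg (β * e i * e j)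
  rw [mul_right_comm]

private theorem gm_mul (hg : g.Monic) (e : Module.Basis ι k (AdjoinRoot g)) (β : AdjoinRoot g) :
    gm hg e β = gm hg e 1 * Algebra.leftMulMatrix e β := by
  ext i j
  rw [Matrix.mul_apply]
  show tau hg (β * e i * e j) = ∑ l, tau hg (1 * e i * e l) * Algebra.leftMulMatrix e β l j
  have h1 : β * e i * e j = e i * ∑ l, Algebra.leftMulMatrix e β l j • e l := by
    simp only [Algebra.leftMulMatrix_eq_repr_mul]
    rw [e.sum_repr]
    ring
  rw [h1, Finset.mul_sum, map_sum]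
  refine Finset.sum_congr rfl fun l _ => ?_
  rw [mul_smul_comm, map_smul, one_mul, smul_eq_mul, mul_comm]

private theorem gm_det (hg : g.Monic) (e : Module.Basis ι k (AdjoinRoot g)) (β : AdjoinRoot g) :
    (gm hg e β).det = (gm hg e 1).det * Algebra.norm k β := by
  rw [gm_mul, Matrix.det_mul, Algebra.norm_eq_matrix_det e]

/-- the form is nondegenerate -/
private theorem tau_nd (hg : g.Monic) {x : AdjoinRoot g} (hx : x ≠ 0) : ∃ y, tau hg (y * x) ≠ 0 := by
  obtain ⟨p0, rfl⟩ := AdjoinRoot.mk_surjective x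
  have h1 : AdjoinRoot.mk g p0 = AdjoinRoot.mk g (p0 %ₘ g) := by
    rw [AdjoinRoot.mk_eq_mk, modByMonic_eq_sub_mul_div, sub_sub_cancel]
    exact dvd_mul_right _ _
  rw [h1] at hx ⊢
  have hd : (p0 %ₘ g).degree < g.degree := degree_modByMonic_lt p0 hg
  generalize p0 %ₘ g = p at hx hd
  have hp : p ≠ 0 := by
    rintro rfl
    exact hx (map_zero _)
  have hn : p.natDegree < g.natDegree := natDegree_lt_natDegree hp hd
  refine ⟨AdjoinRoot.mk g (X ^ (g.natDegree - 1 - p.natDegree)), ?_⟩
  rw [← map_mul]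
  have h2 : (X ^ (g.natDegree - 1 - p.natDegree) * p) %ₘ g = X ^ (g.natDegree - 1 - p.natDegree) * p := by
    rw [modByMonic_eq_self_iff hg, degree_eq_natDegree hg.ne_zero,
      degree_eq_natDegree (mul_ne_zero (pow_ne_zero _ X_ne_zero) hp), natDegree_X_pow_mul _ hp]
    exact_mod_cast (by omega : p.natDegree + (g.natDegree - 1 - p.natDegree) < g.natDegree)
  show ((X ^ (g.natDegree - 1 - p.natDegree) * p) %ₘ g).coeff (g.natDegree - 1) ≠ 0
  rw [h2]
  have h3 : g.natDegree - 1 = p.natDegree + (g.natDegree - 1 - p.natDegree) := by omega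
  have h4 : (X ^ (g.natDegree - 1 - p.natDegree) * p).coeff (g.natDegree - 1) = p.leadingCoeff := by
    conv_lhs => rw [h3]
    rw [Nat.add_sub_cancel_left, coeff_X_pow_mul]
    rfl
  rw [h4]
  exact leadingCoeff_ne_zero.2 hp

private theorem gm_ne (hg : g.Monic) (e : Module.Basis ι k (AdjoinRoot g)) : (gm hg e 1).det ≠ 0 := by
  intro h0
  obtain ⟨c, hc, h1⟩ := Matrix.exists_mulVec_eq_zero_iff.2 h0
  have hx : ∑ j, c j • e j ≠ 0 := by
    intro h2
    apply hc
    funext j
    exact (Fintype.linearIndependent_iff.1 e.linearIndependent c h2 j)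
  obtain ⟨y, hy⟩ := tau_nd hg hx
  apply hy
  have h3 : ∀ i, tau hg (e i * ∑ j, c j • e j) = 0 := by
    intro i
    have h4 := congrFun h1 i
    rw [Matrix.mulVec, dotProduct] at h4
    rw [Finset.mul_sum, map_sum]
    rw [← h4.trans (Pi.zero_apply i)]
    refine Finset.sum_congr rfl fun j _ => ?_
    show _ = tau hg (1 * e i * e j) * c j
    rw [mul_smul_comm, map_smul, one_mul, smul_eq_mul, mul_comm]
  rw [← e.sum_repr y, Finset.sum_mul, map_sum]
  refine Finset.sum_eq_zero fun i _ => ?_
  rw [smul_mul_assoc, map_smul, h3, smul_zero]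

private theorem gm_change (hg : g.Monic) (e e' : Module.Basis ι k (AdjoinRoot g)) :
    (gm hg e' 1).det = (e.toMatrix e').det ^ 2 * (gm hg e 1).det := by
  have h1 : gm hg e' 1 = (e.toMatrix e').transpose * gm hg e 1 * e.toMatrix e' := by
    ext i j
    rw [Matrix.mul_apply]
    show tau hg (1 * e' i * e' j) = _
    have h2 : ∀ l, ((e.toMatrix e').transpose * gm hg e 1) i l = tau hg (e' i * e l) := by
      intro l
      rw [Matrix.mul_apply]
      conv_rhs => rw [← e.sum_repr (e' i), Finset.sum_mul, map_sum]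
      refine Finset.sum_congr rfl fun s _ => ?_
      show e.toMatrix e' s i * tau hg (1 * e s * e l) = _
      rw [Module.Basis.toMatrix_apply, smul_mul_assoc, map_smul, one_mul, smul_eq_mul]
    simp only [h2]
    conv_lhs => rw [← e.sum_repr (e' j), Finset.mul_sum, map_sum]
    refine Finset.sum_congr rfl fun s _ => ?_
    rw [Module.Basis.toMatrix_apply, mul_smul_comm, map_smul, one_mul, smul_eq_mul, mul_comm]
  rw [h1, Matrix.det_mul, Matrix.det_mul, Matrix.det_transpose]
  ring

end

private theorem adapted {k V : Type} [Field k] [AddCommGroup V] [Module k V] [FiniteDimensional k V] {n : ℕ}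
    (hV : Module.finrank k V = n + n) (X : Submodule k V) (hX : Module.finrank k X = n) :
    ∃ e : Module.Basis (Fin n ⊕ Fin n) k V, ∀ i, e (Sum.inl i) ∈ X := by
  obtain ⟨Y, hXY⟩ := X.exists_isCompl
  have hY : Module.finrank k Y = n := by
    have h1 := Submodule.finrank_add_eq_of_isCompl hXY
    omega
  let bX : Module.Basis (Fin n) k X := Module.finBasisOfFinrankEq k X hX
  let bY : Module.Basis (Fin n) k Y := Module.finBasisOfFinrankEq k Y hY
  refine ⟨(bX.prod bY).map (Submodule.prodEquivOfIsCompl X Y hXY), fun i => ?_⟩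
  have h2 : ((bX.prod bY).map (Submodule.prodEquivOfIsCompl X Y hXY)) (Sum.inl i) = (bX i : V) := by
    simp
  rw [h2]
  exact (bX i).2

theorem isot_norm {k : Type} [Field k] {g : k[X]} (hg : g.Monic) (heven : Even g.natDegree)
    {β β' : AdjoinRoot g} (h : Isot g β) (h' : Isot g β') :
    ∃ y : k, Algebra.norm k (β * β') = y ^ 2 := by
  obtain ⟨n, hn⟩ := heven
  have hhalf : g.natDegree / 2 = n := by omega
  haveI : FiniteDimensional k (AdjoinRoot g) := (AdjoinRoot.powerBasis' hg).finite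
  have hV : Module.finrank k (AdjoinRoot g) = n + n := by
    rw [← hn]
    exact (AdjoinRoot.powerBasis' hg).finrank
  obtain ⟨_, X1, hX1, hX2⟩ := h
  obtain ⟨_, X1', hX1', hX2'⟩ := h'
  rw [hhalf] at hX1 hX1'
  obtain ⟨e, he⟩ := adapted hV X1 hX1
  obtain ⟨e', he'⟩ := adapted hV X1' hX1'
  obtain ⟨ε, hε, hbl⟩ := gm_block (k := k) (ι := Fin n)
  obtain ⟨a, ha⟩ := hbl (gm hg e β) (fun i j => hX2 _ (he i) _ (he j)) (gm_symm hg e β)
  obtain ⟨b, hb⟩ := hbl (gm hg e' β') (fun i j => hX2' _ (he' i) _ (he' j)) (gm_symm hg e' β')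
  rw [gm_det] at ha hb
  have hc := gm_change hg e e'
  have hne := gm_ne hg e
  have hne' := gm_ne hg e'
  set G := (gm hg e 1).det
  set c := (e.toMatrix e').det
  have hc0 : c ≠ 0 := by
    intro h0
    rw [hc, h0] at hne'
    exact hne' (by ring)
  rw [hc] at hb
  refine ⟨a * b / (G * c), ?_⟩
  have h1 : (a * b) ^ 2 = Algebra.norm k (β * β') * (G * c) ^ 2 := by
    rw [map_mul, mul_pow, ← ha, ← hb]
    linear_combination (G ^ 2 * c ^ 2 * Algebra.norm k β * Algebra.norm k β') * hε
  rw [div_pow, h1, mul_div_assoc, div_self (pow_ne_zero _ (mul_ne_zero hne hc0)), mul_one]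

end Pool.Agent.H94.GG
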