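import Pool.Agent.H94.GG.Defs

set_option autoImplicit false

/-!
# [H94 GG TDefs] THEOREM G, chapter TWO: local definitions

`M` a field with a discrete valuation `v` (values in `ℤᵐ⁰`), `OO M = {v ≤ 1}`, `L : Loc M κ` a residue map `OO M → κ` and a uniformizer.
`S : Spl L`: a special polynomial `S.f = (X - C c) * G` over `OO M`, `G` monic of even degree with irreducible reduction which is prime to `X - c` modulo `ϖ`.
`S.fM`: the polynomial over `M`; `S.cl u`: class of an integral polynomial; `S.Ev δ`, `S.Od δ`: `δ = z² u`, `δ = z² u w` with `u` integral, a unit modulo `ϖ`, and `w = (1, ϖ)` in `M[x]/(x - c) × M[x]/(G)`.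
-/

namespace Pool.Agent.H94.GG

open Polynomial WithZero

/-- valuation ring -/
abbrev OO (M : Type) [Field M] [hv : Valued M ℤᵐ⁰] : Subring M :=
  (Valued.v : Valuation M ℤᵐ⁰).integer

/-- residue map and uniformizer -/
structure Loc (M : Type) [Field M] [hv : Valued M ℤᵐ⁰] (κ : Type) [Field κ] where
  /-- the residue map -/
  red : OO M →+* κ
  surj : Function.Surjective red
  ker : ∀ x, red x = 0 ↔ (Valued.v : Valuation M ℤᵐ⁰) (x : M) < 1
  /-- a uniformizer -/
  ϖ : OO M
  hϖ : (Valued.v : Valuation M ℤᵐ⁰) (ϖ : M) = exp (-1 : ℤ)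

/-- special polynomials -/
structure Spl {M : Type} [Field M] [hv : Valued M ℤᵐ⁰] {κ : Type} [Field κ] (L : Loc M κ) where
  /-- the root -/
  c : OO M
  /-- the other factor -/
  G : (OO M)[X]
  mon : G.Monic
  even : Even G.natDegree
  irr : Irreducible (G.map L.red)
  ne : (G.map L.red).eval (L.red c) ≠ 0

namespace Spl

variable {M : Type} [Field M] [hv : Valued M ℤᵐ⁰] {κ : Type} [Field κ] {L : Loc M κ} (S : Spl L)

/-- the polynomial over `OO M` -/
noncomputable def f : (OO M)[X] := (X - C S.c) * S.G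

/-- the polynomial over `M` -/
noncomputable def fM : M[X] := S.f.map (OO M).subtype

/-- the class of an integral polynomial -/
noncomputable def cl (u : (OO M)[X]) : AdjoinRoot S.fM := AdjoinRoot.mk S.fM (u.map (OO M).subtype)

/-- even type -/
def Ev (δ : AdjoinRoot S.fM) : Prop :=
  ∃ (z : AdjoinRoot S.fM) (u : (OO M)[X]), IsUnit z ∧ IsCoprime (u.map L.red) (S.f.map L.red) ∧
    δ = z ^ 2 * S.cl u

/-- odd type -/
def Od (δ : AdjoinRoot S.fM) : Prop :=
  ∃ (z : AdjoinRoot S.fM) (u w : (OO M)[X]), IsUnit z ∧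
    IsCoprime (u.map L.red) (S.f.map L.red) ∧ w.eval S.c = 1 ∧ S.G ∣ w - C L.ϖ ∧
    δ = z ^ 2 * S.cl (u * w)

end Spl

end Pool.Agent.H94.GG
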