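import Mathlib

set_option autoImplicit false

/-!
# [H94 GG TE] Squares in extensions of finite fields (Mathlib only)

`κ` finite with `2 ≠ 0`, `κ' / κ` a finite extension.  If the norm of `z` is a square then `z` is a square.
`FiniteField.algebraMap_norm_eq_pow`: `N(z) = z ^ ((q' - 1) / (q - 1))`; for `z ≠ 0`: `z ^ ((q' - 1) / 2) = N(z) ^ ((q - 1) / 2) = 1` (`FiniteField.isSquare_iff`, `q' - 1 = ((q' - 1) / (q - 1)) (q - 1)`), so `z` is a square (`FiniteField.isSquare_iff`).
-/

namespace Pool.Agent.H94.GG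

open Polynomial

theorem fin_sq {κ κ' : Type} [Field κ] [Field κ'] [Algebra κ κ'] [Finite κ] [Finite κ']
    (h2 : (2 : κ) ≠ 0) {z : κ'} {y : κ} (h : Algebra.norm κ z = y ^ 2) : ∃ w : κ', z = w ^ 2 := by
  have hf1 : Fintype κ := Fintype.ofFinite κ
  have hf2 : Fintype κ' := Fintype.ofFinite κ'
  by_cases hz : z = 0
  · exact ⟨0, by rw [hz]; ring⟩
  have hinj : Function.Injective (algebraMap κ κ') := (algebraMap κ κ').injective
  have h2' : (2 : κ') ≠ 0 := by
    intro h
    apply h2
    apply hinj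
    rw [map_zero, ← h]
    exact map_ofNat _ 2
  have hr1 : ringChar κ ≠ 2 := fun h => h2 (by
    have h3 := ringChar.Nat.cast_ringChar (R := κ)
    rw [h] at h3
    exact_mod_cast h3)
  have hr2 : ringChar κ' ≠ 2 := fun h => h2' (by
    have h3 := ringChar.Nat.cast_ringChar (R := κ')
    rw [h] at h3
    exact_mod_cast h3)
  have hN := FiniteField.algebraMap_norm_eq_pow (K := κ) (x := z)
  rw [h] at hN
  have hc1 := FiniteField.odd_card_of_char_ne_two hr1
  have hc2 := FiniteField.odd_card_of_char_ne_two hr2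
  have hdvd : Nat.card κ - 1 ∣ Nat.card κ' - 1 := by
    rw [Module.natCard_eq_pow_finrank (K := κ) (V := κ')]
    have h4 := Nat.sub_dvd_pow_sub_pow (Nat.card κ) 1 (Module.finrank κ κ')
    rwa [one_pow] at h4
  obtain ⟨m, hm⟩ := hdvd
  have hq1 : 1 < Nat.card κ := Finite.one_lt_card
  have hm' : (Nat.card κ' - 1) / (Nat.card κ - 1) = m := by
    rw [hm]
    exact Nat.mul_div_cancel_left m (by omega)
  rw [hm'] at hN
  rw [Nat.card_eq_fintype_card, Nat.card_eq_fintype_card] at hm
  rw [Nat.card_eq_fintype_card] at hq1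
  have hy : y ≠ 0 := by
    intro h0
    rw [h0] at hN
    rw [zero_pow (by norm_num), map_zero] at hN
    exact hz (eq_zero_of_pow_eq_zero hN.symm)
  have hsq : IsSquare z := by
    rw [FiniteField.isSquare_iff hr2 hz]
    have e1 : Fintype.card κ' / 2 = m * (Fintype.card κ / 2) := by
      have e2 : Fintype.card κ - 1 = 2 * (Fintype.card κ / 2) := by omega
      rw [e2] at hm
      have e3 : Fintype.card κ' - 1 = 2 * (m * (Fintype.card κ / 2)) := by
        rw [hm]; ring
      omega
    rw [e1, pow_mul, ← hN, ← map_pow, ← pow_mul]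
    have e2 : 2 * (Fintype.card κ / 2) = Fintype.card κ - 1 := by omega
    rw [e2, FiniteField.pow_card_sub_one_eq_one y hy, map_one]
  obtain ⟨w, hw⟩ := hsq
  exact ⟨w, by rw [hw]; ring⟩

theorem fin_sq_adj {κ : Type} [Field κ] [Finite κ] (h2 : (2 : κ) ≠ 0) {g : κ[X]}
    (hg : Irreducible g) {z : AdjoinRoot g} {y : κ} (h : Algebra.norm κ z = y ^ 2) :
    ∃ w : AdjoinRoot g, z = w ^ 2 := by
  have hfact : Fact (Irreducible g) := ⟨hg⟩
  have hfin : Module.Finite κ (AdjoinRoot g) := (AdjoinRoot.powerBasis hg.ne_zero).finite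
  have hfin2 : Finite (AdjoinRoot g) := Module.finite_of_finite κ
  exact fin_sq h2 h

end Pool.Agent.H94.GG
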