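import Pool.Agent.H94.GG.TB
import Pool.Agent.H94.GG.TC
import Pool.Agent.H94.GG.TJ
import Pool.Agent.H94.GG.IA

set_option autoImplicit false

/-!
# [H94 GG TG] Reduction of an isotropic subspace at a special place, odd type

`S.f = (X - C c) * G`, `deg G = n = 2 γ`, `s (X - c) + t G = 1`, `w(c) = 1`, `G ∣ w - ϖ`, `u(c)` a unit.  `X ≤ M[x]/(f)` of dimension `γ` (`(n + 1) / 2 = γ`), isotropic for the form of `u w`.
`tc_poly`: `p_i ∈ (OO M)[X]`, `i < γ`, of degree `≤ n`, with classes in `X` and independent reductions.  For all `i, j`: `tau (u w p_i p_j) = 0`, i.e. (`tau_mk`; `modByMonic` commutes with `map`) the coefficient of `X ^ n` of `(u w p_i p_j) %ₘ S.f` is `0` in `OO M`.  By `tb_main`, `tb_unit`: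
`0 = τ_G (u w p_i p_j s) - (u w p_i p_j)(c) τ_G s`, where `τ_G s * G(c) = -1`, `w(c) = 1`, and `τ_G (u w p_i p_j s) = ϖ τ_G (u p_i p_j s)` as `w ≡ ϖ` modulo `G`.
* So `u(c) p_i(c) p_j(c) * (unit) ∈ ϖ (OO M)`; for `i = j`: `red (p_i(c)) = 0` (`u(c)` is a unit).
* Then `p_i(c) p_j(c) ∈ ϖ² (OO M)`, so `τ_G (u p_i p_j s) ∈ ϖ (OO M)`: reduction: `τ_Ḡ (ū s̄ p̄_i p̄_j) = 0` (`modByMonic` and `map`).
* The classes of the `p̄_i` in `κ[x]/(Ḡ)` are linearly independent: if `Ḡ ∣ p̄ = ∑ a_i p̄_i` then also `X - c̄ ∣ p̄` (`p̄_i(c̄) = 0`), and `X - c̄`, `Ḡ` are coprime (`Ḡ(c̄) ≠ 0`), so `(X - c̄) Ḡ ∣ p̄`, `deg p̄ ≤ n`: `p̄ = 0`.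
Their span has dimension `γ = deg Ḡ / 2` and is isotropic for `ū s̄` (bilinear).
-/

namespace Pool.Agent.H94.GG

open Polynomial WithZero

private theorem ind_red {κ : Type} [Field κ] {c : κ} {G : κ[X]} (hG : G.Monic) (hc : G.eval c ≠ 0)
    {d : ℕ} (p : Fin d → κ[X]) (hd : ∀ i, (p i).degree < (G.natDegree + 1 : ℕ))
    (hp : ∀ i, (p i).eval c = 0) (hl : LinearIndependent κ p) :
    LinearIndependent κ (fun i => AdjoinRoot.mk G (p i)) := by
  rw [Fintype.linearIndependent_iff] at hl ⊢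
  intro g hg
  refine hl g ?_
  have h1 : AdjoinRoot.mk G (∑ i, g i • p i) = 0 := by
    rw [map_sum, ← hg]
    refine Finset.sum_congr rfl fun i _ => ?_
    rw [AdjoinRoot.smul_mk]
  rw [AdjoinRoot.mk_eq_zero] at h1
  have h2 : (X - C c) ∣ ∑ i, g i • p i := by
    rw [dvd_iff_isRoot, IsRoot, eval_finsetSum]
    refine Finset.sum_eq_zero fun i _ => ?_
    rw [eval_smul, hp i, smul_zero]
  have h3 : IsCoprime (X - C c) G := by
    rw [(irreducible_X_sub_C c).coprime_iff_not_dvd, dvd_iff_isRoot]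
    exact hc
  have h4 := h3.mul_dvd h2 h1
  have h5 : ((X - C c) * G).natDegree = G.natDegree + 1 := by
    rw [natDegree_mul (X_sub_C_ne_zero c) hG.ne_zero, natDegree_X_sub_C, add_comm]
  refine eq_zero_of_dvd_of_degree_lt h4 ?_
  rw [degree_eq_natDegree ((monic_X_sub_C c).mul hG).ne_zero, h5]
  rw [← mem_degreeLT]
  exact Submodule.sum_mem _ fun i _ => Submodule.smul_mem _ _ (mem_degreeLT.2 (hd i))

private theorem red_eq_zero_dvd {M : Type} [Field M] [hv : Valued M ℤᵐ⁰] {κ : Type} [Field κ]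
    {L : Loc M κ} {x : OO M} (hx : L.red x = 0) : ∃ y : OO M, x = L.ϖ * y := by
  have h1 := (L.ker x).mp hx
  have h2 : (Valued.v : Valuation M ℤᵐ⁰) (x : M) ≤ exp (-1 : ℤ) := by
    by_cases h0 : (Valued.v : Valuation M ℤᵐ⁰) (x : M) = 0
    · rw [h0]; exact zero_le
    · rw [← WithZero.log_le_iff_le_exp h0]
      rw [← exp_zero, ← WithZero.log_lt_iff_lt_exp h0] at h1
      omega
  have hne : (L.ϖ : M) ≠ 0 := by
    intro h
    have := L.hϖ
    rw [h, map_zero] at this
    exact exp_ne_zero this.symm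
  refine ⟨⟨(x : M) / (L.ϖ : M), ?_⟩, ?_⟩
  · rw [Valuation.mem_integer_iff, map_div₀, L.hϖ]
    exact div_le_one_of_le₀ h2 zero_le
  · apply Subtype.ext
    show (x : M) = (L.ϖ : M) * ((x : M) / (L.ϖ : M))
    rw [mul_div_cancel₀ _ hne]

theorem red_isot {M : Type} [Field M] [hv : Valued M ℤᵐ⁰] {κ : Type} [Field κ] {L : Loc M κ}
    (S : Spl L) {u w s t : (OO M)[X]} (hs : s * (X - C S.c) + t * S.G = 1)
    (hu : L.red (u.eval S.c) ≠ 0) (hw1 : w.eval S.c = 1) (hw2 : S.G ∣ w - C L.ϖ)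
    (h : Isot S.fM (S.cl (u * w))) :
    Isot (S.G.map L.red) (AdjoinRoot.mk (S.G.map L.red) ((u * s).map L.red)) := by
  obtain ⟨hg, V, hV, hV'⟩ := h
  obtain ⟨p, hpd, hpV, hpl⟩ := tc_poly L S.f_monic (d := S.fM.natDegree / 2) V hV
  have hn := S.natDegree_fM
  have hn1 := S.natDegree_pos
  have hϖ : L.red L.ϖ = 0 := (L.ker _).mpr (by rw [L.hϖ, ← exp_zero]; exact exp_lt_exp.mpr (by omega))
  have hne : (L.ϖ : OO M) ≠ 0 := by
    intro h
    have := L.hϖ
    rw [h] at this
    simp only [ZeroMemClass.coe_zero, map_zero] at this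
    exact exp_ne_zero this.symm
  -- the main identity
  have hmain : ∀ i j, L.ϖ * ((u * s * p i * p j) %ₘ S.G).coeff (S.G.natDegree - 1) =
      u.eval S.c * (p i).eval S.c * (p j).eval S.c * (s %ₘ S.G).coeff (S.G.natDegree - 1) := by
    intro i j
    have hpV' : ∀ i, AdjoinRoot.mk S.fM ((p i).map (OO M).subtype) ∈ V := hpV
    have h1 := hV' _ (hpV' i) _ (hpV' j)
    have e1 : S.cl (u * w) * AdjoinRoot.mk S.fM ((p i).map (OO M).subtype) *
        AdjoinRoot.mk S.fM ((p j).map (OO M).subtype) =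
        AdjoinRoot.mk S.fM ((u * w * p i * p j).map (OO M).subtype) := by
      unfold Spl.cl
      rw [← map_mul, ← map_mul, ← Polynomial.map_mul, ← Polynomial.map_mul]
    have h2 : tau hg (AdjoinRoot.mk S.fM ((u * w * p i * p j).map (OO M).subtype)) = 0 := by
      rw [← e1]; exact h1
    rw [tau_mk, hn, Nat.add_sub_cancel] at h2
    have h3 : (u * w * p i * p j).map (OO M).subtype %ₘ S.fM =
        ((u * w * p i * p j) %ₘ S.f).map (OO M).subtype := by
      rw [Spl.fM, map_modByMonic _ S.f_monic]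
    rw [h3, coeff_map] at h2
    have h4 : ((u * w * p i * p j) %ₘ S.f).coeff S.G.natDegree = 0 := by
      apply Subtype.ext
      exact h2
    rw [Spl.f, tb_main S.mon hn1 hs] at h4
    have h5 : (u * w * p i * p j * s) %ₘ S.G = L.ϖ • ((u * s * p i * p j) %ₘ S.G) := by
      rw [← smul_modByMonic]
      have h6 : S.G ∣ u * w * p i * p j * s - L.ϖ • (u * s * p i * p j) := by
        rw [smul_eq_C_mul]
        have e : u * w * p i * p j * s - C L.ϖ * (u * s * p i * p j) =
            (w - C L.ϖ) * (u * s * p i * p j) := by ring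
        rw [e]
        exact hw2.mul_right _
      have h7 := (modByMonic_eq_zero_iff_dvd S.mon).mpr h6
      rw [sub_modByMonic] at h7
      exact sub_eq_zero.mp h7
    rw [h5, coeff_smul, smul_eq_mul, eval_mul, eval_mul, eval_mul, hw1, mul_one] at h4
    exact sub_eq_zero.mp h4
  have hσ : L.red ((s %ₘ S.G).coeff (S.G.natDegree - 1)) ≠ 0 := by
    intro h0
    have h1 := congrArg L.red (tb_unit S.mon hn1 hs)
    rw [map_mul, h0, zero_mul, map_neg, map_one] at h1
    exact one_ne_zero (neg_eq_zero.mp h1.symm)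
  have hpc : ∀ i, L.red ((p i).eval S.c) = 0 := by
    intro i
    have h1 := congrArg L.red (hmain i i)
    rw [map_mul, hϖ, zero_mul, map_mul, map_mul, map_mul] at h1
    have h2 := h1.symm
    rw [mul_eq_zero, or_iff_left hσ, mul_eq_zero, mul_eq_zero, or_iff_right hu, or_self] at h2
    exact h2
  have hT : ∀ i j, L.red (((u * s * p i * p j) %ₘ S.G).coeff (S.G.natDegree - 1)) = 0 := by
    intro i j
    obtain ⟨a, ha⟩ := red_eq_zero_dvd (hpc i)
    obtain ⟨b, hb⟩ := red_eq_zero_dvd (hpc j)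
    have h1 := hmain i j
    rw [ha, hb] at h1
    have h2 : ((u * s * p i * p j) %ₘ S.G).coeff (S.G.natDegree - 1) =
        L.ϖ * (u.eval S.c * a * b * (s %ₘ S.G).coeff (S.G.natDegree - 1)) := by
      apply mul_left_cancel₀ hne
      rw [h1]; ring
    rw [h2, map_mul, hϖ, zero_mul]
  have hGm : (S.G.map L.red).Monic := S.mon.map _
  have hGn : (S.G.map L.red).natDegree = S.G.natDegree := S.mon.natDegree_map _
  have hT' : ∀ i j, tau hGm (AdjoinRoot.mk (S.G.map L.red) ((u * s).map L.red) *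
      AdjoinRoot.mk (S.G.map L.red) ((p i).map L.red) *
      AdjoinRoot.mk (S.G.map L.red) ((p j).map L.red)) = 0 := by
    intro i j
    rw [← map_mul, ← map_mul, ← Polynomial.map_mul, ← Polynomial.map_mul, tau_mk,
      ← map_modByMonic _ S.mon, hGn, coeff_map, hT i j]
  have hind : LinearIndependent κ
      (fun i => AdjoinRoot.mk (S.G.map L.red) ((p i).map L.red)) := by
    refine ind_red (c := L.red S.c) hGm S.ne _ (fun i => ?_) (fun i => ?_) hpl
    · refine lt_of_le_of_lt degree_map_le ((hpd i).trans_le ?_)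
      rw [degree_eq_natDegree S.f_monic.ne_zero, S.natDegree_f, hGn]
    · rw [eval_map, eval₂_hom, hpc i]
  refine ⟨hGm, Submodule.span κ (Set.range fun i =>
    AdjoinRoot.mk (S.G.map L.red) ((p i).map L.red)), ?_, ?_⟩
  · rw [finrank_span_eq_card hind, Fintype.card_fin, hGn, hn]
    obtain ⟨r, hr⟩ := S.even
    omega
  · intro x hx y hy
    induction hx using Submodule.span_induction with
    | mem x hx =>
      obtain ⟨i, rfl⟩ := hx
      induction hy using Submodule.span_induction with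
      | mem y hy =>
        obtain ⟨j, rfl⟩ := hy
        exact hT' i j
      | zero => rw [mul_zero, map_zero]
      | add y z _ _ hy hz => rw [mul_add, map_add, hy, hz, add_zero]
      | smul a y _ hy => rw [mul_smul_comm, map_smul, hy, smul_zero]
    | zero => rw [mul_zero, zero_mul, map_zero]
    | add y z _ _ hy hz => rw [mul_add, add_mul, map_add, hy, hz, add_zero]
    | smul a y _ hy => rw [mul_smul_comm, smul_mul_assoc, map_smul, hy, smul_zero]

end Pool.Agent.H94.GG
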