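import Pool.Agent.H94.GG.TG
import Pool.Agent.H94.GG.TD
import Pool.Agent.H94.GG.TE
import Pool.Agent.H94.PN.HEL

set_option autoImplicit false

/-!
# [H94 GG TH] Two isotropic elements of odd type differ by a square

`δ = z² u w`, `δ' = z'² u' w'` of odd type, isotropic, with square norms.  Then `δ δ'` is a square.
* `Isot` does not change if we multiply by the square of a unit (`isot_mul_sq_iff`), so `S.cl (u * w)` and `S.cl (u' * w')` are isotropic.  Let `s (X - c) + t G = 1` (`cop_lift` for `X - c` and `G`: their reductions are coprime as `Ḡ(c̄) ≠ 0`).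
  `red_isot` twice, `isot_norm` (with `Even` of the degree of `Ḡ`): `N(ū s̄ ū' s̄)` is a square in `κ`, and `ū ū' s̄²` is a square in `κ[x]/(Ḡ)` by `fin_sq_adj`; `s̄` is a unit there, so `ū ū'` is a square: `Q₀² ≡ u u'` modulo `(G, ϖ)`, `Q₀` coprime to `Ḡ` (as `u u'` is).
* `PN.hel` (`ℓ = 2`, `P = G`): `G ∣ Q² - u u'` for some `Q ∈ (OO M)[X]`.  So the class of `δ δ' = (z z')² u u' w w'` modulo `G` over `M` is the square of `z z' Q ϖ` (`w ≡ w' ≡ ϖ`; take a representative of `z z'`).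
* Norms (`tf_norm`, `fM_eq`): `N(δ δ') = (δ δ')(c) N(δ δ' mod G)`, the left side is a nonzero square, `N(δ δ' mod G)` is a nonzero square (`δ δ'` is a unit), so `(δ δ')(c)` is a square in `M`.  `tf_sq`.
-/

namespace Pool.Agent.H94.GG

open Polynomial WithZero

private lemma th_cop {k : Type} [Field k] {c : k} {g : k[X]} (h : g.eval c ≠ 0) :
    IsCoprime (X - C c) g := by
  refine (irreducible_X_sub_C c).coprime_iff_not_dvd.2 fun hd => h ?_
  exact dvd_iff_isRoot.1 hd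

private lemma th_sq {k : Type} [Field k] {c : k} {G f : k[X]} (hf : f = (X - C c) * G)
    (hc : G.eval c ≠ 0) {h : k[X]} {a : k}
    (ha : h.eval c = a ^ 2) {z : AdjoinRoot G} (hz : AdjoinRoot.mk G h = z ^ 2) :
    ∃ w : AdjoinRoot f, AdjoinRoot.mk f h = w ^ 2 := by
  subst hf
  exact tf_sq hc ha hz

private lemma th_norm {k : Type} [Field k] {c : k} {G f : k[X]} (hf : f = (X - C c) * G)
    (hG : G.Monic) (hc : G.eval c ≠ 0)
    (h : k[X]) : Algebra.norm k (AdjoinRoot.mk f h) =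
      h.eval c * Algebra.norm k (AdjoinRoot.mk G h) := by
  subst hf
  exact tf_norm hG hc h

/-- a square root of `u u'` modulo `G` -/
private lemma th_root {M : Type} [Field M] [hv : Valued M ℤᵐ⁰] [CompleteSpace M] {κ : Type}
    [Field κ] [Finite κ] (h2 : (2 : κ) ≠ 0) {L : Loc M κ} (S : Spl L) {u u' w w' : (OO M)[X]}
    (hu : IsCoprime (u.map L.red) (S.f.map L.red))
    (hu' : IsCoprime (u'.map L.red) (S.f.map L.red))
    (hw1 : w.eval S.c = 1) (hw2 : S.G ∣ w - C L.ϖ)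
    (hw1' : w'.eval S.c = 1) (hw2' : S.G ∣ w' - C L.ϖ)
    (hi : Isot S.fM (S.cl (u * w))) (hi' : Isot S.fM (S.cl (u' * w'))) :
    ∃ Q : (OO M)[X], S.G ∣ Q ^ 2 - u * u' := by
  obtain ⟨hu1, hu2⟩ := (S.cop_iff u).1 hu
  obtain ⟨hu1', hu2'⟩ := (S.cop_iff u').1 hu'
  obtain ⟨s, t, hs⟩ : IsCoprime (X - C S.c) S.G := by
    refine cop_lift L (monic_X_sub_C _) ?_
    rw [Polynomial.map_sub, map_X, map_C]
    exact th_cop S.ne
  have h3 := red_isot S hs hu1 hw1 hw2 hi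
  have h4 := red_isot S hs hu1' hw1' hw2' hi'
  have hmon : (S.G.map L.red).Monic := S.mon.map _
  have heven : Even (S.G.map L.red).natDegree := by
    rw [S.mon.natDegree_map]
    exact S.even
  obtain ⟨y, hy⟩ := isot_norm hmon heven h3 h4
  obtain ⟨r, hr⟩ := fin_sq_adj h2 S.irr hy
  -- `s` is a unit modulo `G`
  have hs1 : AdjoinRoot.mk (S.G.map L.red) (s.map L.red) *
      AdjoinRoot.mk (S.G.map L.red) ((X - C S.c).map L.red) = 1 := by
    rw [← map_mul, ← Polynomial.map_mul, ← map_one (AdjoinRoot.mk (S.G.map L.red)),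
      AdjoinRoot.mk_eq_mk]
    refine ⟨-(t.map L.red), ?_⟩
    have h5 := congrArg (Polynomial.map L.red) hs
    rw [Polynomial.map_add, Polynomial.map_mul, Polynomial.map_mul, Polynomial.map_one] at h5
    rw [Polynomial.map_mul]
    linear_combination h5
  obtain ⟨Q1, hQ1⟩ := AdjoinRoot.mk_surjective
    (r * AdjoinRoot.mk (S.G.map L.red) ((X - C S.c).map L.red))
  obtain ⟨Q0, rfl⟩ := Polynomial.map_surjective L.red L.surj Q1
  have hd : S.G.map L.red ∣ (Q0 ^ 2 - u * u').map L.red := by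
    rw [← AdjoinRoot.mk_eq_zero, Polynomial.map_sub, Polynomial.map_pow, Polynomial.map_mul,
      map_sub, map_pow, map_mul, hQ1]
    rw [Polynomial.map_mul, Polynomial.map_mul, map_mul, map_mul] at hr
    generalize AdjoinRoot.mk (S.G.map L.red) ((X - C S.c).map L.red) = x at *
    generalize AdjoinRoot.mk (S.G.map L.red) (s.map L.red) = σ at *
    generalize AdjoinRoot.mk (S.G.map L.red) (u.map L.red) = a at *
    generalize AdjoinRoot.mk (S.G.map L.red) (u'.map L.red) = b at *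
    linear_combination (-x ^ 2) * hr + a * b * (σ * x + 1) * hs1
  have hc : IsCoprime (S.G.map L.red) (Q0.map L.red) := by
    refine S.irr.coprime_iff_not_dvd.2 fun hdv => ?_
    have h6 : S.G.map L.red ∣ u.map L.red * u'.map L.red := by
      have h7 : S.G.map L.red ∣ Q0.map L.red ^ 2 := dvd_pow hdv two_ne_zero
      rw [Polynomial.map_sub, Polynomial.map_pow, Polynomial.map_mul] at hd
      exact (dvd_sub_right h7).1 hd
    exact S.irr.coprime_iff_not_dvd.1 (hu2.mul_left hu2').symm h6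
  refine Pool.Agent.H94.PN.hel L.red L.surj L.ker L.hϖ (ℓ := 2) ?_ S.mon hc hd
  rw [Nat.cast_ofNat]
  exact two_val L h2

theorem od_od {M : Type} [Field M] [hv : Valued M ℤᵐ⁰] [CompleteSpace M] {κ : Type} [Field κ]
    [Finite κ] (h2 : (2 : κ) ≠ 0) {L : Loc M κ} (S : Spl L) {δ δ' : AdjoinRoot S.fM}
    (hδ : S.Od δ) (hδ' : S.Od δ') (hN : ∃ y : M, Algebra.norm M δ = y ^ 2)
    (hN' : ∃ y : M, Algebra.norm M δ' = y ^ 2) (hi : Isot S.fM δ) (hi' : Isot S.fM δ') :
    ∃ z : AdjoinRoot S.fM, δ * δ' = z ^ 2 := by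
  have hun := (S.od_unit hδ).mul (S.od_unit hδ')
  obtain ⟨z, u, w, hz, hu, hw1, hw2, rfl⟩ := hδ
  obtain ⟨z', u', w', hz', hu', hw1', hw2', rfl⟩ := hδ'
  obtain ⟨y, hy⟩ := hN
  obtain ⟨y', hy'⟩ := hN'
  rw [mul_comm (z ^ 2), isot_mul_sq_iff hz] at hi
  rw [mul_comm (z' ^ 2), isot_mul_sq_iff hz'] at hi'
  obtain ⟨Q, hQ⟩ := th_root h2 S hu hu' hw1 hw2 hw1' hw2' hi hi'
  obtain ⟨Z, rfl⟩ := AdjoinRoot.mk_surjective z
  obtain ⟨Z', rfl⟩ := AdjoinRoot.mk_surjective z'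
  obtain ⟨h, hh⟩ : ∃ h : M[X], h = (Z * Z') ^ 2 *
    ((u * w).map (OO M).subtype * (u' * w').map (OO M).subtype) := ⟨_, rfl⟩
  have e1 : AdjoinRoot.mk S.fM Z ^ 2 * S.cl (u * w) * (AdjoinRoot.mk S.fM Z' ^ 2 * S.cl (u' * w'))
      = AdjoinRoot.mk S.fM h := by
    rw [hh]
    simp only [Spl.cl, map_mul, map_pow]
    ring
  have hmon : (S.G.map (OO M).subtype).Monic := S.mon.map _
  -- the class modulo `G` is a square
  have e2 : AdjoinRoot.mk (S.G.map (OO M).subtype) h = AdjoinRoot.mk (S.G.map (OO M).subtype)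
      (Z * Z' * (Q * C L.ϖ).map (OO M).subtype) ^ 2 := by
    rw [← map_pow, AdjoinRoot.mk_eq_mk, hh]
    have h3 : S.G ∣ (u * w) * (u' * w') - (Q * C L.ϖ) ^ 2 := by
      obtain ⟨a, ha⟩ := hw2
      obtain ⟨b, hb⟩ := hw2'
      obtain ⟨q, hq⟩ := hQ
      refine ⟨u * u' * (a * w' + C L.ϖ * b) - q * C L.ϖ ^ 2, ?_⟩
      linear_combination (u * u' * w') * ha + (u * u' * C L.ϖ) * hb - C L.ϖ ^ 2 * hq
    have h4 := Polynomial.map_dvd (OO M).subtype h3
    rw [Polynomial.map_sub, Polynomial.map_mul, Polynomial.map_pow] at h4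
    have h5 := h4.mul_left ((Z * Z') ^ 2)
    rw [mul_sub] at h5
    rwa [mul_pow (Z * Z')]
  have hn1 := th_norm S.fM_eq hmon S.Gc_ne h
  rw [← e1] at hn1
  obtain ⟨nn, hnn⟩ : ∃ nn : M, nn = Algebra.norm M (AdjoinRoot.mk (S.G.map (OO M).subtype)
      (Z * Z' * (Q * C L.ϖ).map (OO M).subtype)) := ⟨_, rfl⟩
  rw [e2, map_pow, ← hnn] at hn1
  have hn0 : Algebra.norm M (AdjoinRoot.mk S.fM Z ^ 2 * S.cl (u * w) *
      (AdjoinRoot.mk S.fM Z' ^ 2 * S.cl (u' * w'))) ≠ 0 :=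
    (hun.map (Algebra.norm M)).ne_zero
  have hnn0 : nn ≠ 0 := by
    intro h0
    apply hn0
    rw [hn1, h0]
    ring
  have hc2 : h.eval (S.c : M) = (y * y' / nn) ^ 2 := by
    rw [map_mul, hy, hy'] at hn1
    field_simp
    linear_combination -hn1
  rw [e1]
  exact th_sq S.fM_eq S.Gc_ne hc2 e2

end Pool.Agent.H94.GG
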