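import Pool.Agent.H94.GG.TJ

set_option autoImplicit false

/-!
# [H94 GG TI] Every unit with square norm is of even or of odd type

`δ = mk h`, `h ∈ M[X]`, a unit of `M[x]/(f)`, `f = (X - c) G`.
* `ti_one`: `a ∈ M`, `a ≠ 0`: `a = ϖ ^ i a₀` with `i : ℤ`, `a₀ ∈ OO M`, `red a₀ ≠ 0` (valuation).
* `ti_two`: `h ∈ M[X]` not divisible by `G.map`: modulo `G.map`, `h ≡ ϖ ^ j u`, `j : ℤ`, `u ∈ (OO M)[X]` coprime to `G` modulo `ϖ`.  Take `h` of degree `< deg G` (`%ₘ`), `h ≠ 0`, and divide by the power of `ϖ` with the maximal valuation of the coefficients: `h = ϖ ^ j u.map` with `u.map red ≠ 0`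
  of degree `< deg Ḡ`, `Ḡ` irreducible: coprime.
* `N(δ) = h(c) N(h mod G)` (`tf_norm`), `N(ϖ ^ j u mod G) = ϖ ^ (j n) N(u)` with `n = deg G` even and `v(N(u)) = 1`: `AdjoinRoot.mk G u` is a unit of `AdjoinRoot G` over `OO M` (`unit_mod`), its norm over `OO M` is a unit, and the norm is compatible with `OO M → M`
  (`Algebra.norm` and base change: matrices in the power basis; `AdjoinRoot.powerBasis'`).  So `i` is even.
* Let `j = 2 j' + ε`, `ε ∈ {0, 1}`, `i = 2 i'`.  `z` the class with value `ϖ ^ i'` at `c` and `ϖ ^ j'` modulo `G` (`tf_crt`), `u₀` integral with value `a₀` at `c` and class `u` modulo `G` (`int_crt`), coprime to `S.f` modulo `ϖ` (`cop_iff`); `δ = z² u₀` or `δ = z² u₀ w`.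
-/

namespace Pool.Agent.H94.GG

open Polynomial WithZero

private lemma ti_normmap {R K : Type} [CommRing R] [Nontrivial R] [CommRing K] [Nontrivial K]
    (φ : R →+* K) {G : R[X]} (hG : G.Monic) (u : R[X]) :
    Algebra.norm K (AdjoinRoot.mk (G.map φ) (u.map φ)) =
      φ (Algebra.norm R (AdjoinRoot.mk G u)) := by
  classical
  have hG' : (G.map φ).Monic := hG.map _
  obtain ⟨T, hT⟩ : ∃ T : AdjoinRoot G →+* AdjoinRoot (G.map φ), ∀ p : R[X],
      T (AdjoinRoot.mk G p) = AdjoinRoot.mk (G.map φ) (p.map φ) := by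
    refine ⟨AdjoinRoot.map φ G (G.map φ) dvd_rfl, fun p => ?_⟩
    rw [AdjoinRoot.map, AdjoinRoot.lift_mk, ← eval₂_map, ← AdjoinRoot.aeval_eq, aeval_def]
    rfl
  have hd : (AdjoinRoot.powerBasis' hG').dim = (AdjoinRoot.powerBasis' hG).dim := by
    rw [AdjoinRoot.powerBasis'_dim, AdjoinRoot.powerBasis'_dim]
    exact hG.natDegree_map _
  obtain ⟨b, hb1⟩ : ∃ b : Module.Basis (Fin (AdjoinRoot.powerBasis' hG).dim) R (AdjoinRoot G),
      ∀ i, b i = AdjoinRoot.mk G (X ^ (i : ℕ)) :=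
    ⟨(AdjoinRoot.powerBasis' hG).basis, fun i => by
      rw [PowerBasis.coe_basis, AdjoinRoot.powerBasis'_gen, map_pow, AdjoinRoot.mk_X]⟩
  obtain ⟨b', hb2⟩ : ∃ b' : Module.Basis (Fin (AdjoinRoot.powerBasis' hG).dim) K
      (AdjoinRoot (G.map φ)), ∀ i, b' i = AdjoinRoot.mk (G.map φ) (X ^ (i : ℕ)) :=
    ⟨(AdjoinRoot.powerBasis' hG').basis.reindex (finCongr hd), fun i => by
      rw [Module.Basis.reindex_apply, PowerBasis.coe_basis, AdjoinRoot.powerBasis'_gen, map_pow,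
        AdjoinRoot.mk_X]
      rfl⟩
  have hb : ∀ i, T (b i) = b' i := by
    intro i
    rw [hb1, hb2, hT, Polynomial.map_pow, map_X]
  have hal : ∀ c : R, T (algebraMap R (AdjoinRoot G) c) =
      algebraMap K (AdjoinRoot (G.map φ)) (φ c) := by
    intro c
    rw [AdjoinRoot.algebraMap_eq, AdjoinRoot.algebraMap_eq, ← AdjoinRoot.mk_C, ← AdjoinRoot.mk_C,
      hT, map_C]
  have hrepr : ∀ (x : AdjoinRoot G) i, b'.repr (T x) i = φ (b.repr x i) := by
    intro x i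
    have h1 : T x = ∑ l, φ (b.repr x l) • b' l := by
      conv_lhs => rw [← b.sum_repr x]
      rw [map_sum]
      refine Finset.sum_congr rfl (fun l _ => ?_)
      rw [Algebra.smul_def, map_mul, hb, hal, Algebra.smul_def]
    rw [h1, b'.repr_sum_self]
  rw [← hT, Algebra.norm_eq_matrix_det b', Algebra.norm_eq_matrix_det b]
  have h2 : Algebra.leftMulMatrix b' (T (AdjoinRoot.mk G u)) =
      φ.mapMatrix (Algebra.leftMulMatrix b (AdjoinRoot.mk G u)) := by
    ext i j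
    rw [RingHom.mapMatrix_apply, Matrix.map_apply, Algebra.leftMulMatrix_eq_repr_mul,
      Algebra.leftMulMatrix_eq_repr_mul, ← hb, ← map_mul, hrepr]
  rw [h2, ← RingHom.map_det]

variable {M : Type} [Field M] [hv : Valued M ℤᵐ⁰] {κ : Type} [Field κ]

private lemma ti_pi (L : Loc M κ) : (L.ϖ : M) ≠ 0 := by
  intro h
  have h1 := L.hϖ
  rw [h, map_zero] at h1
  exact exp_ne_zero h1.symm

private lemma ti_vpi (L : Loc M κ) (i : ℤ) :
    (Valued.v : Valuation M ℤᵐ⁰) ((L.ϖ : M) ^ i) = exp (-i) := by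
  rw [map_zpow₀, L.hϖ, ← exp_zsmul]
  congr 1
  simp

private lemma ti_unitv (L : Loc M κ) {a : OO M} (ha : L.red a ≠ 0) :
    (Valued.v : Valuation M ℤᵐ⁰) (a : M) = 1 := by
  refine le_antisymm a.2 ?_
  rw [← not_lt, ← L.ker]
  exact ha

private lemma ti_one (L : Loc M κ) {a : M} (ha : a ≠ 0) : ∃ (i : ℤ) (a₀ : OO M),
    L.red a₀ ≠ 0 ∧ a = (L.ϖ : M) ^ i * a₀ := by
  have hv0 : (Valued.v : Valuation M ℤᵐ⁰) a ≠ 0 := (Valuation.ne_zero_iff _).2 ha
  obtain ⟨m, hm⟩ : ∃ m : ℤ, m = log ((Valued.v : Valuation M ℤᵐ⁰) a) := ⟨_, rfl⟩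
  have h1 : (Valued.v : Valuation M ℤᵐ⁰) ((L.ϖ : M) ^ m * a) = 1 := by
    rw [map_mul, ti_vpi, ← exp_log hv0, ← hm, ← exp_add]
    simp
  have h2 : (L.ϖ : M) ^ m * a ∈ OO M := by
    rw [Valuation.mem_integer_iff, h1]
  refine ⟨-m, ⟨_, h2⟩, ?_, ?_⟩
  · intro h3
    rw [L.ker] at h3
    exact absurd h3 (by rw [h1]; exact lt_irrefl _)
  · show a = (L.ϖ : M) ^ (-m) * ((L.ϖ : M) ^ m * a)
    rw [← mul_assoc, ← zpow_add₀ (ti_pi L), neg_add_cancel, zpow_zero, one_mul]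

private lemma ti_two (L : Loc M κ) {h : M[X]} (hh : h ≠ 0) : ∃ (j : ℤ) (u : (OO M)[X]),
    u.map L.red ≠ 0 ∧ h = C ((L.ϖ : M) ^ j) * u.map (OO M).subtype ∧ u.degree = h.degree := by
  obtain ⟨n, hn, hmax⟩ := Finset.exists_max_image h.support
    (fun n => (Valued.v : Valuation M ℤᵐ⁰) (h.coeff n)) (nonempty_support_iff.2 hh)
  have hv0 : (Valued.v : Valuation M ℤᵐ⁰) (h.coeff n) ≠ 0 :=
    (Valuation.ne_zero_iff _).2 (mem_support_iff.1 hn)
  obtain ⟨m, hm⟩ : ∃ m : ℤ, m = log ((Valued.v : Valuation M ℤᵐ⁰) (h.coeff n)) := ⟨_, rfl⟩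
  have h1 : (Valued.v : Valuation M ℤᵐ⁰) ((L.ϖ : M) ^ m * h.coeff n) = 1 := by
    rw [map_mul, ti_vpi, ← exp_log hv0, ← hm, ← exp_add]
    simp
  have h2 : ∀ k, (Valued.v : Valuation M ℤᵐ⁰) ((L.ϖ : M) ^ m * h.coeff k) ≤ 1 := by
    intro k
    by_cases hk : k ∈ h.support
    · rw [← h1, map_mul, map_mul]
      exact mul_le_mul_right (hmax k hk) _
    · rw [notMem_support_iff.1 hk, mul_zero, map_zero]
      exact zero_le
  have h3 : ((C ((L.ϖ : M) ^ m) * h).coeffs : Set M) ⊆ OO M := by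
    intro x hx
    rw [Finset.mem_coe, mem_coeffs_iff] at hx
    obtain ⟨k, _, rfl⟩ := hx
    rw [coeff_C_mul]
    exact h2 k
  refine ⟨-m, (C ((L.ϖ : M) ^ m) * h).toSubring (OO M) h3, ?_, ?_, ?_⟩
  · intro h4
    have h5 := congrArg (fun p => p.coeff n) h4
    simp only [coeff_map, coeff_zero] at h5
    rw [L.ker, coeff_toSubring, coeff_C_mul, h1] at h5
    exact lt_irrefl _ h5
  · rw [map_toSubring, ← mul_assoc, ← C_mul, ← zpow_add₀ (ti_pi L), neg_add_cancel, zpow_zero,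
      C_1, one_mul]
  · rw [degree_toSubring, degree_C_mul (zpow_ne_zero _ (ti_pi L))]

private lemma ti_fin {L : Loc M κ} (S : Spl L) {h Z : M[X]} {u u₀ W : (OO M)[X]} {a₀ : OO M}
    {i' j' : ℤ} {e ej : M} (hc : h.eval (S.c : M) = ((L.ϖ : M) ^ i') ^ 2 * a₀)
    (hG : S.G.map (OO M).subtype ∣ h - C ej * u.map (OO M).subtype)
    (hej : ej = ((L.ϖ : M) ^ j') ^ 2 * e)
    (hZ1 : Z.eval (S.c : M) = (L.ϖ : M) ^ i')
    (hZ2 : S.G.map (OO M).subtype ∣ Z - C ((L.ϖ : M) ^ j'))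
    (hu1 : u₀.eval S.c = a₀) (hu2 : S.G ∣ u₀ - u) (hW1 : W.eval S.c = 1)
    (hW2 : S.G.map (OO M).subtype ∣ W.map (OO M).subtype - C e) :
    AdjoinRoot.mk S.fM h = AdjoinRoot.mk S.fM Z ^ 2 * S.cl (u₀ * W) := by
  have hev : ∀ p : (OO M)[X], (p.map (OO M).subtype).eval (S.c : M) = ((p.eval S.c : OO M) : M) := by
    intro p
    have := Polynomial.eval_map_apply (OO M).subtype (p := p) S.c
    exact this
  unfold Spl.cl
  rw [← map_pow, ← map_mul, AdjoinRoot.mk_eq_mk, S.fM_eq]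
  have hcop : IsCoprime (X - C (S.c : M)) (S.G.map (OO M).subtype) := by
    refine (irreducible_X_sub_C _).coprime_iff_not_dvd.2 fun hd => S.Gc_ne ?_
    exact dvd_iff_isRoot.1 hd
  refine hcop.mul_dvd ?_ ?_
  · rw [dvd_iff_isRoot, IsRoot, eval_sub, eval_mul, eval_pow, hc, hZ1, hev, eval_mul, hu1, hW1,
      mul_one, sub_self]
  · have hu3 := Polynomial.map_dvd (OO M).subtype hu2
    rw [Polynomial.map_sub] at hu3
    rw [Polynomial.map_mul]
    obtain ⟨a, ha⟩ := hG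
    obtain ⟨b, hb⟩ := hZ2
    obtain ⟨c, hc'⟩ := hu3
    obtain ⟨d, hd⟩ := hW2
    have he : C ej = C ((L.ϖ : M) ^ j') ^ 2 * C e := by
      rw [hej, C_mul, C_pow]
    refine ⟨a - b * (Z + C ((L.ϖ : M) ^ j')) * u₀.map (OO M).subtype * W.map (OO M).subtype
      - C ((L.ϖ : M) ^ j') ^ 2 * (c * W.map (OO M).subtype)
      - C ((L.ϖ : M) ^ j') ^ 2 * (u.map (OO M).subtype * d), ?_⟩
    linear_combination ha - ((Z + C ((L.ϖ : M) ^ j')) * u₀.map (OO M).subtype *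
      W.map (OO M).subtype) * hb - (C ((L.ϖ : M) ^ j') ^ 2 * W.map (OO M).subtype) * hc' -
      (C ((L.ϖ : M) ^ j') ^ 2 * u.map (OO M).subtype) * hd + u.map (OO M).subtype * he

theorem ev_or_od {M : Type} [Field M] [hv : Valued M ℤᵐ⁰] {κ : Type} [Field κ] {L : Loc M κ}
    (S : Spl L) {δ : AdjoinRoot S.fM} (hδ : IsUnit δ)
    (hN : ∃ y : M, Algebra.norm M δ = y ^ 2) : S.Ev δ ∨ S.Od δ := by
  obtain ⟨y, hy⟩ := hN
  obtain ⟨h, rfl⟩ := AdjoinRoot.mk_surjective δ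
  have hmon : (S.G.map (OO M).subtype).Monic := S.mon.map _
  have hnat : (S.G.map (OO M).subtype).natDegree = S.G.natDegree := S.mon.natDegree_map _
  have hnorm : Algebra.norm M (AdjoinRoot.mk S.fM h) = h.eval (S.c : M) *
      Algebra.norm M (AdjoinRoot.mk (S.G.map (OO M).subtype) h) := by
    have key : ∀ f : M[X], f = (X - C (S.c : M)) * S.G.map (OO M).subtype →
        Algebra.norm M (AdjoinRoot.mk f h) = h.eval (S.c : M) *
          Algebra.norm M (AdjoinRoot.mk (S.G.map (OO M).subtype) h) := by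
      rintro _ rfl
      exact tf_norm hmon S.Gc_ne h
    exact key _ S.fM_eq
  have hy0 : y ≠ 0 := by
    rintro rfl
    exact (hδ.map (Algebra.norm M)).ne_zero (by rw [hy]; ring)
  have hc0 : h.eval (S.c : M) ≠ 0 := by
    intro h0
    rw [h0, zero_mul, hy] at hnorm
    exact hy0 (pow_eq_zero_iff two_ne_zero |>.1 hnorm)
  have hnd : ¬ S.G.map (OO M).subtype ∣ h := by
    intro hd
    obtain ⟨g, hg⟩ := hδ.exists_right_inv
    obtain ⟨g, rfl⟩ := AdjoinRoot.mk_surjective g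
    rw [← map_mul, ← map_one (AdjoinRoot.mk S.fM), AdjoinRoot.mk_eq_mk, S.fM_eq] at hg
    have h1 : S.G.map (OO M).subtype ∣ h * g - 1 := (dvd_mul_left _ _).trans hg
    have h2 : S.G.map (OO M).subtype ∣ 1 := by
      have h3 := dvd_sub (hd.mul_right g) h1
      rwa [sub_sub_cancel] at h3
    have h4 := natDegree_eq_zero_of_isUnit (isUnit_of_dvd_one h2)
    have h5 := S.natDegree_pos
    omega
  -- the representative modulo `G`
  have hm0 : h %ₘ S.G.map (OO M).subtype ≠ 0 := by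
    intro h0
    exact hnd ((modByMonic_eq_zero_iff_dvd hmon).1 h0)
  obtain ⟨j, u, hu0, hu1, hu2⟩ := ti_two L hm0
  have hGh : S.G.map (OO M).subtype ∣ h - C ((L.ϖ : M) ^ j) * u.map (OO M).subtype := by
    rw [← hu1]
    refine ⟨h /ₘ S.G.map (OO M).subtype, ?_⟩
    have := modByMonic_add_div h (S.G.map (OO M).subtype)
    linear_combination -this
  have hucop : IsCoprime (u.map L.red) (S.G.map L.red) := by
    refine (S.irr.coprime_iff_not_dvd.2 fun hd => ?_).symm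
    have h1 := degree_le_of_dvd hd hu0
    have h2 : (u.map L.red).degree ≤ u.degree := degree_map_le
    have h3 := degree_modByMonic_lt h hmon
    rw [S.mon.degree_map] at h1
    rw [S.mon.degree_map, ← hu2] at h3
    exact absurd (h1.trans h2) (not_le.2 h3)
  obtain ⟨i, a₀, ha₀, hi⟩ := ti_one L hc0
  -- the norm modulo `G`
  have hν : IsUnit (Algebra.norm (OO M) (AdjoinRoot.mk S.G u)) :=
    ((unit_mod L S.mon hucop).1).map (Algebra.norm (OO M))
  have hn2 : Algebra.norm M (AdjoinRoot.mk (S.G.map (OO M).subtype) h) =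
      ((L.ϖ : M) ^ j) ^ S.G.natDegree *
        ((Algebra.norm (OO M) (AdjoinRoot.mk S.G u) : OO M) : M) := by
    have h1 : AdjoinRoot.mk (S.G.map (OO M).subtype) h =
        algebraMap M (AdjoinRoot (S.G.map (OO M).subtype)) ((L.ϖ : M) ^ j) *
          AdjoinRoot.mk (S.G.map (OO M).subtype) (u.map (OO M).subtype) := by
      rw [AdjoinRoot.algebraMap_eq, ← AdjoinRoot.mk_C, ← map_mul, AdjoinRoot.mk_eq_mk]
      exact hGh
    rw [h1, map_mul, ti_normmap (OO M).subtype S.mon u, Algebra.norm_algebraMap,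
      (AdjoinRoot.powerBasis' hmon).finrank, AdjoinRoot.powerBasis'_dim, hnat]
    rfl
  have hval : i + j * S.G.natDegree = -2 * log ((Valued.v : Valuation M ℤᵐ⁰) y) := by
    have hv0 : (Valued.v : Valuation M ℤᵐ⁰) y ≠ 0 := (Valuation.ne_zero_iff _).2 hy0
    have h1 := congrArg (Valued.v : Valuation M ℤᵐ⁰) hnorm
    rw [hy, hn2, hi, map_mul, map_mul, map_mul, map_pow, map_pow, ti_vpi, ti_vpi,
      ti_unitv L ha₀, ti_unitv L ((isUnit_iff_red L _).1 hν), mul_one, mul_one,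
      ← exp_nsmul, ← exp_add, ← exp_log hv0, ← exp_nsmul, exp_inj] at h1
    simp only [nsmul_eq_mul] at h1
    push_cast at h1
    linarith
  obtain ⟨i', hi'⟩ : Even i := by
    have h1 : Even (j * (S.G.natDegree : ℤ)) :=
      Even.mul_left ((Int.even_coe_nat _).2 S.even) j
    have h2 : Even (i + j * (S.G.natDegree : ℤ)) := by
      rw [hval]
      exact (by decide : Even (-2 : ℤ)).mul_right _
    exact (Int.even_add.1 h2).2 h1
  obtain ⟨u₀, hu3, hu4⟩ := S.int_crt a₀ u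
  have hcop : IsCoprime (u₀.map L.red) (S.f.map L.red) := by
    rw [S.cop_iff, hu3]
    refine ⟨ha₀, ?_⟩
    obtain ⟨q, hq⟩ := Polynomial.map_dvd L.red hu4
    rw [Polynomial.map_sub] at hq
    have h1 : u₀.map L.red = u.map L.red + S.G.map L.red * q := by
      linear_combination hq
    rw [h1]
    exact IsCoprime.add_mul_left_left hucop q
  have hc2 : h.eval (S.c : M) = ((L.ϖ : M) ^ i') ^ 2 * a₀ := by
    rw [hi, hi', zpow_add₀ (ti_pi L), pow_two]
  obtain ⟨j', hj | hj⟩ := Int.even_or_odd' j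
  · left
    obtain ⟨Z, hZ1, hZ2⟩ := tf_crt S.Gc_ne ((L.ϖ : M) ^ i') (C ((L.ϖ : M) ^ j'))
    have h1 := ti_fin S (W := 1) (e := 1) hc2 hGh (j' := j') (by
      rw [hj, mul_comm 2 j', zpow_mul, mul_one, zpow_ofNat]) hZ1 hZ2 hu3 hu4 eval_one (by
      rw [Polynomial.map_one, C_1, sub_self]; exact dvd_zero _)
    rw [mul_one] at h1
    refine ⟨AdjoinRoot.mk S.fM Z, u₀, ?_, hcop, h1⟩
    rw [h1] at hδ
    exact (isUnit_pow_iff two_ne_zero).1 (isUnit_of_mul_isUnit_left hδ)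
  · right
    obtain ⟨Z, hZ1, hZ2⟩ := tf_crt S.Gc_ne ((L.ϖ : M) ^ i') (C ((L.ϖ : M) ^ j'))
    obtain ⟨W, hW1, hW2⟩ := S.exists_w
    have h1 := ti_fin S (W := W) (e := (L.ϖ : M)) hc2 hGh (j' := j') (by
      rw [hj, zpow_add₀ (ti_pi L), zpow_one, mul_comm 2 j', zpow_mul, zpow_ofNat]) hZ1 hZ2 hu3 hu4 hW1 (by
      have h2 := Polynomial.map_dvd (OO M).subtype hW2
      rw [Polynomial.map_sub, map_C] at h2
      exact h2)
    refine ⟨AdjoinRoot.mk S.fM Z, u₀, W, ?_, hcop, hW1, hW2, h1⟩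
    rw [h1] at hδ
    exact (isUnit_pow_iff two_ne_zero).1 (isUnit_of_mul_isUnit_left hδ)

end Pool.Agent.H94.GG
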