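import Pool.Agent.H94.GG.TT
import Pool.Agent.H94.GG.TJ

set_option autoImplicit false

/-!
# [H94 GG TK] A value of odd type at a special place which divides `D` once

`v(D) = exp (-1)`.  `p = S.f - C D` is monic with `p ≡ (X - c̄) Ḡ` modulo `ϖ`, so it has a root `c'` with `red c' = red c` (`hens_root`; `p'(c) ≡ Ḡ(c̄) ≠ 0`): `(c' - c) G(c') = D` with `G(c')` a unit, so `v(c' - c) = v(D)`.
`(P, Q) = (X - c', 1)` is a Mumford pair of `D y² = f`: `P ∣ D - f`, and `f(c') = D ≠ 0`.  `τ = desc D fM P = -D (θ - c')` (`deg P = 1`).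
* `IsVal`: `r = 1`, `γ = 1`.
* norm: `N(θ - c') = (-1) ^ m f(c') = (-1) ^ m D` (`m = deg f`; norm of `θ - a`: `Algebra.norm` of `AdjoinRoot.mk (X - C a)`: compare `H94/TL/NormD` `norm_descent`, which gives directly `∃ y, N(desc) = y ^ 2` for `k = 2`, `a = 1`), so `N(τ) = (-D) ^ m (-1) ^ m D = D ^ (m + 1)`, a square as `m` is odd.
* odd type: at `c`: `-D (c - c') = D (c' - c)` has valuation `exp (-2)`: `= ϖ² a₀`, `a₀` a unit; modulo `G`: `-D (x - c')`, `D = ϖ D₀`, `D₀` a unit, and `x - c'` is coprime to `G` modulo `ϖ` (`Ḡ(c̄) ≠ 0`).  `z` with value `ϖ` at `c` and `1` modulo `G` (`int_crt`; a unit over `M`), `u` with value `a₀` at `c` and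
  class `-D₀ (x - c')` modulo `G`, `w` as in `exists_w`: `τ = z² u w` (both sides agree at `c` and modulo `G`).
-/

namespace Pool.Agent.H94.GG

open Polynomial WithZero

private theorem red_eval {M : Type} [Field M] [hv : Valued M ℤᵐ⁰] {κ : Type} [Field κ]
    (L : Loc M κ) (G : (OO M)[X]) (a : OO M) :
    L.red (G.eval a) = (G.map L.red).eval (L.red a) := by
  rw [eval_map, eval₂_at_apply]

private theorem cop_X_sub {k : Type} [Field k] (a : k) {g : k[X]} (h : g.eval a ≠ 0) :
    IsCoprime (X - C a) g := by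
  rw [(irreducible_X_sub_C a).coprime_iff_not_dvd, dvd_iff_isRoot]
  exact h

theorem exists_tauD {M : Type} [Field M] [hv : Valued M ℤᵐ⁰] [CompleteSpace M] {κ : Type}
    [Field κ] {L : Loc M κ} (S : Spl L) {D : OO M}
    (hD : (Valued.v : Valuation M ℤᵐ⁰) (D : M) = exp (-1 : ℤ)) :
    ∃ τ : AdjoinRoot S.fM, S.Od τ ∧ IsVal (D : M) S.fM τ ∧
      ∃ y : M, Algebra.norm M τ = y ^ 2 := by
  have hDM : (D : M) ≠ 0 := by
    intro h0
    rw [h0, map_zero] at hD
    exact exp_ne_zero hD.symm
  have hϖM : (L.ϖ : M) ≠ 0 := by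
    intro h0
    have h1 := L.hϖ
    rw [h0, map_zero] at h1
    exact exp_ne_zero h1.symm
  have hredD : L.red D = 0 := by
    rw [L.ker, hD]
    rw [← exp_zero]
    exact exp_lt_exp.2 (by norm_num)
  -- the root
  have hfd : S.f.natDegree = S.G.natDegree + 1 := S.natDegree_f
  have hpm : (S.f - C D).Monic := by
    refine S.f_monic.sub_of_left ?_
    refine lt_of_le_of_lt degree_C_le ?_
    rw [degree_eq_natDegree S.f_monic.ne_zero, hfd]
    exact_mod_cast Nat.succ_pos _
  have hfe : ∀ a : OO M, S.f.eval a = (a - S.c) * S.G.eval a := by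
    intro a
    unfold Spl.f
    rw [eval_mul, eval_sub, eval_X, eval_C]
  have h0 : L.red ((S.f - C D).eval S.c) = 0 := by
    rw [eval_sub, hfe, sub_self, zero_mul, eval_C, zero_sub, map_neg, hredD, neg_zero]
  have h1 : L.red ((S.f - C D).derivative.eval S.c) ≠ 0 := by
    have h2 : (S.f - C D).derivative.eval S.c = S.G.eval S.c := by
      unfold Spl.f
      rw [derivative_sub, derivative_C, sub_zero, derivative_mul, derivative_sub, derivative_X,
        derivative_C, sub_zero, one_mul, eval_add, eval_mul, eval_sub, eval_X, eval_C, sub_self,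
        zero_mul, add_zero]
    rw [h2, red_eval]
    exact S.ne
  obtain ⟨c', hc', hcc⟩ := hens_root L hpm h0 h1
  have hfc : S.f.eval c' = D := by
    rw [eval_sub, eval_C] at hc'
    exact sub_eq_zero.1 hc'
  have hGc : L.red (S.G.eval c') ≠ 0 := by
    rw [red_eval, hcc]
    exact S.ne
  obtain ⟨e, he⟩ := ((isUnit_iff_red L _).2 hGc).exists_right_inv
  have heu : IsUnit e := IsUnit.of_mul_eq_one _ (by rw [mul_comm]; exact he)
  have hce : c' - S.c = D * e := by
    rw [← hfc, hfe, mul_assoc, he, mul_one]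
  -- `D = ϖ D₀`
  have hv0 : (Valued.v : Valuation M ℤᵐ⁰) ((D : M) / (L.ϖ : M)) = 1 := by
    rw [map_div₀, hD, L.hϖ, div_self (exp_ne_zero)]
  obtain ⟨D₀, hD₀v, hD₀⟩ : ∃ D₀ : OO M, (Valued.v : Valuation M ℤᵐ⁰) (D₀ : M) = 1 ∧
      D = L.ϖ * D₀ := by
    refine ⟨⟨(D : M) / (L.ϖ : M), (Valuation.mem_integer_iff _ _).2 hv0.le⟩, hv0, ?_⟩
    apply Subtype.ext
    show (D : M) = (L.ϖ : M) * ((D : M) / (L.ϖ : M))
    rw [mul_div_cancel₀ _ hϖM]
  have hD₀r : L.red D₀ ≠ 0 := by
    intro h2
    rw [L.ker, hD₀v] at h2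
    exact lt_irrefl _ h2
  -- the Mumford pair
  have hfM : S.fM.eval (c' : M) = (D : M) := by
    have h2 : S.fM.eval ((OO M).subtype c') = (OO M).subtype (S.f.eval c') := by
      unfold Spl.fM
      rw [eval_map, eval₂_at_apply]
    rw [hfc] at h2
    exact h2
  have hmum : IsMum (D : M) S.fM (X - C (c' : M)) 1 := by
    refine ⟨monic_X_sub_C _, cop_X_sub _ (by rw [hfM]; exact hDM), ?_⟩
    rw [dvd_iff_isRoot]
    show eval _ _ = 0
    rw [one_pow, mul_one, eval_sub, eval_C, hfM, sub_self]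
  refine ⟨desc (D : M) S.fM (X - C (c' : M)), ?_, ?_, ?_⟩
  · -- odd type
    obtain ⟨w, hw1, hw2⟩ := S.exists_w
    obtain ⟨z, hz1, hz2⟩ := S.int_crt L.ϖ 1
    obtain ⟨u, hu1, hu2⟩ := S.int_crt (D₀ ^ 2 * e) (C (-D₀) * (X - C c'))
    have hGne : S.G.eval S.c ≠ 0 := by
      intro h2
      have h3 := S.ne
      rw [← red_eval, h2, map_zero] at h3
      exact h3 rfl
    -- integral polynomials with the same value at `c` and the same class modulo `G`
    have key : ∀ a b : (OO M)[X], a.eval S.c = b.eval S.c → S.G ∣ a - b → S.cl a = S.cl b := by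
      intro a b hab hG
      obtain ⟨h, hh⟩ := hG
      have h2 : h.eval S.c = 0 := by
        have h3 := congrArg (eval S.c) hh
        rw [eval_sub, hab, sub_self, eval_mul] at h3
        exact (mul_eq_zero.1 h3.symm).resolve_left hGne
      obtain ⟨h', hh'⟩ := dvd_iff_isRoot.2 h2
      have h4 : S.f ∣ a - b := ⟨h', by
        rw [hh, hh']
        unfold Spl.f
        ring⟩
      unfold Spl.cl
      rw [AdjoinRoot.mk_eq_mk]
      have h5 := Polynomial.map_dvd (OO M).subtype h4
      rw [Polynomial.map_sub] at h5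
      exact h5
    have hclm : ∀ a b : (OO M)[X], S.cl (a * b) = S.cl a * S.cl b := fun a b => S.cl_mul a b
    have hzu : IsUnit (S.cl z) := by
      have h2 : S.cl (z * w) = S.cl (C L.ϖ) := by
        apply key
        · rw [eval_mul, hz1, hw1, mul_one, eval_C]
        · have h3 : z * w - C L.ϖ = (z - 1) * w + (w - C L.ϖ) := by ring
          rw [h3]
          exact dvd_add (dvd_mul_of_dvd_left hz2 w) hw2
      have h3 : IsUnit (S.cl (C L.ϖ)) := by
        have h4 : S.cl (C L.ϖ) = algebraMap M (AdjoinRoot S.fM) (L.ϖ : M) := by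
          unfold Spl.cl
          rw [Polynomial.map_C]
          rfl
        rw [h4]
        exact (IsUnit.mk0 _ hϖM).map _
      rw [← h2, hclm] at h3
      exact isUnit_of_mul_isUnit_left h3
    refine ⟨S.cl z, u, w, hzu, ?_, hw1, hw2, ?_⟩
    · rw [S.cop_iff]
      constructor
      · rw [hu1, ← isUnit_iff_red]
        exact (((isUnit_iff_red L _).2 hD₀r).pow 2).mul heu
      · obtain ⟨h, hh⟩ := hu2
        have h2 : u = C (-D₀) * (X - C c') + S.G * h := by
          rw [← hh]
          ring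
        rw [h2, Polynomial.map_add, Polynomial.map_mul, Polynomial.map_mul, Polynomial.map_C,
          Polynomial.map_sub, Polynomial.map_X, Polynomial.map_C]
        refine IsCoprime.add_mul_left_left ?_ _
        refine IsCoprime.mul_left ?_ (cop_X_sub _ ?_)
        · obtain ⟨a, ha⟩ := (isUnit_C.2 ((IsUnit.mk0 _ hD₀r).neg)).exists_left_inv
          refine ⟨a, 0, ?_⟩
          rw [zero_mul, add_zero, map_neg]
          exact ha
        · rw [hcc]
          exact S.ne
    · have h2 : desc (D : M) S.fM (X - C (c' : M)) = S.cl (C (-D) * (X - C c')) := by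
        unfold desc Spl.cl
        rw [natDegree_X_sub_C, pow_one, ← map_mul, Polynomial.map_mul, Polynomial.map_C,
          Polynomial.map_sub, Polynomial.map_X, Polynomial.map_C]
        rfl
      rw [h2, sq, ← hclm, ← hclm]
      apply key
      · rw [eval_mul, eval_mul, eval_mul, eval_mul, hz1, hu1, hw1, eval_sub, eval_X, eval_C,
          eval_C]
        have h3 : S.c - c' = -(D * e) := by rw [← hce]; ring
        rw [h3, hD₀]
        ring
      · have h3 : C (-D) * (X - C c') - z * z * (u * w) =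
            (w - C L.ϖ) * (C (-D₀) * (X - C c')) * (-1) -
              (z - 1) * (z + 1) * (u * w) - (u - C (-D₀) * (X - C c')) * w := by
          rw [hD₀]
          simp only [C_neg, C_mul]
          ring
        rw [h3]
        refine dvd_sub (dvd_sub ?_ ?_) ?_
        · exact dvd_mul_of_dvd_left (dvd_mul_of_dvd_left hw2 _) _
        · exact dvd_mul_of_dvd_left (dvd_mul_of_dvd_left hz2 _) _
        · exact dvd_mul_of_dvd_left hu2 _
  · exact ⟨1, fun _ => X - C (c' : M), fun _ => 1, 1, fun _ => hmum, by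
      rw [one_pow, mul_one, Fin.prod_univ_one]⟩
  · have h2 := Pool.Agent.H94.TL.norm_descent (D : M) S.fM S.fM_monic 2 1 (by
      rw [one_mul, S.natDegree_fM]
      obtain ⟨r, hr⟩ := S.even
      exact ⟨r + 1, by omega⟩) (X - C (c' : M)) 1 (monic_X_sub_C _) hmum.2.2
    rw [pow_one] at h2
    exact h2

end Pool.Agent.H94.GG
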