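import Pool.Agent.H94.GG.TA

set_option autoImplicit false

/-!
# [H94 GG TT] Hensel's lemma for roots over the valuation ring of a complete field

`OO M` is `ϖ`-adically complete (`IsAdicComplete (Ideal.span {ϖ}) (OO M)`: copy the private lemmas `hel_haus`, `hel_prec`, `hel_adic` (or `hel_nb`, `hel_cauchy`, `hel_lim`, `hel_dvd`) of `H94/PN/HEL`; `hel_adic` for the algebra `OO M` over itself with the basis of one element, or directly),
so `HenselianRing (OO M) (Ideal.span {ϖ})` (Mathlib instance); `red x = 0` iff `v x < 1` iff `ϖ ∣ x`.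
-/

namespace Pool.Agent.H94.GG

open Polynomial WithZero

section

variable {M : Type} [Field M] [hv : Valued M ℤᵐ⁰]

private lemma gtt_nb (δ : M) (hδ : (Valued.v : Valuation M ℤᵐ⁰) δ ≠ 0) (L : M) :
    {y : M | (Valued.v : Valuation M ℤᵐ⁰) (y - L) < (Valued.v : Valuation M ℤᵐ⁰) δ} ∈ nhds L := by
  rw [Valued.mem_nhds]
  have h' : (Valued.v : Valuation M ℤᵐ⁰).restrict δ ≠ 0 := by simpa using hδ
  refine ⟨Units.mk0 _ h', ?_⟩
  intro y hy
  rw [Units.val_mk0] at hy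
  exact (Valued.v : Valuation M ℤᵐ⁰).restrict_lt_iff.mp hy

private lemma gtt_exists {c : ℤᵐ⁰} (hc : c ≠ 0) : ∃ N : ℕ, exp (-(N : ℤ)) < c := by
  refine ⟨(1 - log c).toNat, ?_⟩
  rw [← exp_log hc, exp_lt_exp, log_exp]
  have := Int.self_le_toNat (1 - log c)
  omega

private lemma gtt_cauchy (a : ℕ → M)
    (h : ∀ m n, m ≤ n → (Valued.v : Valuation M ℤᵐ⁰) (a n - a m) ≤ exp (-(m : ℤ))) :
    CauchySeq a := by
  unfold CauchySeq
  rw [Valued.cauchy_iff]
  refine ⟨inferInstance, fun γ => ?_⟩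
  have hc : MonoidWithZeroHom.ValueGroup₀.embedding γ.1 ≠ (0 : ℤᵐ⁰) := by
    intro h
    exact γ.ne_zero ((map_eq_zero _).1 h)
  obtain ⟨N, hN⟩ := gtt_exists hc
  refine ⟨a '' {n | N ≤ n}, ?_, ?_⟩
  · rw [Filter.mem_map]
    exact Filter.mem_of_superset (Filter.Ici_mem_atTop N) (fun n hn => ⟨n, hn, rfl⟩)
  · rintro _ ⟨m, hm, rfl⟩ _ ⟨n, hn, rfl⟩
    rw [Valuation.restrict_lt_iff_lt_embedding]
    have h1 : a n - a m = (a n - a N) - (a m - a N) := by ring
    have h2 : (Valued.v : Valuation M ℤᵐ⁰) (a n - a m) ≤ exp (-(N : ℤ)) := by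
      rw [h1]
      exact (Valuation.map_sub _ _ _).trans (max_le (h N n hn) (h N m hm))
    exact h2.trans_lt hN

private lemma gtt_lim [CompleteSpace M] (a : ℕ → M)
    (h : ∀ m n, m ≤ n → (Valued.v : Valuation M ℤᵐ⁰) (a n - a m) ≤ exp (-(m : ℤ))) :
    ∃ L : M, ∀ m, (Valued.v : Valuation M ℤᵐ⁰) (L - a m) ≤ exp (-(m : ℤ)) := by
  obtain ⟨L, hL⟩ := cauchySeq_tendsto_of_complete (gtt_cauchy a h)
  refine ⟨L, fun m => ?_⟩
  by_contra hne
  push Not at hne
  have h0 : (Valued.v : Valuation M ℤᵐ⁰) (L - a m) ≠ 0 := (lt_of_le_of_lt zero_le hne).ne'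
  have h1 := hL (gtt_nb (L - a m) h0 L)
  rw [Filter.mem_map] at h1
  obtain ⟨n, hn, hnm⟩ := (Filter.nonempty_of_mem
    (Filter.inter_mem h1 (Filter.Ici_mem_atTop m)))
  have hn' : (Valued.v : Valuation M ℤᵐ⁰) (a n - L)
      < (Valued.v : Valuation M ℤᵐ⁰) (L - a m) := hn
  have hnm' : m ≤ n := hnm
  have h2 : L - a m = (a n - a m) - (a n - L) := by ring
  have h3 : (Valued.v : Valuation M ℤᵐ⁰) (L - a m) ≤
      max ((Valued.v : Valuation M ℤᵐ⁰) (a n - a m)) ((Valued.v : Valuation M ℤᵐ⁰) (a n - L)) := by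
    conv_lhs => rw [h2]
    exact Valuation.map_sub _ _ _
  exact absurd (h3.trans_lt (max_lt ((h m n hnm').trans_lt hne) hn')) (lt_irrefl _)

private lemma gtt_dvd {ϖ : M} (hϖ : (Valued.v : Valuation M ℤᵐ⁰) ϖ = exp (-1 : ℤ))
    (w : (Valued.v : Valuation M ℤᵐ⁰).integer) (hw : (w : M) = ϖ) (n : ℕ)
    (x : (Valued.v : Valuation M ℤᵐ⁰).integer) :
    w ^ n ∣ x ↔ (Valued.v : Valuation M ℤᵐ⁰) (x : M) ≤ exp (-(n : ℤ)) := by
  have hn : (Valued.v : Valuation M ℤᵐ⁰) (ϖ ^ n) = exp (-(n : ℤ)) := by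
    rw [map_pow, hϖ, ← exp_nsmul]
    congr 1
    simp
  have hϖ0 : ϖ ≠ 0 := by
    rintro rfl
    rw [map_zero] at hϖ
    exact exp_ne_zero hϖ.symm
  constructor
  · rintro ⟨y, rfl⟩
    have hy : (Valued.v : Valuation M ℤᵐ⁰) (y : M) ≤ 1 := y.2
    rw [Subring.coe_mul, Subring.coe_pow, hw, map_mul, hn]
    exact mul_le_of_le_one_right' hy
  · intro h
    refine ⟨⟨(x : M) / ϖ ^ n, ?_⟩, ?_⟩
    · rw [Valuation.mem_integer_iff, map_div₀, hn]
      exact div_le_one_of_le₀ h zero_le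
    · apply Subtype.ext
      rw [Subring.coe_mul, Subring.coe_pow, hw]
      field_simp

private lemma gtt_haus {ϖ : M} (hϖ : (Valued.v : Valuation M ℤᵐ⁰) ϖ = exp (-1 : ℤ))
    (w : (Valued.v : Valuation M ℤᵐ⁰).integer) (hw : (w : M) = ϖ)
    (x : (Valued.v : Valuation M ℤᵐ⁰).integer) (h : ∀ n : ℕ, w ^ n ∣ x) : x = 0 := by
  by_contra hx
  have hx' : (Valued.v : Valuation M ℤᵐ⁰) (x : M) ≠ 0 := by
    rw [Valuation.ne_zero_iff]
    intro h0
    exact hx (Subtype.ext h0)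
  obtain ⟨N, hN⟩ := gtt_exists hx'
  exact absurd ((gtt_dvd hϖ w hw N x).1 (h N)) (not_le.2 hN)

private lemma gtt_prec [CompleteSpace M] {ϖ : M}
    (hϖ : (Valued.v : Valuation M ℤᵐ⁰) ϖ = exp (-1 : ℤ))
    (w : (Valued.v : Valuation M ℤᵐ⁰).integer) (hw : (w : M) = ϖ)
    (f : ℕ → (Valued.v : Valuation M ℤᵐ⁰).integer) (h : ∀ m n, m ≤ n → w ^ m ∣ f n - f m) :
    ∃ L : (Valued.v : Valuation M ℤᵐ⁰).integer, ∀ m, w ^ m ∣ L - f m := by
  obtain ⟨L, hL⟩ := gtt_lim (fun n => (f n : M)) (fun m n hmn => by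
    have := (gtt_dvd hϖ w hw m _).1 (h m n hmn)
    simpa using this)
  have hL1 : L ∈ (Valued.v : Valuation M ℤᵐ⁰).integer := by
    rw [Valuation.mem_integer_iff]
    have h1 : L = (L - f 0) + f 0 := by ring
    rw [h1]
    refine (Valuation.map_add _ _ _).trans (max_le ?_ (f 0).2)
    refine (hL 0).trans (le_of_eq ?_)
    simp
  refine ⟨⟨L, hL1⟩, fun m => ?_⟩
  rw [gtt_dvd hϖ w hw]
  have := hL m
  simpa using this

end

private lemma gtt_mem {R S : Type} [CommRing R] [CommRing S] [Algebra R S] {d : ℕ}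
    (b : Module.Basis (Fin d) R S) (w : R) (n : ℕ) (x : S) :
    x ∈ ((Ideal.span {algebraMap R S w}) ^ n • (⊤ : Submodule S S) : Submodule S S) ↔
      ∀ i, w ^ n ∣ b.repr x i := by
  have h0 : ((Ideal.span {algebraMap R S w}) ^ n • (⊤ : Submodule S S) : Submodule S S) =
      Ideal.span {algebraMap R S (w ^ n)} := by
    rw [Ideal.span_singleton_pow, map_pow]
    exact Ideal.mul_top _
  rw [h0, Ideal.mem_span_singleton]
  constructor
  · rintro ⟨y, rfl⟩ i
    refine ⟨b.repr y i, ?_⟩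
    rw [← Algebra.smul_def, map_smul, Finsupp.smul_apply, smul_eq_mul]
  · intro h
    choose c hc using h
    refine ⟨b.equivFun.symm c, ?_⟩
    apply b.ext_elem
    intro i
    rw [← Algebra.smul_def, map_smul, Finsupp.smul_apply, smul_eq_mul, ← b.equivFun_apply,
      ← b.equivFun_apply, LinearEquiv.apply_symm_apply, b.equivFun_apply]
    exact hc i

private lemma gtt_adic {R S : Type} [CommRing R] [CommRing S] [Algebra R S] {d : ℕ}
    (b : Module.Basis (Fin d) R S) (w : R) (h1 : ∀ x : R, (∀ n : ℕ, w ^ n ∣ x) → x = 0)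
    (h2 : ∀ f : ℕ → R, (∀ m n, m ≤ n → w ^ m ∣ f n - f m) → ∃ L, ∀ m, w ^ m ∣ L - f m) :
    IsAdicComplete (Ideal.span {algebraMap R S w}) S where
  haus' := by
    intro x hx
    apply b.ext_elem
    intro i
    rw [map_zero, Finsupp.zero_apply]
    refine h1 _ fun n => ?_
    have h3 := hx n
    rw [SModEq.zero, gtt_mem b] at h3
    exact h3 i
  prec' := by
    intro f hf
    have h3 : ∀ i, ∃ L, ∀ m, w ^ m ∣ L - b.repr (f m) i := by
      intro i
      refine h2 (fun n => b.repr (f n) i) fun m n hmn => ?_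
      have h4 := hf hmn
      rw [SModEq.sub_mem, gtt_mem b] at h4
      have h5 := h4 i
      rw [map_sub, Finsupp.sub_apply] at h5
      exact (dvd_sub_comm).1 h5
    choose L hL using h3
    refine ⟨b.equivFun.symm L, fun n => ?_⟩
    rw [SModEq.sub_mem, gtt_mem b]
    intro i
    rw [map_sub, Finsupp.sub_apply]
    have h6 : b.repr (b.equivFun.symm L) i = L i := by
      rw [← b.equivFun_apply, LinearEquiv.apply_symm_apply]
    rw [h6]
    exact (dvd_sub_comm).1 (hL i n)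

private lemma gtt_red {M : Type} [Field M] [hv : Valued M ℤᵐ⁰] {κ : Type} [Field κ]
    (red : (Valued.v : Valuation M ℤᵐ⁰).integer →+* κ)
    (hk : ∀ x, red x = 0 ↔ (Valued.v : Valuation M ℤᵐ⁰) (x : M) < 1) {ϖ : M}
    (hϖ : (Valued.v : Valuation M ℤᵐ⁰) ϖ = exp (-1 : ℤ))
    (w : (Valued.v : Valuation M ℤᵐ⁰).integer) (hw : (w : M) = ϖ)
    (F : (Valued.v : Valuation M ℤᵐ⁰).integer[X]) (hF : F.map red = 0) : C w ∣ F := by
  rw [C_dvd_iff_dvd_coeff]
  intro n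
  have h1 : red (F.coeff n) = 0 := by
    rw [← coeff_map, hF, coeff_zero]
  have h2 := (hk _).1 h1
  have h3 := (gtt_dvd hϖ w hw 1 (F.coeff n)).2 (by
    rcases eq_or_ne ((Valued.v : Valuation M ℤᵐ⁰) (F.coeff n : M)) 0 with h0 | h0
    · rw [h0]
      exact zero_le
    · rw [← exp_log h0] at h2 ⊢
      rw [← exp_zero, exp_lt_exp] at h2
      rw [exp_le_exp]
      push_cast
      omega)
  rwa [pow_one] at h3

theorem hens_root {M : Type} [Field M] [hv : Valued M ℤᵐ⁰] [CompleteSpace M] {κ : Type} [Field κ]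
    (L : Loc M κ) {p : (OO M)[X]} (hp : p.Monic) {a : OO M} (h0 : L.red (p.eval a) = 0)
    (h1 : L.red (p.derivative.eval a) ≠ 0) : ∃ b : OO M, p.eval b = 0 ∧ L.red b = L.red a := by
  have hadic : IsAdicComplete (Ideal.span {algebraMap (OO M) (OO M) L.ϖ}) (OO M) :=
    gtt_adic (Module.Basis.singleton (Fin 1) (OO M)) L.ϖ (gtt_haus L.hϖ L.ϖ rfl)
      (gtt_prec L.hϖ L.ϖ rfl)
  obtain ⟨I, hI⟩ : ∃ I : Ideal (OO M), I = Ideal.span {algebraMap (OO M) (OO M) L.ϖ} := ⟨_, rfl⟩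
  rw [← hI] at hadic
  have hI' : I = Ideal.span {L.ϖ} := hI
  -- membership
  have hmem : ∀ x : OO M, L.red x = 0 ↔ x ∈ I := by
    intro x
    rw [hI', Ideal.mem_span_singleton]
    constructor
    · intro hx
      have h2 := gtt_red L.red L.ker L.hϖ L.ϖ rfl (C x) (by rw [map_C, hx, C_0])
      rw [C_dvd_iff_dvd_coeff] at h2
      simpa using h2 0
    · rintro ⟨y, rfl⟩
      have h3 : L.red L.ϖ = 0 := by
        rw [L.ker, L.hϖ, ← exp_zero, exp_lt_exp]
        norm_num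
      rw [map_mul, h3, zero_mul]
  have hhen := (inferInstance : HenselianRing (OO M) I)
  have hunit : IsUnit (Ideal.Quotient.mk I (p.derivative.eval a)) := by
    obtain ⟨y, hy⟩ := L.surj (L.red (p.derivative.eval a))⁻¹
    refine IsUnit.of_mul_eq_one (Ideal.Quotient.mk I y) ?_
    rw [← map_mul, ← map_one (Ideal.Quotient.mk I), Ideal.Quotient.eq, ← hmem, map_sub, map_mul,
      hy, map_one, mul_inv_cancel₀ h1, sub_self]
  obtain ⟨b, hb, hba⟩ := hhen.is_henselian p hp a ((hmem _).1 h0) hunit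
  refine ⟨b, hb, ?_⟩
  rw [← sub_eq_zero, ← map_sub]
  exact (hmem _).2 hba

end Pool.Agent.H94.GG
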