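import Pool.Agent.H94.GG.ISO
import Pool.Agent.H94.GG.TH
import Pool.Agent.H94.GG.TI
import Pool.Agent.H94.GG.TK
import Pool.Agent.H94.GG.TM
import Pool.Agent.H94.GG.TS

set_option autoImplicit false

/-!
# [H94 GG TWO] Values of even type at a special place which divides `D` once are squares

`τ` of `exists_tauD`; `δ τ` and `τ` are values, of odd type, with square norms, isotropic (`isot_of_isVal`), so `δ τ τ` is a square (`od_od`), `τ` is a unit.
-/

namespace Pool.Agent.H94.GG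

open Polynomial WithZero

theorem isVal_mul {k : Type} [Field k] {D : k} {g : k[X]} {δ δ' : AdjoinRoot g}
    (h : IsVal D g δ) (h' : IsVal D g δ') : IsVal D g (δ * δ') := by
  obtain ⟨r, P, Q, γ, h1, h2⟩ := h
  obtain ⟨r', P', Q', γ', h1', h2'⟩ := h'
  refine ⟨r + r', Fin.append P P', Fin.append Q Q', γ * γ', ?_, ?_⟩
  · intro i
    refine Fin.addCases (fun j => ?_) (fun j => ?_) i
    · rw [Fin.append_left, Fin.append_left]
      exact h1 j
    · rw [Fin.append_right, Fin.append_right]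
      exact h1' j
  · rw [Fin.prod_univ_add]
    simp only [Fin.append_left, Fin.append_right]
    rw [← h2, ← h2']
    ring

theorem infinite_of_loc {M : Type} [Field M] [hv : Valued M ℤᵐ⁰] {κ : Type} [Field κ]
    (L : Loc M κ) : Infinite M := by
  have hv0 : ∀ n : ℕ, (Valued.v : Valuation M ℤᵐ⁰) ((L.ϖ : M) ^ n) = exp (-(n : ℤ)) := by
    intro n
    rw [map_pow, L.hϖ, ← exp_nsmul]
    congr 1
    simp
  refine Infinite.of_injective (fun n : ℕ => (L.ϖ : M) ^ n) fun a b hab => ?_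
  have h1 := congrArg (Valued.v : Valuation M ℤᵐ⁰) hab
  simp only [hv0] at h1
  have h2 := exp_inj.1 h1
  omega

theorem val_ev_sq {M : Type} [Field M] [hv : Valued M ℤᵐ⁰] [CompleteSpace M] {κ : Type}
    [Field κ] [Finite κ] (h2 : (2 : κ) ≠ 0) {L : Loc M κ} (S : Spl L) {D : OO M}
    (hD : (Valued.v : Valuation M ℤᵐ⁰) (D : M) = exp (-1 : ℤ)) {δ : AdjoinRoot S.fM}
    (hN : ∃ y : M, Algebra.norm M δ = y ^ 2) (hval : IsVal (D : M) S.fM δ) (hev : S.Ev δ) :
    ∃ z : AdjoinRoot S.fM, δ = z ^ 2 := by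
  have hinf := infinite_of_loc L
  obtain ⟨τ, hτ, hτv, y, hy⟩ := exists_tauD S hD
  have hD0 : (D : M) ≠ 0 := by
    intro h0
    rw [h0, map_zero] at hD
    exact exp_ne_zero hD.symm
  have h2M : (2 : M) ≠ 0 := by
    intro h0
    have h1 := two_val L h2
    rw [h0, map_zero] at h1
    exact zero_ne_one h1
  have hmon := S.fM_monic
  have hodd : Odd S.fM.natDegree := by
    rw [S.natDegree_fM]
    exact S.even.add_one
  obtain ⟨x, hx⟩ := hN
  obtain ⟨z, hz⟩ := od_od h2 S (S.od_mul_ev hτ hev) hτ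
    ⟨y * x, by rw [map_mul, hy, hx]; ring⟩ ⟨y, hy⟩
    (isot_of_isVal h2M hD0 hmon hodd (isVal_mul hτv hval)) (isot_of_isVal h2M hD0 hmon hodd hτv)
  obtain ⟨t, ht⟩ := S.od_unit hτ
  refine ⟨((t⁻¹ : (AdjoinRoot S.fM)ˣ) : AdjoinRoot S.fM) * z, ?_⟩
  rw [mul_pow, ← hz, ← ht]
  have h3 : ((t⁻¹ : (AdjoinRoot S.fM)ˣ) : AdjoinRoot S.fM) * (t : AdjoinRoot S.fM) = 1 :=
    Units.inv_mul t
  linear_combination -(δ * (((t⁻¹ : (AdjoinRoot S.fM)ˣ) : AdjoinRoot S.fM) * t + 1)) * h3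

end Pool.Agent.H94.GG
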