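import Pool.Agent.H74.GR.VB
import Pool.Agent.H74.GR.WD

set_option autoImplicit false

/-!
# [H94 GG XA] THEOREM G1 for all twists: scaling of the root with a factor `a` in front of `y ^ 2`

`isVal_scale'`: as `H74.GR.isVal_scale` with `a y ^ 2 = g'(x)` instead of `y ^ 2 = g'(x)`.
-/

namespace Pool.Agent.H94.GG

open Polynomial IsDedekindDomain
open Pool.Agent.H74.GR (scale_dvd sq_scale exists_comp norm_scale)
open Pool.Agent.H80.CC.Plane (overK overKv constKv toL toLv)

section field

variable {k : Type} [Field k] {g : k[X]}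

private lemma comp_one' {s t : k} (h : s * t = 1) (p : k[X]) :
    (p.comp (C s * X)).comp (C t * X) = p := by
  rw [comp_assoc]
  have e : (C s * X : k[X]).comp (C t * X) = X := by
    rw [mul_comp, C_comp, X_comp, ← mul_assoc, ← C_mul, h, C_1, one_mul]
  rw [e, comp_X]

private lemma scale_eq (g : k[X]) {s : k} (hs : s ≠ 0) :
    g.scaleRoots s = C (s ^ g.natDegree) * g.comp (C s⁻¹ * X) := by
  ext i
  rw [coeff_scaleRoots, coeff_C_mul, comp_C_mul_X_coeff]
  by_cases hi : i ≤ g.natDegree
  · have h1 : s ^ g.natDegree = s ^ (g.natDegree - i) * s ^ i := by rw [← pow_add, Nat.sub_add_cancel hi]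
    have h2 : s ^ i ≠ 0 := pow_ne_zero _ hs
    rw [h1, inv_pow]
    field_simp
  · rw [coeff_eq_zero_of_natDegree_lt (by omega), zero_mul, zero_mul, mul_zero]

private lemma scale_comp (g : k[X]) {s : k} (hs : s ≠ 0) :
    (g.scaleRoots s).comp (C s * X) = C (s ^ g.natDegree) * g := by
  rw [scale_eq g hs, mul_comp, C_comp, comp_one' (inv_mul_cancel₀ hs)]

private lemma unit_C {a : k} (ha : a ≠ 0) : IsUnit (C a : k[X]) := isUnit_C.2 (isUnit_iff_ne_zero.2 ha)

theorem isVal_scale' (hg : g.Monic) (hodd : Odd g.natDegree) {s : k} (hs : s ≠ 0) (a : k) (p : k[X])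
    (h : IsVal a (g.scaleRoots s) (AdjoinRoot.mk (g.scaleRoots s) (p.comp (C s⁻¹ * X)))) :
    IsVal (a * s) g (AdjoinRoot.mk g p) := by
  obtain ⟨r, P', Q', γ', hM, hγ⟩ := h
  obtain ⟨G', rfl⟩ := AdjoinRoot.mk_surjective γ'
  set m := g.natDegree with hm
  obtain ⟨l, hl⟩ := hodd
  have hsn : ∀ n : ℕ, s ^ n ≠ 0 := fun n => pow_ne_zero n hs
  have hdeg : ∀ i, ((P' i).comp (C s * X)).natDegree ≤ (P' i).natDegree := by
    intro i
    refine natDegree_le_iff_coeff_eq_zero.2 fun N hN => ?_
    rw [comp_C_mul_X_coeff, coeff_eq_zero_of_natDegree_lt hN, zero_mul]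
  have hmon : ∀ i, (C ((s ^ (P' i).natDegree)⁻¹) * (P' i).comp (C s * X)).Monic := by
    intro i
    refine monic_of_natDegree_le_of_coeff_eq_one (P' i).natDegree ((natDegree_C_mul_le _ _).trans (hdeg i)) ?_
    rw [coeff_C_mul, comp_C_mul_X_coeff, (hM i).1.coeff_natDegree, one_mul, inv_mul_cancel₀ (hsn _)]
  have hnd : ∀ i, (C ((s ^ (P' i).natDegree)⁻¹) * (P' i).comp (C s * X)).natDegree = (P' i).natDegree := by
    intro i
    refine le_antisymm ((natDegree_C_mul_le _ _).trans (hdeg i)) (le_natDegree_of_ne_zero ?_)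
    rw [coeff_C_mul, comp_C_mul_X_coeff, (hM i).1.coeff_natDegree, one_mul, inv_mul_cancel₀ (hsn _)]
    exact one_ne_zero
  refine ⟨r, fun i => C ((s ^ (P' i).natDegree)⁻¹) * (P' i).comp (C s * X),
    fun i => C ((s ^ (l + 1))⁻¹) * (Q' i).comp (C s * X), AdjoinRoot.mk g (G'.comp (C s * X)), fun i => ⟨hmon i, ?_, ?_⟩, ?_⟩
  · rw [isCoprime_mul_unit_left_left (unit_C (inv_ne_zero (hsn _)))]
    have h1 := (hM i).2.1.map (compRingHom (C s * X))
    rw [coe_compRingHom_apply, coe_compRingHom_apply, scale_comp g hs] at h1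
    exact h1.of_mul_right_right
  · rw [(unit_C (inv_ne_zero (hsn _))).mul_left_dvd]
    have h1 := map_dvd (compRingHom (C s * X)) (hM i).2.2
    rw [coe_compRingHom_apply, coe_compRingHom_apply, sub_comp, mul_comp, pow_comp, C_comp, scale_comp g hs, ← hm] at h1
    have h2 : C a * (Q' i).comp (C s * X) ^ 2 - C (s ^ m) * g =
        C (s ^ m) * (C (a * s) * (C ((s ^ (l + 1))⁻¹) * (Q' i).comp (C s * X)) ^ 2 - g) := by
      have h3 : C (s ^ m) * (C s * (C ((s ^ (l + 1))⁻¹)) ^ 2) = (1 : k[X]) := by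
        rw [← C_pow, ← C_mul, ← C_mul, ← C_1]
        congr 1
        rw [inv_pow, ← pow_mul, ← mul_assoc, ← pow_succ, hl]
        have h4 : 2 * l + 1 + 1 = (l + 1) * 2 := by ring
        rw [h4]
        exact mul_inv_cancel₀ (hsn _)
      rw [C_mul]
      linear_combination (-C a * (Q' i).comp (C s * X) ^ 2) * h3
    rw [h2] at h1
    exact (unit_C (hsn m)).dvd_mul_left.1 h1
  · have h1 : ∀ i, desc (a * s) g (C ((s ^ (P' i).natDegree)⁻¹) * (P' i).comp (C s * X)) =
        AdjoinRoot.mk g ((C (-a) ^ (P' i).natDegree * P' i).comp (C s * X)) := by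
      intro i
      rw [desc, hnd, ← map_pow, ← map_mul, mul_comp, pow_comp, C_comp]
      congr 1
      rw [← mul_assoc, ← C_pow, ← C_mul, ← C_pow]
      congr 2
      have h2 : -(a * s) = -a * s := by ring
      rw [h2, mul_pow, mul_assoc, mul_inv_cancel₀ (hsn _), mul_one]
    have h3 : ∏ i, desc (a * s) g (C ((s ^ (P' i).natDegree)⁻¹) * (P' i).comp (C s * X)) =
        AdjoinRoot.mk g ((∏ i, C (-a) ^ (P' i).natDegree * P' i).comp (C s * X)) := by
      rw [Finset.prod_congr rfl fun i _ => h1 i, ← map_prod]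
      congr 1
      rw [← coe_compRingHom_apply, map_prod]
      rfl
    show _ = ∏ i, desc (a * s) g (C ((s ^ (P' i).natDegree)⁻¹) * (P' i).comp (C s * X))
    rw [h3, ← map_pow, ← map_mul, AdjoinRoot.mk_eq_mk, ← scale_dvd hg hs, sub_comp, mul_comp, pow_comp,
      comp_one' (mul_inv_cancel₀ hs), comp_one' (mul_inv_cancel₀ hs), ← AdjoinRoot.mk_eq_mk, map_mul, map_pow, hγ,
      map_prod]
    refine Finset.prod_congr rfl fun i _ => ?_
    rw [desc, map_mul, map_pow]

private lemma irr_scale (hg : g.Monic) {s : k} (hs : s ≠ 0)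
    (hirr : Irreducible g) : Irreducible (g.scaleRoots s) := by
  have hp := hirr.prime
  have hc : ∀ a : k[X], (a.comp (C s * X)).comp (C s⁻¹ * X) = a := by
    intro a
    exact comp_one' (mul_inv_cancel₀ hs) a
  have h1 : Prime (g.scaleRoots s) := by
    refine ⟨((monic_scaleRoots_iff s).2 hg).ne_zero, fun hu => ?_, fun a b hab => ?_⟩
    · have h2 : g.scaleRoots s ∣ (1 : k[X]).comp (C s⁻¹ * X) := by
        rw [one_comp]
        exact hu.dvd
      exact hp.not_isUnit (isUnit_of_dvd_one ((scale_dvd hg hs 1).1 h2))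
    · rw [← hc a, ← hc b, ← mul_comp, scale_dvd hg hs] at hab
      rcases hp.dvd_or_dvd hab with h2 | h2
      · left
        rw [← hc a]
        exact (scale_dvd hg hs _).2 h2
      · right
        rw [← hc b]
        exact (scale_dvd hg hs _).2 h2
  exact h1.irreducible

end field

variable {F : Type} [Field F]

private lemma aux_exists {k : Type} [Field k] {g G : k[X]} {s : k} (hs : s ≠ 0) (hG : G = g.scaleRoots s)
    (δ : AdjoinRoot G) : ∃ p : k[X], δ = AdjoinRoot.mk G (p.comp (C s⁻¹ * X)) := by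
  subst hG
  exact exists_comp hs δ

private lemma aux_norm {k : Type} [Field k] {g G : k[X]} (hg : g.Monic) {s : k} (hs : s ≠ 0)
    (hG : G = g.scaleRoots s) (p : k[X]) :
    Algebra.norm k (AdjoinRoot.mk G (p.comp (C s⁻¹ * X))) = Algebra.norm k (AdjoinRoot.mk g p) := by
  subst hG
  exact norm_scale hg hs p

private lemma aux_val {k : Type} [Field k] {g G : k[X]} (hg : g.Monic) (hodd : Odd g.natDegree) {s : k}
    (hs : s ≠ 0) (hG : G = g.scaleRoots s) (a : k) (p : k[X])
    (h : IsVal a G (AdjoinRoot.mk G (p.comp (C s⁻¹ * X)))) : IsVal (a * s) g (AdjoinRoot.mk g p) := by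
  subst hG
  exact isVal_scale' hg hodd hs a p h

private lemma aux_sq {k : Type} [Field k] {g G : k[X]} (hg : g.Monic) {s : k}
    (hs : s ≠ 0) (hG : G = g.scaleRoots s) (p : k[X]) (h : ∃ z : AdjoinRoot g, AdjoinRoot.mk g p = z ^ 2) :
    ∃ z : AdjoinRoot G, AdjoinRoot.mk G (p.comp (C s⁻¹ * X)) = z ^ 2 := by
  subst hG
  exact sq_scale hg hs p h

private lemma aux_toLv (f : F[X][X]) (v : HeightOneSpectrum F[X]) (p : (RatFunc F)[X]) :
    toLv f v (AdjoinRoot.mk (overK f) p) =
      AdjoinRoot.mk (overKv f v) (p.map (algebraMap (RatFunc F) (v.adicCompletion (RatFunc F)))) :=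
  Pool.Agent.H80.CC.toAdic_mk (RatFunc F) f v p

/-- The Selmer group of `E y ^ 2 = D ^ m f(x / D)` is that of `E D y ^ 2 = f(x)`. -/
theorem selTriv_scale' {f : F[X][X]} (hf : f.Monic) (hodd : Odd f.natDegree) (hirr : Irreducible f)
    {D E : F[X]} (hD : D ≠ 0) (h : ∀ δ, IsSel (E * D) f δ → ∃ z : AdjoinRoot (overK f), δ = z ^ 2) :
    SelTriv E (f.scaleRoots D) := by
  have hsK : algebraMap F[X] (RatFunc F) D ≠ 0 := by
    intro h0
    exact hD (IsFractionRing.injective F[X] (RatFunc F) (by rw [h0, map_zero]))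
  have hfK : (overK f).Monic := hf.map _
  have hK : overK (f.scaleRoots D) = (overK f).scaleRoots (algebraMap F[X] (RatFunc F) D) := by
    refine map_scaleRoots f D _ ?_
    rw [hf.leadingCoeff, map_one]
    exact one_ne_zero
  have hf' : (f.scaleRoots D).Monic := (monic_scaleRoots_iff D).2 hf
  refine ⟨?_, fun δ hδ => ?_⟩
  · rw [hf'.irreducible_iff_irreducible_map_fraction_map (K := RatFunc F)]
    show Irreducible (overK (f.scaleRoots D))
    rw [hK]
    refine irr_scale hfK hsK ?_
    exact (hf.irreducible_iff_irreducible_map_fraction_map (K := RatFunc F)).1 hirr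
  · obtain ⟨p, hp⟩ := aux_exists hsK hK δ
    have hsel : IsSel (E * D) f (AdjoinRoot.mk (overK f) p) := by
      refine ⟨fun h0 => ?_, ?_, fun v => ?_⟩
      · apply hδ.ne_zero
        rw [AdjoinRoot.mk_eq_zero] at h0
        rw [hp, AdjoinRoot.mk_eq_zero, hK]
        exact (scale_dvd hfK hsK p).2 h0
      · obtain ⟨y, hy⟩ := hδ.norm
        refine ⟨y, ?_⟩
        rw [← hy, hp]
        exact (aux_norm hfK hsK hK p).symm
      · have h1 := hδ.locally v
        have h2 : constKv (E * D) v = constKv E v * constKv D v := by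
          rw [constKv, constKv, constKv, map_mul, map_mul]
        have hsv : constKv D v ≠ 0 := by
          intro h0
          exact hsK ((algebraMap (RatFunc F) (v.adicCompletion (RatFunc F))).injective (by rw [map_zero]; exact h0))
        have hfv : (overKv f v).Monic := hfK.map _
        have hKv : overKv (f.scaleRoots D) v = (overKv f v).scaleRoots (constKv D v) := by
          rw [overKv, hK]
          refine map_scaleRoots _ _ _ ?_
          rw [hfK.leadingCoeff, map_one]
          exact one_ne_zero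
        have hodd' : Odd (overKv f v).natDegree := by
          have h3 : (overKv f v).natDegree = f.natDegree := by
            rw [overKv, hfK.natDegree_map, overK, hf.natDegree_map]
          rw [h3]
          exact hodd
        rw [hp, aux_toLv, Polynomial.map_comp, Polynomial.map_mul, map_C, map_X, map_inv₀] at h1
        rw [aux_toLv, h2]
        exact aux_val hfv hodd' hsv hKv _ _ h1
    rw [hp]
    exact aux_sq hfK hsK hK p (h _ hsel)

end Pool.Agent.H94.GG
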