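import Pool.Agent.H94.GG.XA
import Pool.Agent.H40.GC.LTO

set_option autoImplicit false

/-!
# [H94 GG XB] THEOREM G1 for all twists: assembly

As `H74/GR/WD`, with a polynomial `E ≠ 0`: the primes of `E` have degree at most `natDegree E ≤ M`, so `f` is harmless there, and the twists `E * D_I` have no other primes outside `I` than harmless ones.
-/

namespace Pool.Agent.H94.GG

open Polynomial IsDedekindDomain
open Pool.Agent.H74.GR
open Pool.Agent.H40.GC (kv FamS LatO Mh)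
open Pool.Agent.H80.CC.Plane (overK overKv constKv toL toLv)

private theorem card_three {α : Type} {p p1 p2 p3 : α → Prop} (hfin : {x | p x}.Finite)
    (h1 : ∀ x, p1 x → p x) (h2 : ∀ x, p2 x → p x) (h3 : ∀ x, p3 x → p x)
    (h : ∀ x, p x → p1 x ∨ p2 x ∨ p3 x) : Nat.card {x // p x} ≤
      Nat.card {x // p1 x} + Nat.card {x // p2 x} + Nat.card {x // p3 x} := by
  have e : ∀ q : α → Prop, Nat.card {x // q x} = {x | q x}.ncard := fun q =>
    Nat.card_coe_set_eq {x | q x}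
  rw [e, e, e, e]
  have hf1 : {x | p1 x}.Finite := hfin.subset h1
  have hf2 : {x | p2 x}.Finite := hfin.subset h2
  have hf3 : {x | p3 x}.Finite := hfin.subset h3
  have hs : {x | p x} ⊆ {x | p1 x} ∪ {x | p2 x} ∪ {x | p3 x} := by
    intro x hx
    rcases h x hx with h4 | h4 | h4
    · exact Or.inl (Or.inl h4)
    · exact Or.inl (Or.inr h4)
    · exact Or.inr h4
  have h5 := Set.ncard_le_ncard hs ((hf1.union hf2).union hf3)
  have h6 := Set.ncard_union_le ({x | p1 x} ∪ {x | p2 x}) {x | p3 x}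
  have h7 := Set.ncard_union_le {x | p1 x} {x | p2 x}
  omega

private theorem card_union {α ι : Type} {p : α → Prop} {q : ι → α → Prop} (T : Finset ι) (N : ℕ)
    (hfin : ∀ i ∈ T, {x | q i x}.Finite) (h : ∀ x, p x → ∃ i ∈ T, q i x)
    (hN : ∀ i ∈ T, Nat.card {x // q i x} ≤ N) : Nat.card {x // p x} ≤ T.card * N := by
  have e : ∀ q : α → Prop, Nat.card {x // q x} = {x | q x}.ncard := fun q =>
    Nat.card_coe_set_eq {x | q x}
  rw [e]
  have h1 : {x | p x} ⊆ ⋃ i ∈ T, {x | q i x} := by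
    intro x hx
    obtain ⟨i, hi, hq⟩ := h x hx
    simp only [Set.mem_iUnion]
    exact ⟨i, hi, hq⟩
  have hf : (⋃ i ∈ T, {x | q i x}).Finite := Set.Finite.biUnion T.finite_toSet hfin
  refine (Set.ncard_le_ncard h1 hf).trans ((Finset.set_ncard_biUnion_le _ _).trans ?_)
  refine (Finset.sum_le_card_nsmul _ _ N fun i hi => ?_).trans (le_of_eq ?_)
  · rw [← e]
    exact hN i hi
  · rw [smul_eq_mul]

private theorem fam_fin (F : Type) [Field F] [Finite F] (m h : ℕ) : {f : F[X][X] | Fam m h f}.Finite := by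
  have h1 : Finite {f : F[X][X] // Fam m h f} := by
    apply Nat.finite_of_card_ne_zero
    rw [Pool.Agent.H40.GC.fmc_all]
    exact pow_ne_zero _ Nat.card_pos.ne'
  exact h1

private theorem mh_add (m h e : ℕ) : Mh m (h + e) = Mh m h + e * ∑ i : Fin m, (m - (i : ℕ)) := by
  unfold Pool.Agent.H40.GC.Mh
  rw [Finset.mul_sum, ← Finset.sum_add_distrib]
  refine Finset.sum_congr rfl fun i _ => ?_
  ring

theorem good_share' (F : Type) [Field F] [Finite F] (h2 : (2 : F) ≠ 0) {g : ℕ} (hg : 1 ≤ g)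
    (M0 : ℕ) (hLat : ∀ (h : ℕ) (f : F[X][X]), 1 ≤ h → Fam (2 * g + 1) h f → Irreducible (lead (2 * g + 1) h f) →
      Smooth f → LatO g h f) :
    ∃ (d k : ℕ) (P Z Z1 : Finset (HeightOneSpectrum F[X])) (c : ℝ) (h0 : ℕ), 0 < c ∧ 1 ≤ k ∧ P.card = k ∧
      Z.card = k ∧ Disjoint P Z ∧ (∀ v ∈ P, HasDeg v d) ∧ (∀ v ∈ Z, HasDeg v d) ∧ Z ⊆ Z1 ∧
      (∀ v : HeightOneSpectrum F[X], (∃ d' ≤ M0, HasDeg v d') → v ∈ Z1 ∧ v ∉ P) ∧
      ∀ h, h0 ≤ h → c * (Nat.card {f : F[X][X] // Fam (2 * g + 1) h f} : ℝ) ≤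
        (Nat.card {f : F[X][X] // FamS (2 * g + 1) h P Z1 f ∧ Smooth f ∧
          ∀ δ : AdjoinRoot (overK f), IsS0 f δ → (∀ v ∈ P, SqAt f v δ) → ∃ z, δ = z ^ 2} : ℝ) := by
  classical
  have h3 : 3 ≤ Nat.card F := Pool.Agent.H40.GC.odd_card F h2
  obtain ⟨M, hMdef⟩ : ∃ M, M = 16 * (2 * g + 1) + M0 := ⟨_, rfl⟩
  have hM : 2 * (((2 * g + 1 : ℕ) : ℝ)) / (Nat.card F : ℝ) ^ (M + 1) ≤ (1 / 4 : ℝ) / 2 := by
    have h4 : 16 * (2 * g + 1) ≤ Nat.card F ^ (M + 1) := by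
      have h5 : M + 1 < Nat.card F ^ (M + 1) := Nat.lt_pow_self (by omega)
      omega
    have h6 : (16 * ((2 * g + 1 : ℕ) : ℝ)) ≤ (Nat.card F : ℝ) ^ (M + 1) := by exact_mod_cast h4
    have h7 : (0 : ℝ) < (Nat.card F : ℝ) ^ (M + 1) := by
      have h8 : (0 : ℝ) < Nat.card F := by exact_mod_cast (by omega : 0 < Nat.card F)
      positivity
    rw [div_le_iff₀ h7]
    linarith
  obtain ⟨Z0, hZ0⟩ := small (F := F) M
  obtain ⟨C, hC, hCa⟩ := Pool.Agent.H40.GC.eng F h2 hg hLat Z0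
  obtain ⟨k₀, hk₀⟩ := pow_unbounded_of_one_lt (4 * C) (one_lt_two : (1 : ℝ) < 2)
  obtain ⟨k, hk⟩ : ∃ k, k = k₀ + 1 := ⟨_, rfl⟩
  have h2k : 4 * C ≤ (2 : ℝ) ^ k := by
    rw [hk, pow_succ]
    have h4 : (0 : ℝ) < 2 ^ k₀ := by positivity
    linarith
  obtain ⟨d0, hd0⟩ := hCa (2 * k)
  obtain ⟨d, P, Z, hMd, hdq, hPc, hZc, hPZ, hPd, hZd⟩ := choose_places F h3 k M d0
  have hPZ0 : Disjoint P Z0 := by
    rw [Finset.disjoint_left]
    intro v hv hv0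
    obtain ⟨d', hd', h4⟩ := (hZ0 v).1 hv0
    have h5 := hasDeg_unique (hPd v hv) h4
    omega
  have hPZ1 : Disjoint P (Z0 ∪ Z) := Finset.disjoint_union_right.2 ⟨hPZ0, hPZ⟩
  obtain ⟨h01, hh1⟩ := hd0 P Z hPZ hPZ0 (by omega)
    (fun v hv => by rw [card_kv (hPd v hv)]; exact hdq)
    (fun v hv => by rw [card_kv (hZd v hv)]; exact hdq)
  obtain ⟨h02, hh2⟩ := Pool.Agent.H40.GC.enc_low h2 hg hPZ1
  obtain ⟨h03, hh3⟩ := smooth_share h2 (2 * g + 1) (by omega) M (1 / 4) (by norm_num) hM P (Z0 ∪ Z)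
    (fun v hv => Finset.mem_union_left _ ((hZ0 v).2 hv))
  refine ⟨d, k, P, Z, Z0 ∪ Z, (1 / (2 * (2 * g + 1 : ℝ))) ^ (P.card + (Z0 ∪ Z).card + 1) / 2,
    max h01 (max h02 h03), by positivity, by omega, hPc, hZc, hPZ, hPd, hZd,
    Finset.subset_union_right, fun v hv => ?_, fun h hh => ?_⟩
  · obtain ⟨d', hd', hv'⟩ := hv
    refine ⟨Finset.mem_union_left _ ((hZ0 v).2 ⟨d', by omega, hv'⟩), fun hvP => ?_⟩
    have h5 := hasDeg_unique (hPd v hvP) hv'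
    omega
  have g1 := hh1 h ((le_max_left _ _).trans hh)
  have g2 := hh2 h ((le_max_left _ _).trans ((le_max_right _ _).trans hh))
  have g3 := hh3 h ((le_max_right _ _).trans ((le_max_right _ _).trans hh))
  rw [hPc] at g1
  have g4 := card_three (p := fun f : F[X][X] => FamS (2 * g + 1) h P (Z0 ∪ Z) f)
    (p1 := fun f => FamS (2 * g + 1) h P (Z0 ∪ Z) f ∧ ¬ Smooth f)
    (p2 := fun f => FamS (2 * g + 1) h P (Z0 ∪ Z) f ∧ Smooth f ∧
        ∃ δ : AdjoinRoot (overK f), IsS0 f δ ∧ ¬ IsSquare δ ∧ ∀ v ∈ P, SqAt f v δ)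
    (p3 := fun f => FamS (2 * g + 1) h P (Z0 ∪ Z) f ∧ Smooth f ∧
          ∀ δ : AdjoinRoot (overK f), IsS0 f δ → (∀ v ∈ P, SqAt f v δ) → ∃ z, δ = z ^ 2)
    (Pool.Agent.H40.GC.fams_fin _ _ _ _) (fun _ hf => hf.1) (fun _ hf => hf.1) (fun _ hf => hf.1)
    (fun f hf => by
      by_cases hs : Smooth f
      · right
        by_cases hδ : ∃ δ : AdjoinRoot (overK f), IsS0 f δ ∧ ¬ IsSquare δ ∧ ∀ v ∈ P, SqAt f v δ
        · exact Or.inl ⟨hf, hs, hδ⟩
        · refine Or.inr ⟨hf, hs, fun δ h4 h5 => ?_⟩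
          by_contra h6
          exact hδ ⟨δ, h4, fun h7 => h6 ((isSquare_iff_exists_sq δ).1 h7), h5⟩
      · exact Or.inl ⟨hf, hs⟩)
  have g5 : (Nat.card {f : F[X][X] // FamS (2 * g + 1) h P (Z0 ∪ Z) f} : ℝ) ≤
      (Nat.card {f : F[X][X] // FamS (2 * g + 1) h P (Z0 ∪ Z) f ∧ ¬ Smooth f} : ℝ) +
      (Nat.card {f : F[X][X] // FamS (2 * g + 1) h P (Z0 ∪ Z) f ∧ Smooth f ∧
        ∃ δ : AdjoinRoot (overK f), IsS0 f δ ∧ ¬ IsSquare δ ∧ ∀ v ∈ P, SqAt f v δ} : ℝ) +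
      (Nat.card {f : F[X][X] // FamS (2 * g + 1) h P (Z0 ∪ Z) f ∧ Smooth f ∧
          ∀ δ : AdjoinRoot (overK f), IsS0 f δ → (∀ v ∈ P, SqAt f v δ) → ∃ z, δ = z ^ 2} : ℝ) := by
    exact_mod_cast g4
  have hA : (0 : ℝ) ≤ (Nat.card {f : F[X][X] // FamS (2 * g + 1) h P (Z0 ∪ Z) f} : ℝ) :=
    Nat.cast_nonneg _
  have h2p : (0 : ℝ) < 2 ^ k := by positivity
  have g6 : (Nat.card {f : F[X][X] // FamS (2 * g + 1) h P (Z0 ∪ Z) f ∧ Smooth f ∧
        ∃ δ : AdjoinRoot (overK f), IsS0 f δ ∧ ¬ IsSquare δ ∧ ∀ v ∈ P, SqAt f v δ} : ℝ) ≤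
      1 / 4 * (Nat.card {f : F[X][X] // FamS (2 * g + 1) h P (Z0 ∪ Z) f} : ℝ) := by
    refine le_of_mul_le_mul_left (g1.trans ?_) h2p
    have g7 := mul_le_mul_of_nonneg_right h2k hA
    linarith
  linarith

/-- a place which contains `E ≠ 0` has degree at most `natDegree E` -/
theorem deg_of_mem {F : Type} [Field F] {E : F[X]} (hE : E ≠ 0) {v : HeightOneSpectrum F[X]}
    (h : E ∈ v.asIdeal) : ∃ d ≤ E.natDegree, HasDeg v d := by
  obtain ⟨p, hp⟩ : ∃ p : F[X], v.asIdeal = Ideal.span {p} :=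
    (IsPrincipalIdealRing.principal v.asIdeal).principal
  have hp0 : p ≠ 0 := by
    rintro rfl
    apply v.ne_bot
    rw [hp, Ideal.span_singleton_eq_bot]
  have hirr : Irreducible p := by
    have h1 : (Ideal.span {p}).IsPrime := hp ▸ v.isPrime
    exact ((Ideal.span_singleton_prime hp0).1 h1).irreducible
  have hc0 : p.leadingCoeff⁻¹ ≠ 0 := inv_ne_zero (leadingCoeff_ne_zero.2 hp0)
  have hun : IsUnit (C p.leadingCoeff⁻¹ : F[X]) := isUnit_C.2 (isUnit_iff_ne_zero.2 hc0)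
  refine ⟨p.natDegree, natDegree_le_of_dvd ?_ hE, p * C p.leadingCoeff⁻¹,
    monic_mul_leadingCoeff_inv hp0, (irreducible_mul_isUnit hun).2 hirr,
    natDegree_mul_leadingCoeff_inv _ hp0, ?_⟩
  · rw [← Ideal.mem_span_singleton, ← hp]
    exact h
  · rw [hp]
    exact (Ideal.span_singleton_mul_right_unit hun p).symm

theorem notMem_sq {F : Type} [Field F] {E D : F[X]} {v : HeightOneSpectrum F[X]}
    (h : E ∉ v.asIdeal) (h' : D ∉ v.asIdeal ^ 2) : E * D ∉ v.asIdeal ^ 2 := by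
  obtain ⟨p, hp⟩ : ∃ p : F[X], v.asIdeal = Ideal.span {p} :=
    (IsPrincipalIdealRing.principal v.asIdeal).principal
  have hp0 : p ≠ 0 := by
    rintro rfl
    apply v.ne_bot
    rw [hp, Ideal.span_singleton_eq_bot]
  have hpr : Prime p := by
    have h1 : (Ideal.span {p}).IsPrime := hp ▸ v.isPrime
    exact (Ideal.span_singleton_prime hp0).1 h1
  rw [hp, Ideal.mem_span_singleton] at h
  rw [hp, Ideal.span_singleton_pow, Ideal.mem_span_singleton] at h' ⊢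
  intro h3
  exact h' (hpr.pow_dvd_of_dvd_mul_left 2 h h3)

/-- **THEOREM G1** for the twist by `E`. -/
theorem g1_twist (F : Type) [Field F] [Finite F] (h2 : (2 : F) ≠ 0) {g : ℕ} (hg : 1 ≤ g)
    {E : F[X]} (hE : E ≠ 0) :
    ∃ (c : ℝ) (h0 : ℕ), 0 < c ∧ ∀ h, h0 ≤ h →
      c * (Nat.card {f : F[X][X] // Fam (2 * g + 1) h f} : ℝ) ≤
        (Nat.card {f : F[X][X] // Fam (2 * g + 1) h f ∧ (overK f).Separable ∧ SelTriv E f} : ℝ) := by
  classical
  obtain ⟨d, k, P, Z, Z1, c, h0, hc, hk, hPc, hZc, hPZ, hPd, hZd, hZZ1, hsm, hmain⟩ :=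
    good_share' F h2 hg E.natDegree (fun h f _ hf hl hs => Pool.Agent.H40.GC.lato hg h f hf hl hs)
  have htw : ∀ I : Finset (HeightOneSpectrum F[X]), ∃ D : F[X], I ⊆ P → D.Monic ∧
      D.natDegree = k * d ∧
      (∀ v ∈ I, D ∈ v.asIdeal ∧ D ∉ v.asIdeal ^ 2) ∧ (∀ v ∈ P, v ∉ I → D ∉ v.asIdeal) ∧
      ∀ v, D ∈ v.asIdeal → v ∈ I ∨ v ∈ Z := by
    intro I
    by_cases hI : I ⊆ P
    · obtain ⟨D, hD⟩ := exists_twist hPc hZc hPZ hPd hZd hI
      exact ⟨D, fun _ => hD⟩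
    · exact ⟨1, fun h => absurd h hI⟩
  choose D hD using htw
  obtain ⟨v₀, hv₀⟩ : P.Nonempty := by
    rw [← Finset.card_pos]
    omega
  have hcov : ∀ h, ∀ f : F[X][X], (FamS (2 * g + 1) h P Z1 f ∧ Smooth f ∧
      ∀ δ : AdjoinRoot (overK f), IsS0 f δ → (∀ v ∈ P, SqAt f v δ) → ∃ z, δ = z ^ 2) →
      ∃ I ∈ P.powerset, Fam (2 * g + 1) h f ∧ (overK (f.scaleRoots (D I))).Separable ∧
        SelTriv E (f.scaleRoots (D I)) := by
    rintro h f ⟨⟨hfam, hl, hP, hZ⟩, hs, hδ⟩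
    have hf := hfam.monic
    have hirr : Irreducible f := H13.SM.irr (2 * g + 1) h (by omega) f hfam hl
    have hded : IsDedekindDomain (AdjoinRoot f) :=
      H13.SM.ded (2 * g + 1) h (by omega) f hfam hl hs
    have hirrK : Irreducible (overK f) := Pool.Agent.H94.TC.irreducible_map (RatFunc F) f hf
    have hodd : Odd f.natDegree := by
      rw [hfam.deg]
      exact ⟨g, rfl⟩
    obtain ⟨I, hIP, hI⟩ := g1_choice h2 f hfam rfl hl hirrK P hP hδ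
    obtain ⟨hDm, hDd, hD1, hD2, hD3⟩ := hD I hIP
    have hD0 : D I ≠ 0 := hDm.ne_zero
    have hEP : ∀ v ∈ P, E ∉ v.asIdeal := fun v hv h4 => (hsm v (deg_of_mem hE h4)).2 hv
    refine ⟨I, Finset.mem_powerset.2 hIP, hfam, ?_, ?_⟩
    · exact sep_scale hf hD0 (sep_over hf v₀ (sep_of (Or.inl (hP v₀ hv₀))))
    · refine selTriv_scale' hf hodd hirr hD0 (hI (E * D I) (fun v hv => ⟨?_, ?_⟩)
        (fun v hv hvI => ?_) fun v hv => ?_)
      · exact Ideal.mul_mem_left _ _ (hD1 v hv).1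
      · exact notMem_sq (hEP v (hIP hv)) (hD1 v hv).2
      · intro h4
        rcases v.isPrime.mem_or_mem h4 with h5 | h5
        · exact hEP v hv h5
        · exact hD2 v hv hvI h5
      · rcases v.isPrime.mem_or_mem hv with h5 | h5
        · exact Or.inr (hZ v (hsm v (deg_of_mem hE h5)).1)
        · rcases hD3 v h5 with h4 | h4
          · exact Or.inl h4
          · exact Or.inr (hZ v (hZZ1 h4))
  have hq : (0 : ℝ) < (Nat.card F : ℝ) := by exact_mod_cast Nat.card_pos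
  obtain ⟨e, he⟩ : ∃ e, e = k * d := ⟨_, rfl⟩
  obtain ⟨s, hs⟩ : ∃ s, s = ∑ i : Fin (2 * g + 1), (2 * g + 1 - (i : ℕ)) := ⟨_, rfl⟩
  refine ⟨c / 2 ^ k / (Nat.card F : ℝ) ^ (e * s), h0 + e, by positivity, fun h' hh' => ?_⟩
  obtain ⟨h, rfl⟩ : ∃ h, h' = h + e := ⟨h' - e, by omega⟩
  have g1 := hmain h (by omega)
  have g2 : Nat.card {f : F[X][X] // FamS (2 * g + 1) h P Z1 f ∧ Smooth f ∧
      ∀ δ : AdjoinRoot (overK f), IsS0 f δ → (∀ v ∈ P, SqAt f v δ) → ∃ z, δ = z ^ 2} ≤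
      P.powerset.card * Nat.card {f : F[X][X] // Fam (2 * g + 1) (h + e) f ∧
        (overK f).Separable ∧ SelTriv E f} := by
    refine card_union (q := fun I f => Fam (2 * g + 1) h f ∧
      (overK (f.scaleRoots (D I))).Separable ∧ SelTriv E (f.scaleRoots (D I))) P.powerset _
      (fun I _ => (fam_fin F (2 * g + 1) h).subset fun f hf => hf.1) (hcov h) fun I hI => ?_
    obtain ⟨hDm, hDd, -⟩ := hD I (Finset.mem_powerset.1 hI)
    have hfinB : Finite {f : F[X][X] // Fam (2 * g + 1) (h + e) f ∧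
        (overK f).Separable ∧ SelTriv E f} :=
      ((fam_fin F (2 * g + 1) (h + e)).subset fun f hf => hf.1 :
        {f : F[X][X] | Fam (2 * g + 1) (h + e) f ∧ (overK f).Separable ∧ SelTriv E f}.Finite)
    refine Nat.card_le_card_of_injective (fun f => ⟨f.1.scaleRoots (D I), ?_, f.2.2.1, f.2.2.2⟩) ?_
    · have h5 := fam_scale f.2.1 (D I)
      rwa [hDd, ← he] at h5
    · intro f₁ f₂ h5
      have h6 := congrArg Subtype.val h5
      exact Subtype.ext (scale_inj hDm.ne_zero (f₁.2.1.deg.trans f₂.2.1.deg.symm) h6)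
  rw [Finset.card_powerset, hPc] at g2
  have g3 : (Nat.card {f : F[X][X] // FamS (2 * g + 1) h P Z1 f ∧ Smooth f ∧
      ∀ δ : AdjoinRoot (overK f), IsS0 f δ → (∀ v ∈ P, SqAt f v δ) → ∃ z, δ = z ^ 2} : ℝ) ≤
      2 ^ k * (Nat.card {f : F[X][X] // Fam (2 * g + 1) (h + e) f ∧
        (overK f).Separable ∧ SelTriv E f} : ℝ) := by
    exact_mod_cast g2
  have g4 : (Nat.card {f : F[X][X] // Fam (2 * g + 1) (h + e) f} : ℝ) =
      (Nat.card {f : F[X][X] // Fam (2 * g + 1) h f} : ℝ) * (Nat.card F : ℝ) ^ (e * s) := by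
    rw [Pool.Agent.H40.GC.fmc_all, Pool.Agent.H40.GC.fmc_all, mh_add, ← hs, pow_add]
    push_cast
    ring
  rw [g4]
  have hqs : (0 : ℝ) < (Nat.card F : ℝ) ^ (e * s) := by positivity
  have h2p : (0 : ℝ) < 2 ^ k := by positivity
  have g5 : c / 2 ^ k / (Nat.card F : ℝ) ^ (e * s) *
      ((Nat.card {f : F[X][X] // Fam (2 * g + 1) h f} : ℝ) * (Nat.card F : ℝ) ^ (e * s)) =
      c * (Nat.card {f : F[X][X] // Fam (2 * g + 1) h f} : ℝ) / 2 ^ k := by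
    field_simp
  rw [g5, div_le_iff₀ h2p]
  refine (g1.trans g3).trans (le_of_eq ?_)
  ring

end Pool.Agent.H94.GG
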