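import Pool.Agent.H94.GG.XB

set_option autoImplicit false

/-!
# [H94 GG XC] THEOREM G1 for all twists, with the geometry

`g1_geo`: the polynomials which are counted are of the form `D ^ m f₀(x / D)`, `D` squarefree of positive degree and
prime to `E`, `f₀` smooth, `(D E, f₀, ∂f₀/∂x) = 1`, leading form of `f₀` irreducible.
-/

namespace Pool.Agent.H94.GG

open Polynomial IsDedekindDomain
open Pool.Agent.H74.GR
open Pool.Agent.H40.GC (kv FamS LatO Mh)
open Pool.Agent.H80.CC.Plane (overK overKv constKv toL toLv)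

private theorem gen_unique {F : Type} [Field F] {p q : F[X]} (hp : p.Monic) (hq : q.Monic)
    (h : Ideal.span {p} = Ideal.span {q}) : p = q :=
  eq_of_monic_of_associated hp hq (Ideal.span_singleton_eq_span_singleton.1 h)

/-- the twists, squarefree -/
theorem exists_twist' {F : Type} [Field F] {k d : ℕ} {P Z I : Finset (HeightOneSpectrum F[X])}
    (hP : P.card = k) (hZ : Z.card = k) (hPZ : Disjoint P Z) (hPd : ∀ v ∈ P, HasDeg v d)
    (hZd : ∀ v ∈ Z, HasDeg v d) (hI : I ⊆ P) :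
    ∃ D : F[X], D.Monic ∧ D.natDegree = k * d ∧ Squarefree D ∧
      (∀ v ∈ I, D ∈ v.asIdeal) ∧ (∀ v ∈ P, v ∉ I → D ∉ v.asIdeal) ∧
      ∀ v, D ∈ v.asIdeal → v ∈ I ∨ v ∈ Z := by
  classical
  have hIc : I.card ≤ k := by
    rw [← hP]
    exact Finset.card_le_card hI
  obtain ⟨Z', hZ', hZc⟩ := Finset.exists_subset_card_eq (s := Z) (n := k - I.card) (by omega)
  have hdis : Disjoint I Z' := Finset.disjoint_of_subset_left hI
    (Finset.disjoint_of_subset_right hZ' hPZ)
  obtain ⟨T, hT⟩ : ∃ T, T = I ∪ Z' := ⟨_, rfl⟩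
  have hTc : T.card = k := by
    rw [hT, Finset.card_union_of_disjoint hdis]
    omega
  have hTd : ∀ v ∈ T, HasDeg v d := by
    intro v hv
    rw [hT, Finset.mem_union] at hv
    rcases hv with hv | hv
    · exact hPd v (hI hv)
    · exact hZd v (hZ' hv)
  have hch : ∀ v : HeightOneSpectrum F[X], ∃ p : F[X], v ∈ T →
      p.Monic ∧ Irreducible p ∧ p.natDegree = d ∧ v.asIdeal = Ideal.span {p} := by
    intro v
    by_cases hv : v ∈ T
    · obtain ⟨p, hp, hpi, hd, hpv⟩ := hTd v hv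
      exact ⟨p, fun _ => ⟨hp, hpi, hd, hpv⟩⟩
    · exact ⟨0, fun h => absurd h hv⟩
  choose g hg using hch
  have hmem : ∀ v : HeightOneSpectrum F[X], ∏ u ∈ T, g u ∈ v.asIdeal → v ∈ T := by
    intro v hv
    have hpr := v.isPrime
    obtain ⟨u, hu, huv⟩ := (Ideal.IsPrime.prod_mem_iff (p := v.asIdeal)).1 hv
    have h1 : u.asIdeal ≤ v.asIdeal := by
      rw [(hg u hu).2.2.2, Ideal.span_singleton_le_iff_mem]
      exact huv
    have h2 : u.asIdeal = v.asIdeal := u.isMaximal.eq_of_le v.isPrime.ne_top h1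
    have h3 : u = v := HeightOneSpectrum.ext h2
    rw [← h3]
    exact hu
  refine ⟨∏ u ∈ T, g u, monic_prod_of_monic _ _ fun u hu => (hg u hu).1, ?_, ?_, ?_, ?_, ?_⟩
  · rw [natDegree_prod_of_monic _ _ fun u hu => (hg u hu).1,
      Finset.sum_congr rfl fun u hu => (hg u hu).2.2.1, Finset.sum_const, hTc, smul_eq_mul]
  · refine Finset.squarefree_prod_of_pairwise_isCoprime (fun u hu w hw huw => ?_)
      fun u hu => (hg u hu).2.1.squarefree
    refine IsCoprime.isRelPrime ((EuclideanDomain.dvd_or_coprime _ _ (hg u hu).2.1).resolve_left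
      fun h6 => huw ?_)
    have h7 := eq_of_monic_of_associated (hg u hu).1 (hg w hw).1
      ((hg u hu).2.1.associated_of_dvd (hg w hw).2.1 h6)
    apply HeightOneSpectrum.ext
    rw [(hg u hu).2.2.2, (hg w hw).2.2.2, h7]
  · intro v hv
    have hvT : v ∈ T := by
      rw [hT]
      exact Finset.mem_union_left _ hv
    rw [(hg v hvT).2.2.2, Ideal.mem_span_singleton]
    exact Finset.dvd_prod_of_mem g hvT
  · intro v hv hvI h
    have h1 := hmem v h
    rw [hT, Finset.mem_union] at h1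
    rcases h1 with h1 | h1
    · exact hvI h1
    · exact Finset.disjoint_left.1 hPZ hv (hZ' h1)
  · intro v h
    have h1 := hmem v h
    rw [hT, Finset.mem_union] at h1
    rcases h1 with h1 | h1
    · exact Or.inl h1
    · exact Or.inr (hZ' h1)

theorem gen_prime {F : Type} [Field F] (v : HeightOneSpectrum F[X]) :
    ∃ p : F[X], Prime p ∧ v.asIdeal = Ideal.span {p} := by
  obtain ⟨p, hp⟩ : ∃ p : F[X], v.asIdeal = Ideal.span {p} :=
    (IsPrincipalIdealRing.principal v.asIdeal).principal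
  have hp0 : p ≠ 0 := by
    rintro rfl
    apply v.ne_bot
    rw [hp, Ideal.span_singleton_eq_bot]
  refine ⟨p, ?_, hp⟩
  have h1 : (Ideal.span {p}).IsPrime := hp ▸ v.isPrime
  exact (Ideal.span_singleton_prime hp0).1 h1

theorem notMem_of_squarefree {F : Type} [Field F] {D : F[X]} (h : Squarefree D)
    (v : HeightOneSpectrum F[X]) : D ∉ v.asIdeal ^ 2 := by
  obtain ⟨p, hp, hv⟩ := gen_prime v
  rw [hv, Ideal.span_singleton_pow, Ideal.mem_span_singleton, sq]
  intro h1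
  exact hp.not_unit (h p h1)

/-- a common zero of `N`, `f`, `∂f/∂x` lies over a place which contains `N` -/
theorem transversal_of {F : Type} [Field F] {f : F[X][X]} {N : F[X]} (hN : N ≠ 0)
    (h : ∀ v : HeightOneSpectrum F[X], N ∈ v.asIdeal →
      (f.map (Ideal.Quotient.mk v.asIdeal)).Separable) :
    Ideal.span {C N, f, derivative f} = (⊤ : Ideal F[X][X]) := by
  by_contra hne
  obtain ⟨m, hm, hle⟩ := Ideal.exists_le_maximal _ hne
  have hmp : (m.comap (C : F[X] →+* F[X][X])).IsPrime := Ideal.IsPrime.comap _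
  have hDm : N ∈ m.comap (C : F[X] →+* F[X][X]) := hle (Ideal.subset_span (Set.mem_insert _ _))
  have hfm : f ∈ m := hle (Ideal.subset_span (Set.mem_insert_of_mem _ (Set.mem_insert _ _)))
  have hfm' : derivative f ∈ m :=
    hle (Ideal.subset_span (Set.mem_insert_of_mem _ (Set.mem_insert_of_mem _ rfl)))
  obtain ⟨v, hv⟩ : ∃ v : HeightOneSpectrum F[X], v.asIdeal = m.comap (C : F[X] →+* F[X][X]) :=
    ⟨⟨m.comap (C : F[X] →+* F[X][X]), hmp, fun h0 => hN (by
      rw [h0] at hDm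
      exact hDm)⟩, rfl⟩
  obtain ⟨A', B', hAB⟩ := h v (by rw [hv]; exact hDm)
  obtain ⟨A, rfl⟩ := map_surjective _ Ideal.Quotient.mk_surjective A'
  obtain ⟨B, rfl⟩ := map_surjective _ Ideal.Quotient.mk_surjective B'
  rw [derivative_map, ← Polynomial.map_mul, ← Polynomial.map_mul, ← Polynomial.map_add] at hAB
  have h1 : A * f + B * derivative f - 1 ∈ m := by
    have h2 : ∀ i, (A * f + B * derivative f - 1).coeff i ∈ m.comap (C : F[X] →+* F[X][X]) := by
      intro i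
      rw [← hv, ← Ideal.Quotient.eq_zero_iff_mem, ← coeff_map, Polynomial.map_sub, hAB,
        Polynomial.map_one, sub_self, coeff_zero]
    rw [← sum_C_mul_X_pow_eq (A * f + B * derivative f - 1)]
    exact Ideal.sum_mem _ fun i _ => Ideal.mul_mem_right _ _ (h2 i)
  have h3 : (1 : F[X][X]) ∈ m := by
    have h4 : A * f + B * derivative f ∈ m :=
      Ideal.add_mem _ (Ideal.mul_mem_left _ _ hfm) (Ideal.mul_mem_left _ _ hfm')
    have h5 := Ideal.sub_mem _ h4 h1
    have h6 : A * f + B * derivative f - (A * f + B * derivative f - 1) = 1 := by ring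
    rwa [h6] at h5
  exact hm.ne_top ((Ideal.eq_top_iff_one m).2 h3)

theorem isCoprime_of {F : Type} [Field F] {D E : F[X]} (hE : E ≠ 0)
    (h : ∀ v : HeightOneSpectrum F[X], D ∈ v.asIdeal → E ∉ v.asIdeal) : IsCoprime D E := by
  refine isCoprime_of_prime_dvd (fun h0 => hE h0.2) fun p hp hpD hpE => ?_
  obtain ⟨v, hv⟩ : ∃ v : HeightOneSpectrum F[X], v.asIdeal = Ideal.span {p} :=
    ⟨⟨Ideal.span {p}, (Ideal.span_singleton_prime hp.ne_zero).2 hp, by
      rw [Ne, Ideal.span_singleton_eq_bot]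
      exact hp.ne_zero⟩, rfl⟩
  exact h v (by rw [hv, Ideal.mem_span_singleton]; exact hpD)
    (by rw [hv, Ideal.mem_span_singleton]; exact hpE)

/-- the good polynomials -/
structure GoodE {F : Type} [Field F] (g h : ℕ) (E : F[X]) (f : F[X][X]) : Prop where
  fam : Fam (2 * g + 1) h f
  sep : (overK f).Separable
  sel : SelTriv E f
  twist : ∃ (e : ℕ) (D : F[X]) (f₀ : F[X][X]), 1 ≤ D.natDegree ∧ Squarefree D ∧ IsCoprime D E ∧
    e + D.natDegree = h ∧ Fam (2 * g + 1) e f₀ ∧ Smooth f₀ ∧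
    Ideal.span {C (D * E), f₀, derivative f₀} = (⊤ : Ideal F[X][X]) ∧
    Irreducible (lead (2 * g + 1) e f₀) ∧ f = f₀.scaleRoots D

private theorem card_union {α ι : Type} {p : α → Prop} {q : ι → α → Prop} (T : Finset ι) (N : ℕ)
    (hfin : ∀ i ∈ T, {x | q i x}.Finite) (h : ∀ x, p x → ∃ i ∈ T, q i x)
    (hN : ∀ i ∈ T, Nat.card {x // q i x} ≤ N) : Nat.card {x // p x} ≤ T.card * N := by
  have e : ∀ q : α → Prop, Nat.card {x // q x} = {x | q x}.ncard := fun q =>
    Nat.card_coe_set_eq {x | q x}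
  rw [e]
  have h1 : {x | p x} ⊆ ⋃ i ∈ T, {x | q i x} := by
    intro x hx
    obtain ⟨i, hi, hq⟩ := h x hx
    simp only [Set.mem_iUnion]
    exact ⟨i, hi, hq⟩
  have hf : (⋃ i ∈ T, {x | q i x}).Finite := Set.Finite.biUnion T.finite_toSet hfin
  refine (Set.ncard_le_ncard h1 hf).trans ((Finset.set_ncard_biUnion_le _ _).trans ?_)
  refine (Finset.sum_le_card_nsmul _ _ N fun i hi => ?_).trans (le_of_eq ?_)
  · rw [← e]
    exact hN i hi
  · rw [smul_eq_mul]

private theorem fam_fin (F : Type) [Field F] [Finite F] (m h : ℕ) : {f : F[X][X] | Fam m h f}.Finite := by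
  have h1 : Finite {f : F[X][X] // Fam m h f} := by
    apply Nat.finite_of_card_ne_zero
    rw [Pool.Agent.H40.GC.fmc_all]
    exact pow_ne_zero _ Nat.card_pos.ne'
  exact h1

private theorem mh_add (m h e : ℕ) : Mh m (h + e) = Mh m h + e * ∑ i : Fin m, (m - (i : ℕ)) := by
  unfold Pool.Agent.H40.GC.Mh
  rw [Finset.mul_sum, ← Finset.sum_add_distrib]
  refine Finset.sum_congr rfl fun i _ => ?_
  ring

/-- **THEOREM G1** for the twist by `E`, with the geometry. -/
theorem g1_geo (F : Type) [Field F] [Finite F] (h2 : (2 : F) ≠ 0) {g : ℕ} (hg : 1 ≤ g)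
    {E : F[X]} (hE : E ≠ 0) :
    ∃ (c : ℝ) (h0 : ℕ), 0 < c ∧ ∀ h, h0 ≤ h →
      c * (Nat.card {f : F[X][X] // Fam (2 * g + 1) h f} : ℝ) ≤
        (Nat.card {f : F[X][X] // GoodE g h E f} : ℝ) := by
  classical
  obtain ⟨d, k, P, Z, Z1, c, h0, hc, hk, hPc, hZc, hPZ, hPd, hZd, hZZ1, hsm, hmain⟩ :=
    good_share' F h2 hg E.natDegree (fun h f _ hf hl hs => Pool.Agent.H40.GC.lato hg h f hf hl hs)
  have htw : ∀ I : Finset (HeightOneSpectrum F[X]), ∃ D : F[X], I ⊆ P → D.Monic ∧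
      D.natDegree = k * d ∧ Squarefree D ∧
      (∀ v ∈ I, D ∈ v.asIdeal) ∧ (∀ v ∈ P, v ∉ I → D ∉ v.asIdeal) ∧
      ∀ v, D ∈ v.asIdeal → v ∈ I ∨ v ∈ Z := by
    intro I
    by_cases hI : I ⊆ P
    · obtain ⟨D, hD⟩ := exists_twist' hPc hZc hPZ hPd hZd hI
      exact ⟨D, fun _ => hD⟩
    · exact ⟨1, fun h => absurd h hI⟩
  choose D hD using htw
  obtain ⟨v₀, hv₀⟩ : P.Nonempty := by
    rw [← Finset.card_pos]
    omega
  have hd1 : 1 ≤ k * d := by
    obtain ⟨p, hp, hpi, hpd, -⟩ := hPd v₀ hv₀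
    have h1 : 0 < p.natDegree := hpi.natDegree_pos
    rw [hpd] at h1
    exact Nat.mul_pos (by omega) h1
  have hEv : ∀ v ∈ P ∪ Z, E ∉ v.asIdeal := by
    intro v hv h4
    have h5 := hsm v (deg_of_mem hE h4)
    rcases Finset.mem_union.1 hv with h6 | h6
    · exact h5.2 h6
    · obtain ⟨d', hd', h7⟩ := deg_of_mem hE h4
      have h8 := hasDeg_unique (hZd v h6) h7
      exact (hsm v₀ ⟨d, by omega, hPd v₀ hv₀⟩).2 hv₀
  have hcov : ∀ h, ∀ f : F[X][X], (FamS (2 * g + 1) h P Z1 f ∧ Smooth f ∧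
      ∀ δ : AdjoinRoot (overK f), IsS0 f δ → (∀ v ∈ P, SqAt f v δ) → ∃ z, δ = z ^ 2) →
      ∃ I ∈ P.powerset, Fam (2 * g + 1) h f ∧ GoodE g (h + k * d) E (f.scaleRoots (D I)) := by
    rintro h f ⟨⟨hfam, hl, hP, hZ⟩, hs, hδ⟩
    have hf := hfam.monic
    have hirr : Irreducible f := H13.SM.irr (2 * g + 1) h (by omega) f hfam hl
    have hded : IsDedekindDomain (AdjoinRoot f) :=
      H13.SM.ded (2 * g + 1) h (by omega) f hfam hl hs
    have hirrK : Irreducible (overK f) := Pool.Agent.H94.TC.irreducible_map (RatFunc F) f hf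
    have hodd : Odd f.natDegree := by
      rw [hfam.deg]
      exact ⟨g, rfl⟩
    obtain ⟨I, hIP, hI⟩ := g1_choice h2 f hfam rfl hl hirrK P hP hδ
    obtain ⟨hDm, hDd, hDs, hD1, hD2, hD3⟩ := hD I hIP
    have hD0 : D I ≠ 0 := hDm.ne_zero
    have hEP : ∀ v ∈ P, E ∉ v.asIdeal := fun v hv => hEv v (Finset.mem_union_left _ hv)
    refine ⟨I, Finset.mem_powerset.2 hIP, hfam, ?_, ?_, ?_, ?_⟩
    · have h5 := fam_scale hfam (D I)
      rwa [hDd] at h5
    · exact sep_scale hf hD0 (sep_over hf v₀ (sep_of (Or.inl (hP v₀ hv₀))))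
    · refine selTriv_scale' hf hodd hirr hD0 (hI (E * D I) (fun v hv => ⟨?_, ?_⟩)
        (fun v hv hvI => ?_) fun v hv => ?_)
      · exact Ideal.mul_mem_left _ _ (hD1 v hv)
      · exact notMem_sq (hEP v (hIP hv)) (notMem_of_squarefree hDs v)
      · intro h4
        rcases v.isPrime.mem_or_mem h4 with h5 | h5
        · exact hEP v hv h5
        · exact hD2 v hv hvI h5
      · rcases v.isPrime.mem_or_mem hv with h5 | h5
        · exact Or.inr (hZ v (hsm v (deg_of_mem hE h5)).1)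
        · rcases hD3 v h5 with h4 | h4
          · exact Or.inl h4
          · exact Or.inr (hZ v (hZZ1 h4))
    · refine ⟨h, D I, f, by omega, hDs, isCoprime_of hE fun v hv => ?_, by omega, hfam, hs,
        transversal_of (mul_ne_zero hD0 hE) fun v hv => sep_of ?_, hl, rfl⟩
      · refine hEv v (Finset.mem_union.2 ?_)
        rcases hD3 v hv with h4 | h4
        · exact Or.inl (hIP h4)
        · exact Or.inr h4
      · rcases v.isPrime.mem_or_mem hv with h5 | h5
        · rcases hD3 v h5 with h4 | h4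
          · exact Or.inl (hP v (hIP h4))
          · exact Or.inr (hZ v (hZZ1 h4))
        · exact Or.inr (hZ v (hsm v (deg_of_mem hE h5)).1)
  have hq : (0 : ℝ) < (Nat.card F : ℝ) := by exact_mod_cast Nat.card_pos
  obtain ⟨e, he⟩ : ∃ e, e = k * d := ⟨_, rfl⟩
  obtain ⟨s, hs⟩ : ∃ s, s = ∑ i : Fin (2 * g + 1), (2 * g + 1 - (i : ℕ)) := ⟨_, rfl⟩
  refine ⟨c / 2 ^ k / (Nat.card F : ℝ) ^ (e * s), h0 + e, by positivity, fun h' hh' => ?_⟩
  obtain ⟨h, rfl⟩ : ∃ h, h' = h + e := ⟨h' - e, by omega⟩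
  have g1 := hmain h (by omega)
  have g2 : Nat.card {f : F[X][X] // FamS (2 * g + 1) h P Z1 f ∧ Smooth f ∧
      ∀ δ : AdjoinRoot (overK f), IsS0 f δ → (∀ v ∈ P, SqAt f v δ) → ∃ z, δ = z ^ 2} ≤
      P.powerset.card * Nat.card {f : F[X][X] // GoodE g (h + e) E f} := by
    refine card_union (q := fun I f => Fam (2 * g + 1) h f ∧
      GoodE g (h + e) E (f.scaleRoots (D I))) P.powerset _
      (fun I _ => (fam_fin F (2 * g + 1) h).subset fun f hf => hf.1)
      (fun f hf => by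
        have h6 := hcov h f hf
        rwa [← he] at h6) fun I hI => ?_
    obtain ⟨hDm, hDd, -⟩ := hD I (Finset.mem_powerset.1 hI)
    have hfinB : Finite {f : F[X][X] // GoodE g (h + e) E f} :=
      ((fam_fin F (2 * g + 1) (h + e)).subset fun f hf => hf.fam :
        {f : F[X][X] | GoodE g (h + e) E f}.Finite)
    refine Nat.card_le_card_of_injective (fun f => ⟨f.1.scaleRoots (D I), f.2.2⟩) ?_
    intro f₁ f₂ h5
    have h6 := congrArg Subtype.val h5
    exact Subtype.ext (scale_inj hDm.ne_zero (f₁.2.1.deg.trans f₂.2.1.deg.symm) h6)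
  rw [Finset.card_powerset, hPc] at g2
  have g3 : (Nat.card {f : F[X][X] // FamS (2 * g + 1) h P Z1 f ∧ Smooth f ∧
      ∀ δ : AdjoinRoot (overK f), IsS0 f δ → (∀ v ∈ P, SqAt f v δ) → ∃ z, δ = z ^ 2} : ℝ) ≤
      2 ^ k * (Nat.card {f : F[X][X] // GoodE g (h + e) E f} : ℝ) := by
    exact_mod_cast g2
  have g4 : (Nat.card {f : F[X][X] // Fam (2 * g + 1) (h + e) f} : ℝ) =
      (Nat.card {f : F[X][X] // Fam (2 * g + 1) h f} : ℝ) * (Nat.card F : ℝ) ^ (e * s) := by
    rw [Pool.Agent.H40.GC.fmc_all, Pool.Agent.H40.GC.fmc_all, mh_add, ← hs, pow_add]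
    push_cast
    ring
  rw [g4]
  have hqs : (0 : ℝ) < (Nat.card F : ℝ) ^ (e * s) := by positivity
  have h2p : (0 : ℝ) < 2 ^ k := by positivity
  have g5 : c / 2 ^ k / (Nat.card F : ℝ) ^ (e * s) *
      ((Nat.card {f : F[X][X] // Fam (2 * g + 1) h f} : ℝ) * (Nat.card F : ℝ) ^ (e * s)) =
      c * (Nat.card {f : F[X][X] // Fam (2 * g + 1) h f} : ℝ) / 2 ^ k := by
    field_simp
  rw [g5, div_le_iff₀ h2p]
  refine (g1.trans g3).trans (le_of_eq ?_)
  ring

end Pool.Agent.H94.GG
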