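import Pool.Agent.H94.GG.XC

set_option autoImplicit false

/-!
# [H94 GG XD] THEOREM G1 for all twists at the same time

`g1_all`: for every `B` a positive proportion of the `f` has trivial Selmer groups of `E y ^ 2 = f(x)` for ALL `E ≠ 0` without
prime factors of degree greater than `B` (so for all `E` of degree at most `B`).
-/

namespace Pool.Agent.H94.GG

open Polynomial IsDedekindDomain
open Pool.Agent.H74.GR
open Pool.Agent.H40.GC (kv FamS LatO Mh)
open Pool.Agent.H80.CC.Plane (overK overKv constKv toL toLv)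

/-- all prime factors of `E` have degree at most `B` -/
def BSmooth {F : Type} [Field F] (B : ℕ) (E : F[X]) : Prop :=
  E ≠ 0 ∧ ∀ p : F[X], Irreducible p → p ∣ E → p.natDegree ≤ B

/-- the good polynomials -/
structure GoodB {F : Type} [Field F] (g h B : ℕ) (f : F[X][X]) : Prop where
  fam : Fam (2 * g + 1) h f
  sep : (overK f).Separable
  irr : Irreducible f
  triv : ∀ E : F[X], BSmooth B E → ∀ δ, IsSel E f δ → ∃ z : AdjoinRoot (overK f), δ = z ^ 2
  twist : ∃ (e : ℕ) (D : F[X]) (f₀ : F[X][X]), 1 ≤ D.natDegree ∧ Squarefree D ∧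
    (∀ p : F[X], Irreducible p → p ∣ D → B < p.natDegree) ∧
    e + D.natDegree = h ∧ Fam (2 * g + 1) e f₀ ∧ Smooth f₀ ∧
    (∀ p : F[X], Irreducible p → (p ∣ D ∨ p.natDegree ≤ B) →
      Ideal.span {C p, f₀, derivative f₀} = (⊤ : Ideal F[X][X])) ∧
    Irreducible (lead (2 * g + 1) e f₀) ∧ f = f₀.scaleRoots D

theorem deg_of_smooth {F : Type} [Field F] {B : ℕ} {E : F[X]} (hE : BSmooth B E)
    {v : HeightOneSpectrum F[X]} (h : E ∈ v.asIdeal) : ∃ d ≤ B, HasDeg v d := by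
  obtain ⟨p, hp, hv⟩ := gen_prime v
  have hpE : p ∣ E := by
    rw [← Ideal.mem_span_singleton, ← hv]
    exact h
  obtain ⟨d, hd, hvd⟩ := deg_of_mem (E := p) hp.ne_zero (v := v)
    (by rw [hv]; exact Ideal.mem_span_singleton_self p)
  exact ⟨d, hd.trans (hE.2 p hp.irreducible hpE), hvd⟩

theorem natDegree_of_hasDeg {F : Type} [Field F] {p : F[X]} (hp : Irreducible p)
    {v : HeightOneSpectrum F[X]} (h : p ∈ v.asIdeal) {d : ℕ} (hd : HasDeg v d) :
    p.natDegree = d := by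
  obtain ⟨r, hr, hri, hrd, hv⟩ := hd
  rw [hv, Ideal.mem_span_singleton] at h
  rw [← hrd]
  exact natDegree_eq_of_degree_eq (degree_eq_degree_of_associated (hri.associated_of_dvd hp h).symm)

theorem exists_place {F : Type} [Field F] {p : F[X]} (hp : Irreducible p) :
    ∃ v : HeightOneSpectrum F[X], v.asIdeal = Ideal.span {p} :=
  ⟨⟨Ideal.span {p}, (Ideal.span_singleton_prime hp.ne_zero).2 hp.prime, by
    rw [Ne, Ideal.span_singleton_eq_bot]
    exact hp.ne_zero⟩, rfl⟩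

private theorem card_union {α ι : Type} {p : α → Prop} {q : ι → α → Prop} (T : Finset ι) (N : ℕ)
    (hfin : ∀ i ∈ T, {x | q i x}.Finite) (h : ∀ x, p x → ∃ i ∈ T, q i x)
    (hN : ∀ i ∈ T, Nat.card {x // q i x} ≤ N) : Nat.card {x // p x} ≤ T.card * N := by
  have e : ∀ q : α → Prop, Nat.card {x // q x} = {x | q x}.ncard := fun q =>
    Nat.card_coe_set_eq {x | q x}
  rw [e]
  have h1 : {x | p x} ⊆ ⋃ i ∈ T, {x | q i x} := by
    intro x hx
    obtain ⟨i, hi, hq⟩ := h x hx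
    simp only [Set.mem_iUnion]
    exact ⟨i, hi, hq⟩
  have hf : (⋃ i ∈ T, {x | q i x}).Finite := Set.Finite.biUnion T.finite_toSet hfin
  refine (Set.ncard_le_ncard h1 hf).trans ((Finset.set_ncard_biUnion_le _ _).trans ?_)
  refine (Finset.sum_le_card_nsmul _ _ N fun i hi => ?_).trans (le_of_eq ?_)
  · rw [← e]
    exact hN i hi
  · rw [smul_eq_mul]

private theorem fam_fin (F : Type) [Field F] [Finite F] (m h : ℕ) : {f : F[X][X] | Fam m h f}.Finite := by
  have h1 : Finite {f : F[X][X] // Fam m h f} := by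
    apply Nat.finite_of_card_ne_zero
    rw [Pool.Agent.H40.GC.fmc_all]
    exact pow_ne_zero _ Nat.card_pos.ne'
  exact h1

private theorem mh_add (m h e : ℕ) : Mh m (h + e) = Mh m h + e * ∑ i : Fin m, (m - (i : ℕ)) := by
  unfold Pool.Agent.H40.GC.Mh
  rw [Finset.mul_sum, ← Finset.sum_add_distrib]
  refine Finset.sum_congr rfl fun i _ => ?_
  ring

/-- **THEOREM G1** for all twists at the same time. -/
theorem g1_all (F : Type) [Field F] [Finite F] (h2 : (2 : F) ≠ 0) {g : ℕ} (hg : 1 ≤ g) (B : ℕ) :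
    ∃ (c : ℝ) (h0 : ℕ), 0 < c ∧ ∀ h, h0 ≤ h →
      c * (Nat.card {f : F[X][X] // Fam (2 * g + 1) h f} : ℝ) ≤
        (Nat.card {f : F[X][X] // GoodB g h B f} : ℝ) := by
  classical
  obtain ⟨d, k, P, Z, Z1, c, h0, hc, hk, hPc, hZc, hPZ, hPd, hZd, hZZ1, hsm, hmain⟩ :=
    good_share' F h2 hg B (fun h f _ hf hl hs => Pool.Agent.H40.GC.lato hg h f hf hl hs)
  have htw : ∀ I : Finset (HeightOneSpectrum F[X]), ∃ D : F[X], I ⊆ P → D.Monic ∧
      D.natDegree = k * d ∧ Squarefree D ∧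
      (∀ v ∈ I, D ∈ v.asIdeal) ∧ (∀ v ∈ P, v ∉ I → D ∉ v.asIdeal) ∧
      ∀ v, D ∈ v.asIdeal → v ∈ I ∨ v ∈ Z := by
    intro I
    by_cases hI : I ⊆ P
    · obtain ⟨D, hD⟩ := exists_twist' hPc hZc hPZ hPd hZd hI
      exact ⟨D, fun _ => hD⟩
    · exact ⟨1, fun h => absurd h hI⟩
  choose D hD using htw
  obtain ⟨v₀, hv₀⟩ : P.Nonempty := by
    rw [← Finset.card_pos]
    omega
  have hd1 : 1 ≤ k * d := by
    obtain ⟨p, hp, hpi, hpd, -⟩ := hPd v₀ hv₀
    have h1 : 0 < p.natDegree := hpi.natDegree_pos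
    rw [hpd] at h1
    exact Nat.mul_pos (by omega) h1
  have hBd : B < d := by
    by_contra h4
    exact (hsm v₀ ⟨d, by omega, hPd v₀ hv₀⟩).2 hv₀
  have hPZd : ∀ v ∈ P ∪ Z, HasDeg v d := by
    intro v hv
    rcases Finset.mem_union.1 hv with h6 | h6
    · exact hPd v h6
    · exact hZd v h6
  have hEv : ∀ E : F[X], BSmooth B E → ∀ v ∈ P ∪ Z, E ∉ v.asIdeal := by
    intro E hE v hv h4
    obtain ⟨d', hd', h7⟩ := deg_of_smooth hE h4
    have h8 := hasDeg_unique (hPZd v hv) h7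
    omega
  have hcov : ∀ h, ∀ f : F[X][X], (FamS (2 * g + 1) h P Z1 f ∧ Smooth f ∧
      ∀ δ : AdjoinRoot (overK f), IsS0 f δ → (∀ v ∈ P, SqAt f v δ) → ∃ z, δ = z ^ 2) →
      ∃ I ∈ P.powerset, Fam (2 * g + 1) h f ∧ GoodB g (h + k * d) B (f.scaleRoots (D I)) := by
    rintro h f ⟨⟨hfam, hl, hP, hZ⟩, hs, hδ⟩
    have hf := hfam.monic
    have hirr : Irreducible f := H13.SM.irr (2 * g + 1) h (by omega) f hfam hl
    have hded : IsDedekindDomain (AdjoinRoot f) :=
      H13.SM.ded (2 * g + 1) h (by omega) f hfam hl hs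
    have hirrK : Irreducible (overK f) := Pool.Agent.H94.TC.irreducible_map (RatFunc F) f hf
    have hodd : Odd f.natDegree := by
      rw [hfam.deg]
      exact ⟨g, rfl⟩
    obtain ⟨I, hIP, hI⟩ := g1_choice h2 f hfam rfl hl hirrK P hP hδ
    obtain ⟨hDm, hDd, hDs, hD1, hD2, hD3⟩ := hD I hIP
    have hD0 : D I ≠ 0 := hDm.ne_zero
    have hDv : ∀ v, D I ∈ v.asIdeal → HasDeg v d := by
      intro v hv
      refine hPZd v (Finset.mem_union.2 ?_)
      rcases hD3 v hv with h4 | h4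
      · exact Or.inl (hIP h4)
      · exact Or.inr h4
    have hsel : ∀ E : F[X], BSmooth B E → SelTriv E (f.scaleRoots (D I)) := by
      intro E hE
      have hEP : ∀ v ∈ P, E ∉ v.asIdeal := fun v hv => hEv E hE v (Finset.mem_union_left _ hv)
      refine selTriv_scale' hf hodd hirr hD0 (hI (E * D I) (fun v hv => ⟨?_, ?_⟩)
        (fun v hv hvI => ?_) fun v hv => ?_)
      · exact Ideal.mul_mem_left _ _ (hD1 v hv)
      · exact notMem_sq (hEP v (hIP hv)) (notMem_of_squarefree hDs v)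
      · intro h4
        rcases v.isPrime.mem_or_mem h4 with h5 | h5
        · exact hEP v hv h5
        · exact hD2 v hv hvI h5
      · rcases v.isPrime.mem_or_mem hv with h5 | h5
        · exact Or.inr (hZ v (hsm v (deg_of_smooth hE h5)).1)
        · rcases hD3 v h5 with h4 | h4
          · exact Or.inl h4
          · exact Or.inr (hZ v (hZZ1 h4))
    have h1s : BSmooth B (1 : F[X]) := by
      refine ⟨one_ne_zero, fun p hp hp1 => ?_⟩
      exact absurd (isUnit_of_dvd_one hp1) hp.not_isUnit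
    refine ⟨I, Finset.mem_powerset.2 hIP, hfam, ?_, ?_, (hsel 1 h1s).irr,
      fun E hE => (hsel E hE).triv, ?_⟩
    · have h5 := fam_scale hfam (D I)
      rwa [hDd] at h5
    · exact sep_scale hf hD0 (sep_over hf v₀ (sep_of (Or.inl (hP v₀ hv₀))))
    · refine ⟨h, D I, f, by omega, hDs, fun p hp hpD => ?_, by omega, hfam, hs,
        fun p hp hpD => transversal_of hp.ne_zero fun v hv => sep_of ?_, hl, rfl⟩
      · obtain ⟨v, hv⟩ := exists_place hp
        have h4 : D I ∈ v.asIdeal := by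
          rw [hv, Ideal.mem_span_singleton]
          exact hpD
        have h5 := natDegree_of_hasDeg hp (v := v) (by rw [hv]; exact Ideal.mem_span_singleton_self p)
          (hDv v h4)
        omega
      · rcases hpD with hpD | hpB
        · have h4 : D I ∈ v.asIdeal := v.asIdeal.mem_of_dvd hpD hv
          rcases hD3 v h4 with h5 | h5
          · exact Or.inl (hP v (hIP h5))
          · exact Or.inr (hZ v (hZZ1 h5))
        · obtain ⟨d', hd', h5⟩ := deg_of_mem hp.ne_zero hv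
          exact Or.inr (hZ v (hsm v ⟨d', hd'.trans hpB, h5⟩).1)
  have hq : (0 : ℝ) < (Nat.card F : ℝ) := by exact_mod_cast Nat.card_pos
  obtain ⟨e, he⟩ : ∃ e, e = k * d := ⟨_, rfl⟩
  obtain ⟨s, hs⟩ : ∃ s, s = ∑ i : Fin (2 * g + 1), (2 * g + 1 - (i : ℕ)) := ⟨_, rfl⟩
  refine ⟨c / 2 ^ k / (Nat.card F : ℝ) ^ (e * s), h0 + e, by positivity, fun h' hh' => ?_⟩
  obtain ⟨h, rfl⟩ : ∃ h, h' = h + e := ⟨h' - e, by omega⟩
  have g1 := hmain h (by omega)
  have g2 : Nat.card {f : F[X][X] // FamS (2 * g + 1) h P Z1 f ∧ Smooth f ∧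
      ∀ δ : AdjoinRoot (overK f), IsS0 f δ → (∀ v ∈ P, SqAt f v δ) → ∃ z, δ = z ^ 2} ≤
      P.powerset.card * Nat.card {f : F[X][X] // GoodB g (h + e) B f} := by
    refine card_union (q := fun I f => Fam (2 * g + 1) h f ∧
      GoodB g (h + e) B (f.scaleRoots (D I))) P.powerset _
      (fun I _ => (fam_fin F (2 * g + 1) h).subset fun f hf => hf.1)
      (fun f hf => by
        have h6 := hcov h f hf
        rwa [← he] at h6) fun I hI => ?_
    obtain ⟨hDm, hDd, -⟩ := hD I (Finset.mem_powerset.1 hI)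
    have hfinB : Finite {f : F[X][X] // GoodB g (h + e) B f} :=
      ((fam_fin F (2 * g + 1) (h + e)).subset fun f hf => hf.fam :
        {f : F[X][X] | GoodB g (h + e) B f}.Finite)
    refine Nat.card_le_card_of_injective (fun f => ⟨f.1.scaleRoots (D I), f.2.2⟩) ?_
    intro f₁ f₂ h5
    have h6 := congrArg Subtype.val h5
    exact Subtype.ext (scale_inj hDm.ne_zero (f₁.2.1.deg.trans f₂.2.1.deg.symm) h6)
  rw [Finset.card_powerset, hPc] at g2
  have g3 : (Nat.card {f : F[X][X] // FamS (2 * g + 1) h P Z1 f ∧ Smooth f ∧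
      ∀ δ : AdjoinRoot (overK f), IsS0 f δ → (∀ v ∈ P, SqAt f v δ) → ∃ z, δ = z ^ 2} : ℝ) ≤
      2 ^ k * (Nat.card {f : F[X][X] // GoodB g (h + e) B f} : ℝ) := by
    exact_mod_cast g2
  have g4 : (Nat.card {f : F[X][X] // Fam (2 * g + 1) (h + e) f} : ℝ) =
      (Nat.card {f : F[X][X] // Fam (2 * g + 1) h f} : ℝ) * (Nat.card F : ℝ) ^ (e * s) := by
    rw [Pool.Agent.H40.GC.fmc_all, Pool.Agent.H40.GC.fmc_all, mh_add, ← hs, pow_add]
    push_cast
    ring
  rw [g4]
  have hqs : (0 : ℝ) < (Nat.card F : ℝ) ^ (e * s) := by positivity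
  have h2p : (0 : ℝ) < 2 ^ k := by positivity
  have g5 : c / 2 ^ k / (Nat.card F : ℝ) ^ (e * s) *
      ((Nat.card {f : F[X][X] // Fam (2 * g + 1) h f} : ℝ) * (Nat.card F : ℝ) ^ (e * s)) =
      c * (Nat.card {f : F[X][X] // Fam (2 * g + 1) h f} : ℝ) / 2 ^ k := by
    field_simp
  rw [g5, div_le_iff₀ h2p]
  refine (g1.trans g3).trans (le_of_eq ?_)
  ring

end Pool.Agent.H94.GG
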